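import Mathlib
import Pool.Agent.Helper557.TF.Core

set_option autoImplicit false
open MeasureTheory Set Filter Topology Metric
open scoped RealInnerProductSpace BigOperators ENNReal
open Pool.Agent.Helper557 Pool.Agent.Helper557.TFP

namespace Pool.Agent.H9R2.TF

/-! ### the nonlinearity -/

noncomputable def be (u : ℝ) : ℝ := (max u 0) ^ (3/2 : ℝ)
noncomputable def Bf (u : ℝ) : ℝ := (2/5) * (max u 0) ^ (5/2 : ℝ)

lemma be_eq (u : ℝ) : be u = u ^ (3/2 : ℝ) := by
  unfold be
  rcases le_or_gt 0 u with h | h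
  · rw [max_eq_left h]
  · rw [max_eq_right h.le, Real.rpow_def_of_neg h, Real.zero_rpow (by norm_num)]
    have : Real.cos (3/2 * Real.pi) = 0 := by
      rw [Real.cos_eq_zero_iff]
      exact ⟨1, by push_cast; ring⟩
    rw [this, mul_zero]

lemma Bf_eq (u : ℝ) : Bf u = (2/5) * u ^ (5/2 : ℝ) := by
  unfold Bf
  rcases le_or_gt 0 u with h | h
  · rw [max_eq_left h]
  · rw [max_eq_right h.le, Real.rpow_def_of_neg h, Real.zero_rpow (by norm_num)]
    have : Real.cos (5/2 * Real.pi) = 0 := by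
      rw [Real.cos_eq_zero_iff]
      exact ⟨2, by push_cast; ring⟩
    rw [this]; ring

lemma be_nonneg (u : ℝ) : 0 ≤ be u := Real.rpow_nonneg (le_max_right _ _) _

lemma Bf_nonneg (u : ℝ) : 0 ≤ Bf u :=
  mul_nonneg (by norm_num) (Real.rpow_nonneg (le_max_right _ _) _)

lemma be_mono : Monotone be := fun _ _ h =>
  Real.rpow_le_rpow (le_max_right _ _) (max_le_max h le_rfl) (by norm_num)

lemma be_zero_of {u : ℝ} (h : u ≤ 0) : be u = 0 := by
  unfold be; rw [max_eq_right h, Real.zero_rpow (by norm_num)]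

lemma Bf_zero_of {u : ℝ} (h : u ≤ 0) : Bf u = 0 := by
  unfold Bf; rw [max_eq_right h, Real.zero_rpow (by norm_num), mul_zero]

lemma be_cont : Continuous be := by
  unfold be
  exact (continuous_id.max continuous_const).rpow_const (fun _ => Or.inr (by norm_num))

lemma Bf_cont : Continuous Bf := by
  unfold Bf
  exact continuous_const.mul ((continuous_id.max continuous_const).rpow_const (fun _ => Or.inr (by norm_num)))

lemma be_meas : Measurable be := be_cont.measurable
lemma Bf_meas : Measurable Bf := Bf_cont.measurable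

lemma Bf_deriv (u : ℝ) : HasDerivAt Bf (be u) u := by
  have h := (Real.hasDerivAt_rpow_const (x := u) (p := (5/2 : ℝ)) (Or.inr (by norm_num))).const_mul (2/5 : ℝ)
  have h1 : (fun x : ℝ => (2/5 : ℝ) * x ^ (5/2 : ℝ)) = Bf := by
    funext x; rw [Bf_eq]
  rw [h1] at h
  have h2 : (2/5 : ℝ) * (5/2 * u ^ (5/2 - 1 : ℝ)) = be u := by
    rw [be_eq]
    have : (5/2 - 1 : ℝ) = 3/2 := by norm_num
    rw [this]; ring
  rw [h2] at h
  exact h

lemma be_pow (u : ℝ) : be u ^ (2/3 : ℝ) = max u 0 := by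
  unfold be
  rw [← Real.rpow_mul (le_max_right _ _)]
  norm_num

lemma be_pow53 (u : ℝ) : be u ^ (5/3 : ℝ) = 5/2 * Bf u := by
  unfold be Bf
  rw [← Real.rpow_mul (le_max_right _ _)]
  norm_num
  ring

/-- explicit square root form -/
lemma be_sqrt (u : ℝ) : be u = √(max u 0) ^ 3 := by
  unfold be
  rw [Real.sqrt_eq_rpow, ← Real.rpow_natCast, ← Real.rpow_mul (le_max_right _ _)]
  norm_num

lemma be_convex : ConvexOn ℝ univ be := by
  have h1 : ConvexOn ℝ (Ici (0:ℝ)) (fun x : ℝ => x ^ (3/2 : ℝ)) := convexOn_rpow (by norm_num)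
  refine ⟨convex_univ, ?_⟩
  intro x _ y _ a b ha hb hab
  simp only [smul_eq_mul]
  unfold be
  have h2 : max (a * x + b * y) 0 ≤ a * max x 0 + b * max y 0 := by
    refine max_le ?_ ?_
    · exact add_le_add (mul_le_mul_of_nonneg_left (le_max_left _ _) ha)
        (mul_le_mul_of_nonneg_left (le_max_left _ _) hb)
    · exact add_nonneg (mul_nonneg ha (le_max_right _ _)) (mul_nonneg hb (le_max_right _ _))
  have h3 := Real.rpow_le_rpow (le_max_right _ _) h2 (by norm_num : (0:ℝ) ≤ 3/2)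
  have h4 := h1.2 (mem_Ici.2 (le_max_right x 0)) (mem_Ici.2 (le_max_right y 0)) ha hb hab
  simp only [smul_eq_mul] at h4
  exact h3.trans h4

/-- increments of a convex function are monotone -/
lemma be_incr {a a' D : ℝ} (h : a ≤ a') (hD : 0 ≤ D) : be (a + D) - be a ≤ be (a' + D) - be a' := by
  rcases eq_or_lt_of_le (show 0 ≤ a' - a + D by linarith) with h0 | h0
  · have h1 : a = a' := by linarith
    rw [h1]
  · have h3 := be_convex
    set l := D / (a' - a + D) with hl
    have hl0 : 0 ≤ l := div_nonneg hD h0.le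
    have hl1 : l ≤ 1 := by rw [hl, div_le_one h0]; linarith
    have hlD : l * (a' - a + D) = D := by rw [hl]; field_simp
    have e1 : (1 - l) * a + l * (a' + D) = a + D := by linarith [hlD]
    have e2 : l * a + (1 - l) * (a' + D) = a' := by linarith [hlD]
    have k1 := h3.2 (mem_univ a) (mem_univ (a' + D)) (by linarith : (0:ℝ) ≤ 1 - l) hl0 (by ring)
    have k2 := h3.2 (mem_univ a) (mem_univ (a' + D)) hl0 (by linarith : (0:ℝ) ≤ 1 - l) (by ring)
    simp only [smul_eq_mul] at k1 k2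
    rw [e1] at k1
    rw [e2] at k2
    linarith

lemma be_lip {u v : ℝ} (h : v ≤ u) : be u - be v ≤ 3/2 * √(max u 0) * (u - v) := by
  have key : ∀ a b : ℝ, 0 ≤ b → b ≤ a → a ^ 3 - b ^ 3 ≤ 3/2 * a * (a ^ 2 - b ^ 2) := by
    intro a b hb hab
    nlinarith [mul_nonneg (sub_nonneg.2 hab) (sub_nonneg.2 hab), mul_nonneg hb (sub_nonneg.2 hab),
      mul_nonneg (mul_nonneg (sub_nonneg.2 hab) (sub_nonneg.2 hab)) hb,
      mul_nonneg (mul_nonneg (sub_nonneg.2 hab) (sub_nonneg.2 hab)) (hb.trans hab)]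
  rw [be_sqrt, be_sqrt]
  have h1 : √(max v 0) ≤ √(max u 0) := Real.sqrt_le_sqrt (max_le_max h le_rfl)
  have h2 := key _ _ (Real.sqrt_nonneg (max v 0)) h1
  rw [Real.sq_sqrt (le_max_right _ _), Real.sq_sqrt (le_max_right _ _)] at h2
  refine h2.trans ?_
  rcases le_or_gt u 0 with hu | hu
  · rw [max_eq_right hu]; simp
  · refine mul_le_mul_of_nonneg_left ?_ (by positivity)
    rw [max_eq_left hu.le]
    have := le_max_left v 0
    linarith

/-! ### nuclei -/

noncomputable def VV {k : ℕ} (z : Fin k → ℝ) (R : Fin k → E3) (x : E3) : ℝ := ∑ j, z j / ‖x - R j‖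

/-- the kernel `v₀ / |v|^3` -/
noncomputable def g3 (v : E3) : ℝ := v 0 / ‖v‖ ^ 3

lemma abs_coord (v : E3) (i : Fin 3) : |v i| ≤ ‖v‖ := by
  have := PiLp.norm_apply_le v i
  simpa using this

lemma g3_abs (v : E3) : |g3 v| ≤ 1 / ‖v‖ ^ 2 := by
  unfold g3
  rcases eq_or_ne ‖v‖ 0 with h | h
  · rw [h]; simp
  · have h0 : 0 < ‖v‖ := lt_of_le_of_ne (norm_nonneg _) (Ne.symm h)
    rw [abs_div, abs_of_nonneg (by positivity : 0 ≤ ‖v‖ ^ 3), div_le_div_iff₀ (by positivity) (by positivity)]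
    have := abs_coord v 0
    nlinarith [mul_le_mul_of_nonneg_right this (by positivity : 0 ≤ ‖v‖ ^ 2)]

lemma g3_meas : Measurable g3 := by
  unfold g3
  have h : Measurable (fun v : E3 => v 0) := by
    have : Continuous (fun v : E3 => v 0) := by fun_prop
    exact this.measurable
  exact h.div (measurable_norm.pow_const 3)

lemma g3_neg (v : E3) : g3 (-v) = - g3 v := by
  unfold g3
  rw [norm_neg, PiLp.neg_apply, neg_div]

/-! ### the reflection in the plane `x 0 = 0` -/

noncomputable def e0 : E3 := EuclideanSpace.single 0 1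

lemma e0_norm : ‖e0‖ = 1 := by simp [e0]

lemma inner_e0 (x : E3) : ⟪e0, x⟫ = x 0 := by
  unfold e0
  rw [EuclideanSpace.inner_single_left]; simp

noncomputable def sg (x : E3) : E3 := TFP.refl e0 0 x

lemma sg_apply (x : E3) (i : Fin 3) : sg x i = if i = 0 then - x 0 else x i := by
  unfold sg TFP.refl
  rw [inner_e0]
  by_cases h : i = 0
  · subst h; simp [e0]; ring
  · simp [e0, h]

lemma sg_zero (x : E3) : sg x 0 = - x 0 := by rw [sg_apply]; simp

lemma sg_sg (x : E3) : sg (sg x) = x := (refl_basic e0 e0_norm 0).1 x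

lemma sg_dist (x y : E3) : ‖sg x - sg y‖ = ‖x - y‖ := (refl_basic e0 e0_norm 0).2.1 x y

lemma sg_fix {x : E3} (h : x 0 = 0) : sg x = x := (refl_basic e0 e0_norm 0).2.2.2.1 x (by rw [inner_e0]; exact h)

lemma sg_meas : Measurable sg := (refl_basic e0 e0_norm 0).2.2.2.2.1

lemma sg_mp : MeasurePreserving sg volume volume := (refl_basic e0 e0_norm 0).2.2.2.2.2

lemma sg_dist' (x y : E3) : ‖sg x - y‖ = ‖x - sg y‖ := by
  rw [← sg_dist (sg x) y, sg_sg]

lemma sg_cont : Continuous sg := by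
  unfold sg TFP.refl
  fun_prop

noncomputable def sgE : E3 ≃ᵐ E3 :=
  { toFun := sg, invFun := sg, left_inv := sg_sg, right_inv := sg_sg,
    measurable_toFun := sg_meas, measurable_invFun := sg_meas }

lemma sg_int {F : Type*} [NormedAddCommGroup F] [NormedSpace ℝ F] (g : E3 → F) :
    ∫ x, g (sg x) = ∫ x, g x :=
  sg_mp.integral_comp sgE.measurableEmbedding g

lemma sg_intble {g : E3 → ℝ} (hg : Integrable g) : Integrable (fun x => g (sg x)) :=
  (sg_mp.integrable_comp_emb sgE.measurableEmbedding).2 hg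

lemma g3_sg (x y : E3) : g3 (sg x - sg y) = - g3 (x - y) := by
  unfold g3
  rw [sg_dist, PiLp.sub_apply, PiLp.sub_apply, sg_zero, sg_zero]
  ring

/-! ### potentials -/

noncomputable def dpot (g : E3 → ℝ) (x : E3) : ℝ := - ∫ y, g y * g3 (x - y)

lemma pot_sg (g : E3 → ℝ) (x : E3) : pot (fun y => g (sg y)) x = pot g (sg x) := by
  unfold pot
  rw [← sg_int (fun y => g y / ‖sg x - y‖)]
  congr 1
  funext y
  rw [sg_dist]

lemma dpot_sg (g : E3 → ℝ) (x : E3) : dpot (fun y => g (sg y)) x = - dpot g (sg x) := by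
  unfold dpot
  rw [← sg_int (fun y => g y * g3 (sg x - y)), neg_neg, ← integral_neg]
  congr 1
  funext y
  rw [g3_sg]; ring

end Pool.Agent.H9R2.TF
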