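import Pool.Agent.H9R2.TF.Basic

set_option autoImplicit false
open MeasureTheory Set Filter Topology Metric
open scoped RealInnerProductSpace BigOperators ENNReal
open Pool.Agent.Helper557 Pool.Agent.Helper557.TFP

namespace Pool.Agent.H9R2.TF

noncomputable def ws (S : Finset E3) (x : E3) : ℝ := 1 + ∑ s ∈ S, (√‖x - s‖)⁻¹

lemma one_le_ws (S : Finset E3) (x : E3) : 1 ≤ ws S x := by
  unfold ws
  have : 0 ≤ ∑ s ∈ S, (√‖x - s‖)⁻¹ := Finset.sum_nonneg (fun s _ => by positivity)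
  linarith

lemma ws_nonneg (S : Finset E3) (x : E3) : 0 ≤ ws S x := zero_le_one.trans (one_le_ws S x)

lemma ws_mono {S T : Finset E3} (h : S ⊆ T) (x : E3) : ws S x ≤ ws T x := by
  unfold ws
  have := Finset.sum_le_sum_of_subset_of_nonneg (f := fun s => (√‖x - s‖)⁻¹) h (fun s _ _ => by positivity)
  linarith

lemma ws_meas (S : Finset E3) : Measurable (ws S) := by
  unfold ws
  refine measurable_const.add (Finset.measurable_sum _ (fun s _ => ?_))
  exact ((measurable_id.sub_const s).norm.sqrt).inv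

lemma ws_sg (S : Finset E3) (x : E3) : ws S (sg x) = ws (S.image sg) x := by
  classical
  unfold ws
  rw [Finset.sum_image (fun a _ b _ h => by have := congrArg sg h; rwa [sg_sg, sg_sg] at this)]
  congr 1
  refine Finset.sum_congr rfl (fun s _ => ?_)
  rw [sg_dist']

noncomputable def kap (u : E3) : ℝ := if ‖u‖ < 1 then (‖u‖ ^ 2)⁻¹ else 0
noncomputable def kap5 (u : E3) : ℝ := if ‖u‖ < 1 then ‖u‖ ^ (-(5/2) : ℝ) else 0

lemma kap_nonneg (u : E3) : 0 ≤ kap u := by unfold kap; split_ifs <;> positivity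
lemma kap5_nonneg (u : E3) : 0 ≤ kap5 u := by
  unfold kap5; split_ifs
  · exact Real.rpow_nonneg (norm_nonneg _) _
  · exact le_rfl
lemma kap_neg (u : E3) : kap (-u) = kap u := by unfold kap; rw [norm_neg]
lemma kap5_neg (u : E3) : kap5 (-u) = kap5 u := by unfold kap5; rw [norm_neg]

lemma kap_meas : Measurable kap := by
  unfold kap
  refine Measurable.ite ?_ (measurable_norm.pow_const 2).inv measurable_const
  exact measurableSet_lt measurable_norm measurable_const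

lemma kap5_meas : Measurable kap5 := by
  unfold kap5
  refine Measurable.ite ?_ (measurable_norm.pow_const _) measurable_const
  exact measurableSet_lt measurable_norm measurable_const

lemma kap5_int : Integrable kap5 := by
  have h := TF_nice_modulus_int
  rw [← integrable_indicator_iff measurableSet_ball] at h
  refine h.congr (Eventually.of_forall (fun u => ?_))
  simp only [Set.indicator, mem_ball, dist_zero_right, kap5]

noncomputable def I5 : ℝ := ∫ u, kap5 u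

lemma I5_nonneg : 0 ≤ I5 := integral_nonneg kap5_nonneg

lemma rpow52 {a : ℝ} (ha : 0 < a) : a ^ (-(5/2) : ℝ) = (a ^ 2)⁻¹ * (√a)⁻¹ := by
  rw [Real.sqrt_eq_rpow, ← Real.rpow_natCast, ← Real.rpow_neg ha.le, ← Real.rpow_neg ha.le, ← Real.rpow_add ha]
  norm_num

lemma kap_le_kap5 (u : E3) : kap u ≤ kap5 u := by
  unfold kap kap5
  split_ifs with h
  · rcases eq_or_lt_of_le (norm_nonneg u) with h0 | h0
    · rw [← h0]; simp
    · rw [rpow52 h0]
      have h1 : √‖u‖ ≤ 1 := by rw [Real.sqrt_le_one]; exact h.le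
      have h2 : 1 ≤ (√‖u‖)⁻¹ := (one_le_inv₀ (by positivity)).2 h1
      exact le_mul_of_one_le_right (by positivity) h2
  · exact le_rfl

lemma kap_mul (u v : E3) : kap u * (√‖v‖)⁻¹ ≤ kap5 u + kap5 v := by
  by_cases hu : ‖u‖ < 1
  swap
  · have : kap u = 0 := by unfold kap; rw [if_neg hu]
    rw [this, zero_mul]
    exact add_nonneg (kap5_nonneg _) (kap5_nonneg _)
  rcases eq_or_lt_of_le (norm_nonneg u) with h0 | h0
  · have : kap u = 0 := by unfold kap; rw [← h0]; simp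
    rw [this, zero_mul]
    exact add_nonneg (kap5_nonneg _) (kap5_nonneg _)
  have k1 : kap u = (‖u‖ ^ 2)⁻¹ := by unfold kap; rw [if_pos hu]
  have k2 : kap5 u = (‖u‖ ^ 2)⁻¹ * (√‖u‖)⁻¹ := by unfold kap5; rw [if_pos hu, rpow52 h0]
  rcases le_or_gt ‖u‖ ‖v‖ with h | h
  · have h1 : (√‖v‖)⁻¹ ≤ (√‖u‖)⁻¹ := inv_anti₀ (by positivity) (Real.sqrt_le_sqrt h)
    have h2 := mul_le_mul_of_nonneg_left h1 (by positivity : (0:ℝ) ≤ (‖u‖ ^ 2)⁻¹)
    rw [k1, k2]
    have := kap5_nonneg v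
    linarith
  · rcases eq_or_lt_of_le (norm_nonneg v) with h3 | h3
    · rw [← h3]; simp
      exact add_nonneg (kap5_nonneg _) (kap5_nonneg _)
    · have k3 : kap5 v = (‖v‖ ^ 2)⁻¹ * (√‖v‖)⁻¹ := by unfold kap5; rw [if_pos (h.trans hu), rpow52 h3]
      have h1 : (‖u‖ ^ 2)⁻¹ ≤ (‖v‖ ^ 2)⁻¹ := inv_anti₀ (by positivity) (by nlinarith)
      have h2 := mul_le_mul_of_nonneg_right h1 (by positivity : (0:ℝ) ≤ (√‖v‖)⁻¹)
      rw [k1, k3]
      have := kap5_nonneg u
      linarith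

lemma kap5_shift1 (x : E3) : Integrable (fun y => kap5 (x - y)) ∧ ∫ y, kap5 (x - y) = I5 := by
  constructor
  · have h := (kap5_int.comp_sub_left x)
    exact h
  · unfold I5
    exact integral_sub_left_eq_self kap5 volume x

lemma kap5_shift2 (s : E3) : Integrable (fun y => kap5 (y - s)) ∧ ∫ y, kap5 (y - s) = I5 := by
  constructor
  · exact kap5_int.comp_sub_right s
  · unfold I5
    exact integral_sub_right_eq_self kap5 s

noncomputable def wC (S : Finset E3) : ℝ := I5 + S.card * (2 * I5)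

lemma wC_nonneg (S : Finset E3) : 0 ≤ wC S := by
  unfold wC
  have := I5_nonneg
  positivity

lemma kap_ws_int (S : Finset E3) (x : E3) :
    Integrable (fun y => kap (x - y) * ws S y) ∧ ∫ y, kap (x - y) * ws S y ≤ wC S := by
  have hm : Measurable (fun y => kap (x - y) * ws S y) :=
    (kap_meas.comp (measurable_const.sub measurable_id)).mul (ws_meas S)
  have hdom : ∀ y, kap (x - y) * ws S y ≤ kap5 (x - y) + ∑ s ∈ S, (kap5 (x - y) + kap5 (y - s)) := by
    intro y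
    unfold ws
    rw [mul_add, mul_one, Finset.mul_sum]
    exact add_le_add (kap_le_kap5 _) (Finset.sum_le_sum (fun s _ => kap_mul _ _))
  have hI : Integrable (fun y => kap5 (x - y) + ∑ s ∈ S, (kap5 (x - y) + kap5 (y - s))) := by
    refine (kap5_shift1 x).1.add (integrable_finsetSum _ (fun s _ => ?_))
    exact (kap5_shift1 x).1.add (kap5_shift2 s).1
  have h0 : ∀ y, 0 ≤ kap (x - y) * ws S y := fun y => mul_nonneg (kap_nonneg _) (ws_nonneg _ _)
  have hint : Integrable (fun y => kap (x - y) * ws S y) :=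
    hI.mono' hm.aestronglyMeasurable (Eventually.of_forall (fun y => by
      rw [Real.norm_of_nonneg (h0 y)]; exact hdom y))
  refine ⟨hint, ?_⟩
  refine (integral_mono hint hI hdom).trans (le_of_eq ?_)
  have hi2 : ∀ s ∈ S, Integrable (fun y => kap5 (x - y) + kap5 (y - s)) := fun s _ =>
    (kap5_shift1 x).1.add (kap5_shift2 s).1
  have hi3 : Integrable (fun y => ∑ s ∈ S, (kap5 (x - y) + kap5 (y - s))) := integrable_finsetSum _ hi2
  have e1 : ∀ s ∈ S, ∫ y, (kap5 (x - y) + kap5 (y - s)) = I5 + I5 := by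
    intro s _
    rw [integral_add (kap5_shift1 x).1 (kap5_shift2 s).1, (kap5_shift1 x).2, (kap5_shift2 s).2]
  rw [integral_add (kap5_shift1 x).1 hi3, (kap5_shift1 x).2, integral_finsetSum _ hi2, Finset.sum_congr rfl e1]
  unfold wC
  rw [Finset.sum_const, nsmul_eq_mul]
  ring

lemma prodF (f : E3 → ℝ) (hf : Integrable f) (hfm : Measurable f) (S : Finset E3) :
    Integrable (fun p : E3 × E3 => f p.1 * (kap (p.1 - p.2) * ws S p.2)) := by
  have hm : Measurable (fun p : E3 × E3 => f p.1 * (kap (p.1 - p.2) * ws S p.2)) :=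
    (hfm.comp measurable_fst).mul ((kap_meas.comp (measurable_fst.sub measurable_snd)).mul
      ((ws_meas S).comp measurable_snd))
  refine (integrable_prod_iff hm.aestronglyMeasurable).2 ⟨?_, ?_⟩
  · refine Eventually.of_forall (fun x => ?_)
    show Integrable (fun y => f x * (kap (x - y) * ws S y))
    exact (kap_ws_int S x).1.const_mul _
  · have hb : Integrable (fun x => |f x| * wC S) := hf.abs.mul_const _
    refine hb.mono' (hm.norm.aestronglyMeasurable.integral_prod_right') (Eventually.of_forall (fun x => ?_))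
    have h1 : ∫ y, ‖f x * (kap (x - y) * ws S y)‖ = |f x| * ∫ y, kap (x - y) * ws S y := by
      rw [← integral_const_mul]
      congr 1
      funext y
      rw [norm_mul, Real.norm_eq_abs, Real.norm_of_nonneg (mul_nonneg (kap_nonneg _) (ws_nonneg _ _))]
    show ‖∫ y, ‖f x * (kap (x - y) * ws S y)‖‖ ≤ _
    rw [h1, Real.norm_of_nonneg (mul_nonneg (abs_nonneg _)
      (integral_nonneg (fun y => mul_nonneg (kap_nonneg _) (ws_nonneg _ _))))]
    exact mul_le_mul_of_nonneg_left (kap_ws_int S x).2 (abs_nonneg _)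

/-- the class of densities -/
def Cl (g : E3 → ℝ) : Prop :=
  Nice g ∧ ∃ (S : Finset E3) (C : ℝ), 0 ≤ C ∧ ∀ x, |g x| ≤ C * (ws S x) ^ 3

lemma Cl.meas {g : E3 → ℝ} (h : Cl g) : Measurable g := h.1.1
lemma Cl.int {g : E3 → ℝ} (h : Cl g) : Integrable g := h.1.2.1

lemma nice_sub' {a b : E3 → ℝ} (ha : Nice a) (hb : Nice b) : Nice (fun x => a x - b x) := by
  obtain ⟨am, ai, ap⟩ := ha
  obtain ⟨bm, bi, bp⟩ := hb
  refine ⟨am.sub bm, ai.sub bi, ?_⟩
  refine ((ap.const_mul 4).add (bp.const_mul 4)).mono' ((am.sub bm).abs.pow_const _).aestronglyMeasurable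
    (Eventually.of_forall (fun x => ?_))
  rw [Real.norm_of_nonneg (Real.rpow_nonneg (abs_nonneg _) _)]
  simp only [Pi.add_apply]
  have h1 : |a x - b x| ≤ 2 * max |a x| |b x| := by
    have := abs_sub (a x) (b x)
    have := le_max_left |a x| |b x|
    have := le_max_right |a x| |b x|
    linarith
  have h2 := Real.rpow_le_rpow (abs_nonneg _) h1 (by norm_num : (0:ℝ) ≤ 5/3)
  rw [Real.mul_rpow (by norm_num) (le_max_of_le_left (abs_nonneg _))] at h2
  have h3 : (2:ℝ) ^ (5/3 : ℝ) ≤ 4 := by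
    calc (2:ℝ) ^ (5/3 : ℝ) ≤ 2 ^ (2 : ℝ) := Real.rpow_le_rpow_of_exponent_le (by norm_num) (by norm_num)
      _ = 4 := by norm_num
  have h4 : (max |a x| |b x|) ^ (5/3 : ℝ) ≤ |a x| ^ (5/3 : ℝ) + |b x| ^ (5/3 : ℝ) := by
    rcases max_cases |a x| |b x| with ⟨h, _⟩ | ⟨h, _⟩ <;> rw [h]
    · have := Real.rpow_nonneg (abs_nonneg (b x)) (5/3); linarith
    · have := Real.rpow_nonneg (abs_nonneg (a x)) (5/3); linarith
  have h5 : 0 ≤ (max |a x| |b x|) ^ (5/3 : ℝ) := Real.rpow_nonneg (le_max_of_le_left (abs_nonneg _)) _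
  nlinarith [mul_le_mul_of_nonneg_right h3 h5]

lemma nice_of_le {a b : E3 → ℝ} (hb : Nice b) (ha : Measurable a) (h : ∀ x, |a x| ≤ |b x|) : Nice a := by
  obtain ⟨bm, bi, bp⟩ := hb
  refine ⟨ha, bi.mono ha.aestronglyMeasurable (Eventually.of_forall (fun x => by
    rw [Real.norm_eq_abs, Real.norm_eq_abs]; exact h x)), ?_⟩
  refine bp.mono' (ha.abs.pow_const _).aestronglyMeasurable (Eventually.of_forall (fun x => ?_))
  rw [Real.norm_of_nonneg (Real.rpow_nonneg (abs_nonneg _) _)]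
  exact Real.rpow_le_rpow (abs_nonneg _) (h x) (by norm_num)

lemma nice_sg {a : E3 → ℝ} (ha : Nice a) : Nice (fun x => a (sg x)) := by
  obtain ⟨am, ai, ap⟩ := ha
  exact ⟨am.comp sg_meas, sg_intble ai, sg_intble ap⟩

lemma Cl.sub {a b : E3 → ℝ} (ha : Cl a) (hb : Cl b) : Cl (fun x => a x - b x) := by
  classical
  obtain ⟨an, S, C, hC, hS⟩ := ha
  obtain ⟨bn, T, D, hD, hT⟩ := hb
  refine ⟨nice_sub' an bn, S ∪ T, C + D, by positivity, fun x => ?_⟩
  have h1 := pow_le_pow_left₀ (ws_nonneg S x) (ws_mono (Finset.subset_union_left (s₁ := S) (s₂ := T)) x) 3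
  have h2 := pow_le_pow_left₀ (ws_nonneg T x) (ws_mono (Finset.subset_union_right (s₁ := S) (s₂ := T)) x) 3
  have h3 := mul_le_mul_of_nonneg_left h1 hC
  have h4 := mul_le_mul_of_nonneg_left h2 hD
  have := abs_sub (a x) (b x)
  have := hS x
  have := hT x
  linarith

lemma Cl.of_le {a b : E3 → ℝ} (hb : Cl b) (ha : Measurable a) (h : ∀ x, |a x| ≤ |b x|) : Cl a := by
  obtain ⟨bn, T, D, hD, hT⟩ := hb
  exact ⟨nice_of_le bn ha h, T, D, hD, fun x => (h x).trans (hT x)⟩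

lemma Cl.ind {a : E3 → ℝ} (ha : Cl a) {A : Set E3} (hA : MeasurableSet A) : Cl (A.indicator a) := by
  refine ha.of_le (ha.meas.indicator hA) (fun x => ?_)
  by_cases h : x ∈ A
  · rw [indicator_of_mem h]
  · rw [indicator_of_notMem h]; simp

lemma Cl.sg {a : E3 → ℝ} (ha : Cl a) : Cl (fun x => a (sg x)) := by
  classical
  obtain ⟨an, S, C, hC, hS⟩ := ha
  refine ⟨nice_sg an, S.image TF.sg, C, hC, fun x => ?_⟩
  rw [← ws_sg]
  exact hS _

lemma Cl.zero : Cl (fun _ => (0:ℝ)) := by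
  refine ⟨⟨measurable_const, integrable_zero _ _ _, ?_⟩, ∅, 0, le_rfl, fun x => by simp⟩
  have : (fun x : E3 => |(0:ℝ)| ^ (5/3 : ℝ)) = fun _ => 0 := by
    funext x; rw [abs_zero, Real.zero_rpow (by norm_num)]
  rw [this]; exact integrable_zero _ _ _

lemma Cl.neg {a : E3 → ℝ} (ha : Cl a) : Cl (fun x => - a x) := by
  have := Cl.zero.sub ha
  simpa using this

lemma Cl.add {a b : E3 → ℝ} (ha : Cl a) (hb : Cl b) : Cl (fun x => a x + b x) := by
  have := ha.sub hb.neg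
  simpa using this

lemma young53 {a b : ℝ} (ha : 0 ≤ a) (hb : 0 ≤ b) :
    a * b ≤ a ^ (5/3 : ℝ) * b ^ (1/3 : ℝ) + b ^ (5/3 : ℝ) * a ^ (1/3 : ℝ) := by
  have key : ∀ a b : ℝ, 0 ≤ b → b ≤ a → a * b ≤ a ^ (5/3 : ℝ) * b ^ (1/3 : ℝ) := by
    intro a b hb hab
    rcases eq_or_lt_of_le hb with h | h
    · rw [← h]; simp
    · have ha : 0 < a := h.trans_le hab
      have e1 : b = b ^ (2/3 : ℝ) * b ^ (1/3 : ℝ) := by
        rw [← Real.rpow_add h]; norm_num
      have e2 : a ^ (5/3 : ℝ) = a * a ^ (2/3 : ℝ) := by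
        nth_rw 2 [← Real.rpow_one a]
        rw [← Real.rpow_add ha]; norm_num
      have e3 : b ^ (2/3 : ℝ) ≤ a ^ (2/3 : ℝ) := Real.rpow_le_rpow hb hab (by norm_num)
      calc a * b = a * (b ^ (2/3 : ℝ) * b ^ (1/3 : ℝ)) := by rw [← e1]
        _ ≤ a * (a ^ (2/3 : ℝ) * b ^ (1/3 : ℝ)) := by gcongr
        _ = _ := by rw [e2]; ring
  rcases le_total b a with h | h
  · have := key a b hb h
    have : 0 ≤ b ^ (5/3 : ℝ) * a ^ (1/3 : ℝ) := by positivity
    linarith
  · have := key b a ha h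
    have : 0 ≤ a ^ (5/3 : ℝ) * b ^ (1/3 : ℝ) := by positivity
    linarith

lemma cube_root {a C w : ℝ} (ha : 0 ≤ a) (hC : 0 ≤ C) (hw : 0 ≤ w) (h : a ≤ C * w ^ 3) :
    a ^ (1/3 : ℝ) ≤ C ^ (1/3 : ℝ) * w := by
  have h1 := Real.rpow_le_rpow ha h (by norm_num : (0:ℝ) ≤ 1/3)
  rw [Real.mul_rpow hC (by positivity)] at h1
  have h2 : (w ^ 3) ^ (1/3 : ℝ) = w := by
    rw [← Real.rpow_natCast, ← Real.rpow_mul hw]; norm_num
  rw [h2] at h1
  exact h1

lemma K_split {K : E3 → ℝ} (hK : ∀ v, |K v| ≤ 1 / ‖v‖ ^ 2) (v : E3) : |K v| ≤ 1 + kap v := by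
  refine (hK v).trans ?_
  unfold kap
  split_ifs with h
  · rw [one_div]; linarith
  · rw [add_zero, div_le_one (by nlinarith [norm_nonneg v, not_lt.1 h])]
    nlinarith [norm_nonneg v, not_lt.1 h]

lemma prodK {g h : E3 → ℝ} (hg : Cl g) (hh : Cl h) {K : E3 → ℝ} (hKm : Measurable K)
    (hK : ∀ v, |K v| ≤ 1 / ‖v‖ ^ 2) :
    Integrable (fun p : E3 × E3 => g p.1 * h p.2 * K (p.1 - p.2)) := by
  obtain ⟨⟨gm, gi, gp⟩, S, C, hC, hS⟩ := hg
  obtain ⟨⟨hm, hi, hp⟩, T, D, hD, hT⟩ := hh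
  have hM : Measurable (fun p : E3 × E3 => g p.1 * h p.2 * K (p.1 - p.2)) :=
    ((gm.comp measurable_fst).mul (hm.comp measurable_snd)).mul (hKm.comp (measurable_fst.sub measurable_snd))
  have i1 : Integrable (fun p : E3 × E3 => |g p.1| * |h p.2|) := gi.abs.mul_prod hi.abs
  have i2 : Integrable (fun p : E3 × E3 => |g p.1| ^ (5/3 : ℝ) * (kap (p.1 - p.2) * ws T p.2)) :=
    prodF _ gp (gm.abs.pow_const _) T
  have i3 : Integrable (fun p : E3 × E3 => |h p.2| ^ (5/3 : ℝ) * (kap (p.2 - p.1) * ws S p.1)) :=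
    (prodF _ hp (hm.abs.pow_const _) S).swap
  refine (i1.add ((i2.const_mul (D ^ (1/3 : ℝ))).add (i3.const_mul (C ^ (1/3 : ℝ))))).mono'
    hM.aestronglyMeasurable (Eventually.of_forall (fun p => ?_))
  simp only [Pi.add_apply]
  rw [norm_mul, norm_mul, Real.norm_eq_abs, Real.norm_eq_abs, Real.norm_eq_abs]
  have h1 := K_split hK (p.1 - p.2)
  have h2 := young53 (abs_nonneg (g p.1)) (abs_nonneg (h p.2))
  have h3 := cube_root (abs_nonneg _) hD (ws_nonneg _ _) (hT p.2)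
  have h4 := cube_root (abs_nonneg _) hC (ws_nonneg _ _) (hS p.1)
  have hk0 := kap_nonneg (p.1 - p.2)
  have hsym : kap (p.2 - p.1) = kap (p.1 - p.2) := by rw [← kap_neg, neg_sub]
  rw [hsym]
  have g0 := abs_nonneg (g p.1)
  have h0 := abs_nonneg (h p.2)
  have g5 : 0 ≤ |g p.1| ^ (5/3 : ℝ) := Real.rpow_nonneg g0 _
  have h5 : 0 ≤ |h p.2| ^ (5/3 : ℝ) := Real.rpow_nonneg h0 _
  calc |g p.1| * |h p.2| * |K (p.1 - p.2)| ≤ |g p.1| * |h p.2| * (1 + kap (p.1 - p.2)) := by gcongr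
    _ = |g p.1| * |h p.2| + |g p.1| * |h p.2| * kap (p.1 - p.2) := by ring
    _ ≤ |g p.1| * |h p.2| + (|g p.1| ^ (5/3 : ℝ) * |h p.2| ^ (1/3 : ℝ) + |h p.2| ^ (5/3 : ℝ) * |g p.1| ^ (1/3 : ℝ))
        * kap (p.1 - p.2) := by gcongr
    _ ≤ |g p.1| * |h p.2| + (|g p.1| ^ (5/3 : ℝ) * (D ^ (1/3 : ℝ) * ws T p.2)
        + |h p.2| ^ (5/3 : ℝ) * (C ^ (1/3 : ℝ) * ws S p.1)) * kap (p.1 - p.2) := by gcongr
    _ = _ := by ring

/-! ### the force form -/

noncomputable def Fo (g h : E3 → ℝ) : ℝ := - ∫ p : E3 × E3, g p.1 * h p.2 * g3 (p.1 - p.2)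

lemma Fo_int {g h : E3 → ℝ} (hg : Cl g) (hh : Cl h) :
    Integrable (fun p : E3 × E3 => g p.1 * h p.2 * g3 (p.1 - p.2)) := prodK hg hh g3_meas g3_abs

lemma Fo_eq {g h : E3 → ℝ} (hg : Cl g) (hh : Cl h) :
    Integrable (fun x => g x * dpot h x) ∧ Fo g h = ∫ x, g x * dpot h x := by
  have hi := Fo_int hg hh
  have e : (fun x => g x * dpot h x) = fun x => - ∫ y, g x * h y * g3 (x - y) := by
    funext x
    unfold dpot
    rw [mul_neg, ← integral_const_mul]
    congr 1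
    congr 1
    funext y
    ring
  rw [e]
  refine ⟨hi.integral_prod_left.neg, ?_⟩
  unfold Fo
  rw [integral_neg]
  congr 1
  exact integral_prod _ hi

lemma Fo_anti {g h : E3 → ℝ} : Fo g h = - Fo h g := by
  unfold Fo
  rw [neg_neg, Measure.volume_eq_prod, ← integral_prod_swap, ← integral_neg]
  congr 1
  funext p
  simp only [Prod.fst_swap, Prod.snd_swap]
  have : p.2 - p.1 = - (p.1 - p.2) := by abel
  rw [this, g3_neg]
  ring

lemma Fo_self (g : E3 → ℝ) : Fo g g = 0 := by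
  have := @Fo_anti g g
  linarith

lemma Fo_sub_left {g g' h : E3 → ℝ} (hg : Cl g) (hg' : Cl g') (hh : Cl h) :
    Fo (fun x => g x - g' x) h = Fo g h - Fo g' h := by
  unfold Fo
  have : (fun p : E3 × E3 => (g p.1 - g' p.1) * h p.2 * g3 (p.1 - p.2))
      = fun p => g p.1 * h p.2 * g3 (p.1 - p.2) - g' p.1 * h p.2 * g3 (p.1 - p.2) := by
    funext p; ring
  rw [this, integral_sub (Fo_int hg hh) (Fo_int hg' hh)]
  ring

lemma Fo_sub_right {g h h' : E3 → ℝ} (hg : Cl g) (hh : Cl h) (hh' : Cl h') :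
    Fo g (fun x => h x - h' x) = Fo g h - Fo g h' := by
  rw [Fo_anti, Fo_sub_left hh hh' hg, @Fo_anti g h, @Fo_anti g h']
  ring

lemma Fo_add_left {g g' h : E3 → ℝ} (hg : Cl g) (hg' : Cl g') (hh : Cl h) :
    Fo (fun x => g x + g' x) h = Fo g h + Fo g' h := by
  unfold Fo
  have : (fun p : E3 × E3 => (g p.1 + g' p.1) * h p.2 * g3 (p.1 - p.2))
      = fun p => g p.1 * h p.2 * g3 (p.1 - p.2) + g' p.1 * h p.2 * g3 (p.1 - p.2) := by
    funext p; ring
  rw [this, integral_add (Fo_int hg hh) (Fo_int hg' hh)]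
  ring

lemma Fo_add_right {g h h' : E3 → ℝ} (hg : Cl g) (hh : Cl h) (hh' : Cl h') :
    Fo g (fun x => h x + h' x) = Fo g h + Fo g h' := by
  rw [Fo_anti, Fo_add_left hh hh' hg, @Fo_anti g h, @Fo_anti g h']
  ring

lemma Fo_sg {g h : E3 → ℝ} (hg : Cl g) (hh : Cl h) :
    Fo (fun x => g (sg x)) (fun x => h (sg x)) = - Fo g h := by
  rw [(Fo_eq hg.sg hh.sg).2, (Fo_eq hg hh).2, ← integral_neg, ← sg_int (fun x => -(g x * dpot h x))]
  congr 1
  funext x
  rw [dpot_sg]; ring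

end Pool.Agent.H9R2.TF
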