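import Pool.Agent.H9R2.TF.KOps

set_option autoImplicit false
open MeasureTheory Set Filter Topology Metric
open scoped RealInnerProductSpace BigOperators ENNReal
open Pool.Agent.Helper557 Pool.Agent.Helper557.TFP

namespace Pool.Agent.H9R2.TF

variable {k : ℕ}

/-- solutions of the Thomas-Fermi equation -/
structure ELs (z : Fin k → ℝ) (R : Fin k → E3) (Φ : ℝ) (ρ : E3 → ℝ) : Prop where
  nice : Nice ρ
  eq : ∀ x, ρ x = be (VV z R x - pot ρ x - Φ)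

lemma VV_nonneg {z : Fin k → ℝ} (hz : ∀ j, 0 ≤ z j) (R : Fin k → E3) (x : E3) : 0 ≤ VV z R x :=
  Finset.sum_nonneg (fun j _ => div_nonneg (hz j) (norm_nonneg _))

lemma ELs.nonneg {z : Fin k → ℝ} {R : Fin k → E3} {Φ : ℝ} {ρ : E3 → ℝ} (h : ELs z R Φ ρ) (x : E3) : 0 ≤ ρ x := by
  rw [h.eq]; exact be_nonneg _

lemma ELs.le_V {z : Fin k → ℝ} {R : Fin k → E3} {Φ : ℝ} {ρ : E3 → ℝ} (h : ELs z R Φ ρ) (hΦ : 0 ≤ Φ) (x : E3) :
    ρ x ≤ be (VV z R x) := by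
  rw [h.eq]
  refine be_mono ?_
  have := pot_nonneg h.nonneg x
  linarith

/-- nuclei as a finset -/
noncomputable def nuc (R : Fin k → E3) : Finset E3 := by
  classical exact Finset.univ.image R

lemma mem_nuc (R : Fin k → E3) (j : Fin k) : R j ∈ nuc R := by
  unfold nuc
  rw [Finset.mem_image]
  exact ⟨j, Finset.mem_univ j, rfl⟩

lemma inv_le_ws {S : Finset E3} {s : E3} (hs : s ∈ S) (x : E3) : (√‖x - s‖)⁻¹ ≤ ws S x := by
  unfold ws
  have := Finset.single_le_sum (f := fun s => (√‖x - s‖)⁻¹) (fun s _ => by positivity) hs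
  linarith

lemma VV_le_ws {z : Fin k → ℝ} (hz : ∀ j, 0 ≤ z j) (R : Fin k → E3) (x : E3) :
    VV z R x ≤ (∑ j, z j) * ws (nuc R) x ^ 2 := by
  unfold VV
  rw [Finset.sum_mul]
  refine Finset.sum_le_sum (fun j _ => ?_)
  have h1 := inv_le_ws (mem_nuc R j) x
  have h2 : z j / ‖x - R j‖ = z j * ((√‖x - R j‖)⁻¹) ^ 2 := by
    rw [inv_pow, Real.sq_sqrt (norm_nonneg _), div_eq_mul_inv]
  rw [h2]
  exact mul_le_mul_of_nonneg_left (pow_le_pow_left₀ (by positivity) h1 2) (hz j)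

lemma sqrt_VV_le_ws {z : Fin k → ℝ} (hz : ∀ j, 0 ≤ z j) (R : Fin k → E3) (x : E3) :
    √(VV z R x) ≤ √(∑ j, z j) * ws (nuc R) x := by
  have h := Real.sqrt_le_sqrt (VV_le_ws hz R x)
  rw [Real.sqrt_mul (Finset.sum_nonneg (fun j _ => hz j)), Real.sqrt_sq (ws_nonneg _ _)] at h
  exact h

lemma ELs.cl {z : Fin k → ℝ} {R : Fin k → E3} {Φ : ℝ} {ρ : E3 → ℝ} (h : ELs z R Φ ρ) (hz : ∀ j, 0 ≤ z j)
    (hΦ : 0 ≤ Φ) : Cl ρ := by
  refine ⟨h.nice, nuc R, √(∑ j, z j) ^ 3, by positivity, fun x => ?_⟩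
  rw [abs_of_nonneg (h.nonneg x)]
  refine (h.le_V hΦ x).trans ?_
  rw [be_sqrt, max_eq_left (VV_nonneg hz R x), ← mul_pow]
  exact pow_le_pow_left₀ (Real.sqrt_nonneg _) (sqrt_VV_le_ws hz R x) 3

/-- (A): monotonicity in the chemical potential -/
theorem EL_mono {z : Fin k → ℝ} {R : Fin k → E3} {Φ₁ Φ₂ : ℝ} {ρ₁ ρ₂ : E3 → ℝ} (h₁ : ELs z R Φ₁ ρ₁)
    (h₂ : ELs z R Φ₂ ρ₂) (hΦ : Φ₂ ≤ Φ₁) :
    (∀ x, 0 ≤ pot ρ₁ x - pot ρ₂ x + (Φ₁ - Φ₂)) ∧ ∀ x, ρ₁ x ≤ ρ₂ x := by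
  have h := cmp_full (nice_sub' h₁.nice h₂.nice) (C0 := Φ₁ - Φ₂) (by linarith) (Eventually.of_forall (fun y hy => by
    rw [pot_sub h₁.nice h₂.nice] at hy
    rw [h₁.eq y, h₂.eq y]
    have := be_mono (show VV z R y - pot ρ₂ y - Φ₂ ≤ VV z R y - pot ρ₁ y - Φ₁ by linarith)
    linarith))
  have h' : ∀ x, 0 ≤ pot ρ₁ x - pot ρ₂ x + (Φ₁ - Φ₂) := fun x => by
    have := h x
    rwa [pot_sub h₁.nice h₂.nice] at this
  refine ⟨h', fun x => ?_⟩
  rw [h₁.eq x, h₂.eq x]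
  refine be_mono ?_
  have := h' x
  linarith

lemma offT : ∀ᵐ x : E3, x 0 ≠ 0 := by
  have h : MeasurePreserving eqv volume volume := eqv_mp
  have h2 : ∀ᵐ p : ℝ × E2v, p.1 ≠ 0 := by
    have h1 := (Set.countable_singleton (0:ℝ)).ae_notMem (volume : Measure ℝ)
    have h3 : ∀ᵐ t : ℝ, t ≠ 0 := by
      filter_upwards [h1] with t ht
      simpa using ht
    exact Measure.quasiMeasurePreserving_fst.ae h3
  exact h.quasiMeasurePreserving.ae h2

lemma ind_add (a : E3 → ℝ) : (fun x => Hp.indicator a x + Hm.indicator a x) =ᵐ[volume] a := by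
  filter_upwards [offT] with x hx
  rcases lt_or_gt_of_ne hx with h | h
  · have h1 : x ∉ Hp := by unfold Hp; simp only [mem_setOf_eq, not_lt]; exact h.le
    have h2 : x ∈ Hm := h
    rw [indicator_of_notMem h1, indicator_of_mem h2, zero_add]
  · have h1 : x ∉ Hm := by unfold Hm; simp only [mem_setOf_eq, not_lt]; exact h.le
    have h2 : x ∈ Hp := h
    rw [indicator_of_notMem h1, indicator_of_mem h2, add_zero]

/-- folding of the charges into the lower half space -/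
noncomputable def fo (p : E3) : E3 := if 0 < p 0 then sg p else p
noncomputable def cf (ρ : E3 → ℝ) (y : E3) : ℝ := Hm.indicator ρ y + Hp.indicator ρ (sg y)

lemma fo_neg {p : E3} (h : p 0 ≠ 0) : (fo p) 0 < 0 := by
  unfold fo
  split_ifs with h1
  · rw [sg_zero]; linarith
  · exact lt_of_le_of_ne (not_lt.1 h1) h

lemma fo_sg {p : E3} (h : p 0 ≠ 0) : fo (sg p) = fo p := by
  unfold fo
  rw [sg_zero]
  by_cases h1 : 0 < p 0
  · rw [if_neg (by linarith), if_pos h1]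
  · have : p 0 < 0 := lt_of_le_of_ne (not_lt.1 h1) h
    rw [if_pos (by linarith), if_neg h1, sg_sg]

lemma nice_cf {ρ : E3 → ℝ} (h : Nice ρ) : Nice (cf ρ) :=
  nice_add (nice_ind h Hm_meas) (nice_sg (nice_ind h Hp_meas))

lemma cl_cf {ρ : E3 → ℝ} (h : Cl ρ) : Cl (cf ρ) := (h.ind Hm_meas).add (h.ind Hp_meas).sg

lemma ind_sg_Hp (ρ : E3 → ℝ) (y : E3) : Hp.indicator (fun x => ρ (sg x)) y = Hm.indicator ρ (sg y) := by
  by_cases h : y ∈ Hp
  · rw [indicator_of_mem h, indicator_of_mem (sg_mem_Hm.2 h)]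
  · rw [indicator_of_notMem h, indicator_of_notMem (fun h' => h (sg_mem_Hm.1 h'))]

lemma ind_sg_Hm (ρ : E3 → ℝ) (y : E3) : Hm.indicator (fun x => ρ (sg x)) y = Hp.indicator ρ (sg y) := by
  by_cases h : y ∈ Hm
  · rw [indicator_of_mem h, indicator_of_mem (sg_mem_Hp.2 h)]
  · rw [indicator_of_notMem h, indicator_of_notMem (fun h' => h (sg_mem_Hp.1 h'))]

lemma cf_sg (ρ : E3 → ℝ) : cf (fun x => ρ (sg x)) = cf ρ := by
  funext y
  unfold cf
  rw [ind_sg_Hm, ind_sg_Hp, sg_sg]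
  ring

/-- the comparison potential -/
noncomputable def UU (z : Fin k → ℝ) (R : Fin k → E3) (Φ : ℝ) (ρ τ : E3 → ℝ) (x : E3) : ℝ :=
  VV z (fun j => fo (R j)) x - pot (cf ρ) x - pot (od τ) x - Φ

structure HS (z : Fin k → ℝ) (R : Fin k → E3) (Φ : ℝ) (ρ τ : E3 → ℝ) : Prop where
  cl : Cl τ
  supp : ∀ x, x ∉ Hp → τ x = 0
  eq : ∀ x ∈ Hp, τ x = be (UU z R Φ ρ τ x)

lemma VV_sg (z : Fin k → ℝ) (R : Fin k → E3) (x : E3) : VV z R (sg x) = VV z (fun j => sg (R j)) x := by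
  unfold VV
  refine Finset.sum_congr rfl (fun j _ => ?_)
  rw [sg_dist']

lemma ELs.sg {z : Fin k → ℝ} {R : Fin k → E3} {Φ : ℝ} {ρ : E3 → ℝ} (h : ELs z R Φ ρ) :
    ELs z (fun j => TF.sg (R j)) Φ (fun x => ρ (TF.sg x)) := by
  refine ⟨nice_sg h.nice, fun x => ?_⟩
  rw [pot_sg, ← VV_sg]
  exact h.eq _

lemma UU_sg (z : Fin k → ℝ) {R : Fin k → E3} (hR : ∀ j, (R j) 0 ≠ 0) (Φ : ℝ) (ρ τ : E3 → ℝ) :
    UU z (fun j => sg (R j)) Φ (fun x => ρ (sg x)) τ = UU z R Φ ρ τ := by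
  funext x
  unfold UU
  rw [cf_sg]
  congr 3
  unfold VV
  refine Finset.sum_congr rfl (fun j _ => ?_)
  show z j / ‖x - fo (sg (R j))‖ = z j / ‖x - fo (R j)‖
  rw [fo_sg (hR j)]

lemma HS.sg {z : Fin k → ℝ} {R : Fin k → E3} (hR : ∀ j, (R j) 0 ≠ 0) {Φ : ℝ} {ρ τ : E3 → ℝ} (h : HS z R Φ ρ τ) :
    HS z (fun j => TF.sg (R j)) Φ (fun x => ρ (TF.sg x)) τ :=
  ⟨h.cl, h.supp, fun x hx => by rw [UU_sg z hR]; exact h.eq x hx⟩

/-- charges above the plane -/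
noncomputable def za (z : Fin k → ℝ) (R : Fin k → E3) (j : Fin k) : ℝ := if 0 < (R j) 0 then z j else 0
noncomputable def zb (z : Fin k → ℝ) (R : Fin k → E3) (j : Fin k) : ℝ := if 0 < (R j) 0 then 0 else z j

/-- the function `f = u - U` in the half space -/
noncomputable def ff (z : Fin k → ℝ) (R : Fin k → E3) (ρ τ : E3 → ℝ) (x : E3) : ℝ :=
  VV (za z R) R x + VV (fun j => - za z R j) (fun j => fo (R j)) x + pot (od (fun y => τ y - ρ y)) x

lemma od_sub (a b : E3 → ℝ) : od (fun y => a y - b y) = fun y => od a y - od b y := by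
  funext y
  unfold od
  by_cases h1 : y ∈ Hp <;> by_cases h2 : TF.sg y ∈ Hp <;> simp [h1, h2] <;> ring

lemma ff_eq {z : Fin k → ℝ} {R : Fin k → E3} {Φ : ℝ} {ρ τ : E3 → ℝ} (hρ : Nice ρ) (hτ : Nice τ) (x : E3) :
    ff z R ρ τ x = (VV z R x - pot ρ x - Φ) - UU z R Φ ρ τ x := by
  unfold ff UU
  rw [od_sub, pot_sub (nice_od hτ) (nice_od hρ)]
  have h1 : VV z R x - VV z (fun j => fo (R j)) x = VV (za z R) R x + VV (fun j => - za z R j) (fun j => fo (R j)) x := by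
    unfold VV
    rw [← Finset.sum_sub_distrib, ← Finset.sum_add_distrib]
    refine Finset.sum_congr rfl (fun j _ => ?_)
    by_cases h : 0 < (R j) 0
    · simp only [za, fo, if_pos h]; ring
    · simp only [za, fo, if_neg h]; ring
  have h2 : pot ρ x = pot (od ρ) x + pot (cf ρ) x := by
    have e1 : pot ρ x = pot (fun y => Hp.indicator ρ y + Hm.indicator ρ y) x := (pot_congr (ind_add ρ) x).symm
    rw [e1, ← pot_add (nice_od hρ) (nice_cf hρ)]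
    congr 1
    funext y
    unfold od cf
    ring
  rw [h2]
  linarith

/-- (B) -/
theorem ff_nonneg {z : Fin k → ℝ} {R : Fin k → E3} (hz : ∀ j, 0 ≤ z j) (hR : ∀ j, (R j) 0 ≠ 0) {Φ : ℝ} {ρ τ : E3 → ℝ}
    (hρ : ELs z R Φ ρ) (hτ : Nice τ)
    (hτe : ∀ᵐ x, x ∈ Hp → be (VV z R x - pot ρ x - Φ) ≤ be (UU z R Φ ρ τ x) → ρ x ≤ τ x) :
    ∀ x ∈ Hp, (∀ j, x ≠ R j) → 0 ≤ ff z R ρ τ x := by
  intro x hx hxR
  refine cmp_half (za z R) (fun j => - za z R j) R (fun j => fo (R j)) (nice_od (nice_sub' hτ hρ.nice)) ?_ ?_ ?_ ?_ x hx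
    (fun j _ => hxR j)
  · intro j; unfold za; split_ifs
    · exact hz j
    · exact le_rfl
  · intro j; exact fo_neg (hR j)
  · intro x hx0
    rw [pot_od_bd _ hx0, add_zero]
    apply le_of_eq
    unfold VV
    rw [← Finset.sum_add_distrib]
    symm
    refine Finset.sum_eq_zero (fun j _ => ?_)
    by_cases h : 0 < (R j) 0
    · simp only [za, fo, if_pos h]
      have : ‖x - TF.sg (R j)‖ = ‖x - R j‖ := by rw [← sg_dist', sg_fix hx0]
      rw [this]; ring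
    · simp only [za, fo, if_neg h]; ring
  · filter_upwards [hτe] with y hy hy0 hneg
    have hyH : y ∈ Hp := hy0
    rw [od_up _ hyH]
    have h1 : ff z R ρ τ y < 0 := hneg
    rw [ff_eq (Φ := Φ) hρ.nice hτ] at h1
    have := hy hyH (be_mono (by linarith))
    linarith

lemma UU_bdd {z : Fin k → ℝ} {R : Fin k → E3} (hR : ∀ j, (R j) 0 ≠ 0) (Φ : ℝ) {ρ τ : E3 → ℝ}
    (hρ : Nice ρ) (hτ : Nice τ) : ∃ B, 0 ≤ B ∧ ∀ x : E3, 0 ≤ x 0 → |UU z R Φ ρ τ x| ≤ B := by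
  obtain ⟨B1, hB10, hB1⟩ := pot_bdd (nice_cf hρ)
  obtain ⟨B2, hB20, hB2⟩ := pot_bdd (nice_od hτ)
  have hB3 : ∀ x : E3, 0 ≤ x 0 → |VV z (fun j => fo (R j)) x| ≤ ∑ j, |z j| / (-(fo (R j)) 0) := by
    intro x hx
    unfold VV
    refine (Finset.abs_sum_le_sum_abs _ _).trans (Finset.sum_le_sum (fun j _ => ?_))
    rw [abs_div, abs_of_nonneg (norm_nonneg (x - fo (R j)))]
    have h0 := fo_neg (hR j)
    refine div_le_div_of_nonneg_left (abs_nonneg _) (by linarith) ?_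
    have h1 := abs_coord (x - fo (R j)) 0
    have h2 := le_abs_self ((x - fo (R j)) 0)
    have h3 : (x - fo (R j)) 0 = x 0 - (fo (R j)) 0 := rfl
    linarith
  have hs : 0 ≤ ∑ j, |z j| / (-(fo (R j)) 0) := by
    refine Finset.sum_nonneg (fun j _ => ?_)
    have h0 := fo_neg (hR j)
    exact div_nonneg (abs_nonneg _) (by linarith)
  refine ⟨(∑ j, |z j| / (-(fo (R j)) 0)) + B1 + B2 + |Φ|, by positivity, fun x hx => ?_⟩
  unfold UU
  have a1 := abs_le.1 (hB3 x hx)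
  have a2 := abs_le.1 (hB1 x)
  have a3 := abs_le.1 (hB2 x)
  have a4 := abs_le.1 (le_refl |Φ|)
  rw [abs_le]
  constructor <;> linarith

lemma UU_meas (z : Fin k → ℝ) (R : Fin k → E3) (Φ : ℝ) {ρ τ : E3 → ℝ} (hρ : Nice ρ) (hτ : Nice τ) :
    Measurable (UU z R Φ ρ τ) := by
  unfold UU
  exact (((VV_meas _ _).sub (pot_cont (nice_cf hρ)).measurable).sub (pot_cont (nice_od hτ)).measurable).sub_const _

/-- existence of the half-space comparison density -/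
theorem HS_exists {z : Fin k → ℝ} {R : Fin k → E3} (hz : ∀ j, 0 ≤ z j) (hR : ∀ j, (R j) 0 ≠ 0) {Φ : ℝ} {ρ : E3 → ℝ}
    (hρ : ELs z R Φ ρ) : ∃ τ, HS z R Φ ρ τ := by
  have nρ := hρ.nice
  have nh : Nice (Hp.indicator ρ) := nice_ind nρ Hp_meas
  have nh0 : ∀ x, 0 ≤ Hp.indicator ρ x := fun x => indicator_nonneg (fun y _ => hρ.nonneg y) x
  set hh : E3 → ℝ := fun x => VV z (fun j => fo (R j)) x - pot (cf ρ) x - Φ with hhd
  have hhm : Measurable hh := ((VV_meas _ _).sub (pot_cont (nice_cf nρ)).measurable).sub_const _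
  have hz0 : od (fun _ => (0:ℝ)) = fun _ => 0 := by
    funext y; unfold od; simp
  have hUU0 : ∀ x, UU z R Φ ρ (fun _ => 0) x = hh x := by
    intro x
    unfold UU
    rw [hz0]
    have : pot (fun _ => (0:ℝ)) x = 0 := by unfold pot; simp
    rw [this, hhd]; ring
  obtain ⟨B, hB0, hB⟩ := UU_bdd (z := z) hR Φ nρ Cl.zero.1
  have hint : Integrable (fun x => hh x * Hp.indicator ρ x) := by
    refine (nh.2.1.const_mul B).mono' (hhm.mul nh.1).aestronglyMeasurable (Eventually.of_forall (fun x => ?_))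
    rw [norm_mul, Real.norm_eq_abs, Real.norm_of_nonneg (nh0 x)]
    by_cases hx : x ∈ Hp
    · refine mul_le_mul_of_nonneg_right ?_ (nh0 x)
      rw [← hUU0 x]
      exact hB x (le_of_lt hx)
    · rw [indicator_of_notMem hx, mul_zero, mul_zero]
  obtain ⟨τ, hτA, hτe⟩ := exists_EL (kop_half nh nh0) nh nh0 hhm hint
  have nτ := hτA.nice nh
  have hKh : ∀ x ∈ Hp, hh x - Kh τ x = UU z R Φ ρ τ x := by
    intro x hx
    unfold Kh UU
    rw [indicator_of_mem hx, hhd]; ring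
  have hf := ff_nonneg hz hR hρ nτ (Eventually.of_forall (fun x hx hle => by
    rw [hτe x, indicator_of_mem hx, hKh x hx]
    refine le_min le_rfl ?_
    rw [hρ.eq x] at *
    exact hle))
  -- redefine
  set τ2 : E3 → ℝ := Hp.indicator (fun x => be (UU z R Φ ρ τ x)) with hτ2
  have hae : τ =ᵐ[volume] τ2 := by
    have hfin : (Set.range R).Finite := Set.finite_range R
    have h1 : ∀ᵐ x : E3, x ∉ Set.range R := hfin.countable.ae_notMem _
    filter_upwards [h1] with x hx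
    by_cases hxH : x ∈ Hp
    · have h2 := hf x hxH (fun j e => hx ⟨j, e.symm⟩)
      rw [ff_eq (Φ := Φ) nρ nτ] at h2
      have h3 := be_mono (show UU z R Φ ρ τ x ≤ VV z R x - pot ρ x - Φ by linarith)
      rw [hτe x, hτ2, indicator_of_mem hxH, indicator_of_mem hxH, hKh x hxH]
      rw [hρ.eq x]
      exact min_eq_right h3
    · rw [hτ2, indicator_of_notMem hxH]
      have := hτA.2 x
      rw [indicator_of_notMem hxH] at this
      exact le_antisymm this.2 this.1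
  have hpot : ∀ x, pot (od τ) x = pot (od τ2) x := by
    intro x
    have h2 : (fun x => τ (sg x)) =ᵐ[volume] fun x => τ2 (sg x) := sg_mp.quasiMeasurePreserving.ae hae
    refine pot_congr ?_ x
    filter_upwards [hae, h2] with y h1 h3
    unfold od
    congr 1
    · by_cases h : y ∈ Hp
      · rw [indicator_of_mem h, indicator_of_mem h, h1]
      · rw [indicator_of_notMem h, indicator_of_notMem h]
    · by_cases h : sg y ∈ Hp
      · rw [indicator_of_mem h, indicator_of_mem h]; exact h3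
      · rw [indicator_of_notMem h, indicator_of_notMem h]
  have hUU : ∀ x, UU z R Φ ρ τ x = UU z R Φ ρ τ2 x := by
    intro x; unfold UU; rw [hpot]
  obtain ⟨B', hB'0, hB'⟩ := UU_bdd (z := z) hR Φ nρ nτ
  have hτ2m : Measurable τ2 := (be_meas.comp (UU_meas z R Φ nρ nτ)).indicator Hp_meas
  have hτ2n : Nice τ2 := by
    refine ⟨hτ2m, nτ.2.1.congr hae, nτ.2.2.congr ?_⟩
    filter_upwards [hae] with x hx
    rw [hx]
  refine ⟨τ2, ⟨hτ2n, ∅, be B', be_nonneg _, fun x => ?_⟩, fun x hx => ?_, fun x hx => ?_⟩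
  · have h1 : |τ2 x| ≤ be B' := by
      rw [hτ2]
      by_cases hx : x ∈ Hp
      · rw [indicator_of_mem hx, abs_of_nonneg (be_nonneg _)]
        exact be_mono ((le_abs_self _).trans (hB' x (le_of_lt hx)))
      · rw [indicator_of_notMem hx, abs_zero]; exact be_nonneg _
    refine h1.trans ?_
    have : ws ∅ x = 1 := by unfold ws; simp
    rw [this]; simp
  · rw [hτ2, indicator_of_notMem hx]
  · rw [hτ2, indicator_of_mem hx]
    rw [← hτ2, hUU]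

/-- (B) for solutions -/
theorem HS.ff_nonneg {z : Fin k → ℝ} {R : Fin k → E3} (hz : ∀ j, 0 ≤ z j) (hR : ∀ j, (R j) 0 ≠ 0) {Φ : ℝ}
    {ρ τ : E3 → ℝ} (hρ : ELs z R Φ ρ) (hτ : HS z R Φ ρ τ) :
    ∀ x ∈ Hp, (∀ j, x ≠ R j) → 0 ≤ ff z R ρ τ x :=
  TF.ff_nonneg hz hR hρ hτ.cl.1 (Eventually.of_forall (fun x hx hle => by
    rw [hτ.eq x hx, hρ.eq x]; exact hle))

theorem HS.le {z : Fin k → ℝ} {R : Fin k → E3} (hz : ∀ j, 0 ≤ z j) (hR : ∀ j, (R j) 0 ≠ 0) {Φ : ℝ}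
    {ρ τ : E3 → ℝ} (hρ : ELs z R Φ ρ) (hτ : HS z R Φ ρ τ) :
    ∀ x ∈ Hp, (∀ j, x ≠ R j) → UU z R Φ ρ τ x ≤ VV z R x - pot ρ x - Φ := by
  intro x hx hxR
  have := hτ.ff_nonneg hz hR hρ x hx hxR
  rw [ff_eq (Φ := Φ) hρ.nice hτ.cl.1] at this
  linarith

/-- (D) -/
theorem ff_mono {z : Fin k → ℝ} {R : Fin k → E3} (hz : ∀ j, 0 ≤ z j) (hR : ∀ j, (R j) 0 ≠ 0) {Φ₁ Φ₂ : ℝ}
    {ρ₁ τ₁ ρ₂ τ₂ : E3 → ℝ} (h₁ : ELs z R Φ₁ ρ₁) (h₂ : ELs z R Φ₂ ρ₂) (hΦ : Φ₂ ≤ Φ₁)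
    (t₁ : HS z R Φ₁ ρ₁ τ₁) (t₂ : HS z R Φ₂ ρ₂ τ₂) :
    ∀ x ∈ Hp, 0 ≤ pot (od (fun y => (τ₁ y - ρ₁ y) - (τ₂ y - ρ₂ y))) x := by
  intro x hx
  obtain ⟨hD, _⟩ := EL_mono h₁ h₂ hΦ
  have n1 := nice_sub' t₁.cl.1 h₁.nice
  have n2 := nice_sub' t₂.cl.1 h₂.nice
  have key : ∀ y, pot (od (fun y => (τ₁ y - ρ₁ y) - (τ₂ y - ρ₂ y))) y = ff z R ρ₁ τ₁ y - ff z R ρ₂ τ₂ y := by
    intro y
    rw [od_sub (fun y => τ₁ y - ρ₁ y), pot_sub (nice_od n1) (nice_od n2)]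
    unfold ff; ring
  have h := cmp_half (k := 0) (fun j => j.elim0) (fun j => j.elim0) (fun j => j.elim0) (fun j => j.elim0)
    (nice_od (nice_sub' n1 n2)) (fun j => j.elim0) (fun j => j.elim0) (fun x hx0 => by
      rw [pot_od_bd _ hx0]; unfold VV; simp) (by
    have hfin : (Set.range R).Finite := Set.finite_range R
    have h1 : ∀ᵐ x : E3, x ∉ Set.range R := hfin.countable.ae_notMem _
    filter_upwards [h1] with y hy hy0 hneg
    have hyH : y ∈ Hp := hy0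
    have hneg' : pot (od (fun y => (τ₁ y - ρ₁ y) - (τ₂ y - ρ₂ y))) y < 0 := by
      unfold VV at hneg; simpa using hneg
    rw [key, ff_eq (Φ := Φ₁) h₁.nice t₁.cl.1, ff_eq (Φ := Φ₂) h₂.nice t₂.cl.1] at hneg'
    rw [od_up _ hyH, t₁.eq y hyH, t₂.eq y hyH, h₁.eq y, h₂.eq y]
    have hle := t₁.le hz hR h₁ y hyH (fun j e => hy ⟨j, e.symm⟩)
    set u₁ := VV z R y - pot ρ₁ y - Φ₁
    have e2 : VV z R y - pot ρ₂ y - Φ₂ = u₁ + (pot ρ₁ y - pot ρ₂ y + (Φ₁ - Φ₂)) := by ring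
    rw [e2] at hneg' ⊢
    set D := pot ρ₁ y - pot ρ₂ y + (Φ₁ - Φ₂) with hDd
    have hD0 : 0 ≤ D := hD y
    have a1 := be_incr hle hD0
    have a2 := be_mono (show UU z R Φ₂ ρ₂ τ₂ y ≤ UU z R Φ₁ ρ₁ τ₁ y + D by linarith)
    linarith) x hx (fun j => j.elim0)
  unfold VV at h
  simpa using h

end Pool.Agent.H9R2.TF
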