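import Pool.Agent.H9R2.TF.MP

set_option autoImplicit false
open MeasureTheory Set Filter Topology Metric
open scoped RealInnerProductSpace BigOperators ENNReal
open Pool.Agent.Helper557 Pool.Agent.Helper557.TFP

namespace Pool.Agent.H9R2.TF

lemma third_cube {s : ℝ} (hs : 0 ≤ s) : (s ^ (1/3 : ℝ)) ^ 3 = s ∧ (s ^ (1/3 : ℝ)) ^ 2 = s ^ (2/3 : ℝ) := by
  constructor
  · rw [← Real.rpow_natCast, ← Real.rpow_mul hs]; norm_num
  · rw [← Real.rpow_natCast, ← Real.rpow_mul hs]; norm_num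

lemma sc_mono {s t : ℝ} (hs : 0 ≤ s) (hst : s ≤ t) (ht : t ≤ 1) : 2/3 * (t - s) ≤ t ^ (2/3 : ℝ) - s ^ (2/3 : ℝ) := by
  have ht0 := hs.trans hst
  obtain ⟨a1, a2⟩ := third_cube hs
  obtain ⟨b1, b2⟩ := third_cube ht0
  have h1 : s ^ (1/3 : ℝ) ≤ t ^ (1/3 : ℝ) := Real.rpow_le_rpow hs hst (by norm_num)
  have h2 : t ^ (1/3 : ℝ) ≤ 1 := Real.rpow_le_one ht0 ht (by norm_num)
  have h0 : 0 ≤ s ^ (1/3 : ℝ) := Real.rpow_nonneg hs _
  rw [← a2, ← b2]
  nth_rewrite 1 [← a1]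
  nth_rewrite 1 [← b1]
  set x := s ^ (1/3 : ℝ)
  set y := t ^ (1/3 : ℝ)
  have e : y ^ 2 - x ^ 2 - 2/3 * (y ^ 3 - x ^ 3) = (y - x) * ((y + x) - 2/3 * (y ^ 2 + x * y + x ^ 2)) := by ring
  have h3 : 0 ≤ (y + x) - 2/3 * (y ^ 2 + x * y + x ^ 2) := by nlinarith [mul_nonneg h0 (sub_nonneg.2 h2), mul_nonneg (h0.trans h1) (sub_nonneg.2 h2), mul_nonneg h0 (sub_nonneg.2 (h1.trans h2))]
  nlinarith [mul_nonneg (sub_nonneg.2 h1) h3]

lemma sc_convex : ConvexOn ℝ (Icc (0:ℝ) 1) (fun s : ℝ => 3/5 * s ^ (5/3 : ℝ) - 1/3 * s ^ 2) := by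
  have hd : ∀ s : ℝ, HasDerivAt (fun s : ℝ => 3/5 * s ^ (5/3 : ℝ) - 1/3 * s ^ 2) (s ^ (2/3 : ℝ) - 2/3 * s) s := by
    intro s
    have h1 := (Real.hasDerivAt_rpow_const (x := s) (p := (5/3 : ℝ)) (Or.inr (by norm_num))).const_mul (3/5 : ℝ)
    have h2 := (hasDerivAt_pow 2 s).const_mul (1/3 : ℝ)
    have h3 := h1.sub h2
    have e : 3/5 * (5/3 * s ^ (5/3 - 1 : ℝ)) - 1/3 * ((2:ℕ) * s ^ (2 - 1)) = s ^ (2/3 : ℝ) - 2/3 * s := by
      have : (5/3 - 1 : ℝ) = 2/3 := by norm_num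
      rw [this]; push_cast; ring
    rw [e] at h3
    exact h3
  refine MonotoneOn.convexOn_of_deriv (convex_Icc 0 1) ?_ ?_ ?_
  · exact fun s _ => (hd s).continuousAt.continuousWithinAt
  · exact fun s _ => (hd s).differentiableAt.differentiableWithinAt
  · rw [interior_Icc]
    intro s hs t ht hst
    rw [(hd s).deriv, (hd t).deriv]
    have := sc_mono hs.1.le hst ht.2.le
    linarith

lemma sc1 {a b r : ℝ} (ha : 0 ≤ a) (hb : 0 ≤ b) (har : a ≤ r) (hbr : b ≤ r) :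
    3/5 * ((a + b) / 2) ^ (5/3 : ℝ) ≤ 1/2 * (3/5 * a ^ (5/3 : ℝ)) + 1/2 * (3/5 * b ^ (5/3 : ℝ))
      - 1/12 * ((a - b) ^ 2 / r ^ (1/3 : ℝ)) := by
  rcases eq_or_lt_of_le (ha.trans har) with hr | hr
  · have h1 : a = 0 := le_antisymm (har.trans hr.symm.le) ha
    have h2 : b = 0 := le_antisymm (hbr.trans hr.symm.le) hb
    rw [h1, h2]
    norm_num
  · set s := a / r with hs
    set t := b / r with ht
    have ea : a = r * s := by rw [hs]; field_simp
    have eb : b = r * t := by rw [ht]; field_simp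
    have hs0 : 0 ≤ s := div_nonneg ha hr.le
    have ht0 : 0 ≤ t := div_nonneg hb hr.le
    have hs1 : s ≤ 1 := by rw [hs, div_le_one hr]; exact har
    have ht1 : t ≤ 1 := by rw [ht, div_le_one hr]; exact hbr
    have key := sc_convex.2 ⟨hs0, hs1⟩ ⟨ht0, ht1⟩ (by norm_num : (0:ℝ) ≤ 1/2) (by norm_num : (0:ℝ) ≤ 1/2) (by norm_num)
    simp only [smul_eq_mul] at key
    have e1 : (1/2 * s + 1/2 * t) = (s + t) / 2 := by ring
    rw [e1] at key
    have key2 : 3/5 * ((s + t) / 2) ^ (5/3 : ℝ) ≤ 1/2 * (3/5 * s ^ (5/3 : ℝ)) + 1/2 * (3/5 * t ^ (5/3 : ℝ))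
      - 1/12 * (s - t) ^ 2 := by nlinarith
    have hm : ((a + b) / 2) = r * ((s + t) / 2) := by rw [ea, eb]; ring
    rw [hm, ea, eb, Real.mul_rpow hr.le (by positivity), Real.mul_rpow hr.le hs0, Real.mul_rpow hr.le ht0]
    have e2 : (r * s - r * t) ^ 2 / r ^ (1/3 : ℝ) = r ^ (5/3 : ℝ) * (s - t) ^ 2 := by
      have h3 : r ^ 2 = r ^ (5/3 : ℝ) * r ^ (1/3 : ℝ) := by
        rw [← Real.rpow_add hr, ← Real.rpow_natCast]; norm_num
      have h4 : r ^ (1/3 : ℝ) ≠ 0 := (Real.rpow_pos_of_pos hr _).ne'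
      have h5 : (r * s - r * t) ^ 2 = r ^ 2 * (s - t) ^ 2 := by ring
      rw [h5, h3]
      field_simp
    rw [e2]
    have h6 : 0 ≤ r ^ (5/3 : ℝ) := Real.rpow_nonneg hr.le _
    nlinarith [mul_le_mul_of_nonneg_left key2 h6]

lemma sc2 {a b : ℝ} (ha : 0 ≤ a) (hb : 0 ≤ b) :
    3/5 * b ^ (5/3 : ℝ) - 3/5 * a ^ (5/3 : ℝ) ≤ b ^ (2/3 : ℝ) * (b - a) := by
  rcases eq_or_lt_of_le hb with h | h
  · rw [← h, Real.zero_rpow (by norm_num), Real.zero_rpow (by norm_num)]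
    have := Real.rpow_nonneg ha (5/3)
    linarith
  · have h1 := one_add_mul_self_le_rpow_one_add (s := a / b - 1) (by
      have : 0 ≤ a / b := by positivity
      linarith) (p := 5/3) (by norm_num)
    have e1 : 1 + (a / b - 1) = a / b := by ring
    rw [e1, Real.div_rpow ha hb] at h1
    have h2 : 0 < b ^ (5/3 : ℝ) := Real.rpow_pos_of_pos h _
    have h3 : b ^ (5/3 : ℝ) = b ^ (2/3 : ℝ) * b := by
      nth_rw 3 [← Real.rpow_one b]
      rw [← Real.rpow_add h]; norm_num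
    have h4 := mul_le_mul_of_nonneg_left h1 h2.le
    have h5 : b ^ (5/3 : ℝ) * (a ^ (5/3 : ℝ) / b ^ (5/3 : ℝ)) = a ^ (5/3 : ℝ) := by field_simp
    rw [h5] at h4
    have h6 : b ^ (5/3 : ℝ) * (1 + 5/3 * (a / b - 1)) = b ^ (5/3:ℝ) + 5/3 * (b ^ (2/3 : ℝ) * (a - b)) := by
      rw [h3]; field_simp
    rw [h6] at h4
    linarith

structure KOp (ρh : E3 → ℝ) (KK : (E3 → ℝ) → E3 → ℝ) : Prop where
  lin : ∀ a b : E3 → ℝ, Nice a → Nice b → ∀ c : ℝ, ∀ x, KK (fun y => a y + c * b y) x = KK a x + c * KK b x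
  meas : ∀ a, Nice a → Measurable (KK a)
  bdd1 : ∀ a, Nice a → ∃ B, ∀ x, |KK a x| ≤ B
  bdd : ∃ B, ∀ a : E3 → ℝ, Measurable a → (∀ x, |a x| ≤ ρh x) → ∀ x, |KK a x| ≤ B
  symm : ∀ a b, Nice a → Nice b → ∫ x, a x * KK b x = ∫ x, b x * KK a x
  pos : ∀ a, Nice a → 0 ≤ ∫ x, a x * KK a x
  cont : ∀ (a : ℕ → E3 → ℝ) (b : E3 → ℝ), (∀ n, Measurable (a n)) → Measurable b → (∀ n x, |a n x| ≤ ρh x) →
     (∀ᵐ x, Tendsto (fun n => a n x) atTop (𝓝 (b x))) → ∀ x, Tendsto (fun n => KK (a n) x) atTop (𝓝 (KK b x))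
  congr : ∀ a b : E3 → ℝ, a =ᵐ[volume] b → ∀ x, KK a x = KK b x

variable {ρh h : E3 → ℝ} {KK : (E3 → ℝ) → E3 → ℝ}

lemma nice_smul {a : E3 → ℝ} (ha : Nice a) (c : ℝ) : Nice (fun x => c * a x) := by
  refine ⟨ha.1.const_mul c, ha.2.1.const_mul c, ?_⟩
  have : (fun x => |c * a x| ^ (5/3 : ℝ)) = fun x => |c| ^ (5/3 : ℝ) * |a x| ^ (5/3 : ℝ) := by
    funext x; rw [abs_mul, Real.mul_rpow (abs_nonneg _) (abs_nonneg _)]
  rw [this]
  exact ha.2.2.const_mul _

lemma KOp.int (hK : KOp ρh KK) {a b : E3 → ℝ} (ha : Nice a) (hb : Nice b) : Integrable (fun x => a x * KK b x) := by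
  obtain ⟨B, hB⟩ := hK.bdd1 b hb
  have := ha.2.1.bdd_mul (hK.meas b hb).aestronglyMeasurable (c := B) (Eventually.of_forall (fun x => by
    rw [Real.norm_eq_abs]; exact hB x))
  refine this.congr (Eventually.of_forall (fun x => by ring))

lemma KOp.exp (hK : KOp ρh KK) {a b : E3 → ℝ} (ha : Nice a) (hb : Nice b) (c : ℝ) :
    ∫ x, (a x + c * b x) * KK (fun y => a y + c * b y) x
      = (∫ x, a x * KK a x) + 2 * c * (∫ x, b x * KK a x) + c ^ 2 * ∫ x, b x * KK b x := by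
  have e : (fun x => (a x + c * b x) * KK (fun y => a y + c * b y) x)
      = fun x => (a x * KK a x + c * (a x * KK b x)) + (c * (b x * KK a x) + c ^ 2 * (b x * KK b x)) := by
    funext x
    rw [hK.lin a b ha hb c x]; ring
  rw [e]
  have i1 := hK.int ha ha
  have i2 := hK.int ha hb
  have i3 := hK.int hb ha
  have i4 := hK.int hb hb
  have j1 : Integrable (fun x => a x * KK a x + c * (a x * KK b x)) := i1.add (i2.const_mul c)
  have j2 : Integrable (fun x => c * (b x * KK a x) + c ^ 2 * (b x * KK b x)) :=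
    (i3.const_mul c).add (i4.const_mul (c^2))
  rw [integral_add j1 j2, integral_add i1 (i2.const_mul c), integral_add (i3.const_mul c) (i4.const_mul (c^2)),
    integral_const_mul, integral_const_mul, integral_const_mul, hK.symm a b ha hb]
  ring

noncomputable def Fn (KK : (E3 → ℝ) → E3 → ℝ) (h τ : E3 → ℝ) : ℝ :=
  3/5 * (∫ x, τ x ^ (5/3 : ℝ)) - (∫ x, h x * τ x) + 1/2 * ∫ x, τ x * KK τ x

def Ad (ρh : E3 → ℝ) (τ : E3 → ℝ) : Prop := Measurable τ ∧ ∀ x, 0 ≤ τ x ∧ τ x ≤ ρh x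

lemma Ad.nice (hρ : Nice ρh) {τ : E3 → ℝ} (hτ : Ad ρh τ) : Nice τ :=
  nice_of_le hρ hτ.1 (fun x => by
    rw [abs_of_nonneg (hτ.2 x).1]
    exact (hτ.2 x).2.trans (le_abs_self _))

lemma Ad.int53 (hρ : Nice ρh) {τ : E3 → ℝ} (hτ : Ad ρh τ) : Integrable (fun x => τ x ^ (5/3 : ℝ)) := by
  refine (hτ.nice hρ).2.2.congr (Eventually.of_forall (fun x => ?_))
  simp only
  rw [abs_of_nonneg (hτ.2 x).1]

lemma Ad.inth (hh : Measurable h) (hi : Integrable (fun x => h x * ρh x)) {τ : E3 → ℝ} (hτ : Ad ρh τ) :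
    Integrable (fun x => h x * τ x) := by
  refine hi.mono (hh.mul hτ.1).aestronglyMeasurable (Eventually.of_forall (fun x => ?_))
  rw [norm_mul, norm_mul]
  refine mul_le_mul_of_nonneg_left ?_ (norm_nonneg _)
  rw [Real.norm_of_nonneg (hτ.2 x).1, Real.norm_of_nonneg ((hτ.2 x).1.trans (hτ.2 x).2)]
  exact (hτ.2 x).2

lemma Ad.comb {τ σ : E3 → ℝ} (hτ : Ad ρh τ) (hσ : Ad ρh σ) {t : ℝ} (ht0 : 0 ≤ t) (ht1 : t ≤ 1) :
    Ad ρh (fun x => τ x + t * (σ x - τ x)) := by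
  refine ⟨hτ.1.add (measurable_const.mul (hσ.1.sub hτ.1)), fun x => ?_⟩
  have h1 := hτ.2 x
  have h2 := hσ.2 x
  constructor
  · nlinarith
  · nlinarith

lemma gap_int (hρ : Nice ρh) {τ σ : E3 → ℝ} (hτ : Ad ρh τ) (hσ : Ad ρh σ) :
    Integrable (fun x => (τ x - σ x) ^ 2 / ρh x ^ (1/3 : ℝ)) := by
  have hm : Measurable (fun x => (τ x - σ x) ^ 2 / ρh x ^ (1/3 : ℝ)) :=
    ((hτ.1.sub hσ.1).pow_const 2).div (hρ.1.pow_const _)
  refine hρ.2.2.mono' hm.aestronglyMeasurable (Eventually.of_forall (fun x => ?_))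
  have h1 := hτ.2 x
  have h2 := hσ.2 x
  have hr : 0 ≤ ρh x := h1.1.trans h1.2
  rw [Real.norm_of_nonneg (div_nonneg (sq_nonneg _) (Real.rpow_nonneg hr _)), abs_of_nonneg hr]
  rcases eq_or_lt_of_le hr with h0 | h0
  · have e1 : τ x = 0 := le_antisymm (h1.2.trans h0.symm.le) h1.1
    have e2 : σ x = 0 := le_antisymm (h2.2.trans h0.symm.le) h2.1
    rw [e1, e2]
    simp
    exact Real.rpow_nonneg hr _
  · rw [div_le_iff₀ (Real.rpow_pos_of_pos h0 _), ← Real.rpow_add h0]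
    have : (5/3 + 1/3 : ℝ) = (2:ℕ) := by norm_num
    rw [this, Real.rpow_natCast]
    nlinarith

lemma Fn_mid (hK : KOp ρh KK) (hρ : Nice ρh) (hh : Measurable h) (hi : Integrable (fun x => h x * ρh x))
    {τ σ : E3 → ℝ} (hτ : Ad ρh τ) (hσ : Ad ρh σ) :
    Fn KK h (fun x => τ x + 1/2 * (σ x - τ x)) ≤ 1/2 * Fn KK h τ + 1/2 * Fn KK h σ
      - 1/12 * ∫ x, (τ x - σ x) ^ 2 / ρh x ^ (1/3 : ℝ) := by
  have hm := hτ.comb hσ (t := 1/2) (by norm_num) (by norm_num)
  have nτ := hτ.nice hρ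
  have nσ := hσ.nice hρ
  have nd := nice_sub' nσ nτ
  have q1 := hK.exp nτ nd (1/2)
  have q2 := hK.exp nτ nd 1
  have e2 : (fun x => τ x + 1 * (σ x - τ x)) = σ := by funext x; ring
  have e3 : (fun x => (τ x + 1 * (σ x - τ x)) * KK (fun y => τ y + 1 * (σ y - τ y)) x) = fun x => σ x * KK σ x := by
    rw [e2]; funext x; ring
  rw [e3] at q2
  have hpos := hK.pos _ nd
  have k1 : 3/5 * (∫ x, (τ x + 1/2 * (σ x - τ x)) ^ (5/3 : ℝ)) ≤ 1/2 * (3/5 * ∫ x, τ x ^ (5/3 : ℝ))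
      + 1/2 * (3/5 * ∫ x, σ x ^ (5/3 : ℝ)) - 1/12 * ∫ x, (τ x - σ x) ^ 2 / ρh x ^ (1/3 : ℝ) := by
    have j1 := hτ.int53 hρ
    have j2 := hσ.int53 hρ
    have j3 := gap_int hρ hτ hσ
    have j4 := hm.int53 hρ
    have : 3/5 * (∫ x, (τ x + 1/2 * (σ x - τ x)) ^ (5/3 : ℝ)) = ∫ x, 3/5 * (τ x + 1/2 * (σ x - τ x)) ^ (5/3 : ℝ) := by
      rw [integral_const_mul]
    rw [this]
    have i1 : Integrable (fun x => 1/2 * (3/5 * τ x ^ (5/3 : ℝ))) := (j1.const_mul _).const_mul _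
    have i2 : Integrable (fun x => 1/2 * (3/5 * σ x ^ (5/3 : ℝ))) := (j2.const_mul _).const_mul _
    have i3 : Integrable (fun x => 1/12 * ((τ x - σ x) ^ 2 / ρh x ^ (1/3 : ℝ))) := j3.const_mul _
    have e4 : 1/2 * (3/5 * ∫ x, τ x ^ (5/3 : ℝ))
      + 1/2 * (3/5 * ∫ x, σ x ^ (5/3 : ℝ)) - 1/12 * ∫ x, (τ x - σ x) ^ 2 / ρh x ^ (1/3 : ℝ)
      = ∫ x, ((1/2 * (3/5 * τ x ^ (5/3 : ℝ)) + 1/2 * (3/5 * σ x ^ (5/3 : ℝ))) - 1/12 * ((τ x - σ x) ^ 2 / ρh x ^ (1/3 : ℝ))) := by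
      have i12 : Integrable (fun x => 1/2 * (3/5 * τ x ^ (5/3 : ℝ)) + 1/2 * (3/5 * σ x ^ (5/3 : ℝ))) := i1.add i2
      rw [integral_sub i12 i3, integral_add i1 i2]
      rw [integral_const_mul, integral_const_mul, integral_const_mul, integral_const_mul, integral_const_mul]
    rw [e4]
    refine integral_mono (j4.const_mul _) ((i1.add i2).sub i3) (fun x => ?_)
    have h1 := hτ.2 x
    have h2 := hσ.2 x
    have := sc1 h1.1 h2.1 h1.2 h2.2
    have e5 : τ x + 1/2 * (σ x - τ x) = (τ x + σ x) / 2 := by ring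
    simp only [Pi.sub_apply, Pi.add_apply]
    rw [e5]
    exact this
  have k2 : (∫ x, h x * (τ x + 1/2 * (σ x - τ x))) = 1/2 * (∫ x, h x * τ x) + 1/2 * ∫ x, h x * σ x := by
    rw [← integral_const_mul, ← integral_const_mul, ← integral_add ((hτ.inth hh hi).const_mul _) ((hσ.inth hh hi).const_mul _)]
    congr 1
    funext x; ring
  unfold Fn
  rw [k2, q1]
  rw [q2]
  linarith

lemma Fn_lower (hK : KOp ρh KK) (hρ : Nice ρh) (hh : Measurable h) (hi : Integrable (fun x => h x * ρh x))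
    {τ : E3 → ℝ} (hτ : Ad ρh τ) : - (∫ x, |h x * ρh x|) ≤ Fn KK h τ := by
  unfold Fn
  have h1 : 0 ≤ ∫ x, τ x ^ (5/3 : ℝ) := integral_nonneg (fun x => Real.rpow_nonneg (hτ.2 x).1 _)
  have h2 := hK.pos τ (hτ.nice hρ)
  have h3 : ∫ x, h x * τ x ≤ ∫ x, |h x * ρh x| := by
    refine integral_mono (hτ.inth hh hi) hi.abs (fun x => ?_)
    show h x * τ x ≤ |h x * ρh x|
    rw [abs_mul, abs_of_nonneg ((hτ.2 x).1.trans (hτ.2 x).2)]
    calc h x * τ x ≤ |h x| * τ x := mul_le_mul_of_nonneg_right (le_abs_self _) (hτ.2 x).1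
      _ ≤ |h x| * ρh x := mul_le_mul_of_nonneg_left (hτ.2 x).2 (abs_nonneg _)
  linarith

lemma exists_min (hK : KOp ρh KK) (hρ : Nice ρh) (hρ0 : ∀ x, 0 ≤ ρh x) (hh : Measurable h)
    (hi : Integrable (fun x => h x * ρh x)) :
    ∃ τ, Ad ρh τ ∧ ∀ σ, Ad ρh σ → Fn KK h τ ≤ Fn KK h σ := by
  set S : Set ℝ := {v | ∃ τ, Ad ρh τ ∧ Fn KK h τ = v} with hS
  have hSne : S.Nonempty := ⟨_, fun _ => 0, ⟨measurable_const, fun x => ⟨le_rfl, hρ0 x⟩⟩, rfl⟩
  have hSb : BddBelow S := ⟨- (∫ x, |h x * ρh x|), by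
    rintro v ⟨τ, hτ, rfl⟩; exact Fn_lower hK hρ hh hi hτ⟩
  set m := sInf S with hm
  have hle : ∀ σ, Ad ρh σ → m ≤ Fn KK h σ := fun σ hσ => csInf_le hSb ⟨σ, hσ, rfl⟩
  have hseq : ∀ n : ℕ, ∃ τ, Ad ρh τ ∧ Fn KK h τ < m + (1/4:ℝ) ^ n / 48 := by
    intro n
    have hpos : 0 < (1/4:ℝ) ^ n / 48 := by positivity
    obtain ⟨v, ⟨τ, hτ, rfl⟩, hv⟩ := exists_lt_of_csInf_lt hSne (show sInf S < m + (1/4:ℝ) ^ n / 48 by linarith)
    exact ⟨τ, hτ, hv⟩
  choose τ hτ hF using hseq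
  have hgap : ∀ N n k : ℕ, N ≤ n → N ≤ k → ∫ x, (τ n x - τ k x) ^ 2 / ρh x ^ (1/3 : ℝ) ≤ (1/4:ℝ) ^ N / 4 := by
    intro N n k hn hk
    have h1 := Fn_mid hK hρ hh hi (hτ n) (hτ k)
    have h2 := hle _ ((hτ n).comb (hτ k) (t := 1/2) (by norm_num) (by norm_num))
    have h3 := hF n
    have h4 := hF k
    have h5 : (1/4:ℝ) ^ n ≤ (1/4:ℝ) ^ N := pow_le_pow_of_le_one (by norm_num) (by norm_num) hn
    have h6 : (1/4:ℝ) ^ k ≤ (1/4:ℝ) ^ N := pow_le_pow_of_le_one (by norm_num) (by norm_num) hk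
    linarith
  set f : ℕ → E3 → ℝ := fun n x => τ n x / ρh x ^ (1/6 : ℝ) with hf
  have hfm : ∀ n, Measurable (f n) := fun n => (hτ n).1.div (hρ.1.pow_const _)
  have hfsq : ∀ n k x, (f n x - f k x) ^ 2 = (τ n x - τ k x) ^ 2 / ρh x ^ (1/3 : ℝ) := by
    intro n k x
    rw [hf]
    simp only
    rw [← sub_div, div_pow]
    congr 1
    rw [← Real.rpow_natCast, ← Real.rpow_mul (hρ0 x)]
    norm_num
  have hmem : ∀ n k, MemLp (f n - f k) 2 volume := by
    intro n k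
    rw [memLp_two_iff_integrable_sq ((hfm n).sub (hfm k)).aestronglyMeasurable]
    refine (gap_int hρ (hτ n) (hτ k)).congr (Eventually.of_forall (fun x => ?_))
    simp only [Pi.sub_apply]
    exact (hfsq n k x).symm
  have hcau : ∀ N n k : ℕ, N ≤ n → N ≤ k → eLpNorm (f n - f k) 2 volume < ENNReal.ofReal ((1/2:ℝ) ^ N) := by
    intro N n k hn hk
    rw [(hmem n k).eLpNorm_eq_integral_rpow_norm (by norm_num) (by norm_num)]
    refine (ENNReal.ofReal_lt_ofReal_iff (by positivity)).2 ?_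
    have e1 : ∫ x, ‖(f n - f k) x‖ ^ (2 : ℝ≥0∞).toReal = ∫ x, (τ n x - τ k x) ^ 2 / ρh x ^ (1/3 : ℝ) := by
      congr 1
      funext x
      rw [← hfsq n k x]
      simp
    rw [e1]
    have h1 := hgap N n k hn hk
    have h0 : 0 ≤ ∫ x, (τ n x - τ k x) ^ 2 / ρh x ^ (1/3 : ℝ) :=
      integral_nonneg (fun x => div_nonneg (sq_nonneg _) (Real.rpow_nonneg (hρ0 x) _))
    have h2 : (1/4:ℝ) ^ N / 4 < ((1/2:ℝ) ^ N) ^ 2 := by
      have : ((1/2:ℝ) ^ N) ^ 2 = (1/4:ℝ) ^ N := by rw [← pow_mul, mul_comm, pow_mul]; norm_num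
      rw [this]
      have : 0 < (1/4:ℝ) ^ N := by positivity
      linarith
    have h3 : (∫ x, (τ n x - τ k x) ^ 2 / ρh x ^ (1/3 : ℝ)) ^ ((2 : ℝ≥0∞).toReal)⁻¹
        = √(∫ x, (τ n x - τ k x) ^ 2 / ρh x ^ (1/3 : ℝ)) := by
      rw [Real.sqrt_eq_rpow]; norm_num
    rw [h3, Real.sqrt_lt' (by positivity)]
    exact h1.trans_lt h2
  have hB : ∑' i : ℕ, ENNReal.ofReal ((1/2:ℝ) ^ i) ≠ ∞ := by
    rw [← ENNReal.ofReal_tsum_of_nonneg (fun i => by positivity) summable_geometric_two]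
    exact ENNReal.ofReal_ne_top
  have hae := Lp.ae_tendsto_of_cauchy_eLpNorm (fun n => (hfm n).aestronglyMeasurable) (by norm_num : (1:ℝ≥0∞) ≤ 2) hB hcau
  have hae2 : ∀ᵐ x : E3, ∃ l : ℝ, Tendsto (fun n => τ n x) atTop (𝓝 l) := by
    filter_upwards [hae] with x hx
    obtain ⟨l, hl⟩ := hx
    rcases eq_or_lt_of_le (hρ0 x) with h0 | h0
    · refine ⟨0, ?_⟩
      have : (fun n => τ n x) = fun _ => (0:ℝ) := by
        funext n
        exact le_antisymm (((hτ n).2 x).2.trans h0.symm.le) ((hτ n).2 x).1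
      rw [this]; exact tendsto_const_nhds
    · refine ⟨l * ρh x ^ (1/6 : ℝ), ?_⟩
      refine (hl.mul_const (ρh x ^ (1/6 : ℝ))).congr (fun n => ?_)
      rw [hf]
      simp only
      have : ρh x ^ (1/6 : ℝ) ≠ 0 := (Real.rpow_pos_of_pos h0 _).ne'
      field_simp
  obtain ⟨τl, hτlm, hτl⟩ := measurable_limit_of_tendsto_metrizable_ae (fun n => (hτ n).1.aemeasurable) hae2
  set τ' : E3 → ℝ := fun x => min (max (τl x) 0) (ρh x) with hτ'
  have hAd : Ad ρh τ' := by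
    refine ⟨(hτlm.max measurable_const).min hρ.1, fun x => ⟨?_, min_le_right _ _⟩⟩
    exact le_min (le_max_right _ _) (hρ0 x)
  have hτ'l : ∀ᵐ x : E3, Tendsto (fun n => τ n x) atTop (𝓝 (τ' x)) := by
    filter_upwards [hτl] with x hx
    have h1 : 0 ≤ τl x := ge_of_tendsto' hx (fun n => ((hτ n).2 x).1)
    have h2 : τl x ≤ ρh x := le_of_tendsto' hx (fun n => ((hτ n).2 x).2)
    have : τ' x = τl x := by rw [hτ']; simp only; rw [max_eq_left h1, min_eq_left h2]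
    rw [this]; exact hx
  refine ⟨τ', hAd, fun σ hσ => ?_⟩
  have hlim : Tendsto (fun n => Fn KK h (τ n)) atTop (𝓝 (Fn KK h τ')) := by
    unfold Fn
    refine ((Tendsto.const_mul _ ?_).sub ?_).add (Tendsto.const_mul _ ?_)
    · refine tendsto_integral_of_dominated_convergence (fun x => ρh x ^ (5/3 : ℝ))
        (fun n => ((hτ n).1.pow_const _).aestronglyMeasurable) ?_ ?_ ?_
      · exact hρ.2.2.congr (Eventually.of_forall (fun x => by simp only; rw [abs_of_nonneg (hρ0 x)]))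
      · intro n
        refine Eventually.of_forall (fun x => ?_)
        rw [Real.norm_of_nonneg (Real.rpow_nonneg ((hτ n).2 x).1 _)]
        exact Real.rpow_le_rpow ((hτ n).2 x).1 ((hτ n).2 x).2 (by norm_num)
      · filter_upwards [hτ'l] with x hx
        exact hx.rpow_const (Or.inr (by norm_num))
    · refine tendsto_integral_of_dominated_convergence (fun x => |h x * ρh x|)
        (fun n => (hh.mul (hτ n).1).aestronglyMeasurable) hi.abs ?_ ?_
      · intro n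
        refine Eventually.of_forall (fun x => ?_)
        rw [Real.norm_eq_abs, abs_mul, abs_mul, abs_of_nonneg ((hτ n).2 x).1, abs_of_nonneg (hρ0 x)]
        exact mul_le_mul_of_nonneg_left ((hτ n).2 x).2 (abs_nonneg _)
      · filter_upwards [hτ'l] with x hx
        exact hx.const_mul _
    · obtain ⟨B, hB⟩ := hK.bdd
      refine tendsto_integral_of_dominated_convergence (fun x => ρh x * B)
        (fun n => ((hτ n).1.mul (hK.meas _ ((hτ n).nice hρ))).aestronglyMeasurable) (hρ.2.1.mul_const B) ?_ ?_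
      · intro n
        refine Eventually.of_forall (fun x => ?_)
        rw [norm_mul, Real.norm_of_nonneg ((hτ n).2 x).1, Real.norm_eq_abs]
        refine mul_le_mul ((hτ n).2 x).2 (hB _ (hτ n).1 (fun x => ?_) x) (abs_nonneg _) (hρ0 x)
        rw [abs_of_nonneg ((hτ n).2 x).1]
        exact ((hτ n).2 x).2
      · filter_upwards [hτ'l] with x hx
        refine hx.mul (hK.cont τ τ' (fun n => (hτ n).1) hAd.1 (fun n x => ?_) hτ'l x)
        rw [abs_of_nonneg ((hτ n).2 x).1]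
        exact ((hτ n).2 x).2
  have hlim2 : Tendsto (fun n : ℕ => m + (1/4:ℝ) ^ n / 48) atTop (𝓝 m) := by
    have h1 := (tendsto_pow_atTop_nhds_zero_of_lt_one (by norm_num : (0:ℝ) ≤ 1/4) (by norm_num)).div_const 48
    have h2 := h1.const_add m
    simpa using h2
  exact (le_of_tendsto_of_tendsto' hlim hlim2 (fun n => (hF n).le)).trans (hle σ hσ)

/-- existence of solutions of the truncated Euler-Lagrange equation -/
theorem exists_EL (hK : KOp ρh KK) (hρ : Nice ρh) (hρ0 : ∀ x, 0 ≤ ρh x) (hh : Measurable h)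
    (hi : Integrable (fun x => h x * ρh x)) :
    ∃ τ : E3 → ℝ, Ad ρh τ ∧ ∀ x, τ x = min (ρh x) (be (h x - KK τ x)) := by
  obtain ⟨τ, hτ, hmin⟩ := exists_min hK hρ hρ0 hh hi
  have nτ := hτ.nice hρ
  have hKm := hK.meas τ nτ
  obtain ⟨B, hB⟩ := hK.bdd1 τ nτ
  set ψ : E3 → ℝ := fun x => τ x ^ (2/3 : ℝ) - h x + KK τ x with hψ
  have hψm : Measurable ψ := ((hτ.1.pow_const _).sub hh).add hKm
  -- the variational inequality
  have hVI : ∀ σ, Ad ρh σ → 0 ≤ ∫ x, ψ x * (σ x - τ x) := by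
    intro σ hσ
    have nσ := hσ.nice hρ
    have nd := nice_sub' nσ nτ
    have hI3 : Integrable (fun x => h x * (σ x - τ x)) := by
      have := (hσ.inth hh hi).sub (hτ.inth hh hi)
      refine this.congr (Eventually.of_forall (fun x => ?_))
      simp only [Pi.sub_apply]; ring
    have hI4 : Integrable (fun x => (σ x - τ x) * KK τ x) := hK.int nd nτ
    have hstep : ∀ n : ℕ, 0 ≤ (∫ x, (τ x + (1/((n:ℝ)+1)) * (σ x - τ x)) ^ (2/3 : ℝ) * (σ x - τ x))
        - (∫ x, h x * (σ x - τ x)) + (∫ x, (σ x - τ x) * KK τ x)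
        + 1/2 * (1/((n:ℝ)+1)) * ∫ x, (σ x - τ x) * KK (fun x => σ x - τ x) x := by
      intro n
      set t : ℝ := 1/((n:ℝ)+1) with ht
      have ht0 : 0 < t := by positivity
      have ht1 : t ≤ 1 := by
        rw [ht, div_le_one (by positivity)]
        have : (0:ℝ) ≤ n := Nat.cast_nonneg n
        linarith
      have hc := hτ.comb hσ ht0.le ht1
      have h1 := hmin _ hc
      have q := hK.exp nτ nd t
      have k2 : (∫ x, h x * (τ x + t * (σ x - τ x))) = (∫ x, h x * τ x) + t * ∫ x, h x * (σ x - τ x) := by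
        rw [← integral_const_mul, ← integral_add (hτ.inth hh hi) (hI3.const_mul _)]
        congr 1
        funext x; ring
      have hI5 : Integrable (fun x => (τ x + t * (σ x - τ x)) ^ (2/3 : ℝ) * (σ x - τ x)) := by
        refine hρ.2.2.mono' ((hc.1.pow_const _).mul (hσ.1.sub hτ.1)).aestronglyMeasurable (Eventually.of_forall (fun x => ?_))
        rw [norm_mul, Real.norm_of_nonneg (Real.rpow_nonneg (hc.2 x).1 _), Real.norm_eq_abs]
        have a1 := Real.rpow_le_rpow (hc.2 x).1 (hc.2 x).2 (by norm_num : (0:ℝ) ≤ 2/3)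
        have a2 : |σ x - τ x| ≤ ρh x := by
          rw [abs_le]
          have := hσ.2 x
          have := hτ.2 x
          constructor <;> linarith
        refine (mul_le_mul a1 a2 (abs_nonneg _) (Real.rpow_nonneg (hρ0 x) _)).trans ?_
        rw [abs_of_nonneg (hρ0 x)]
        rcases eq_or_lt_of_le (hρ0 x) with h0 | h0
        · rw [← h0]; simp
        · apply le_of_eq
          nth_rw 2 [← Real.rpow_one (ρh x)]
          rw [← Real.rpow_add h0]; norm_num
      have k1 : 3/5 * (∫ x, (τ x + t * (σ x - τ x)) ^ (5/3 : ℝ)) - 3/5 * (∫ x, τ x ^ (5/3 : ℝ))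
          ≤ t * ∫ x, (τ x + t * (σ x - τ x)) ^ (2/3 : ℝ) * (σ x - τ x) := by
        rw [← integral_const_mul, ← integral_const_mul, ← integral_const_mul,
          ← integral_sub ((hc.int53 hρ).const_mul _) ((hτ.int53 hρ).const_mul _)]
        refine integral_mono (((hc.int53 hρ).const_mul _).sub ((hτ.int53 hρ).const_mul _)) (hI5.const_mul _) (fun x => ?_)
        have := sc2 (hτ.2 x).1 (hc.2 x).1
        simp only
        calc _ ≤ _ := this
          _ = _ := by ring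
      unfold Fn at h1
      rw [k2, q] at h1
      have h2 : 0 ≤ t * ((∫ x, (τ x + t * (σ x - τ x)) ^ (2/3 : ℝ) * (σ x - τ x))
        - (∫ x, h x * (σ x - τ x)) + (∫ x, (σ x - τ x) * KK τ x)
        + 1/2 * t * ∫ x, (σ x - τ x) * KK (fun x => σ x - τ x) x) := by linarith
      exact nonneg_of_mul_nonneg_right h2 ht0
    have ht : Tendsto (fun n : ℕ => 1/((n:ℝ)+1)) atTop (𝓝 0) := tendsto_one_div_add_atTop_nhds_zero_nat
    have hlim1 : Tendsto (fun n : ℕ => ∫ x, (τ x + (1/((n:ℝ)+1)) * (σ x - τ x)) ^ (2/3 : ℝ) * (σ x - τ x)) atTop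
        (𝓝 (∫ x, τ x ^ (2/3 : ℝ) * (σ x - τ x))) := by
      refine tendsto_integral_of_dominated_convergence (fun x => |ρh x| ^ (5/3 : ℝ)) ?_ hρ.2.2 ?_ ?_
      · intro n
        exact (((hτ.1.add (measurable_const.mul (hσ.1.sub hτ.1))).pow_const _).mul (hσ.1.sub hτ.1)).aestronglyMeasurable
      · intro n
        refine Eventually.of_forall (fun x => ?_)
        have ht0 : 0 ≤ 1/((n:ℝ)+1) := by positivity
        have ht1 : 1/((n:ℝ)+1) ≤ 1 := by
          rw [div_le_one (by positivity)]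
          have : (0:ℝ) ≤ n := Nat.cast_nonneg n
          linarith
        have hc := hτ.comb hσ ht0 ht1
        rw [norm_mul, Real.norm_of_nonneg (Real.rpow_nonneg (hc.2 x).1 _), Real.norm_eq_abs]
        have a1 := Real.rpow_le_rpow (hc.2 x).1 (hc.2 x).2 (by norm_num : (0:ℝ) ≤ 2/3)
        have a2 : |σ x - τ x| ≤ ρh x := by
          rw [abs_le]
          have := hσ.2 x
          have := hτ.2 x
          constructor <;> linarith
        refine (mul_le_mul a1 a2 (abs_nonneg _) (Real.rpow_nonneg (hρ0 x) _)).trans ?_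
        rw [abs_of_nonneg (hρ0 x)]
        rcases eq_or_lt_of_le (hρ0 x) with h0 | h0
        · rw [← h0]; simp
        · apply le_of_eq
          nth_rw 2 [← Real.rpow_one (ρh x)]
          rw [← Real.rpow_add h0]; norm_num
      · refine Eventually.of_forall (fun x => ?_)
        refine Tendsto.mul_const _ ?_
        have h1 : Tendsto (fun n : ℕ => τ x + (1/((n:ℝ)+1)) * (σ x - τ x)) atTop (𝓝 (τ x)) := by
          have := (ht.mul_const (σ x - τ x)).const_add (τ x)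
          simpa using this
        exact h1.rpow_const (Or.inr (by norm_num))
    have hlim := ((hlim1.sub_const (∫ x, h x * (σ x - τ x))).add_const (∫ x, (σ x - τ x) * KK τ x)).add
      ((ht.const_mul (1/2)).mul_const (∫ x, (σ x - τ x) * KK (fun x => σ x - τ x) x))
    have h2 := ge_of_tendsto' hlim hstep
    have hI1 : Integrable (fun x => τ x ^ (2/3 : ℝ) * (σ x - τ x)) := by
      refine hρ.2.2.mono' ((hτ.1.pow_const _).mul (hσ.1.sub hτ.1)).aestronglyMeasurable (Eventually.of_forall (fun x => ?_))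
      rw [norm_mul, Real.norm_of_nonneg (Real.rpow_nonneg (hτ.2 x).1 _), Real.norm_eq_abs]
      have a1 := Real.rpow_le_rpow (hτ.2 x).1 (hτ.2 x).2 (by norm_num : (0:ℝ) ≤ 2/3)
      have a2 : |σ x - τ x| ≤ ρh x := by
        rw [abs_le]
        have := hσ.2 x
        have := hτ.2 x
        constructor <;> linarith
      refine (mul_le_mul a1 a2 (abs_nonneg _) (Real.rpow_nonneg (hρ0 x) _)).trans ?_
      rw [abs_of_nonneg (hρ0 x)]
      rcases eq_or_lt_of_le (hρ0 x) with h0 | h0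
      · rw [← h0]; simp
      · apply le_of_eq
        nth_rw 2 [← Real.rpow_one (ρh x)]
        rw [← Real.rpow_add h0]; norm_num
    have e : ∫ x, ψ x * (σ x - τ x) = (∫ x, τ x ^ (2/3 : ℝ) * (σ x - τ x)) - (∫ x, h x * (σ x - τ x))
        + ∫ x, (σ x - τ x) * KK τ x := by
      have i0 : Integrable (fun x => τ x ^ (2/3 : ℝ) * (σ x - τ x) - h x * (σ x - τ x)) := hI1.sub hI3
      rw [← integral_sub hI1 hI3, ← integral_add i0 hI4]
      congr 1
      funext x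
      rw [hψ]; ring
    rw [e]
    linarith
  -- choose the test function
  set σ : E3 → ℝ := fun x => if ψ x < 0 then ρh x else 0 with hσdef
  have hσm : Measurable σ := Measurable.ite (measurableSet_lt hψm measurable_const) hρ.1 measurable_const
  have hσ : Ad ρh σ := ⟨hσm, fun x => by
    rw [hσdef]; simp only
    split_ifs
    · exact ⟨hρ0 x, le_rfl⟩
    · exact ⟨le_rfl, hρ0 x⟩⟩
  have hneg : ∀ x, ψ x * (σ x - τ x) ≤ 0 := by
    intro x
    rw [hσdef]; simp only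
    have := hτ.2 x
    split_ifs with h1
    · nlinarith
    · push Not at h1; nlinarith
  have hint : Integrable (fun x => ψ x * (σ x - τ x)) := by
    by_contra hcon
    -- integrable because each term is
    apply hcon
    have hI3 : Integrable (fun x => h x * (σ x - τ x)) := by
      have := (hσ.inth hh hi).sub (hτ.inth hh hi)
      refine this.congr (Eventually.of_forall (fun x => ?_))
      simp only [Pi.sub_apply]; ring
    have hI4 : Integrable (fun x => (σ x - τ x) * KK τ x) := hK.int (nice_sub' (hσ.nice hρ) nτ) nτ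
    have hI1 : Integrable (fun x => τ x ^ (2/3 : ℝ) * (σ x - τ x)) := by
      refine hρ.2.2.mono' ((hτ.1.pow_const _).mul (hσ.1.sub hτ.1)).aestronglyMeasurable (Eventually.of_forall (fun x => ?_))
      rw [norm_mul, Real.norm_of_nonneg (Real.rpow_nonneg (hτ.2 x).1 _), Real.norm_eq_abs]
      have a1 := Real.rpow_le_rpow (hτ.2 x).1 (hτ.2 x).2 (by norm_num : (0:ℝ) ≤ 2/3)
      have a2 : |σ x - τ x| ≤ ρh x := by
        rw [abs_le]
        have := hσ.2 x
        have := hτ.2 x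
        constructor <;> linarith
      refine (mul_le_mul a1 a2 (abs_nonneg _) (Real.rpow_nonneg (hρ0 x) _)).trans ?_
      rw [abs_of_nonneg (hρ0 x)]
      rcases eq_or_lt_of_le (hρ0 x) with h0 | h0
      · rw [← h0]; simp
      · apply le_of_eq
        nth_rw 2 [← Real.rpow_one (ρh x)]
        rw [← Real.rpow_add h0]; norm_num
    have := (hI1.sub hI3).add hI4
    refine this.congr (Eventually.of_forall (fun x => ?_))
    simp only [Pi.sub_apply, Pi.add_apply]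
    rw [hψ]; ring
  have hzero : (fun x => ψ x * (σ x - τ x)) =ᵐ[volume] 0 := by
    have h1 := hVI σ hσ
    have h2 : ∫ x, -(ψ x * (σ x - τ x)) = 0 := by
      rw [integral_neg]
      have h3 : ∫ x, ψ x * (σ x - τ x) ≤ 0 := integral_nonpos hneg
      linarith
    have h4 := (integral_eq_zero_iff_of_nonneg (fun x => by
      show 0 ≤ -(ψ x * (σ x - τ x))
      have := hneg x
      linarith) hint.neg).1 h2
    filter_upwards [h4] with x hx
    simp only [Pi.zero_apply, Pi.neg_apply] at hx ⊢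
    linarith
  have hae : ∀ᵐ x, τ x = min (ρh x) (be (h x - KK τ x)) := by
    filter_upwards [hzero] with x hx
    simp only [Pi.zero_apply] at hx
    have h1 := hτ.2 x
    have hbe : ∀ u : ℝ, 0 ≤ u → be (u ^ (2/3 : ℝ)) = u := by
      intro u hu
      rw [be_eq, ← Real.rpow_mul hu]; norm_num
    rcases lt_trichotomy (ψ x) 0 with h2 | h2 | h2
    · have e1 : σ x = ρh x := by rw [hσdef]; simp only; rw [if_pos h2]
      rw [e1] at hx
      have h3 : ρh x - τ x = 0 := by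
        rcases mul_eq_zero.1 hx with h | h
        · linarith
        · exact h
      have h4 : τ x ^ (2/3 : ℝ) ≤ h x - KK τ x := by
        have : ψ x = τ x ^ (2/3 : ℝ) - h x + KK τ x := rfl
        linarith
      have h5 := be_mono h4
      rw [hbe _ h1.1] at h5
      rw [min_eq_left (by linarith)]
      linarith
    · have h3 : h x - KK τ x = τ x ^ (2/3 : ℝ) := by
        have : ψ x = τ x ^ (2/3 : ℝ) - h x + KK τ x := rfl
        linarith
      rw [h3, hbe _ h1.1, min_eq_right h1.2]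
    · have e1 : σ x = 0 := by rw [hσdef]; simp only; rw [if_neg (not_lt.2 h2.le)]
      rw [e1] at hx
      have h3 : τ x = 0 := by
        rcases mul_eq_zero.1 hx with h | h
        · linarith
        · linarith
      have h4 : h x - KK τ x ≤ 0 := by
        have : ψ x = τ x ^ (2/3 : ℝ) - h x + KK τ x := rfl
        rw [h3, Real.zero_rpow (by norm_num)] at this
        linarith
      rw [be_zero_of h4, h3, min_eq_right (hρ0 x)]
  set τ2 : E3 → ℝ := fun x => min (ρh x) (be (h x - KK τ x)) with hτ2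
  have hae' : τ =ᵐ[volume] τ2 := hae
  refine ⟨τ2, ⟨hρ.1.min (be_meas.comp (hh.sub hKm)), fun x => ⟨le_min (hρ0 x) (be_nonneg _), min_le_left _ _⟩⟩, fun x => ?_⟩
  have := hK.congr τ τ2 hae' x
  rw [← this]

end Pool.Agent.H9R2.TF
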