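import Pool.Agent.H9R2.TF.Lay

set_option autoImplicit false
open MeasureTheory Set Filter Topology Metric
open scoped RealInnerProductSpace BigOperators ENNReal
open Pool.Agent.Helper557 Pool.Agent.Helper557.TFP

namespace Pool.Agent.H9R2.TF

variable {k : ℕ} {z : Fin k → ℝ} {R : Fin k → E3}

/-- electronic energy functional -/
noncomputable def EF (z : Fin k → ℝ) (R : Fin k → E3) (ρ : E3 → ℝ) : ℝ :=
  3/5 * (∫ x, ρ x ^ (5/3 : ℝ)) - (∫ x, VV z R x * ρ x) + 1/2 * ∫ x, ρ x * pot ρ x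

lemma vint (z : Fin k → ℝ) (R : Fin k → E3) {g : E3 → ℝ} (hg : Nice g) : Integrable (fun x => VV z R x * g x) := by
  have hq : ∀ j, Integrable (fun x => z j * (g x / ‖x - R j‖)) := by
    intro j
    obtain ⟨B, hB⟩ := nice_bound _ hg
    refine ((hB (R j)).1.const_mul (z j)).congr (Eventually.of_forall (fun x => ?_))
    simp only
    rw [norm_sub_rev]
  refine (integrable_finsetSum Finset.univ (fun j _ => hq j)).congr (Eventually.of_forall (fun x => ?_))
  unfold VV
  simp only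
  rw [Finset.sum_mul]
  refine Finset.sum_congr rfl (fun j _ => ?_)
  ring

lemma rpow23_sub {a b : ℝ} (ha : 0 ≤ a) (hb : 0 ≤ b) : |a ^ (2/3 : ℝ) - b ^ (2/3 : ℝ)| ≤ |a - b| ^ (2/3 : ℝ) := by
  have key : ∀ a b : ℝ, 0 ≤ b → b ≤ a → a ^ (2/3 : ℝ) - b ^ (2/3 : ℝ) ≤ (a - b) ^ (2/3 : ℝ) := by
    intro a b hb hab
    have := Real.rpow_add_le_add_rpow (a := b) (b := a - b) hb (sub_nonneg.2 hab) (by norm_num : (0:ℝ) ≤ 2/3) (by norm_num : (2/3:ℝ) ≤ 1)
    rw [add_sub_cancel] at this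
    linarith
  rcases le_total b a with h | h
  · rw [abs_of_nonneg (sub_nonneg.2 (Real.rpow_le_rpow hb h (by norm_num))), abs_of_nonneg (sub_nonneg.2 h)]
    exact key a b hb h
  · rw [abs_sub_comm, abs_sub_comm a b, abs_of_nonneg (sub_nonneg.2 (Real.rpow_le_rpow ha h (by norm_num))), abs_of_nonneg (sub_nonneg.2 h)]
    exact key b a ha h

lemma nice_of_adm {ρ : E3 → ℝ} (h : Adm ρ) : Nice ρ := by
  refine ⟨h.1, h.2.2.1, h.2.2.2.congr (Eventually.of_forall (fun x => ?_))⟩
  simp only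
  rw [abs_of_nonneg (h.2.1 x)]

lemma adm_of_nice {ρ : E3 → ℝ} (h : Nice ρ) (h0 : ∀ x, 0 ≤ ρ x) : Adm ρ := by
  refine ⟨h.1, h0, h.2.1, h.2.2.congr (Eventually.of_forall (fun x => ?_))⟩
  simp only
  rw [abs_of_nonneg (h0 x)]

/-- first variation inequality -/
lemma first_var {ρ : E3 → ℝ} (hρ : Adm ρ) (hmin : ∀ σ, Adm σ → (∫ x, σ x) = (∫ x, ρ x) → EF z R ρ ≤ EF z R σ)
    {h : E3 → ℝ} (nh : Nice h) (hb : ∃ M, ∀ x, |h x| ≤ M) (h0 : ∫ x, h x = 0) {η : ℝ} (hη : 0 < η)
    (hpos : ∀ x, ∀ t, 0 ≤ t → t ≤ η → 0 ≤ ρ x + t * h x) :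
    Integrable (fun x => h x * (ρ x ^ (2/3 : ℝ) - VV z R x + pot ρ x)) ∧
    0 ≤ ∫ x, h x * (ρ x ^ (2/3 : ℝ) - VV z R x + pot ρ x) := by
  have nρ := nice_of_adm hρ
  obtain ⟨M, hM⟩ := hb
  have i1 : Integrable (fun x => h x * ρ x ^ (2/3 : ℝ)) := by
    refine (nh.2.1.abs.add (hρ.2.2.2.const_mul M)).mono' ((nh.1.mul (hρ.1.pow_const _)).aestronglyMeasurable)
      (Eventually.of_forall (fun x => ?_))
    rw [norm_mul, Real.norm_eq_abs, Real.norm_of_nonneg (Real.rpow_nonneg (hρ.2.1 x) _)]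
    simp only [Pi.add_apply]
    have hM0 : 0 ≤ M := (abs_nonneg _).trans (hM x)
    rcases le_total (ρ x) 1 with h1 | h1
    · have a1 : ρ x ^ (2/3 : ℝ) ≤ 1 := Real.rpow_le_one (hρ.2.1 x) h1 (by norm_num)
      have a2 : 0 ≤ ρ x ^ (5/3 : ℝ) := Real.rpow_nonneg (hρ.2.1 x) _
      have a3 : |h x| * ρ x ^ (2/3 : ℝ) ≤ |h x| * 1 := mul_le_mul_of_nonneg_left a1 (abs_nonneg _)
      have a4 : 0 ≤ M * ρ x ^ (5/3 : ℝ) := mul_nonneg hM0 a2
      linarith
    · have a1 : ρ x ^ (2/3 : ℝ) ≤ ρ x ^ (5/3 : ℝ) := Real.rpow_le_rpow_of_exponent_le h1 (by norm_num)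
      have a2 : 0 ≤ ρ x ^ (2/3 : ℝ) := Real.rpow_nonneg (hρ.2.1 x) _
      have a3 : |h x| * ρ x ^ (2/3 : ℝ) ≤ M * ρ x ^ (5/3 : ℝ) := mul_le_mul (hM x) a1 a2 hM0
      have a4 := abs_nonneg (h x)
      linarith
  have i2 : Integrable (fun x => VV z R x * h x) := vint z R nh
  have i3 : Integrable (fun x => h x * pot ρ x) := TF_E1_int h ρ nh.2.1 nρ
  have itot : Integrable (fun x => h x * (ρ x ^ (2/3 : ℝ) - VV z R x + pot ρ x)) := by
    refine ((i1.sub i2).add i3).congr (Eventually.of_forall (fun x => ?_))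
    simp only [Pi.add_apply, Pi.sub_apply]
    ring
  have etot : ∫ x, h x * (ρ x ^ (2/3 : ℝ) - VV z R x + pot ρ x)
      = (∫ x, h x * ρ x ^ (2/3 : ℝ)) - (∫ x, VV z R x * h x) + ∫ x, h x * pot ρ x := by
    have i12 : Integrable (fun x => h x * ρ x ^ (2/3 : ℝ) - VV z R x * h x) := i1.sub i2
    rw [← integral_sub i1 i2, ← integral_add i12 i3]
    congr 1
    funext x
    ring
  refine ⟨itot, ?_⟩
  -- basic inequality
  have key : ∀ t : ℝ, 0 < t → t ≤ η → 0 ≤ (∫ x, h x * (ρ x ^ (2/3 : ℝ) - VV z R x + pot ρ x))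
      + (t ^ (2/3 : ℝ) * (∫ x, |h x| ^ (5/3 : ℝ)) + t * (1/2 * ∫ x, h x * pot h x)) := by
    intro t ht htη
    have nth : Nice (fun x => t * h x) := nice_smul nh t
    have nσ : Nice (fun x => ρ x + t * h x) := nice_add nρ nth
    have aσ : Adm (fun x => ρ x + t * h x) := adm_of_nice nσ (fun x => hpos x t ht.le htη)
    have mσ : ∫ x, (ρ x + t * h x) = ∫ x, ρ x := by
      rw [integral_add hρ.2.2.1 (nh.2.1.const_mul t), integral_const_mul, h0, mul_zero, add_zero]
    have hE := hmin _ aσ mσ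
    -- kinetic part
    have k1 : 3/5 * (∫ x, (ρ x + t * h x) ^ (5/3 : ℝ)) - 3/5 * (∫ x, ρ x ^ (5/3 : ℝ))
        ≤ t * (∫ x, h x * ρ x ^ (2/3 : ℝ)) + t * (t ^ (2/3 : ℝ) * ∫ x, |h x| ^ (5/3 : ℝ)) := by
      rw [← integral_const_mul, ← integral_const_mul, ← integral_const_mul (t ^ (2/3 : ℝ)), ← integral_const_mul t, ← integral_const_mul t,
        ← integral_sub (aσ.2.2.2.const_mul _) (hρ.2.2.2.const_mul _),
        ← integral_add (i1.const_mul t) ((nh.2.2.const_mul _).const_mul t)]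
      refine integral_mono ((aσ.2.2.2.const_mul _).sub (hρ.2.2.2.const_mul _)) ((i1.const_mul t).add ((nh.2.2.const_mul _).const_mul t)) (fun x => ?_)
      simp only
      refine (sc2 (hρ.2.1 x) (hpos x t ht.le htη)).trans ?_
      have e1 : ρ x + t * h x - ρ x = t * h x := by ring
      rw [e1]
      have e2 := rpow23_sub (hpos x t ht.le htη) (hρ.2.1 x)
      rw [e1, abs_mul, abs_of_pos ht, Real.mul_rpow ht.le (abs_nonneg _)] at e2
      have e3 : (ρ x + t * h x) ^ (2/3 : ℝ) * (t * h x) = t * (h x * ρ x ^ (2/3 : ℝ))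
          + t * (((ρ x + t * h x) ^ (2/3 : ℝ) - ρ x ^ (2/3 : ℝ)) * h x) := by ring
      rw [e3]
      have e4 : ((ρ x + t * h x) ^ (2/3 : ℝ) - ρ x ^ (2/3 : ℝ)) * h x ≤ t ^ (2/3 : ℝ) * |h x| ^ (5/3 : ℝ) := by
        refine (le_abs_self _).trans ?_
        rw [abs_mul]
        refine (mul_le_mul_of_nonneg_right e2 (abs_nonneg _)).trans (le_of_eq ?_)
        have : |h x| ^ (5/3 : ℝ) = |h x| ^ (2/3 : ℝ) * |h x| := by
          rcases eq_or_lt_of_le (abs_nonneg (h x)) with h' | h'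
          · rw [← h', Real.zero_rpow (by norm_num)]; simp
          · rw [show (5/3 : ℝ) = 2/3 + 1 by norm_num, Real.rpow_add h', Real.rpow_one]
        rw [this]; ring
      have := mul_le_mul_of_nonneg_left e4 ht.le
      linarith
    -- nuclear part
    have k2 : (∫ x, VV z R x * (ρ x + t * h x)) = (∫ x, VV z R x * ρ x) + t * ∫ x, VV z R x * h x := by
      rw [← integral_const_mul, ← integral_add (vint z R nρ) (i2.const_mul t)]
      congr 1
      funext x; ring
    -- Coulomb part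
    have hpot : ∀ x, pot (fun x => ρ x + t * h x) x = pot ρ x + t * pot h x := fun x => pot_lin nρ nh t x
    have k3 : (∫ x, (ρ x + t * h x) * pot (fun x => ρ x + t * h x) x)
        = (∫ x, ρ x * pot ρ x) + t * (2 * ∫ x, h x * pot ρ x) + t * (t * ∫ x, h x * pot h x) := by
      have j1 := TF_E1_int ρ ρ nρ.2.1 nρ
      have j2 := TF_E1_int ρ h nρ.2.1 nh
      have j3 := TF_E1_int h h nh.2.1 nh
      have sy := TF_E1_symm ρ h nρ nh
      have : (fun x => (ρ x + t * h x) * pot (fun x => ρ x + t * h x) x)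
          = fun x => ((ρ x * pot ρ x) + t * (ρ x * pot h x)) + (t * (h x * pot ρ x) + t * (t * (h x * pot h x))) := by
        funext x
        rw [hpot]; ring
      have a1 : Integrable (fun x => (ρ x * pot ρ x) + t * (ρ x * pot h x)) := j1.add (j2.const_mul t)
      have a2 : Integrable (fun x => t * (h x * pot ρ x) + t * (t * (h x * pot h x))) := (i3.const_mul t).add ((j3.const_mul t).const_mul t)
      rw [this, integral_add a1 a2, integral_add j1 (j2.const_mul t), integral_add (i3.const_mul t) ((j3.const_mul t).const_mul t),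
        integral_const_mul, integral_const_mul, integral_const_mul, integral_const_mul, sy]
      ring
    unfold EF at hE
    rw [k2, k3] at hE
    rw [etot]
    have h5 : 0 ≤ t * ((∫ x, h x * ρ x ^ (2/3 : ℝ)) - (∫ x, VV z R x * h x) + (∫ x, h x * pot ρ x)
        + (t ^ (2/3 : ℝ) * (∫ x, |h x| ^ (5/3 : ℝ)) + t * (1/2 * ∫ x, h x * pot h x))) := by
      nlinarith [hE, k1]
    exact (mul_nonneg_iff_of_pos_left ht).1 h5
  have lim : Tendsto (fun t : ℝ => (∫ x, h x * (ρ x ^ (2/3 : ℝ) - VV z R x + pot ρ x))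
      + (t ^ (2/3 : ℝ) * (∫ x, |h x| ^ (5/3 : ℝ)) + t * (1/2 * ∫ x, h x * pot h x))) (𝓝[>] 0)
      (𝓝 (∫ x, h x * (ρ x ^ (2/3 : ℝ) - VV z R x + pot ρ x))) := by
    have hc : Continuous (fun t : ℝ => (∫ x, h x * (ρ x ^ (2/3 : ℝ) - VV z R x + pot ρ x))
      + (t ^ (2/3 : ℝ) * (∫ x, |h x| ^ (5/3 : ℝ)) + t * (1/2 * ∫ x, h x * pot h x))) :=
      continuous_const.add (((Real.continuous_rpow_const (by norm_num)).mul continuous_const).add (continuous_id.mul continuous_const))
    have := (hc.tendsto 0).mono_left (nhdsWithin_le_nhds (s := Ioi 0))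
    simpa [Real.zero_rpow (by norm_num : (2/3:ℝ) ≠ 0)] using this
  refine ge_of_tendsto lim ?_
  have hmem : Ioc (0:ℝ) η ∈ 𝓝[>] (0:ℝ) := Ioc_mem_nhdsGT hη
  filter_upwards [hmem] with t ht
  exact key t ht.1 ht.2

/-- dichotomy -/
lemma dicho {ρ : E3 → ℝ} (hρ : Adm ρ) (hmin : ∀ σ, Adm σ → (∫ x, σ x) = (∫ x, ρ x) → EF z R ρ ≤ EF z R σ) (s : ℝ) :
    (∀ᵐ x, s ≤ ρ x ^ (2/3 : ℝ) - VV z R x + pot ρ x) ∨
    (∀ᵐ x, 0 < ρ x → ρ x ^ (2/3 : ℝ) - VV z R x + pot ρ x ≤ s) := by
  have nρ := nice_of_adm hρ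
  by_contra hcon
  rw [not_or] at hcon
  obtain ⟨hc1, hc2⟩ := hcon
  set ψ : E3 → ℝ := fun x => ρ x ^ (2/3 : ℝ) - VV z R x + pot ρ x with hψ
  have mψ : Measurable ψ := ((hρ.1.pow_const _).sub (VV_meas z R)).add (TF_E1_meas ρ hρ.1)
  -- the sets
  obtain ⟨m, hm⟩ : ∃ m : ℕ, volume ({x | ψ x < s} ∩ ball 0 (m:ℝ)) ≠ 0 := by
    by_contra hall
    push Not at hall
    apply hc1
    rw [ae_iff]
    refine measure_mono_null ?_ (measure_iUnion_null hall)
    intro x hx
    simp only [mem_setOf_eq, not_le] at hx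
    obtain ⟨m, hm⟩ := exists_nat_gt ‖x‖
    exact mem_iUnion.2 ⟨m, hx, by rw [mem_ball_zero_iff]; exact hm⟩
  obtain ⟨n, hn⟩ : ∃ n : ℕ, volume ({x | 1 / ((n:ℝ) + 1) < ρ x ∧ s < ψ x} ∩ ball 0 (n:ℝ)) ≠ 0 := by
    by_contra hall
    push Not at hall
    apply hc2
    rw [ae_iff]
    refine measure_mono_null ?_ (measure_iUnion_null hall)
    intro x hx
    simp only [mem_setOf_eq, Classical.not_imp, not_le] at hx
    obtain ⟨m1, hm1⟩ := exists_nat_gt ‖x‖
    obtain ⟨m2, hm2⟩ := exists_nat_one_div_lt hx.1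
    refine mem_iUnion.2 ⟨max m1 m2, ⟨?_, hx.2⟩, ?_⟩
    · refine lt_of_le_of_lt ?_ hm2
      refine one_div_le_one_div_of_le (by positivity) ?_
      have : (m2:ℝ) ≤ ((max m1 m2 : ℕ) : ℝ) := by exact_mod_cast le_max_right _ _
      linarith
    · rw [mem_ball_zero_iff]
      refine hm1.trans_le ?_
      exact_mod_cast le_max_left _ _
  set B : Set E3 := {x | ψ x < s} ∩ ball 0 (m:ℝ) with hB
  set A : Set E3 := {x | 1 / ((n:ℝ) + 1) < ρ x ∧ s < ψ x} ∩ ball 0 (n:ℝ) with hA
  have mB : MeasurableSet B := (measurableSet_lt mψ measurable_const).inter measurableSet_ball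
  have mA : MeasurableSet A :=
    ((measurableSet_lt measurable_const hρ.1).inter (measurableSet_lt measurable_const mψ)).inter measurableSet_ball
  have fB : volume B ≠ ⊤ := ((measure_mono inter_subset_right).trans_lt measure_ball_lt_top).ne
  have fA : volume A ≠ ⊤ := ((measure_mono inter_subset_right).trans_lt measure_ball_lt_top).ne
  set a := (volume A).toReal with ha
  set b := (volume B).toReal with hb
  have pa : 0 < a := ENNReal.toReal_pos hn fA
  have pb : 0 < b := ENNReal.toReal_pos hm fB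
  set h : E3 → ℝ := fun x => a * B.indicator (fun _ => (1:ℝ)) x - b * A.indicator (fun _ => (1:ℝ)) x with hh
  have nind : ∀ S : Set E3, MeasurableSet S → volume S ≠ ⊤ → Nice (S.indicator (fun _ => (1:ℝ))) := by
    intro S mS fS
    refine ⟨measurable_const.indicator mS, (integrable_indicator_iff mS).2 (integrableOn_const fS), ?_⟩
    have : (fun x => |S.indicator (fun _ => (1:ℝ)) x| ^ (5/3 : ℝ)) = S.indicator (fun _ => (1:ℝ)) := by
      funext x
      by_cases hx : x ∈ S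
      · simp [hx]
      · simp [hx]
    rw [this]
    exact (integrable_indicator_iff mS).2 (integrableOn_const fS)
  have nh : Nice h := nice_sub' (nice_smul (nind B mB fB) a) (nice_smul (nind A mA fA) b)
  have hbd : ∀ x, |h x| ≤ a + b := by
    intro x
    rw [hh]
    simp only
    by_cases hx : x ∈ B <;> by_cases hy : x ∈ A <;> simp [hx, hy, abs_le] <;> (try constructor) <;> linarith
  have ind_int : ∀ S : Set E3, MeasurableSet S → ∫ x, S.indicator (fun _ => (1:ℝ)) x = (volume S).toReal := by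
    intro S mS
    exact integral_indicator_one mS
  have h0 : ∫ x, h x = 0 := by
    rw [hh]
    rw [integral_sub ((nind B mB fB).2.1.const_mul a) ((nind A mA fA).2.1.const_mul b), integral_const_mul, integral_const_mul,
      ind_int B mB, ind_int A mA]
    ring
  have hpos : ∀ x, ∀ t, 0 ≤ t → t ≤ 1 / (((n:ℝ) + 1) * b) → 0 ≤ ρ x + t * h x := by
    intro x t ht0 ht
    by_cases hy : x ∈ A
    · have h1 : 1 / ((n:ℝ) + 1) < ρ x := hy.1.1
      have h2 : - b ≤ h x := by
        rw [hh]; simp only [indicator_of_mem hy]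
        have : 0 ≤ B.indicator (fun _ => (1:ℝ)) x := indicator_nonneg (fun _ _ => zero_le_one) x
        have := mul_nonneg pa.le this
        linarith
      have h3 : t * b ≤ 1 / ((n:ℝ) + 1) := by
        have := mul_le_mul_of_nonneg_right ht pb.le
        refine this.trans (le_of_eq ?_)
        field_simp
      have h4 := mul_le_mul_of_nonneg_left h2 ht0
      have h5 : t * -b = - (t * b) := by ring
      rw [h5] at h4
      linarith
    · have h2 : 0 ≤ h x := by
        rw [hh]; simp only [indicator_of_notMem hy]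
        have : 0 ≤ B.indicator (fun _ => (1:ℝ)) x := indicator_nonneg (fun _ _ => zero_le_one) x
        have := mul_nonneg pa.le this
        linarith
      have := hρ.2.1 x
      positivity
  obtain ⟨fi, fv⟩ := first_var hρ hmin nh ⟨a + b, hbd⟩ h0 (by positivity : (0:ℝ) < 1 / (((n:ℝ) + 1) * b)) hpos
  -- contradiction
  have c1 : ∀ x, 0 ≤ h x * (s - ψ x) := by
    intro x
    by_cases hx : x ∈ B
    · have hy : x ∉ A := fun hy => by
        have q1 : ψ x < s := hx.1
        have q2 : s < ψ x := hy.1.2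
        linarith
      have : h x = a := by rw [hh]; simp [hx, hy]
      rw [this]
      have q1 : ψ x < s := hx.1
      exact mul_nonneg pa.le (by linarith)
    · by_cases hy : x ∈ A
      · have : h x = - b := by rw [hh]; simp [hx, hy]
        rw [this]
        have q2 : s < ψ x := hy.1.2
        nlinarith
      · have : h x = 0 := by rw [hh]; simp [hx, hy]
        rw [this, zero_mul]
  have c2 : Integrable (fun x => h x * (s - ψ x)) := by
    refine ((nh.2.1.mul_const s).sub fi).congr (Eventually.of_forall (fun x => ?_))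
    simp only [Pi.sub_apply]
    rw [hψ]; ring
  have c3 : ∫ x, h x * (s - ψ x) ≤ 0 := by
    have : (fun x => h x * (s - ψ x)) = fun x => h x * s - h x * ψ x := by funext x; ring
    rw [this, integral_sub (nh.2.1.mul_const s) fi, integral_mul_const, h0, zero_mul]
    linarith
  have c4 : ∫ x, h x * (s - ψ x) = 0 := le_antisymm c3 (integral_nonneg c1)
  rw [integral_eq_zero_iff_of_nonneg c1 c2] at c4
  have c5 : volume {x | ¬ h x * (s - ψ x) = 0} = 0 := c4
  refine hm (measure_mono_null ?_ c5)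
  intro x hx
  have hy : x ∉ A := fun hy => by
    have q1 : ψ x < s := hx.1
    have q2 : s < ψ x := hy.1.2
    linarith
  have : h x = a := by rw [hh]; simp [hx, hy]
  simp only [mem_setOf_eq]
  rw [this]
  have q1 : ψ x < s := hx.1
  exact (mul_pos pa (by linarith)).ne'

end Pool.Agent.H9R2.TF
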