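import Pool.Agent.H9R2.TF.Emin

set_option autoImplicit false
open MeasureTheory Set Filter Topology Metric
open scoped RealInnerProductSpace BigOperators ENNReal
open Pool.Agent.Helper557 Pool.Agent.Helper557.TFP

namespace Pool.Agent.H9R2.TF

variable {k : ℕ} {z : Fin k → ℝ} {R : Fin k → E3}

lemma be_of_pow {r u : ℝ} (hr : 0 < r) (h : r ^ (2/3 : ℝ) = u) : be u = r := by
  have hu : 0 < u := by rw [← h]; exact Real.rpow_pos_of_pos hr _
  unfold be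
  rw [max_eq_left hu.le, ← h, ← Real.rpow_mul hr.le]
  norm_num

/-- the Euler-Lagrange equation of a minimiser -/
theorem min_EL {ρ : E3 → ℝ} (hρ : Adm ρ) (hmin : ∀ σ, Adm σ → (∫ x, σ x) = (∫ x, ρ x) → EF z R ρ ≤ EF z R σ)
    (hpos : 0 < ∫ x, ρ x) : ∃ Φ, 0 ≤ Φ ∧ ∃ ρ', ELs z R Φ ρ' ∧ ρ =ᵐ[volume] ρ' := by
  have nρ := nice_of_adm hρ
  set ψ : E3 → ℝ := fun x => ρ x ^ (2/3 : ℝ) - VV z R x + pot ρ x with hψ
  have d : ∀ s, (∀ᵐ x, s ≤ ψ x) ∨ (∀ᵐ x, 0 < ρ x → ψ x ≤ s) := dicho hρ hmin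
  have hP : ¬ ∀ᵐ x, ¬ 0 < ρ x := by
    intro hP
    have : ρ =ᵐ[volume] fun _ => 0 := by
      filter_upwards [hP] with x hx
      exact le_antisymm (not_lt.1 hx) (hρ.2.1 x)
    rw [integral_congr_ae this, integral_zero] at hpos
    exact lt_irrefl _ hpos
  obtain ⟨n0, hn0⟩ : ∃ n : ℕ, ¬ ∀ᵐ x, 0 < ρ x → ψ x ≤ -(n:ℝ) := by
    by_contra hall
    push Not at hall
    rw [← ae_all_iff] at hall
    apply hP
    filter_upwards [hall] with x hx hx0
    obtain ⟨n, hn⟩ := exists_nat_gt (- ψ x)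
    have := hx n hx0
    linarith
  obtain ⟨n1, hn1⟩ : ∃ n : ℕ, ¬ ∀ᵐ x, (n:ℝ) ≤ ψ x := by
    by_contra hall
    push Not at hall
    rw [← ae_all_iff] at hall
    have : ∀ᵐ x : E3, False := by
      filter_upwards [hall] with x hx
      obtain ⟨n, hn⟩ := exists_nat_gt (ψ x)
      have := hx n
      linarith
    rw [ae_iff] at this
    simp at this
  set S : Set ℝ := {s | ∀ᵐ x, s ≤ ψ x} with hS
  have neS : S.Nonempty := ⟨-(n0:ℝ), (d _).resolve_right hn0⟩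
  have bdS : BddAbove S := by
    refine ⟨(n1:ℝ), fun s hs => ?_⟩
    by_contra hlt
    rw [not_le] at hlt
    apply hn1
    have hs' : ∀ᵐ x, s ≤ ψ x := hs
    filter_upwards [hs'] with x hx
    exact hlt.le.trans hx
  set c := sSup S with hc
  have c1 : ∀ᵐ x, c ≤ ψ x := by
    have : ∀ n : ℕ, ∀ᵐ x, c - 1 / ((n:ℝ) + 1) ≤ ψ x := by
      intro n
      have hlt : c - 1 / ((n:ℝ) + 1) < sSup S := by
        rw [← hc]
        have : (0:ℝ) < 1 / ((n:ℝ) + 1) := by positivity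
        linarith
      obtain ⟨s, hs, hs2⟩ := exists_lt_of_lt_csSup neS hlt
      have hs' : ∀ᵐ x, s ≤ ψ x := hs
      filter_upwards [hs'] with x hx
      exact hs2.le.trans hx
    rw [← ae_all_iff] at this
    filter_upwards [this] with x hx
    refine le_of_forall_pos_le_add (fun ε hε => ?_)
    obtain ⟨n, hn⟩ := exists_nat_one_div_lt hε
    have := hx n
    linarith
  have c2 : ∀ᵐ x, 0 < ρ x → ψ x ≤ c := by
    have : ∀ n : ℕ, ∀ᵐ x, 0 < ρ x → ψ x ≤ c + 1 / ((n:ℝ) + 1) := by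
      intro n
      refine (d _).resolve_left (fun hs => ?_)
      have := le_csSup bdS (show c + 1 / ((n:ℝ) + 1) ∈ S from hs)
      rw [← hc] at this
      have h0 : (0:ℝ) < 1 / ((n:ℝ) + 1) := by positivity
      linarith
    rw [← ae_all_iff] at this
    filter_upwards [this] with x hx hx0
    refine le_of_forall_pos_le_add (fun ε hε => ?_)
    obtain ⟨n, hn⟩ := exists_nat_one_div_lt hε
    have := hx n hx0
    linarith
  have hae : ρ =ᵐ[volume] fun x => be (VV z R x - pot ρ x - (-c)) := by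
    filter_upwards [c1, c2] with x h1 h2
    rcases eq_or_lt_of_le (hρ.2.1 x) with h0 | h0
    · rw [hψ] at h1
      simp only at h1
      rw [← h0, Real.zero_rpow (by norm_num)] at h1
      rw [← h0, be_zero_of (by linarith)]
    · have h3 := h2 h0
      rw [hψ] at h1 h3
      simp only at h1 h3
      rw [be_of_pow h0 (by linarith)]
  have hc0 : c ≤ 0 := by
    by_contra hcp
    rw [not_le] at hcp
    obtain ⟨M1, hM1⟩ := VV_decay z R (c/4) (by linarith)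
    obtain ⟨M2, hM2⟩ := pot_decay nρ (c/4) (by linarith)
    set ε := (c/2) ^ (3/2 : ℝ) with hε
    have hε0 : 0 < ε := Real.rpow_pos_of_pos (by linarith) _
    have hfin := nρ.2.1.measure_norm_ge_lt_top hε0
    have hsub : (univ : Set E3) ⊆ ball 0 (max M1 M2) ∪ ({x | ε ≤ ‖ρ x‖} ∪ {x | ¬ c ≤ ψ x}) := by
      intro x _
      by_cases hx : ‖x‖ < max M1 M2
      · exact Or.inl (by rw [mem_ball_zero_iff]; exact hx)
      · rw [not_lt] at hx
        by_cases hx2 : c ≤ ψ x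
        · refine Or.inr (Or.inl ?_)
          have a1 := (abs_le.1 (hM1 x ((le_max_left _ _).trans hx))).2
          have a2 := (abs_le.1 (hM2 x ((le_max_right _ _).trans hx))).1
          have a2' := (abs_le.1 (hM2 x ((le_max_right _ _).trans hx))).2
          have a1' := (abs_le.1 (hM1 x ((le_max_left _ _).trans hx))).1
          rw [hψ] at hx2
          simp only at hx2
          have a3 : c/2 ≤ ρ x ^ (2/3 : ℝ) := by linarith
          show ε ≤ ‖ρ x‖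
          rw [Real.norm_of_nonneg (hρ.2.1 x)]
          have a4 := Real.rpow_le_rpow (by linarith) a3 (by norm_num : (0:ℝ) ≤ 3/2)
          rw [← Real.rpow_mul (hρ.2.1 x)] at a4
          rw [hε]
          refine a4.trans (le_of_eq ?_)
          norm_num
        · exact Or.inr (Or.inr hx2)
    have h1 : volume (univ : Set E3) < ⊤ := by
      refine (measure_mono hsub).trans_lt ?_
      refine (measure_union_le _ _).trans_lt ?_
      refine ENNReal.add_lt_top.2 ⟨measure_ball_lt_top, ?_⟩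
      refine (measure_union_le _ _).trans_lt ?_
      refine ENNReal.add_lt_top.2 ⟨hfin, ?_⟩
      have : volume {x | ¬ c ≤ ψ x} = 0 := c1
      rw [this]
      exact ENNReal.zero_lt_top
    simp at h1
  refine ⟨-c, by linarith, fun x => be (VV z R x - pot ρ x - (-c)), ⟨?_, ?_⟩, hae⟩
  · refine ⟨be_meas.comp (((VV_meas z R).sub (TF_E1_meas ρ hρ.1)).sub_const _), nρ.2.1.congr hae, ?_⟩
    refine nρ.2.2.congr ?_
    filter_upwards [hae] with x hx
    rw [hx]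
  · intro x
    rw [← pot_congr hae]

lemma exists_rho {Φ₂ Φ : ℝ} {ρ₂ : E3 → ℝ} (h₂ : ELs z R Φ₂ ρ₂) (hΦ : Φ₂ ≤ Φ) :
    ∃ τ, ELs z R Φ τ ∧ ∀ x, τ x ≤ ρ₂ x := by
  obtain ⟨τ, hτ, he⟩ := exists_EL (h := fun x => VV z R x - Φ) (kop_full h₂.nice) h₂.nice h₂.nonneg
    ((VV_meas z R).sub_const _) (((vint z R h₂.nice).sub (h₂.nice.2.1.const_mul Φ)).congr (Eventually.of_forall (fun x => by
      simp only [Pi.sub_apply]; ring)))
  have nτ := hτ.nice h₂.nice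
  have nν := nice_sub' nτ h₂.nice
  have hw : ∀ x, 0 ≤ pot (fun y => τ y - ρ₂ y) x + (Φ - Φ₂) := by
    refine cmp_full nν (sub_nonneg.2 hΦ) (Eventually.of_forall (fun y hy => ?_))
    rw [pot_sub nτ h₂.nice] at hy
    have h1 : ρ₂ y ≤ be (VV z R y - Φ - pot τ y) := by
      rw [h₂.eq]
      exact be_mono (by linarith)
    have h2 := he y
    rw [min_eq_left h1] at h2
    rw [h2, sub_self]
  refine ⟨τ, ⟨nτ, fun x => ?_⟩, fun x => (hτ.2 x).2⟩
  have h1 := hw x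
  rw [pot_sub nτ h₂.nice] at h1
  have h2 : be (VV z R x - Φ - pot τ x) ≤ ρ₂ x := by
    rw [h₂.eq]
    exact be_mono (by linarith)
  have h3 := he x
  rw [min_eq_right h2] at h3
  rw [h3]
  congr 1
  ring

lemma prod_pot {g : E3 → ℝ} (hg : Nice g) :
    ∫ p : E3 × E3, g p.1 * g p.2 / ‖p.1 - p.2‖ = ∫ x, g x * pot g x := by
  rw [← TF_E1_dbl g g, Measure.volume_eq_prod]
  have := prod_coul hg hg
  rw [Measure.volume_eq_prod] at this
  exact integral_prod _ this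

/-- the case of no electrons -/
theorem ThmM0 (hz : ∀ j, 0 ≤ z j) {Φ₂ : ℝ} {ρ₂ : E3 → ℝ} (hΦ₂ : 0 ≤ Φ₂) (h₂ : ELs z R Φ₂ ρ₂) :
    6/5 * (∫ x, ρ₂ x ^ (5/3 : ℝ)) - (∫ x, VV z R x * ρ₂ x) + 1/2 * (∫ p : E3 × E3, ρ₂ p.1 * ρ₂ p.2 / ‖p.1 - p.2‖) ≤ 0 := by
  have H : ∀ n : ℕ, ∃ τ, ELs z R (Φ₂ + n) τ ∧ ∀ x, τ x ≤ ρ₂ x := fun n =>
    exists_rho h₂ (by have : (0:ℝ) ≤ n := Nat.cast_nonneg n; linarith)
  choose τ hτ hle using H
  obtain ⟨B, hB0, hB⟩ := pot_bdd h₂.nice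
  have hev : ∀ x, ∀ᶠ n : ℕ in atTop, τ n x = 0 := by
    intro x
    obtain ⟨N, hN⟩ := exists_nat_gt (VV z R x)
    filter_upwards [eventually_ge_atTop N] with n hn
    rw [(hτ n).eq]
    apply be_zero_of
    have h1 := pot_nonneg (hτ n).nonneg x
    have h2 : (N:ℝ) ≤ n := by exact_mod_cast hn
    linarith
  have t1 : Tendsto (fun n => ∫ x, τ n x ^ (5/3 : ℝ)) atTop (𝓝 0) := by
    have := tendsto_integral_of_dominated_convergence (F := fun n x => τ n x ^ (5/3 : ℝ)) (f := fun _ : E3 => (0:ℝ)) (fun x => ρ₂ x ^ (5/3 : ℝ))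
      (fun n => ((hτ n).nice.1.pow_const _).aestronglyMeasurable) h₂.int53
      (fun n => Eventually.of_forall (fun x => by
        rw [Real.norm_of_nonneg (Real.rpow_nonneg ((hτ n).nonneg x) _)]
        exact Real.rpow_le_rpow ((hτ n).nonneg x) (hle n x) (by norm_num)))
      (Eventually.of_forall (fun x => by
        refine tendsto_const_nhds.congr' ?_
        filter_upwards [hev x] with n hn
        rw [hn, Real.zero_rpow (by norm_num)]))
    rwa [integral_zero] at this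
  have t2 : Tendsto (fun n => ∫ x, τ n x) atTop (𝓝 0) := by
    have := tendsto_integral_of_dominated_convergence (F := fun n x => τ n x) (f := fun _ : E3 => (0:ℝ)) (fun x => ρ₂ x)
      (fun n => (hτ n).nice.1.aestronglyMeasurable) h₂.nice.2.1
      (fun n => Eventually.of_forall (fun x => by
        rw [Real.norm_of_nonneg ((hτ n).nonneg x)]
        exact hle n x))
      (Eventually.of_forall (fun x => by
        refine tendsto_const_nhds.congr' ?_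
        filter_upwards [hev x] with n hn
        rw [hn]))
    rwa [integral_zero] at this
  have t3 : Tendsto (fun n => 6/5 * (∫ x, τ n x ^ (5/3 : ℝ)) + 1/2 * (B * ∫ x, τ n x)) atTop (𝓝 0) := by
    have := (t1.const_mul (6/5)).add ((t2.const_mul B).const_mul (1/2))
    simpa using this
  refine ge_of_tendsto t3 (Eventually.of_forall (fun n => ?_))
  have hn : (0:ℝ) ≤ n := Nat.cast_nonneg n
  refine (ThmM hz hΦ₂ (by linarith : Φ₂ ≤ Φ₂ + n) (hτ n) h₂).trans ?_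
  have v0 : 0 ≤ ∫ x, VV z R x * τ n x := integral_nonneg (fun x => mul_nonneg (VV_nonneg hz R x) ((hτ n).nonneg x))
  rw [prod_pot (hτ n).nice]
  have p0 : ∫ x, τ n x * pot (τ n) x ≤ B * ∫ x, τ n x := by
    rw [← integral_const_mul]
    refine integral_mono (TF_E1_int _ _ (hτ n).nice.2.1 (hτ n).nice) ((hτ n).nice.2.1.const_mul B) (fun x => ?_)
    simp only
    rw [mul_comm B]
    refine mul_le_mul_of_nonneg_left ?_ ((hτ n).nonneg x)
    exact (pot_mono (hτ n).nice h₂.nice (hle n) x).trans ((le_abs_self _).trans (hB x))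
  linarith

/-- the expression of the frozen statement -/
noncomputable def FE (z : Fin k → ℝ) (R : Fin k → E3) (ρ : E3 → ℝ) : ℝ :=
  (3 / 5 : ℝ) * (∫ x, ρ x ^ ((5 : ℝ) / 3)) - (∫ x, (∑ i, z i / ‖x - R i‖) * ρ x)
        + (1 / 2 : ℝ) * (∫ x, (∫ y, ρ x * ρ y / ‖x - y‖))

lemma FE_congr {f g : E3 → ℝ} (h : f =ᵐ[volume] g) : FE z R f = FE z R g := by
  unfold FE
  have e1 : ∫ x, f x ^ ((5 : ℝ) / 3) = ∫ x, g x ^ ((5 : ℝ) / 3) := by
    refine integral_congr_ae ?_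
    filter_upwards [h] with x hx
    rw [hx]
  have e2 : ∫ x, (∑ i, z i / ‖x - R i‖) * f x = ∫ x, (∑ i, z i / ‖x - R i‖) * g x := by
    refine integral_congr_ae ?_
    filter_upwards [h] with x hx
    rw [hx]
  have e3 : (∫ x, (∫ y, f x * f y / ‖x - y‖)) = ∫ x, (∫ y, g x * g y / ‖x - y‖) := by
    refine integral_congr_ae ?_
    filter_upwards [h] with x hx
    refine integral_congr_ae ?_
    filter_upwards [h] with y hy
    rw [hx, hy]
  rw [e1, e2, e3]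

lemma FE_eq (f : E3 → ℝ) : FE z R f = EF z R f := by
  unfold FE EF VV
  rw [TF_E1_dbl]

/-- the frozen class -/
def AA (ρ : E3 → ℝ) : Prop := (∀ x, 0 ≤ ρ x) ∧ Integrable ρ ∧ Integrable (fun x => ρ x ^ ((5 : ℝ) / 3))

lemma AA_mod {ρ : E3 → ℝ} (h : AA ρ) : ∃ σ, Adm σ ∧ ρ =ᵐ[volume] σ := by
  have hm := h.2.1.aestronglyMeasurable
  refine ⟨fun x => max (hm.mk ρ x) 0, ?_, ?_⟩
  · have hae : ρ =ᵐ[volume] fun x => max (hm.mk ρ x) 0 := by
      filter_upwards [hm.ae_eq_mk] with x hx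
      rw [← hx, max_eq_left (h.1 x)]
    refine ⟨(hm.stronglyMeasurable_mk.measurable).max measurable_const, fun x => le_max_right _ _, h.2.1.congr hae, ?_⟩
    refine h.2.2.congr ?_
    filter_upwards [hae] with x hx
    rw [hx]
  · filter_upwards [hm.ae_eq_mk] with x hx
    rw [← hx, max_eq_left (h.1 x)]

/-- `M` functional in terms of the frozen expression -/
lemma M_eq {ρ : E3 → ℝ} (hρ : Nice ρ) : 6/5 * (∫ x, ρ x ^ (5/3 : ℝ)) - (∫ x, VV z R x * ρ x) + 1/2 * (∫ p : E3 × E3, ρ p.1 * ρ p.2 / ‖p.1 - p.2‖)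
    = FE z R ρ + 3/5 * ∫ x, ρ x ^ ((5 : ℝ) / 3) := by
  rw [FE_eq, prod_pot hρ]
  unfold EF
  ring

/-- **main theorem** -/
theorem main (hz : ∀ i, 0 < z i) {l₁ l₂ : ℝ} {ρ₁ ρ₂ : E3 → ℝ} (h0 : 0 ≤ l₁) (h12 : l₁ ≤ l₂)
    (a₁ : AA ρ₁) (m₁ : (∫ x, ρ₁ x) = l₁) (min₁ : ∀ σ, AA σ → (∫ x, σ x) = l₁ → FE z R ρ₁ ≤ FE z R σ)
    (a₂ : AA ρ₂) (m₂ : (∫ x, ρ₂ x) = l₂) (min₂ : ∀ σ, AA σ → (∫ x, σ x) = l₂ → FE z R ρ₂ ≤ FE z R σ) :
    FE z R ρ₂ + 3/5 * (∫ x, ρ₂ x ^ ((5 : ℝ) / 3)) ≤ FE z R ρ₁ + 3/5 * ∫ x, ρ₁ x ^ ((5 : ℝ) / 3) := by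
  have hz' : ∀ i, 0 ≤ z i := fun i => (hz i).le
  -- congruence
  have cong : ∀ {f g : E3 → ℝ}, f =ᵐ[volume] g → FE z R f + 3/5 * (∫ x, f x ^ ((5 : ℝ) / 3)) = FE z R g + 3/5 * ∫ x, g x ^ ((5 : ℝ) / 3) := by
    intro f g h
    rw [FE_congr h]
    congr 2
    refine integral_congr_ae ?_
    filter_upwards [h] with x hx
    rw [hx]
  have EL : ∀ {l : ℝ} {ρ : E3 → ℝ}, 0 < l → AA ρ → (∫ x, ρ x) = l → (∀ σ, AA σ → (∫ x, σ x) = l → FE z R ρ ≤ FE z R σ) →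
      ∃ Φ, 0 ≤ Φ ∧ ∃ ρ', ELs z R Φ ρ' ∧ ρ =ᵐ[volume] ρ' := by
    intro l ρ hl a m mn
    obtain ⟨σ, hσ, hae⟩ := AA_mod a
    have mσ : ∫ x, σ x = l := by rw [← m]; exact (integral_congr_ae hae).symm
    obtain ⟨Φ, hΦ, ρ', hρ', hae'⟩ := min_EL (z := z) (R := R) hσ (fun τ hτ hm => by
      rw [← FE_eq, ← FE_eq, ← FE_congr hae]
      exact mn τ ⟨hτ.2.1, hτ.2.2.1, hτ.2.2.2⟩ (hm.trans mσ)) (by rw [mσ]; exact hl)
    exact ⟨Φ, hΦ, ρ', hρ', hae.trans hae'⟩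
  have zero : ∀ {ρ : E3 → ℝ}, AA ρ → (∫ x, ρ x) = 0 → ρ =ᵐ[volume] fun _ => 0 := by
    intro ρ a m
    exact (integral_eq_zero_iff_of_nonneg a.1 a.2.1).1 m
  rcases eq_or_lt_of_le h0 with h | h
  · -- l₁ = 0
    have z1 := zero a₁ (m₁.trans h.symm)
    have r1 : FE z R ρ₁ + 3/5 * (∫ x, ρ₁ x ^ ((5 : ℝ) / 3)) = 0 := by
      rw [cong z1]
      unfold FE
      simp
    rcases eq_or_lt_of_le h12 with h' | h'
    · have z2 := zero a₂ (m₂.trans (h'.symm.trans h.symm))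
      rw [cong z1, cong z2]
    · rw [r1]
      obtain ⟨Φ, hΦ, ρ', hρ', hae⟩ := EL (h ▸ h') a₂ m₂ min₂
      rw [cong hae, ← M_eq hρ'.nice]
      exact ThmM0 hz' hΦ hρ'
  · obtain ⟨Φ₁, hΦ₁, σ₁, hσ₁, hae₁⟩ := EL h a₁ m₁ min₁
    obtain ⟨Φ₂, hΦ₂, σ₂, hσ₂, hae₂⟩ := EL (h.trans_le h12) a₂ m₂ min₂
    rcases le_total Φ₂ Φ₁ with hc | hc
    · rw [cong hae₁, cong hae₂, ← M_eq hσ₁.nice, ← M_eq hσ₂.nice]
      exact ThmM hz' hΦ₂ hc hσ₁ hσ₂
    · have hle : ∀ x, σ₂ x ≤ σ₁ x := (EL_mono hσ₂ hσ₁ hc).2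
      have e1 : ∫ x, σ₁ x = l₁ := by rw [← m₁]; exact (integral_congr_ae hae₁).symm
      have e2 : ∫ x, σ₂ x = l₂ := by rw [← m₂]; exact (integral_congr_ae hae₂).symm
      have hi : ∫ x, (σ₁ x - σ₂ x) = 0 := by
        refine le_antisymm ?_ (integral_nonneg (fun x => sub_nonneg.2 (hle x)))
        rw [integral_sub hσ₁.nice.2.1 hσ₂.nice.2.1, e1, e2]
        linarith
      rw [integral_eq_zero_iff_of_nonneg (fun x => sub_nonneg.2 (hle x)) (hσ₁.nice.2.1.sub hσ₂.nice.2.1)] at hi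
      have hae : ρ₂ =ᵐ[volume] ρ₁ := by
        filter_upwards [hae₁, hae₂, hi] with x x1 x2 x3
        simp only [Pi.zero_apply] at x3
        rw [x1, x2]
        linarith
      rw [cong hae]

end Pool.Agent.H9R2.TF
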