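import Pool.Agent.H9R2.TF.Line

set_option autoImplicit false
open MeasureTheory Set Filter Topology Metric
open scoped RealInnerProductSpace BigOperators ENNReal
open Pool.Agent.Helper557 Pool.Agent.Helper557.TFP

namespace Pool.Agent.H9R2.TF

variable {k : ℕ} {z : Fin k → ℝ} {R : Fin k → E3}

lemma za_sg (hR : ∀ j, (R j) 0 ≠ 0) : za z (fun j => sg (R j)) = zb z R := by
  funext j
  unfold za zb
  rw [sg_zero]
  by_cases h : 0 < (R j) 0
  · rw [if_neg (by linarith), if_pos h]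
  · have : (R j) 0 < 0 := lt_of_le_of_ne (not_lt.1 h) (hR j)
    rw [if_pos (by linarith), if_neg h]

lemma zb_sg (hR : ∀ j, (R j) 0 ≠ 0) : zb z (fun j => sg (R j)) = za z R := by
  funext j
  unfold za zb
  rw [sg_zero]
  by_cases h : 0 < (R j) 0
  · rw [if_neg (by linarith), if_pos h]
  · have : (R j) 0 < 0 := lt_of_le_of_ne (not_lt.1 h) (hR j)
    rw [if_pos (by linarith), if_neg h]

lemma sgR_ne (hR : ∀ j, (R j) 0 ≠ 0) : ∀ j, (sg (R j)) 0 ≠ 0 := fun j => by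
  rw [sg_zero]; exact neg_ne_zero.2 (hR j)

lemma dVV_fo (p : E3) (hp : p 0 = 0) : dVV (za z R) (fun j => fo (R j)) p = - dVV (za z R) R p := by
  have h := dVV_sg (za z R) R p
  rw [sg_fix hp] at h
  rw [← h]
  unfold dVV
  congr 1
  refine Finset.sum_congr rfl (fun j _ => ?_)
  by_cases h : 0 < (R j) 0
  · simp only [fo, if_pos h]
  · simp only [za, if_neg h, zero_mul]

lemma dpot_sg_fix (g : E3 → ℝ) {p : E3} (hp : p 0 = 0) : dpot (fun y => g (sg y)) p = - dpot g p := by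
  rw [dpot_sg, sg_fix hp]

/-- a function which is nonnegative to the right of a zero has nonnegative derivative -/
lemma deriv_nonneg_right {f : ℝ → ℝ} {d : ℝ} (h : HasDerivAt f d 0) (h0 : f 0 = 0) (hf : ∀ s > 0, 0 ≤ f s) : 0 ≤ d := by
  rw [hasDerivAt_iff_tendsto_slope_zero] at h
  have h1 : Tendsto (fun t : ℝ => t⁻¹ • (f (0 + t) - f 0)) (𝓝[>] 0) (𝓝 d) :=
    h.mono_left (nhdsWithin_mono _ (fun x hx => ne_of_gt hx))
  refine ge_of_tendsto h1 ?_
  filter_upwards [self_mem_nhdsWithin] with t ht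
  have ht' : (0:ℝ) < t := ht
  rw [h0, zero_add, sub_zero, smul_eq_mul]
  exact mul_nonneg (by positivity) (hf t ht')

lemma up_mem {p : E3} (hp : p 0 = 0) {s : ℝ} (hs : 0 < s) : p + s • e0 ∈ Hp := by
  unfold Hp
  rw [mem_setOf_eq, PiLp.add_apply, PiLp.smul_apply, hp]
  simp [e0, hs]

/-- positivity of the derivative for potentials of odd densities -/
lemma PosD {a : E3 → ℝ} (ha : Nice a) (ha0 : ∀ x, x ∉ Hp → a x = 0) {p : E3} (hp : p 0 = 0) (hLB : LB a p)
    (hpos : ∀ x ∈ Hp, 0 ≤ pot (od a) x) : 0 ≤ dpot a p := by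
  have hod : od a = fun y => a y - a (sg y) := by
    funext y
    unfold od
    have h1 : Hp.indicator a = a := by
      funext x
      by_cases hx : x ∈ Hp
      · rw [indicator_of_mem hx]
      · rw [indicator_of_notMem hx, ha0 x hx]
    rw [h1]
  have hLB2 : LB (fun y => a (sg y)) p := LB.sg (by rw [sg_fix hp]; exact hLB)
  have hd := pot_deriv (nice_od ha) (x := p) (by rw [hod]; exact hLB.sub hLB2)
  have e : dpot (od a) p = 2 * dpot a p := by
    rw [hod, dpot_sub ha (nice_sg ha) hLB hLB2, dpot_sg_fix a hp]; ring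
  rw [e] at hd
  have := deriv_nonneg_right hd (by simp only [zero_smul, add_zero]; exact pot_od_bd a hp)
    (fun s hs => hpos _ (up_mem hp hs))
  linarith

lemma HS.bdd {Φ : ℝ} {ρ τ : E3 → ℝ} (hR : ∀ j, (R j) 0 ≠ 0) (hρ : Nice ρ) (h : HS z R Φ ρ τ) :
    ∃ C, ∀ x, |τ x| ≤ C := by
  obtain ⟨B, hB0, hB⟩ := UU_bdd (z := z) hR Φ hρ h.cl.1
  refine ⟨be B, fun x => ?_⟩
  by_cases hx : x ∈ Hp
  · rw [h.eq x hx, abs_of_nonneg (be_nonneg _)]
    exact be_mono ((le_abs_self _).trans (hB x (le_of_lt hx)))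
  · rw [h.supp x hx, abs_zero]; exact be_nonneg _

lemma HS.cs {Φ : ℝ} {ρ τ : E3 → ℝ} (hR : ∀ j, (R j) 0 ≠ 0) (hρ : Nice ρ) (h : HS z R Φ ρ τ) : Cs τ := by
  obtain ⟨C, hC⟩ := h.bdd hR hρ
  exact Cs_of_bdd h.cl.meas h.cl.int hC

lemma notnuc (hR : ∀ j, (R j) 0 ≠ 0) {p : E3} (hp : p 0 = 0) : ∀ j, p ≠ R j := by
  rintro j rfl
  exact hR j hp

/-- positivity of the normal derivative of `ff` -/
lemma PosF (hz : ∀ j, 0 ≤ z j) (hR : ∀ j, (R j) 0 ≠ 0) {Φ : ℝ} {ρ τ : E3 → ℝ}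
    (hρ : ELs z R Φ ρ) (hτ : HS z R Φ ρ τ) {p : E3} (hp : p 0 = 0) :
    0 ≤ dVV (za z R) R p + dpot (fun y => τ y - Hp.indicator ρ y) p := by
  set a : E3 → ℝ := fun y => τ y - Hp.indicator ρ y with ha
  obtain ⟨C, hC⟩ := hτ.bdd hR hρ.nice
  have na : Nice a := nice_sub' hτ.cl.1 (nice_ind hρ.nice Hp_meas)
  have hLBρ : LB ρ p := hρ.LB (notnuc hR hp)
  have hLB : LB a p := (LB_of_bdd hC p).sub (hLBρ.ind _)
  have hLB2 : LB (fun y => a (sg y)) p := LB.sg (by rw [sg_fix hp]; exact hLB)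
  have hod : od (fun y => τ y - ρ y) = fun y => a y - a (sg y) := by
    funext y
    unfold od
    have h1 : Hp.indicator (fun y => τ y - ρ y) = a := by
      funext x
      by_cases hx : x ∈ Hp
      · rw [indicator_of_mem hx, ha]; simp only; rw [indicator_of_mem hx]
      · rw [indicator_of_notMem hx, ha]; simp only; rw [indicator_of_notMem hx, hτ.supp x hx, sub_zero]
    rw [h1]
  have hd := pot_deriv (nice_od (nice_sub' hτ.cl.1 hρ.nice)) (x := p) (by rw [hod]; exact hLB.sub hLB2)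
  have e : dpot (od (fun y => τ y - ρ y)) p = 2 * dpot a p := by
    rw [hod, dpot_sub na (nice_sg na) hLB hLB2, dpot_sg_fix a hp]; ring
  rw [e] at hd
  have hd1 := VV_deriv0 (za z R) R p (fun j _ => notnuc hR hp j)
  have hd2 := VV_deriv0 (fun j => - za z R j) (fun j => fo (R j)) p (fun j _ e => by
    have := fo_neg (hR j)
    rw [← e, hp] at this
    exact lt_irrefl _ this)
  have e2 : dVV (fun j => - za z R j) (fun j => fo (R j)) p = dVV (za z R) R p := by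
    have h1 : dVV (fun j => - za z R j) (fun j => fo (R j)) p = - dVV (za z R) (fun j => fo (R j)) p := by
      unfold dVV
      rw [neg_neg, ← Finset.sum_neg_distrib]
      exact Finset.sum_congr rfl (fun j _ => by ring)
    rw [h1, dVV_fo p hp, neg_neg]
  rw [e2] at hd2
  have hd3 := (hd1.add hd2).add hd
  have hf0 : ff z R ρ τ (p + (0:ℝ) • e0) = 0 := by
    rw [zero_smul, add_zero]
    unfold ff
    rw [pot_od_bd _ hp, add_zero]
    unfold VV
    rw [← Finset.sum_add_distrib]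
    refine Finset.sum_eq_zero (fun j _ => ?_)
    by_cases h : 0 < (R j) 0
    · simp only [za, fo, if_pos h]
      have : ‖p - TF.sg (R j)‖ = ‖p - R j‖ := by rw [← sg_dist', sg_fix hp]
      rw [this]; ring
    · simp only [za, fo, if_neg h]; ring
  -- nonnegativity to the right, away from nuclei; use an eventual version
  have hd4 : HasDerivAt (fun s : ℝ => ff z R ρ τ (p + s • e0)) (dVV (za z R) R p + dVV (za z R) R p + 2 * dpot a p) 0 := hd3
  rw [hasDerivAt_iff_tendsto_slope_zero] at hd4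
  have h1 : Tendsto (fun t : ℝ => t⁻¹ • (ff z R ρ τ (p + (0 + t) • e0) - ff z R ρ τ (p + (0:ℝ) • e0))) (𝓝[>] 0)
      (𝓝 (dVV (za z R) R p + dVV (za z R) R p + 2 * dpot a p)) :=
    hd4.mono_left (nhdsWithin_mono _ (fun x hx => ne_of_gt hx))
  have hev : ∀ᶠ t : ℝ in 𝓝[>] 0, ∀ j, p + t • e0 ≠ R j := by
    rw [eventually_all]
    intro j
    have hc : Continuous (fun t : ℝ => p + t • e0) := by fun_prop
    have h2 : Tendsto (fun t : ℝ => p + t • e0) (𝓝[>] 0) (𝓝 p) := by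
      have := hc.tendsto 0
      simp only [zero_smul, add_zero] at this
      exact this.mono_left nhdsWithin_le_nhds
    exact h2.eventually (isOpen_compl_singleton.mem_nhds (notnuc hR hp j))
  have h3 : 0 ≤ dVV (za z R) R p + dVV (za z R) R p + 2 * dpot a p := by
    refine ge_of_tendsto h1 ?_
    filter_upwards [self_mem_nhdsWithin, hev] with t ht hn
    have ht' : (0:ℝ) < t := ht
    rw [hf0, zero_add, sub_zero, smul_eq_mul]
    exact mul_nonneg (by positivity) (hτ.ff_nonneg hz hR hρ _ (up_mem hp ht') hn)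
  linarith

/-- consequence of the key lemma for one side -/
lemma KK (hz : ∀ j, 0 ≤ z j) (hR : ∀ j, (R j) 0 ≠ 0) {Φ₁ Φ₂ : ℝ} {ρ₁ τ₁ ρ₂ τ₂ : E3 → ℝ}
    (hΦ₂ : 0 ≤ Φ₂) (hΦ : Φ₂ ≤ Φ₁) (h₁ : ELs z R Φ₁ ρ₁) (h₂ : ELs z R Φ₂ ρ₂)
    (t₁ : HS z R Φ₁ ρ₁ τ₁) (t₂ : HS z R Φ₂ ρ₂ τ₂) {Φ : ℝ} {ρ τ : E3 → ℝ} (hΦp : 0 ≤ Φ) (h : ELs z R Φ ρ) (t : HS z R Φ ρ τ) :
    0 ≤ (∑ j, zb z R j * ∫ x, ((Hp.indicator ρ₂ x - Hp.indicator ρ₁ x) + (τ₁ x - τ₂ x)) * g3 (x - R j))
      - Fo (fun x => (Hp.indicator ρ₂ x - Hp.indicator ρ₁ x) + (τ₁ x - τ₂ x)) (fun x => τ (sg x) - Hm.indicator ρ x) := by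
  have c1 := h₁.cl hz (hΦ₂.trans hΦ)
  have c2 := h₂.cl hz hΦ₂
  have c := h.cl hz hΦp
  set a : E3 → ℝ := fun x => (Hp.indicator ρ₂ x - Hp.indicator ρ₁ x) + (τ₁ x - τ₂ x) with ha
  have ca : Cl a := ((c2.ind Hp_meas).sub (c1.ind Hp_meas)).add (t₁.cl.sub t₂.cl)
  have cb : Cl (fun x => τ (sg x) - Hm.indicator ρ x) := t.cl.sg.sub (c.ind Hm_meas)
  have ha0 : ∀ x, x ∉ Hp → a x = 0 := by
    intro x hx
    rw [ha]; simp only
    rw [indicator_of_notMem hx, indicator_of_notMem hx, t₁.supp x hx, t₂.supp x hx]; ring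
  refine KL (zb z R) R ?_ ca cb ha0 ?_ ?_ ?_
  · intro j hj
    unfold zb at hj
    by_cases h : 0 < (R j) 0
    · rw [if_pos h] at hj; exact absurd rfl hj
    · exact lt_of_le_of_ne (not_lt.1 h) (hR j)
  · intro x hx
    rw [indicator_of_notMem hx, t.supp _ (fun h' => hx (sg_mem_Hp.1 h'))]; ring
  · intro p
    have hp := emb_zero p
    obtain ⟨C1, hC1⟩ := t₁.bdd hR h₁.nice
    obtain ⟨C2, hC2⟩ := t₂.bdd hR h₂.nice
    have hLB : LB a (emb p) :=
      (((h₂.LB (notnuc hR hp)).ind _).sub ((h₁.LB (notnuc hR hp)).ind _)).add ((LB_of_bdd hC1 _).sub (LB_of_bdd hC2 _))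
    refine PosD ca.1 ha0 hp hLB (fun x hx => ?_)
    have hm := ff_mono hz hR h₁ h₂ hΦ t₁ t₂ x hx
    have e : od a = od (fun y => (τ₁ y - ρ₁ y) - (τ₂ y - ρ₂ y)) := by
      funext y
      unfold od
      have h1 : Hp.indicator a = Hp.indicator (fun y => (τ₁ y - ρ₁ y) - (τ₂ y - ρ₂ y)) := by
        funext x
        by_cases hx : x ∈ Hp
        · rw [indicator_of_mem hx, indicator_of_mem hx, ha]; simp only
          rw [indicator_of_mem hx, indicator_of_mem hx]; ring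
        · rw [indicator_of_notMem hx, indicator_of_notMem hx]
      rw [h1]
    rw [e]; exact hm
  · intro p
    have hp := emb_zero p
    have hPF := PosF (z := z) hz (sgR_ne hR) (ρ := fun x => ρ (sg x)) h.sg (t.sg hR) hp
    rw [za_sg hR, dVV_sg, sg_fix hp] at hPF
    have e : dpot (fun x => τ (sg x) - Hm.indicator ρ x) (emb p)
        = - dpot (fun y => τ y - Hp.indicator (fun x => ρ (sg x)) y) (emb p) := by
      rw [← dpot_sg_fix _ hp]
      congr 1
      funext y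
      rw [ind_sg_Hp, sg_sg]
    rw [e]
    linarith

end Pool.Agent.H9R2.TF
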