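import Pool.Agent.H9R2.TF.II

set_option autoImplicit false
open MeasureTheory Set Filter Topology Metric
open scoped RealInnerProductSpace BigOperators ENNReal
open Pool.Agent.Helper557 Pool.Agent.Helper557.TFP

namespace Pool.Agent.H9R2.TF

variable {k : ℕ} {z : Fin k → ℝ} {R : Fin k → E3}

lemma Fo_congr_right (g : E3 → ℝ) {h h' : E3 → ℝ} (e : h =ᵐ[volume] h') : Fo g h = Fo g h' := by
  unfold Fo
  congr 1
  refine integral_congr_ae ?_
  have : ∀ᵐ p : E3 × E3, h p.2 = h' p.2 := Measure.quasiMeasurePreserving_snd.ae e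
  filter_upwards [this] with p hp
  rw [hp]

lemma dVV_split (x : E3) : dVV z R x = dVV (za z R) R x + dVV (zb z R) R x := by
  unfold dVV
  rw [← neg_add, ← Finset.sum_add_distrib]
  congr 1
  refine Finset.sum_congr rfl (fun j _ => ?_)
  by_cases h : 0 < (R j) 0
  · simp only [za, zb, if_pos h]; ring
  · simp only [za, zb, if_neg h]; ring

lemma dVV_fo_split (x : E3) : dVV z (fun j => fo (R j)) x = dVV (zb z R) R x + dVV (za z R) (fun j => sg (R j)) x := by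
  unfold dVV
  rw [← neg_add, ← Finset.sum_add_distrib]
  congr 1
  refine Finset.sum_congr rfl (fun j _ => ?_)
  by_cases h : 0 < (R j) 0
  · simp only [za, zb, fo, if_pos h]; ring
  · simp only [za, zb, fo, if_neg h]; ring

lemma N_sg {g : E3 → ℝ} (c : Fin k → ℝ) (S : Fin k → E3) :
    ∫ x, g x * dVV c (fun j => sg (S j)) x = - ∫ x, g (sg x) * dVV c S x := by
  rw [← sg_int (fun x => g x * dVV c (fun j => sg (S j)) x), ← integral_neg]
  congr 1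
  funext x
  rw [dVV_sg, sg_sg]; ring

theorem G0 (hz : ∀ j, 0 ≤ z j) (hR : ∀ j, (R j) 0 ≠ 0) {Φ₁ Φ₂ : ℝ} {ρ₁ ρ₂ : E3 → ℝ}
    (hΦ₂ : 0 ≤ Φ₂) (hΦ : Φ₂ ≤ Φ₁) (h₁ : ELs z R Φ₁ ρ₁) (h₂ : ELs z R Φ₂ ρ₂) :
    0 ≤ ∫ x, (ρ₂ x - ρ₁ x) * dVV (za z R) R x := by
  obtain ⟨τ₁, t₁⟩ := HS_exists hz hR h₁
  obtain ⟨τ₂, t₂⟩ := HS_exists hz hR h₂
  have c1 := h₁.cl hz (hΦ₂.trans hΦ)
  have c2 := h₂.cl hz hΦ₂
  have dC := delta_Cs hz hΦ₂ hΦ h₁ h₂
  have cT1 := t₁.cl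
  have cT2 := t₂.cl
  have sT1 := t₁.cs hR h₁.nice
  have sT2 := t₂.cs hR h₂.nice
  have cP1 := c1.ind Hp_meas
  have cP2 := c2.ind Hp_meas
  have cM1 := c1.ind Hm_meas
  have cM2 := c2.ind Hm_meas
  have k1 := KK hz hR hΦ₂ hΦ h₁ h₂ t₁ t₂ (hΦ₂.trans hΦ) h₁ t₁
  have k2 := KK hz (sgR_ne hR) hΦ₂ hΦ h₁.sg h₂.sg (t₁.sg hR) (t₂.sg hR) hΦ₂ h₂.sg (t₂.sg hR)
  have i := II hz hR hΦ₂ hΦ h₁ h₂ t₁ t₂
  rw [zb_sg hR] at k2
  -- the functions
  set P1 := Hp.indicator ρ₁ with hP1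
  set P2 := Hp.indicator ρ₂ with hP2
  set M1 := Hm.indicator ρ₁ with hM1
  set M2 := Hm.indicator ρ₂ with hM2
  have eP : Hp.indicator (fun x => ρ₂ x - ρ₁ x) = fun x => P2 x - P1 x := by
    funext x
    by_cases hx : x ∈ Hp
    · rw [hP1, hP2, indicator_of_mem hx, indicator_of_mem hx, indicator_of_mem hx]
    · rw [hP1, hP2, indicator_of_notMem hx, indicator_of_notMem hx, indicator_of_notMem hx]; ring
  have eM : Hm.indicator (fun x => ρ₂ x - ρ₁ x) = fun x => M2 x - M1 x := by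
    funext x
    by_cases hx : x ∈ Hm
    · rw [hM1, hM2, indicator_of_mem hx, indicator_of_mem hx, indicator_of_mem hx]
    · rw [hM1, hM2, indicator_of_notMem hx, indicator_of_notMem hx, indicator_of_notMem hx]; ring
  have sdP : Cs (fun x => P2 x - P1 x) := by rw [← eP]; exact dC.ind Hp_meas
  have sdM : Cs (fun x => M2 x - M1 x) := by rw [← eM]; exact dC.ind Hm_meas
  -- first inequality
  have sA1 : Cs (fun x => (P2 x - P1 x) + (τ₁ x - τ₂ x)) := sdP.add (sT1.sub sT2)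
  have e1 : ∑ j, zb z R j * ∫ x, ((P2 x - P1 x) + (τ₁ x - τ₂ x)) * g3 (x - R j)
      = - ((∫ x, (P2 x - P1 x) * dVV (zb z R) R x) + (∫ x, τ₁ x * dVV (zb z R) R x) - ∫ x, τ₂ x * dVV (zb z R) R x) := by
    have h := sA1.dVVeq (zb z R) R
    have h2 : ∫ x, ((P2 x - P1 x) + (τ₁ x - τ₂ x)) * dVV (zb z R) R x
        = (∫ x, (P2 x - P1 x) * dVV (zb z R) R x) + (∫ x, τ₁ x * dVV (zb z R) R x) - ∫ x, τ₂ x * dVV (zb z R) R x := by
      have j1 := sdP.dVVint (zb z R) R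
      have j2 := sT1.dVVint (zb z R) R
      have j3 := sT2.dVVint (zb z R) R
      have j12 : Integrable (fun x => (P2 x - P1 x) * dVV (zb z R) R x + τ₁ x * dVV (zb z R) R x) := j1.add j2
      rw [← integral_add j1 j2, ← integral_sub j12 j3]
      congr 1
      funext x; ring
    linarith
  have cTs1 := cT1.sg
  have cTs2 := cT2.sg
  have b1 : Fo (fun x => (P2 x - P1 x) + (τ₁ x - τ₂ x)) (fun x => τ₁ (sg x) - M1 x)
      = (Fo P2 (fun x => τ₁ (sg x)) - Fo P2 M1) - (Fo P1 (fun x => τ₁ (sg x)) - Fo P1 M1)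
        + ((Fo τ₁ (fun x => τ₁ (sg x)) - Fo τ₁ M1) - (Fo τ₂ (fun x => τ₁ (sg x)) - Fo τ₂ M1)) := by
    have cB := cTs1.sub cM1
    rw [Fo_add_left (cP2.sub cP1) (cT1.sub cT2) cB, Fo_sub_left cP2 cP1 cB, Fo_sub_left cT1 cT2 cB,
      Fo_sub_right cP2 cTs1 cM1, Fo_sub_right cP1 cTs1 cM1, Fo_sub_right cT1 cTs1 cM1, Fo_sub_right cT2 cTs1 cM1]
  rw [e1, b1] at k1
  -- second inequality
  have eA2 : (fun x => (Hp.indicator (fun x => ρ₂ (sg x)) x - Hp.indicator (fun x => ρ₁ (sg x)) x) + (τ₁ x - τ₂ x))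
      = fun x => (fun y => (M2 y - M1 y) + (τ₁ (sg y) - τ₂ (sg y))) (sg x) := by
    funext x
    simp only
    rw [ind_sg_Hp, ind_sg_Hp, sg_sg]
  have eB2 : (fun x => τ₂ (sg x) - Hm.indicator (fun x => ρ₂ (sg x)) x) = fun x => (fun y => τ₂ y - P2 y) (sg x) := by
    funext x
    simp only
    rw [ind_sg_Hm]
  have sA2 : Cs (fun y => (M2 y - M1 y) + (τ₁ (sg y) - τ₂ (sg y))) := sdM.add (sT1.sg.sub sT2.sg)
  have cA2 : Cl (fun y => (M2 y - M1 y) + (τ₁ (sg y) - τ₂ (sg y))) := (cM2.sub cM1).add (cTs1.sub cTs2)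
  have e2 : ∑ j, za z R j * ∫ x, ((Hp.indicator (fun x => ρ₂ (sg x)) x - Hp.indicator (fun x => ρ₁ (sg x)) x) + (τ₁ x - τ₂ x)) * g3 (x - sg (R j))
      = (∫ x, (M2 x - M1 x) * dVV (za z R) R x) + (∫ x, τ₁ (sg x) * dVV (za z R) R x) - ∫ x, τ₂ (sg x) * dVV (za z R) R x := by
    have h := (sA2.sg).dVVeq (za z R) (fun j => sg (R j))
    rw [N_sg] at h
    simp only [sg_sg] at h
    have h3 : ∀ j, ∫ x, ((Hp.indicator (fun x => ρ₂ (sg x)) x - Hp.indicator (fun x => ρ₁ (sg x)) x) + (τ₁ x - τ₂ x)) * g3 (x - sg (R j))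
        = ∫ x, ((M2 (sg x) - M1 (sg x)) + (τ₁ x - τ₂ x)) * g3 (x - sg (R j)) := by
      intro j
      congr 1
      funext x
      rw [ind_sg_Hp, ind_sg_Hp]
    rw [Finset.sum_congr rfl (fun j _ => by rw [h3 j])]
    have h2 : ∫ x, ((M2 x - M1 x) + (τ₁ (sg x) - τ₂ (sg x))) * dVV (za z R) R x
        = (∫ x, (M2 x - M1 x) * dVV (za z R) R x) + (∫ x, τ₁ (sg x) * dVV (za z R) R x) - ∫ x, τ₂ (sg x) * dVV (za z R) R x := by
      have j1 := sdM.dVVint (za z R) R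
      have j2 := sT1.sg.dVVint (za z R) R
      have j3 := sT2.sg.dVVint (za z R) R
      have j12 : Integrable (fun x => (M2 x - M1 x) * dVV (za z R) R x + τ₁ (sg x) * dVV (za z R) R x) := j1.add j2
      rw [← integral_add j1 j2, ← integral_sub j12 j3]
      congr 1
      funext x; ring
    linarith
  have b2 : Fo (fun x => (Hp.indicator (fun x => ρ₂ (sg x)) x - Hp.indicator (fun x => ρ₁ (sg x)) x) + (τ₁ x - τ₂ x))
      (fun x => τ₂ (sg x) - Hm.indicator (fun x => ρ₂ (sg x)) x)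
      = - ((Fo M2 τ₂ - Fo M2 P2) - (Fo M1 τ₂ - Fo M1 P2)
        + ((Fo (fun x => τ₁ (sg x)) τ₂ - Fo (fun x => τ₁ (sg x)) P2)
          - (Fo (fun x => τ₂ (sg x)) τ₂ - Fo (fun x => τ₂ (sg x)) P2))) := by
    have cB := cT2.sub cP2
    rw [eA2, eB2, Fo_sg cA2 cB, Fo_add_left (cM2.sub cM1) (cTs1.sub cTs2) cB, Fo_sub_left cM2 cM1 cB,
      Fo_sub_left cTs1 cTs2 cB, Fo_sub_right cM2 cT2 cP2, Fo_sub_right cM1 cT2 cP2, Fo_sub_right cTs1 cT2 cP2,
      Fo_sub_right cTs2 cT2 cP2]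
  rw [e2, b2] at k2
  -- the identity
  have u2 : Fo P2 ρ₂ = Fo P2 M2 := by
    rw [Fo_congr_right P2 (ind_add ρ₂).symm, Fo_add_right cP2 cP2 cM2, Fo_self, zero_add]
  have u1 : Fo P1 ρ₁ = Fo P1 M1 := by
    rw [Fo_congr_right P1 (ind_add ρ₁).symm, Fo_add_right cP1 cP1 cM1, Fo_self, zero_add]
  have hPs : ∀ {T P : E3 → ℝ}, Cl T → Cl P → Fo T (fun x => P (sg x)) = - Fo (fun x => T (sg x)) P := by
    intro T P hT hP
    have := Fo_sg hT.sg hP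
    simp only [sg_sg] at this
    exact this
  have v2 : Fo τ₂ (cf ρ₂) = Fo τ₂ M2 - Fo (fun x => τ₂ (sg x)) P2 := by
    have : cf ρ₂ = fun x => M2 x + P2 (sg x) := rfl
    rw [this, Fo_add_right cT2 cM2 cP2.sg, hPs cT2 cP2]; ring
  have v1 : Fo τ₁ (cf ρ₁) = Fo τ₁ M1 - Fo (fun x => τ₁ (sg x)) P1 := by
    have : cf ρ₁ = fun x => M1 x + P1 (sg x) := rfl
    rw [this, Fo_add_right cT1 cM1 cP1.sg, hPs cT1 cP1]; ring
  have hod : ∀ {T : E3 → ℝ}, (∀ x, x ∉ Hp → T x = 0) → od T = fun x => T x - T (sg x) := by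
    intro T hT
    funext y
    unfold od
    have h1 : Hp.indicator T = T := by
      funext x
      by_cases hx : x ∈ Hp
      · rw [indicator_of_mem hx]
      · rw [indicator_of_notMem hx, hT x hx]
    rw [h1]
  have w2 : Fo τ₂ (od τ₂) = - Fo τ₂ (fun x => τ₂ (sg x)) := by
    rw [hod t₂.supp, Fo_sub_right cT2 cT2 cTs2, Fo_self, zero_sub]
  have w1 : Fo τ₁ (od τ₁) = - Fo τ₁ (fun x => τ₁ (sg x)) := by
    rw [hod t₁.supp, Fo_sub_right cT1 cT1 cTs1, Fo_self, zero_sub]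
  have n0 : ∫ x, Hp.indicator (fun x => ρ₂ x - ρ₁ x) x * dVV z R x
      = (∫ x, (P2 x - P1 x) * dVV (za z R) R x) + ∫ x, (P2 x - P1 x) * dVV (zb z R) R x := by
    rw [eP, ← integral_add (sdP.dVVint _ _) (sdP.dVVint _ _)]
    congr 1
    funext x
    rw [dVV_split]; ring
  have n1 : ∀ {T : E3 → ℝ}, Cs T → ∫ x, T x * dVV z (fun j => fo (R j)) x
      = (∫ x, T x * dVV (zb z R) R x) - ∫ x, T (sg x) * dVV (za z R) R x := by
    intro T hT
    have h := N_sg (g := T) (za z R) R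
    have h2 : ∫ x, T x * dVV z (fun j => fo (R j)) x
        = (∫ x, T x * dVV (zb z R) R x) + ∫ x, T x * dVV (za z R) (fun j => sg (R j)) x := by
      rw [← integral_add (hT.dVVint _ _) (hT.dVVint _ _)]
      congr 1
      funext x
      rw [dVV_fo_split]; ring
    rw [h2, h]; ring
  rw [n0, u2, u1, n1 sT2, n1 sT1, v2, v1, w2, w1] at i
  -- the quantity
  have X : ∫ x, (ρ₂ x - ρ₁ x) * dVV (za z R) R x
      = (∫ x, (P2 x - P1 x) * dVV (za z R) R x) + ∫ x, (M2 x - M1 x) * dVV (za z R) R x := by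
    rw [← integral_add (sdP.dVVint _ _) (sdM.dVVint _ _)]
    refine integral_congr_ae ?_
    filter_upwards [ind_add ρ₂, ind_add ρ₁] with x hx2 hx1
    rw [← hx2, ← hx1]
    simp only [hP1, hP2, hM1, hM2]
    ring
  rw [X]
  have s1 := @Fo_anti M2 τ₂
  have s2 := @Fo_anti M2 P2
  have s3 := @Fo_anti M1 τ₂
  have s4 := @Fo_anti M1 P2
  have s5 := @Fo_anti (fun x => τ₁ (sg x)) τ₂
  have s6 := @Fo_anti (fun x => τ₁ (sg x)) P2
  have s7 := @Fo_anti (fun x => τ₂ (sg x)) τ₂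
  have s8 := @Fo_anti P1 (fun x => τ₁ (sg x))
  linarith

end Pool.Agent.H9R2.TF
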