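import Pool.Agent.H9R2.TF.G0

set_option autoImplicit false
open MeasureTheory Set Filter Topology Metric
open scoped RealInnerProductSpace BigOperators ENNReal
open Pool.Agent.Helper557 Pool.Agent.Helper557.TFP

namespace Pool.Agent.H9R2.TF

variable {k : ℕ} {z : Fin k → ℝ} {R : Fin k → E3}

lemma delta_Cs (hz : ∀ j, 0 ≤ z j) {Φ₁ Φ₂ : ℝ} {ρ₁ ρ₂ : E3 → ℝ} (hΦ₂ : 0 ≤ Φ₂) (hΦ : Φ₂ ≤ Φ₁)
    (h₁ : ELs z R Φ₁ ρ₁) (h₂ : ELs z R Φ₂ ρ₂) : Cs (fun x => ρ₂ x - ρ₁ x) := by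
  obtain ⟨hD, hle⟩ := EL_mono h₁ h₂ hΦ
  obtain ⟨B1, hB10, hB1⟩ := pot_bdd h₁.nice
  obtain ⟨B2, hB20, hB2⟩ := pot_bdd h₂.nice
  refine ⟨h₂.nice.1.sub h₁.nice.1, h₂.nice.2.1.sub h₁.nice.2.1, nuc R,
    3/2 * √(∑ j, z j) * (B1 + B2 + (Φ₁ - Φ₂)), by
      have : 0 ≤ Φ₁ - Φ₂ := by linarith
      positivity, fun x => ?_⟩
  rw [abs_of_nonneg (by linarith [hle x])]
  have h3 : VV z R x - pot ρ₁ x - Φ₁ ≤ VV z R x - pot ρ₂ x - Φ₂ := by linarith [hD x]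
  have h4 := be_lip h3
  rw [← h₁.eq x, ← h₂.eq x] at h4
  refine h4.trans ?_
  have h5 : √(max (VV z R x - pot ρ₂ x - Φ₂) 0) ≤ √(∑ j, z j) * ws (nuc R) x := by
    refine le_trans (Real.sqrt_le_sqrt ?_) (sqrt_VV_le_ws hz R x)
    refine max_le ?_ (VV_nonneg hz R x)
    have := pot_nonneg h₂.nonneg x
    linarith
  have h6 : VV z R x - pot ρ₂ x - Φ₂ - (VV z R x - pot ρ₁ x - Φ₁) ≤ B1 + B2 + (Φ₁ - Φ₂) := by
    have := (abs_le.1 (hB1 x)).2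
    have := (abs_le.1 (hB2 x)).1
    linarith
  have h7 : 0 ≤ VV z R x - pot ρ₂ x - Φ₂ - (VV z R x - pot ρ₁ x - Φ₁) := by linarith
  calc 3/2 * √(max (VV z R x - pot ρ₂ x - Φ₂) 0) * (VV z R x - pot ρ₂ x - Φ₂ - (VV z R x - pot ρ₁ x - Φ₁))
      ≤ 3/2 * (√(∑ j, z j) * ws (nuc R) x) * (B1 + B2 + (Φ₁ - Φ₂)) := by
        refine mul_le_mul (by linarith) h6 h7 ?_
        have := ws_nonneg (nuc R) x
        positivity
    _ = _ := by ring

lemma uD {Φ : ℝ} {ρ : E3 → ℝ} (h : ELs z R Φ ρ) {x : E3} (hx : ∀ j, x ≠ R j) :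
    HasDerivAt (fun s : ℝ => VV z R (x + s • e0) - pot ρ (x + s • e0) - Φ) (dVV z R x - dpot ρ x) 0 :=
  ((VV_deriv0 z R x (fun j _ => hx j)).sub (pot_deriv h.nice (h.LB hx))).sub_const Φ

lemma not_fo {x : E3} (hR : ∀ j, (R j) 0 ≠ 0) (hx : 0 ≤ x 0) : ∀ j, x ≠ fo (R j) := by
  intro j e
  have := fo_neg (hR j)
  rw [← e] at this
  linarith

lemma UD {Φ : ℝ} {ρ τ : E3 → ℝ} (hR : ∀ j, (R j) 0 ≠ 0) (hρ : Nice ρ) (h : HS z R Φ ρ τ) {x : E3} (hx : x ∈ Hp) :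
    HasDerivAt (fun s : ℝ => UU z R Φ ρ τ (x + s • e0))
      (dVV z (fun j => fo (R j)) x - dpot (cf ρ) x - dpot (od τ) x) 0 := by
  obtain ⟨C, hC⟩ := h.bdd hR hρ
  have l1 : LB (cf ρ) x := LB_zero_near Hp_open hx (fun y hy => by
    unfold cf
    have h1 : y ∉ Hm := fun h' => by
      have a1 : (0:ℝ) < y 0 := hy
      have a2 : y 0 < 0 := h'
      linarith
    rw [indicator_of_notMem h1, indicator_of_notMem (fun h' => h1 (sg_mem_Hp.1 h')), add_zero])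
  have l2 : LB (od τ) x := by
    have hb : ∀ y, |Hp.indicator τ y| ≤ C := fun y => by
      by_cases hy : y ∈ Hp
      · rw [indicator_of_mem hy]; exact hC y
      · rw [indicator_of_notMem hy, abs_zero]; exact (abs_nonneg _).trans (hC y)
    exact (LB_of_bdd hb x).sub (LB_of_bdd (f := fun y => Hp.indicator τ (sg y)) (fun y => hb (sg y)) x)
  exact (((VV_deriv0 z _ x (fun j _ => not_fo hR (le_of_lt hx) j)).sub (pot_deriv (nice_cf hρ) l1)).sub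
    (pot_deriv (nice_od h.cl.1) l2)).sub_const Φ

lemma lim_of_decay {f : E3 → ℝ} (h : ∀ ε > 0, ∃ M, ∀ x : E3, M ≤ ‖x‖ → |f x| ≤ ε) (p : E2v) :
    Tendsto (fun t => f (ln t p)) atTop (𝓝 0) ∧ Tendsto (fun t => f (ln t p)) atBot (𝓝 0) := by
  constructor
  · rw [Metric.tendsto_nhds]
    intro ε hε
    obtain ⟨M, hM⟩ := h (ε / 2) (by linarith)
    filter_upwards [eventually_ge_atTop M] with t ht
    rw [Real.dist_eq, sub_zero]
    have h1 := hM (ln t p) (ht.trans ((le_abs_self t).trans (ln_norm t p)))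
    linarith
  · rw [Metric.tendsto_nhds]
    intro ε hε
    obtain ⟨M, hM⟩ := h (ε / 2) (by linarith)
    filter_upwards [eventually_le_atBot (-M)] with t ht
    rw [Real.dist_eq, sub_zero]
    have h1 := hM (ln t p) ((le_trans (by linarith) (neg_le_abs t)).trans (ln_norm t p))
    linarith

lemma lim_u {Φ : ℝ} {ρ : E3 → ℝ} (hρ : Nice ρ) (p : E2v) :
    Tendsto (fun t => VV z R (ln t p) - pot ρ (ln t p) - Φ) atTop (𝓝 (-Φ)) ∧
    Tendsto (fun t => VV z R (ln t p) - pot ρ (ln t p) - Φ) atBot (𝓝 (-Φ)) := by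
  have h1 := lim_of_decay (VV_decay z R) p
  have h2 := lim_of_decay (pot_decay hρ) p
  constructor
  · have := (h1.1.sub h2.1).sub_const Φ
    simpa using this
  · have := (h1.2.sub h2.2).sub_const Φ
    simpa using this

lemma lim_U {Φ : ℝ} {ρ τ : E3 → ℝ} (hρ : Nice ρ) (hτ : Nice τ) (p : E2v) :
    Tendsto (fun t => UU z R Φ ρ τ (ln t p)) atTop (𝓝 (-Φ)) := by
  have h1 := (lim_of_decay (VV_decay z (fun j => fo (R j))) p).1
  have h2 := (lim_of_decay (pot_decay (nice_cf hρ)) p).1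
  have h3 := (lim_of_decay (pot_decay (nice_od hτ)) p).1
  have := ((h1.sub h2).sub h3).sub_const Φ
  simpa [UU] using this

lemma UU_cont {Φ : ℝ} {ρ τ : E3 → ℝ} (hR : ∀ j, (R j) 0 ≠ 0) (hρ : Nice ρ) (hτ : Nice τ) {x : E3} (hx : 0 ≤ x 0) :
    ContinuousAt (UU z R Φ ρ τ) x := by
  unfold UU
  exact (((VV_cont z _ x (fun j _ => not_fo hR hx j)).sub (pot_cont (nice_cf hρ)).continuousAt).sub
    (pot_cont (nice_od hτ)).continuousAt).sub continuousAt_const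

lemma UU_bd {Φ : ℝ} {ρ τ : E3 → ℝ} (hρ : Nice ρ) (hτ : Nice τ) {x : E3} (hx : x 0 = 0) :
    UU z R Φ ρ τ x = VV z R x - pot ρ x - Φ := by
  have h := ff_eq (z := z) (R := R) (Φ := Φ) hρ hτ x
  have h0 : ff z R ρ τ x = 0 := by
    unfold ff
    rw [pot_od_bd _ hx, add_zero]
    unfold VV
    rw [← Finset.sum_add_distrib]
    refine Finset.sum_eq_zero (fun j _ => ?_)
    by_cases h : 0 < (R j) 0
    · simp only [za, fo, if_pos h]
      have : ‖x - TF.sg (R j)‖ = ‖x - R j‖ := by rw [← sg_dist', sg_fix hx]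
      rw [this]; ring
    · simp only [za, fo, if_neg h]; ring
  rw [h0] at h
  linarith

theorem II (hz : ∀ j, 0 ≤ z j) (hR : ∀ j, (R j) 0 ≠ 0) {Φ₁ Φ₂ : ℝ} {ρ₁ τ₁ ρ₂ τ₂ : E3 → ℝ}
    (hΦ₂ : 0 ≤ Φ₂) (hΦ : Φ₂ ≤ Φ₁) (h₁ : ELs z R Φ₁ ρ₁) (h₂ : ELs z R Φ₂ ρ₂)
    (t₁ : HS z R Φ₁ ρ₁ τ₁) (t₂ : HS z R Φ₂ ρ₂ τ₂) :
    (∫ x, Hp.indicator (fun x => ρ₂ x - ρ₁ x) x * dVV z R x) - Fo (Hp.indicator ρ₂) ρ₂ + Fo (Hp.indicator ρ₁) ρ₁
      - ((∫ x, τ₂ x * dVV z (fun j => fo (R j)) x) - Fo τ₂ (cf ρ₂) - Fo τ₂ (od τ₂))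
      + ((∫ x, τ₁ x * dVV z (fun j => fo (R j)) x) - Fo τ₁ (cf ρ₁) - Fo τ₁ (od τ₁)) = 0 := by
  have c1 := h₁.cl hz (hΦ₂.trans hΦ)
  have c2 := h₂.cl hz hΦ₂
  have hΦ₁ := hΦ₂.trans hΦ
  have dC := delta_Cs hz hΦ₂ hΦ h₁ h₂
  set F : E3 → ℝ := fun x => Bf (VV z R x - pot ρ₂ x - Φ₂) - Bf (VV z R x - pot ρ₁ x - Φ₁)
    - Bf (UU z R Φ₂ ρ₂ τ₂ x) + Bf (UU z R Φ₁ ρ₁ τ₁ x) with hF
  set d₁ : E3 → ℝ := fun x => dVV z (fun j => fo (R j)) x - dpot (cf ρ₁) x - dpot (od τ₁) x with hd₁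
  set d₂ : E3 → ℝ := fun x => dVV z (fun j => fo (R j)) x - dpot (cf ρ₂) x - dpot (od τ₂) x with hd₂
  set F' : E3 → ℝ := fun x => ρ₂ x * (dVV z R x - dpot ρ₂ x) - ρ₁ x * (dVV z R x - dpot ρ₁ x)
    - τ₂ x * d₂ x + τ₁ x * d₁ x with hF'
  -- integrability of the pieces
  have i1 : Integrable (fun x => Hp.indicator (fun x => ρ₂ x - ρ₁ x) x * dVV z R x) := (dC.ind Hp_meas).dVVint z R
  have f2 := Fo_eq (c2.ind Hp_meas) c2
  have f1 := Fo_eq (c1.ind Hp_meas) c1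
  have j2 : Integrable (fun x => τ₂ x * dVV z (fun j => fo (R j)) x) := (t₂.cs hR h₂.nice).dVVint z _
  have j1 : Integrable (fun x => τ₁ x * dVV z (fun j => fo (R j)) x) := (t₁.cs hR h₁.nice).dVVint z _
  have g2 := Fo_eq t₂.cl (cl_cf c2)
  have g1 := Fo_eq t₁.cl (cl_cf c1)
  have k2 := Fo_eq t₂.cl (cl_od t₂.cl)
  have k1 := Fo_eq t₁.cl (cl_od t₁.cl)
  have e : Hp.indicator F' = fun x => ((((Hp.indicator (fun x => ρ₂ x - ρ₁ x) x * dVV z R x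
      - Hp.indicator ρ₂ x * dpot ρ₂ x) + Hp.indicator ρ₁ x * dpot ρ₁ x)
      - ((τ₂ x * dVV z (fun j => fo (R j)) x - τ₂ x * dpot (cf ρ₂) x) - τ₂ x * dpot (od τ₂) x))
      + ((τ₁ x * dVV z (fun j => fo (R j)) x - τ₁ x * dpot (cf ρ₁) x) - τ₁ x * dpot (od τ₁) x)) := by
    funext x
    by_cases hx : x ∈ Hp
    · rw [indicator_of_mem hx, indicator_of_mem hx, indicator_of_mem hx, indicator_of_mem hx, hF', hd₁, hd₂]
      simp only
      ring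
    · rw [indicator_of_notMem hx, indicator_of_notMem hx, indicator_of_notMem hx, indicator_of_notMem hx,
        t₁.supp x hx, t₂.supp x hx]
      ring
  have p1 : Integrable (fun x => Hp.indicator (fun x => ρ₂ x - ρ₁ x) x * dVV z R x - Hp.indicator ρ₂ x * dpot ρ₂ x) := i1.sub f2.1
  have p2 : Integrable (fun x => (Hp.indicator (fun x => ρ₂ x - ρ₁ x) x * dVV z R x - Hp.indicator ρ₂ x * dpot ρ₂ x)
      + Hp.indicator ρ₁ x * dpot ρ₁ x) := p1.add f1.1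
  have q1 : Integrable (fun x => τ₂ x * dVV z (fun j => fo (R j)) x - τ₂ x * dpot (cf ρ₂) x) := j2.sub g2.1
  have q2 : Integrable (fun x => (τ₂ x * dVV z (fun j => fo (R j)) x - τ₂ x * dpot (cf ρ₂) x) - τ₂ x * dpot (od τ₂) x) := q1.sub k2.1
  have r1 : Integrable (fun x => τ₁ x * dVV z (fun j => fo (R j)) x - τ₁ x * dpot (cf ρ₁) x) := j1.sub g1.1
  have r2 : Integrable (fun x => (τ₁ x * dVV z (fun j => fo (R j)) x - τ₁ x * dpot (cf ρ₁) x) - τ₁ x * dpot (od τ₁) x) := r1.sub k1.1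
  have p3 : Integrable (fun x => ((Hp.indicator (fun x => ρ₂ x - ρ₁ x) x * dVV z R x - Hp.indicator ρ₂ x * dpot ρ₂ x)
      + Hp.indicator ρ₁ x * dpot ρ₁ x) - ((τ₂ x * dVV z (fun j => fo (R j)) x - τ₂ x * dpot (cf ρ₂) x) - τ₂ x * dpot (od τ₂) x)) :=
    p2.sub q2
  have hint : IntegrableOn F' Hp := by
    rw [← integrable_indicator_iff Hp_meas, e]
    exact p3.add r2
  have hval : ∫ x in Hp, F' x = (∫ x, Hp.indicator (fun x => ρ₂ x - ρ₁ x) x * dVV z R x) - Fo (Hp.indicator ρ₂) ρ₂ + Fo (Hp.indicator ρ₁) ρ₁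
      - ((∫ x, τ₂ x * dVV z (fun j => fo (R j)) x) - Fo τ₂ (cf ρ₂) - Fo τ₂ (od τ₂))
      + ((∫ x, τ₁ x * dVV z (fun j => fo (R j)) x) - Fo τ₁ (cf ρ₁) - Fo τ₁ (od τ₁)) := by
    rw [← integral_indicator Hp_meas, e, integral_add p3 r2, integral_sub p2 q2, integral_add p1 f1.1, integral_sub i1 f2.1,
      integral_sub q1 k2.1, integral_sub j2 g2.1, integral_sub r1 k1.1, integral_sub j1 g1.1,
      f1.2, f2.2, g1.2, g2.2, k1.2, k2.2]
  rw [← hval]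
  refine Lhalf F F' hint ?_
  filter_upwards [ae_line R] with p hp
  refine ⟨fun t ht => ?_, ?_, ?_⟩
  · have hx : ln t p ∈ Hp := by unfold Hp; rw [mem_setOf_eq, ln_zero']; exact ht
    have hn : ∀ j, ln t p ≠ R j := fun j => hp j t
    have a2 := ln_deriv (F := fun x => VV z R x - pot ρ₂ x - Φ₂) (t := t) (p := p) (uD h₂ hn)
    have a1 := ln_deriv (F := fun x => VV z R x - pot ρ₁ x - Φ₁) (t := t) (p := p) (uD h₁ hn)
    have b2 := ln_deriv (F := fun x => UU z R Φ₂ ρ₂ τ₂ x) (t := t) (p := p) (UD hR h₂.nice t₂ hx)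
    have b1 := ln_deriv (F := fun x => UU z R Φ₁ ρ₁ τ₁ x) (t := t) (p := p) (UD hR h₁.nice t₁ hx)
    have A2 := (Bf_deriv _).comp t a2
    have A1 := (Bf_deriv _).comp t a1
    have B2 := (Bf_deriv _).comp t b2
    have B1 := (Bf_deriv _).comp t b1
    have := ((A2.sub A1).sub B2).add B1
    refine this.congr_deriv ?_
    rw [hF']
    simp only
    rw [h₂.eq (ln t p), h₁.eq (ln t p), t₂.eq _ hx, t₁.eq _ hx]
  · have l2 := (Bf_cont.tendsto _).comp (lim_u (z := z) (R := R) (Φ := Φ₂) h₂.nice p).1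
    have l1 := (Bf_cont.tendsto _).comp (lim_u (z := z) (R := R) (Φ := Φ₁) h₁.nice p).1
    have m2 := (Bf_cont.tendsto _).comp (lim_U (z := z) (R := R) (Φ := Φ₂) h₂.nice t₂.cl.1 p)
    have m1 := (Bf_cont.tendsto _).comp (lim_U (z := z) (R := R) (Φ := Φ₁) h₁.nice t₁.cl.1 p)
    rw [Bf_zero_of (by linarith : -Φ₂ ≤ 0)] at l2 m2
    rw [Bf_zero_of (by linarith : -Φ₁ ≤ 0)] at l1 m1
    have := ((l2.sub l1).sub m2).add m1
    simp only [sub_zero, add_zero] at this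
    exact this
  · have hp0 := emb_zero p
    have hnn : ∀ j, emb p ≠ R j := notnuc hR hp0
    have hc : ContinuousAt F (emb p) := by
      rw [hF]
      have a2 : ContinuousAt (fun x => VV z R x - pot ρ₂ x - Φ₂) (emb p) :=
        ((VV_cont z R _ (fun j _ => hnn j)).sub (pot_cont h₂.nice).continuousAt).sub continuousAt_const
      have a1 : ContinuousAt (fun x => VV z R x - pot ρ₁ x - Φ₁) (emb p) :=
        ((VV_cont z R _ (fun j _ => hnn j)).sub (pot_cont h₁.nice).continuousAt).sub continuousAt_const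
      have b2 : ContinuousAt (UU z R Φ₂ ρ₂ τ₂) (emb p) := UU_cont hR h₂.nice t₂.cl.1 hp0.ge
      have b1 : ContinuousAt (UU z R Φ₁ ρ₁ τ₁) (emb p) := UU_cont hR h₁.nice t₁.cl.1 hp0.ge
      exact (((Bf_cont.continuousAt.comp a2).sub (Bf_cont.continuousAt.comp a1)).sub
        (Bf_cont.continuousAt.comp b2)).add (Bf_cont.continuousAt.comp b1)
    have h0 : F (emb p) = 0 := by
      rw [hF]
      simp only
      rw [UU_bd h₂.nice t₂.cl.1 hp0, UU_bd h₁.nice t₁.cl.1 hp0]; ring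
    have h1 : Tendsto (fun t => F (ln t p)) (𝓝 0) (𝓝 (F (emb p))) := by
      have h2 : Tendsto (fun t => ln t p) (𝓝 0) (𝓝 (emb p)) := by
        have := (ln_cont p).tendsto 0
        exact this
      exact hc.tendsto.comp h2
    rw [h0] at h1
    exact h1.mono_left nhdsWithin_le_nhds

end Pool.Agent.H9R2.TF
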