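import Pool.Agent.H9R2.TF.Vir

set_option autoImplicit false
open MeasureTheory Set Filter Topology Metric
open scoped RealInnerProductSpace BigOperators ENNReal
open Pool.Agent.Helper557 Pool.Agent.Helper557.TFP

namespace Pool.Agent.H9R2.TF

variable {k : ℕ} {z : Fin k → ℝ} {R : Fin k → E3}

lemma exists_rot (n : E3) (hn : ‖n‖ = 1) : ∃ L : E3 ≃ₗᵢ[ℝ] E3, L n = e0 := by
  refine ⟨Submodule.reflection (Submodule.span ℝ {n - e0})ᗮ, Submodule.reflection_sub ?_⟩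
  rw [hn, e0_norm]

/-- rigid motion -/
noncomputable def Ps (L : E3 ≃ₗᵢ[ℝ] E3) (t : ℝ) (x : E3) : E3 := L x - t • e0
noncomputable def Pi' (L : E3 ≃ₗᵢ[ℝ] E3) (t : ℝ) (y : E3) : E3 := L.symm (y + t • e0)

lemma Pi_Ps (L : E3 ≃ₗᵢ[ℝ] E3) (t : ℝ) (x : E3) : Pi' L t (Ps L t x) = x := by
  unfold Pi' Ps; simp

lemma Ps_Pi (L : E3 ≃ₗᵢ[ℝ] E3) (t : ℝ) (x : E3) : Ps L t (Pi' L t x) = x := by
  unfold Pi' Ps; simp

lemma Ps_sub (L : E3 ≃ₗᵢ[ℝ] E3) (t : ℝ) (x y : E3) : Ps L t x - Ps L t y = L (x - y) := by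
  unfold Ps; rw [map_sub]; abel

lemma Ps_dist (L : E3 ≃ₗᵢ[ℝ] E3) (t : ℝ) (x y : E3) : ‖Ps L t x - Ps L t y‖ = ‖x - y‖ := by
  rw [Ps_sub]; exact L.norm_map _

lemma Pi_dist (L : E3 ≃ₗᵢ[ℝ] E3) (t : ℝ) (x y : E3) : ‖Pi' L t x - Pi' L t y‖ = ‖x - y‖ := by
  rw [← Ps_dist L t, Ps_Pi, Ps_Pi]

lemma Ps_cont (L : E3 ≃ₗᵢ[ℝ] E3) (t : ℝ) : Continuous (Ps L t) := L.continuous.sub continuous_const
lemma Pi_cont (L : E3 ≃ₗᵢ[ℝ] E3) (t : ℝ) : Continuous (Pi' L t) := L.symm.continuous.comp (continuous_id.add continuous_const)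

lemma Ps_mp (L : E3 ≃ₗᵢ[ℝ] E3) (t : ℝ) : MeasurePreserving (Ps L t) volume volume :=
  (measurePreserving_sub_right volume (t • e0)).comp L.measurePreserving

/-- as a measurable equivalence -/
noncomputable def PsE (L : E3 ≃ₗᵢ[ℝ] E3) (t : ℝ) : E3 ≃ᵐ E3 where
  toFun := Ps L t
  invFun := Pi' L t
  left_inv := Pi_Ps L t
  right_inv := Ps_Pi L t
  measurable_toFun := (Ps_cont L t).measurable
  measurable_invFun := (Pi_cont L t).measurable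

lemma Pi_mp (L : E3 ≃ₗᵢ[ℝ] E3) (t : ℝ) : MeasurePreserving (Pi' L t) volume volume :=
  MeasurePreserving.symm (PsE L t) (Ps_mp L t)

lemma Ps_int (L : E3 ≃ₗᵢ[ℝ] E3) (t : ℝ) (f : E3 → ℝ) : ∫ x, f (Ps L t x) = ∫ y, f y :=
  (Ps_mp L t).integral_comp (PsE L t).measurableEmbedding f

lemma Pi_int (L : E3 ≃ₗᵢ[ℝ] E3) (t : ℝ) (f : E3 → ℝ) : ∫ x, f (Pi' L t x) = ∫ y, f y :=
  (Pi_mp L t).integral_comp (PsE L t).symm.measurableEmbedding f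

lemma Ps_intble (L : E3 ≃ₗᵢ[ℝ] E3) (t : ℝ) {f : E3 → ℝ} (h : Integrable f) : Integrable (fun x => f (Ps L t x)) :=
  (Ps_mp L t).integrable_comp_of_integrable h

lemma Pi_intble (L : E3 ≃ₗᵢ[ℝ] E3) (t : ℝ) {f : E3 → ℝ} (h : Integrable f) : Integrable (fun x => f (Pi' L t x)) :=
  (Pi_mp L t).integrable_comp_of_integrable h

lemma nice_Pi (L : E3 ≃ₗᵢ[ℝ] E3) (t : ℝ) {ρ : E3 → ℝ} (h : Nice ρ) : Nice (fun x => ρ (Pi' L t x)) :=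
  ⟨h.1.comp (Pi_cont L t).measurable, Pi_intble L t h.2.1, Pi_intble L t h.2.2⟩

lemma VV_Pi (L : E3 ≃ₗᵢ[ℝ] E3) (t : ℝ) (z : Fin k → ℝ) (R : Fin k → E3) (x : E3) :
    VV z (fun j => Ps L t (R j)) x = VV z R (Pi' L t x) := by
  unfold VV
  refine Finset.sum_congr rfl (fun j _ => ?_)
  rw [← Ps_dist L t (Pi' L t x) (R j), Ps_Pi]

lemma pot_Pi (L : E3 ≃ₗᵢ[ℝ] E3) (t : ℝ) (ρ : E3 → ℝ) (x : E3) :
    pot (fun y => ρ (Pi' L t y)) x = pot ρ (Pi' L t x) := by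
  unfold pot
  rw [← Pi_int L t (fun y => ρ y / ‖Pi' L t x - y‖)]
  congr 1
  funext y
  rw [Pi_dist]

lemma ELs.iso (L : E3 ≃ₗᵢ[ℝ] E3) (t : ℝ) {Φ : ℝ} {ρ : E3 → ℝ} (h : ELs z R Φ ρ) :
    ELs z (fun j => Ps L t (R j)) Φ (fun x => ρ (Pi' L t x)) := by
  refine ⟨nice_Pi L t h.nice, fun x => ?_⟩
  rw [VV_Pi, pot_Pi]
  exact h.eq _

/-- directional kernel -/
noncomputable def gn (n v : E3) : ℝ := ⟪n, v⟫ / ‖v‖ ^ 3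

lemma L_zero (L : E3 ≃ₗᵢ[ℝ] E3) {n : E3} (hL : L n = e0) (v : E3) : (L v) 0 = ⟪n, v⟫ := by
  rw [← inner_e0, ← hL, L.inner_map_map]

lemma g3_L (L : E3 ≃ₗᵢ[ℝ] E3) {n : E3} (hL : L n = e0) (v : E3) : g3 (L v) = gn n v := by
  unfold g3 gn
  rw [L_zero L hL, L.norm_map]

lemma Ps_zero (L : E3 ≃ₗᵢ[ℝ] E3) {n : E3} (hL : L n = e0) (t : ℝ) (x : E3) : (Ps L t x) 0 = ⟪n, x⟫ - t := by
  unfold Ps
  have : (L x - t • e0) 0 = (L x) 0 - t * e0 0 := rfl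
  rw [this, L_zero L hL]
  simp [e0]

lemma dVV_Ps (L : E3 ≃ₗᵢ[ℝ] E3) {n : E3} (hL : L n = e0) (t : ℝ) (c : Fin k → ℝ) (x : E3) :
    dVV c (fun j => Ps L t (R j)) (Ps L t x) = - ∑ j, c j * gn n (x - R j) := by
  unfold dVV
  congr 1
  refine Finset.sum_congr rfl (fun j _ => ?_)
  rw [Ps_sub, g3_L L hL]

lemma gn_neg (n v : E3) : gn (-n) v = - gn n v := by
  unfold gn; rw [inner_neg_left, neg_div]

/-- force of the density difference at a nucleus, in direction `n` -/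
noncomputable def Dn (n : E3) (δ : E3 → ℝ) (s : E3) : ℝ := - ∫ x, δ x * gn n (x - s)

lemma Dn_neg (n : E3) (δ : E3 → ℝ) (s : E3) : Dn (-n) δ s = - Dn n δ s := by
  unfold Dn
  rw [neg_neg, ← integral_neg]
  congr 1
  funext x
  rw [gn_neg]; ring

section main
variable {Φ₁ Φ₂ : ℝ} {ρ₁ ρ₂ : E3 → ℝ}

lemma gn_int (hz : ∀ j, 0 ≤ z j) (hΦ₂ : 0 ≤ Φ₂) (hΦ : Φ₂ ≤ Φ₁) (h₁ : ELs z R Φ₁ ρ₁) (h₂ : ELs z R Φ₂ ρ₂)
    (n : E3) (hn : ‖n‖ = 1) (s : E3) : Integrable (fun x => (ρ₂ x - ρ₁ x) * gn n (x - s)) := by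
  obtain ⟨L, hL⟩ := exists_rot n hn
  have dC := delta_Cs hz hΦ₂ hΦ (h₁.iso L 0) (h₂.iso L 0)
  have := Ps_intble L 0 (dC.g3int (Ps L 0 s))
  refine this.congr (Eventually.of_forall (fun x => ?_))
  simp only
  rw [Pi_Ps, Ps_sub, g3_L L hL]

/-- directional force inequality -/
theorem Gn (hz : ∀ j, 0 ≤ z j) (hΦ₂ : 0 ≤ Φ₂) (hΦ : Φ₂ ≤ Φ₁) (h₁ : ELs z R Φ₁ ρ₁) (h₂ : ELs z R Φ₂ ρ₂)
    (n : E3) (hn : ‖n‖ = 1) (t : ℝ) (ht : ∀ j, ⟪n, R j⟫ ≠ t) :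
    0 ≤ ∑ j, (if t < ⟪n, R j⟫ then z j * Dn n (fun x => ρ₂ x - ρ₁ x) (R j) else 0) := by
  obtain ⟨L, hL⟩ := exists_rot n hn
  have hR' : ∀ j, (Ps L t (R j)) 0 ≠ 0 := by
    intro j
    rw [Ps_zero L hL]
    exact sub_ne_zero.2 (ht j)
  have h := G0 hz hR' hΦ₂ hΦ (h₁.iso L t) (h₂.iso L t)
  rw [← Ps_int L t] at h
  have e : (fun x => (ρ₂ (Pi' L t (Ps L t x)) - ρ₁ (Pi' L t (Ps L t x))) * dVV (za z (fun j => Ps L t (R j))) (fun j => Ps L t (R j)) (Ps L t x))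
      = fun x => ∑ j, (- za z (fun j => Ps L t (R j)) j) * ((ρ₂ x - ρ₁ x) * gn n (x - R j)) := by
    funext x
    rw [Pi_Ps, dVV_Ps L hL, mul_neg, Finset.mul_sum, ← Finset.sum_neg_distrib]
    refine Finset.sum_congr rfl (fun j _ => ?_)
    ring
  rw [e, integral_finsetSum _ (fun j _ => (gn_int hz hΦ₂ hΦ h₁ h₂ n hn (R j)).const_mul _)] at h
  refine h.trans_eq (Finset.sum_congr rfl (fun j _ => ?_))
  rw [integral_const_mul]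
  unfold za Dn
  rw [Ps_zero L hL]
  by_cases hj : t < ⟪n, R j⟫
  · rw [if_pos hj, if_pos (sub_pos.2 hj)]; ring
  · rw [if_neg hj, if_neg (fun h' => hj (sub_pos.1 h'))]; simp

/-- the directional Coulomb form -/
noncomputable def Qn (n : E3) (ρ : E3 → ℝ) : ℝ := ∫ p : E3 × E3, ρ p.1 * ρ p.2 * (⟪n, p.1 - p.2⟫ * gn n (p.1 - p.2))

lemma Q0_Pi (L : E3 ≃ₗᵢ[ℝ] E3) {n : E3} (hL : L n = e0) (ρ : E3 → ℝ) : Q0 (fun x => ρ (Pi' L 0 x)) = Qn n ρ := by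
  unfold Q0 Qn
  have hmp : MeasurePreserving (fun p : E3 × E3 => (Ps L 0 p.1, Ps L 0 p.2)) volume volume := by
    rw [Measure.volume_eq_prod]
    exact (Ps_mp L 0).prod (Ps_mp L 0)
  have hme : MeasurableEmbedding (fun p : E3 × E3 => (Ps L 0 p.1, Ps L 0 p.2)) :=
    ((PsE L 0).prodCongr (PsE L 0)).measurableEmbedding
  rw [← hmp.integral_comp hme]
  congr 1
  funext p
  simp only
  rw [Pi_Ps, Pi_Ps, Ps_sub, g3_L L hL, L_zero L hL]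

theorem Vn (hz : ∀ j, 0 ≤ z j) (hΦ₂ : 0 ≤ Φ₂) (hΦ : Φ₂ ≤ Φ₁) (h₁ : ELs z R Φ₁ ρ₁) (h₂ : ELs z R Φ₂ ρ₂)
    (n : E3) (hn : ‖n‖ = 1) :
    Integrable (fun x => ⟪n, x⟫ * ((ρ₂ x - ρ₁ x) * (- ∑ j, z j * gn n (x - R j)))) ∧
    (2/5 * (∫ x, ρ₂ x ^ (5/3 : ℝ)) - 2/5 * ∫ x, ρ₁ x ^ (5/3 : ℝ))
      + (∫ x, ⟪n, x⟫ * ((ρ₂ x - ρ₁ x) * (- ∑ j, z j * gn n (x - R j)))) + 1/2 * Qn n ρ₂ - 1/2 * Qn n ρ₁ = 0 := by
  obtain ⟨L, hL⟩ := exists_rot n hn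
  obtain ⟨a, b⟩ := V0 hz hΦ₂ hΦ (h₁.iso L 0) (h₂.iso L 0)
  have e : (fun x => (Ps L 0 x) 0 * ((ρ₂ (Pi' L 0 (Ps L 0 x)) - ρ₁ (Pi' L 0 (Ps L 0 x))) * dVV z (fun j => Ps L 0 (R j)) (Ps L 0 x)))
      = fun x => ⟪n, x⟫ * ((ρ₂ x - ρ₁ x) * (- ∑ j, z j * gn n (x - R j))) := by
    funext x
    rw [Pi_Ps, dVV_Ps L hL, Ps_zero L hL, sub_zero]
  refine ⟨?_, ?_⟩
  · have := Ps_intble L 0 a
    rw [← e]; exact this
  · rw [Q0_Pi L hL, Q0_Pi L hL, ← Ps_int L 0 (fun x => x 0 * _), e,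
      Pi_int L 0 (fun x => ρ₂ x ^ (5/3 : ℝ)), Pi_int L 0 (fun x => ρ₁ x ^ (5/3 : ℝ))] at b
    exact b

end main

end Pool.Agent.H9R2.TF
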