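import Pool.Agent.H9R2.TF.PC1

set_option autoImplicit false
open MeasureTheory Set Filter Topology Metric
open scoped RealInnerProductSpace BigOperators ENNReal
open Pool.Agent.Helper557 Pool.Agent.Helper557.TFP

namespace Pool.Agent.H9R2.TF

noncomputable def emb (p : E2v) : E3 := eqv.symm (0, p)

lemma emb_zero (p : E2v) : (emb p) 0 = 0 := by
  rw [← eqv_fst]
  unfold emb
  rw [MeasurableEquiv.apply_symm_apply]

lemma eqv_emb (p : E2v) : (eqv (emb p)).2 = p := by
  unfold emb
  rw [MeasurableEquiv.apply_symm_apply]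

lemma emb_meas : Measurable emb := by
  unfold emb
  exact eqv.symm.measurable.comp (measurable_const.prodMk measurable_id)

lemma eqv_sub2 (x y : E3) : (eqv (x - y)).2 = (eqv x).2 - (eqv y).2 := rfl

lemma norm_emb_sq (x : E3) (p : E2v) : ‖x - emb p‖ ^ 2 = x 0 ^ 2 + ‖(eqv x).2 - p‖ ^ 2 := by
  rw [eqv_norm, eqv_sub2, eqv_emb]
  congr 2
  rw [eqv_fst, PiLp.sub_apply, emb_zero, sub_zero]

lemma g3_emb1 (x : E3) (p : E2v) : g3 (x - emb p) = x 0 * (1 / √(x 0 ^ 2 + ‖(eqv x).2 - p‖ ^ 2) ^ 3) := by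
  unfold g3
  rw [← norm_emb_sq, Real.sqrt_sq (norm_nonneg _), PiLp.sub_apply, emb_zero, sub_zero]
  ring

lemma g3_emb2 (y : E3) (p : E2v) : g3 (emb p - y) = (- y 0) * (1 / √((- y 0) ^ 2 + ‖p - (eqv y).2‖ ^ 2) ^ 3) := by
  have e : emb p - y = - (y - emb p) := by abel
  rw [e, g3_neg, g3_emb1, neg_sq, norm_sub_rev p]
  ring

theorem PCg {x y : E3} (hx : 0 < x 0) (hy : y 0 < 0) :
    Integrable (fun p : E2v => g3 (x - emb p) * g3 (emb p - y)) ∧
    ∫ p : E2v, g3 (x - emb p) * g3 (emb p - y) = 2 * Real.pi * g3 (x - y) := by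
  obtain ⟨h1, h2⟩ := poisson_comp (eqv x).2 (eqv y).2 hx (show 0 < - y 0 by linarith)
  have e : (fun p : E2v => g3 (x - emb p) * g3 (emb p - y)) = fun p => (x 0 * (- y 0)) *
      ((1 / √(x 0 ^ 2 + ‖(eqv x).2 - p‖ ^ 2) ^ 3) * (1 / √((- y 0) ^ 2 + ‖p - (eqv y).2‖ ^ 2) ^ 3)) := by
    funext p
    rw [g3_emb1, g3_emb2]; ring
  rw [e]
  refine ⟨h1.const_mul _, ?_⟩
  rw [integral_const_mul, h2]
  have e2 : ‖x - y‖ = √((x 0 + - y 0) ^ 2 + ‖(eqv x).2 - (eqv y).2‖ ^ 2) := by
    rw [← eqv_sub2]
    have : x 0 + - y 0 = (eqv (x - y)).1 := by rw [eqv_fst, PiLp.sub_apply]; ring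
    rw [this, ← eqv_norm, Real.sqrt_sq (norm_nonneg _)]
  unfold g3
  rw [e2, PiLp.sub_apply]
  have hN : 0 < √((x 0 + - y 0) ^ 2 + ‖(eqv x).2 - (eqv y).2‖ ^ 2) :=
    Real.sqrt_pos.2 (by have : 0 < x 0 + - y 0 := by linarith
                        positivity)
  have hx' : x 0 ≠ 0 := hx.ne'
  have hy' : y 0 ≠ 0 := hy.ne
  field_simp
  ring

lemma g3_pos {x y : E3} (h : y 0 ≤ x 0) : 0 ≤ g3 (x - y) := by
  unfold g3
  rw [PiLp.sub_apply]
  exact div_nonneg (by linarith) (by positivity)

lemma PCg_abs {x y : E3} (hx : 0 < x 0) (hy : y 0 < 0) :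
    ∫ p : E2v, ‖g3 (x - emb p) * g3 (emb p - y)‖ = 2 * Real.pi * g3 (x - y) := by
  rw [← (PCg hx hy).2]
  congr 1
  funext p
  refine Real.norm_of_nonneg (mul_nonneg (g3_pos ?_) (g3_pos ?_))
  · rw [emb_zero]; exact hx.le
  · rw [emb_zero]; exact hy.le

lemma g3_emb_meas1 : Measurable (fun q : E3 × E2v => g3 (q.1 - emb q.2)) :=
  g3_meas.comp (measurable_fst.sub (emb_meas.comp measurable_snd))

/-- part 1: point charge below -/
lemma KL1 {a : E3 → ℝ} (ha : Cl a) (ha0 : ∀ x, x ∉ Hp → a x = 0) {S : E3} (hS : S 0 < 0) :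
    Integrable (fun p : E2v => dpot a (emb p) * g3 (emb p - S)) ∧
    ∫ p : E2v, dpot a (emb p) * g3 (emb p - S) = 2 * Real.pi * ∫ x, a x * g3 (x - S) := by
  set F : E3 × E2v → ℝ := fun q => a q.1 * (g3 (q.1 - emb q.2) * g3 (emb q.2 - S)) with hF
  have hFm : Measurable F := (ha.meas.comp measurable_fst).mul (g3_emb_meas1.mul
    (g3_meas.comp ((emb_meas.comp measurable_snd).sub_const S)))
  have hbS : ∀ x, x ∈ Hp → |g3 (x - S)| ≤ 1 / (S 0) ^ 2 := by
    intro x hx
    refine (g3_abs _).trans ?_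
    have h1 := abs_coord (x - S) 0
    have h2 := le_abs_self ((x - S) 0)
    have h3 : (x - S) 0 = x 0 - S 0 := rfl
    have h4 : (0:ℝ) < x 0 := hx
    have h5 : (S 0) ^ 2 ≤ ‖x - S‖ ^ 2 := by nlinarith
    have h6 : 0 < (S 0) ^ 2 := by nlinarith
    gcongr
  have hI1 : Integrable (fun x => a x * g3 (x - S)) := by
    refine (ha.int.abs.mul_const (1 / (S 0) ^ 2)).mono'
      (ha.meas.mul (g3_meas.comp (measurable_id.sub_const S))).aestronglyMeasurable (Eventually.of_forall (fun x => ?_))
    rw [norm_mul, Real.norm_eq_abs, Real.norm_eq_abs]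
    by_cases hx : x ∈ Hp
    · exact mul_le_mul_of_nonneg_left (hbS x hx) (abs_nonneg _)
    · rw [ha0 x hx]; simp
  have hFi : Integrable F ((volume : Measure E3).prod (volume : Measure E2v)) := by
    rw [integrable_prod_iff hFm.aestronglyMeasurable]
    constructor
    · refine Eventually.of_forall (fun x => ?_)
      show Integrable (fun p : E2v => a x * (g3 (x - emb p) * g3 (emb p - S)))
      by_cases hx : x ∈ Hp
      · exact (PCg hx hS).1.const_mul _
      · rw [ha0 x hx]; simp
    · have e : (fun x => ∫ p : E2v, ‖F (x, p)‖) = fun x => (2 * Real.pi) * |a x * g3 (x - S)| := by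
        funext x
        by_cases hx : x ∈ Hp
        · have e1 : (fun p : E2v => ‖F (x, p)‖) = fun p => |a x| * ‖g3 (x - emb p) * g3 (emb p - S)‖ := by
            funext p
            rw [hF]; simp only; rw [norm_mul, Real.norm_eq_abs]
          rw [e1, integral_const_mul, PCg_abs hx hS, abs_mul, abs_of_nonneg (g3_pos (x := x) (y := S) (by
            have : (0:ℝ) < x 0 := hx
            linarith))]
          ring
        · have e1 : (fun p : E2v => ‖F (x, p)‖) = fun p => 0 := by
            funext p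
            rw [hF]; simp only; rw [ha0 x hx]; simp
          rw [e1, ha0 x hx]; simp
      rw [e]
      exact hI1.abs.const_mul _
  have hin : ∀ p : E2v, ∫ x, F (x, p) = dpot a (emb p) * g3 (emb p - S) := by
    intro p
    have e1 : (fun x => F (x, p)) = fun x => - (a x * g3 (emb p - x)) * g3 (emb p - S) := by
      funext x
      rw [hF]; simp only
      have : emb p - x = - (x - emb p) := by abel
      rw [this, g3_neg]; ring
    rw [e1, integral_mul_const, integral_neg]
    rfl
  have hin2 : ∀ x, ∫ p : E2v, F (x, p) = 2 * Real.pi * (a x * g3 (x - S)) := by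
    intro x
    rw [hF]; simp only
    rw [integral_const_mul]
    by_cases hx : x ∈ Hp
    · rw [(PCg hx hS).2]; ring
    · rw [ha0 x hx]; ring
  constructor
  · have := hFi.integral_prod_right
    refine this.congr (Eventually.of_forall (fun p => ?_))
    exact hin p
  · have e1 : ∫ p : E2v, dpot a (emb p) * g3 (emb p - S) = ∫ p : E2v, ∫ x, F (x, p) := by
      congr 1
      funext p
      exact (hin p).symm
    rw [e1, ← integral_integral_swap (f := fun x p => F (x, p)) hFi]
    rw [← integral_const_mul]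
    congr 1
    funext x
    exact hin2 x

/-- part 2: density below -/
lemma KL2 {a b : E3 → ℝ} (ha : Cl a) (hb : Cl b) (ha0 : ∀ x, x ∉ Hp → a x = 0) (hb0 : ∀ x, x ∉ Hm → b x = 0) :
    Integrable (fun p : E2v => dpot a (emb p) * (- dpot b (emb p))) ∧
    ∫ p : E2v, dpot a (emb p) * (- dpot b (emb p)) = - (2 * Real.pi * Fo a b) := by
  set F : (E3 × E3) × E2v → ℝ := fun q => (a q.1.1 * b q.1.2) * (g3 (q.1.1 - emb q.2) * g3 (emb q.2 - q.1.2)) with hF
  have hFm : Measurable F := by
    refine ((ha.meas.comp (measurable_fst.comp measurable_fst)).mul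
      (hb.meas.comp (measurable_snd.comp measurable_fst))).mul ?_
    exact (g3_meas.comp ((measurable_fst.comp measurable_fst).sub (emb_meas.comp measurable_snd))).mul
      (g3_meas.comp ((emb_meas.comp measurable_snd).sub (measurable_snd.comp measurable_fst)))
  have hFo := Fo_int ha hb
  have hFi : Integrable F ((volume : Measure (E3 × E3)).prod (volume : Measure E2v)) := by
    rw [integrable_prod_iff hFm.aestronglyMeasurable]
    constructor
    · refine Eventually.of_forall (fun q => ?_)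
      show Integrable (fun p : E2v => (a q.1 * b q.2) * (g3 (q.1 - emb p) * g3 (emb p - q.2)))
      by_cases hx : q.1 ∈ Hp
      · by_cases hy : q.2 ∈ Hm
        · exact (PCg hx hy).1.const_mul _
        · rw [hb0 _ hy]; simp
      · rw [ha0 _ hx]; simp
    · have e : (fun q : E3 × E3 => ∫ p : E2v, ‖F (q, p)‖) = fun q => (2 * Real.pi) * |a q.1 * b q.2 * g3 (q.1 - q.2)| := by
        funext q
        by_cases hx : q.1 ∈ Hp
        · by_cases hy : q.2 ∈ Hm
          · have e1 : (fun p : E2v => ‖F (q, p)‖) = fun p => |a q.1 * b q.2| * ‖g3 (q.1 - emb p) * g3 (emb p - q.2)‖ := by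
              funext p
              rw [hF]; simp only; rw [norm_mul, Real.norm_eq_abs]
            rw [e1, integral_const_mul, PCg_abs hx hy, abs_mul (a q.1 * b q.2), abs_of_nonneg (g3_pos (x := q.1) (y := q.2) (by
              have h1 : (0:ℝ) < q.1 0 := hx
              have h2 : q.2 0 < 0 := hy
              linarith))]
            ring
          · have e1 : (fun p : E2v => ‖F (q, p)‖) = fun p => 0 := by
              funext p
              rw [hF]; simp only; rw [hb0 _ hy]; simp
            rw [e1, hb0 _ hy]; simp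
        · have e1 : (fun p : E2v => ‖F (q, p)‖) = fun p => 0 := by
            funext p
            rw [hF]; simp only; rw [ha0 _ hx]; simp
          rw [e1, ha0 _ hx]; simp
      rw [e]
      exact hFo.abs.const_mul _
  have hin : ∀ p : E2v, ∫ q, F (q, p) = dpot a (emb p) * (- dpot b (emb p)) := by
    intro p
    have e1 : (fun q : E3 × E3 => F (q, p)) = fun q => (- (a q.1 * g3 (emb p - q.1))) * (b q.2 * g3 (emb p - q.2)) := by
      funext q
      rw [hF]; simp only
      have : emb p - q.1 = - (q.1 - emb p) := by abel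
      rw [this, g3_neg]; ring
    rw [e1, Measure.volume_eq_prod, integral_prod_mul (fun x => - (a x * g3 (emb p - x))) (fun y => b y * g3 (emb p - y)),
      integral_neg]
    unfold dpot
    ring
  have hin2 : ∀ q : E3 × E3, ∫ p : E2v, F (q, p) = 2 * Real.pi * (a q.1 * b q.2 * g3 (q.1 - q.2)) := by
    intro q
    rw [hF]; simp only
    rw [integral_const_mul]
    by_cases hx : q.1 ∈ Hp
    · by_cases hy : q.2 ∈ Hm
      · rw [(PCg hx hy).2]; ring
      · rw [hb0 _ hy]; ring
    · rw [ha0 _ hx]; ring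
  constructor
  · have := hFi.integral_prod_right
    refine this.congr (Eventually.of_forall (fun p => ?_))
    exact hin p
  · have e1 : ∫ p : E2v, dpot a (emb p) * (- dpot b (emb p)) = ∫ p : E2v, ∫ q, F (q, p) := by
      congr 1
      funext p
      exact (hin p).symm
    rw [e1, ← integral_integral_swap (f := fun q p => F (q, p)) hFi]
    unfold Fo
    rw [mul_neg, neg_neg, ← integral_const_mul]
    congr 1
    funext q
    exact hin2 q

/-- **Key positivity lemma.** -/
theorem KL {k : ℕ} (c : Fin k → ℝ) (S : Fin k → E3) (hS : ∀ j, c j ≠ 0 → (S j) 0 < 0) {a b : E3 → ℝ}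
    (ha : Cl a) (hb : Cl b) (ha0 : ∀ x, x ∉ Hp → a x = 0) (hb0 : ∀ x, x ∉ Hm → b x = 0)
    (hπa : ∀ p, 0 ≤ dpot a (emb p)) (hπb : ∀ p, dVV c S (emb p) + dpot b (emb p) ≤ 0) :
    0 ≤ (∑ j, c j * ∫ x, a x * g3 (x - S j)) - Fo a b := by
  have hpi := Real.pi_pos
  obtain ⟨i2, e2⟩ := KL2 ha hb ha0 hb0
  have hj : ∀ j, Integrable (fun p : E2v => c j * (dpot a (emb p) * g3 (emb p - S j))) ∧
      ∫ p : E2v, c j * (dpot a (emb p) * g3 (emb p - S j)) = 2 * Real.pi * (c j * ∫ x, a x * g3 (x - S j)) := by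
    intro j
    by_cases h : c j = 0
    · rw [h]; simp
    · obtain ⟨i1, e1⟩ := KL1 ha ha0 (hS j h)
      refine ⟨i1.const_mul _, ?_⟩
      rw [integral_const_mul, e1]; ring
  have h0 : 0 ≤ ∫ p : E2v, ((∑ j, c j * (dpot a (emb p) * g3 (emb p - S j))) + dpot a (emb p) * (- dpot b (emb p))) := by
    refine integral_nonneg (fun p => ?_)
    have e : (∑ j, c j * (dpot a (emb p) * g3 (emb p - S j))) + dpot a (emb p) * (- dpot b (emb p))
        = dpot a (emb p) * (-(dVV c S (emb p) + dpot b (emb p))) := by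
      unfold dVV
      have : ∑ j, c j * (dpot a (emb p) * g3 (emb p - S j)) = dpot a (emb p) * ∑ j, c j * g3 (emb p - S j) := by
        rw [Finset.mul_sum]
        exact Finset.sum_congr rfl (fun j _ => by ring)
      rw [this]; ring
    show 0 ≤ (∑ j, c j * (dpot a (emb p) * g3 (emb p - S j))) + dpot a (emb p) * (- dpot b (emb p))
    rw [e]
    exact mul_nonneg (hπa p) (by have := hπb p; linarith)
  rw [integral_add (integrable_finsetSum _ (fun j _ => (hj j).1)) i2, integral_finsetSum _ (fun j _ => (hj j).1), e2] at h0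
  have e3 : ∑ j, ∫ p : E2v, c j * (dpot a (emb p) * g3 (emb p - S j)) = 2 * Real.pi * ∑ j, c j * ∫ x, a x * g3 (x - S j) := by
    rw [Finset.mul_sum]
    exact Finset.sum_congr rfl (fun j _ => (hj j).2)
  rw [e3] at h0
  have h3 : 0 ≤ (2 * Real.pi) * ((∑ j, c j * ∫ x, a x * g3 (x - S j)) - Fo a b) := by linarith
  exact nonneg_of_mul_nonneg_right h3 (by positivity)

end Pool.Agent.H9R2.TF
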