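import Pool.Agent.H9R2.TF.EX
import Pool.Agent.Helper557.TF.Diatomic

set_option autoImplicit false
open MeasureTheory Set Filter Topology Metric
open scoped RealInnerProductSpace BigOperators ENNReal
open Pool.Agent.Helper557 Pool.Agent.Helper557.TFP

namespace Pool.Agent.H9R2.TF

lemma pot_lin {a b : E3 → ℝ} (ha : Nice a) (hb : Nice b) (c : ℝ) (x : E3) :
    pot (fun y => a y + c * b y) x = pot a x + c * pot b x := by
  rw [pot_add ha (nice_smul hb c)]
  congr 1
  unfold pot
  rw [← integral_const_mul]
  congr 1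
  funext y; ring

lemma pot_pos {a : E3 → ℝ} (ha : Nice a) : 0 ≤ ∫ x, a x * pot a x := by
  have := coulomb_pd a ha
  rwa [TF_E1_dbl] at this

lemma pot_tendsto {ρh : E3 → ℝ} (hρ : Nice ρh) (a : ℕ → E3 → ℝ) (b : E3 → ℝ) (ha : ∀ n, Measurable (a n))
    (hle : ∀ n x, |a n x| ≤ ρh x) (hl : ∀ᵐ x, Tendsto (fun n => a n x) atTop (𝓝 (b x))) (x : E3) :
    Tendsto (fun n => pot (a n) x) atTop (𝓝 (pot b x)) := by
  obtain ⟨B, hB⟩ := nice_bound ρh hρ
  unfold pot
  refine tendsto_integral_of_dominated_convergence (fun y => ρh y / ‖x - y‖) ?_ (hB x).1 ?_ ?_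
  · intro n
    exact ((ha n).div (measurable_const.sub measurable_id).norm).aestronglyMeasurable
  · intro n
    refine Eventually.of_forall (fun y => ?_)
    rw [Real.norm_eq_abs, abs_div, abs_of_nonneg (norm_nonneg (x - y))]
    exact div_le_div_of_nonneg_right (hle n y) (norm_nonneg _)
  · filter_upwards [hl] with y hy
    exact hy.div_const _

lemma pot_abs_le {ρh : E3 → ℝ} (hρ : Nice ρh) {B : ℝ} (hB : ∀ x, |pot ρh x| ≤ B) {a : E3 → ℝ} (ha : Measurable a)
    (hle : ∀ x, |a x| ≤ ρh x) (x : E3) : |pot a x| ≤ B := by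
  have na : Nice a := nice_of_le hρ ha (fun x => (hle x).trans (le_abs_self _))
  have h1 := pot_mono na hρ (fun y => (le_abs_self _).trans (hle y)) x
  have h2 := pot_mono (nice_neg na) hρ (fun y => (neg_le_abs _).trans (hle y)) x
  rw [pot_neg] at h2
  have h3 := (abs_le.1 (hB x)).2
  rw [abs_le]
  constructor <;> linarith

theorem kop_full {ρh : E3 → ℝ} (hρ : Nice ρh) : KOp ρh pot where
  lin := fun a b ha hb c x => pot_lin ha hb c x
  meas := fun a ha => TF_E1_meas a ha.1
  bdd1 := fun a ha => by
    obtain ⟨B, _, hB⟩ := pot_bdd ha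
    exact ⟨B, hB⟩
  bdd := by
    obtain ⟨B, _, hB⟩ := pot_bdd hρ
    exact ⟨B, fun a ha hle x => pot_abs_le hρ hB ha hle x⟩
  symm := fun a b ha hb => TF_E1_symm a b ha hb
  pos := fun a ha => pot_pos ha
  cont := fun a b ha _ hle hl x => pot_tendsto hρ a b ha hle hl x
  congr := fun a b h x => pot_congr h x

/-! ### the half-space operator -/

def Hp : Set E3 := {x | 0 < x 0}
def Hm : Set E3 := {x | x 0 < 0}

lemma coord_cont : Continuous (fun x : E3 => x 0) := by fun_prop

lemma Hp_open : IsOpen Hp := isOpen_lt continuous_const coord_cont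
lemma Hm_open : IsOpen Hm := isOpen_lt coord_cont continuous_const
lemma Hp_meas : MeasurableSet Hp := Hp_open.measurableSet
lemma Hm_meas : MeasurableSet Hm := Hm_open.measurableSet

lemma sg_mem_Hp {x : E3} : sg x ∈ Hp ↔ x ∈ Hm := by
  unfold Hp Hm
  simp only [mem_setOf_eq, sg_zero]
  constructor <;> intro h <;> linarith

lemma sg_mem_Hm {x : E3} : sg x ∈ Hm ↔ x ∈ Hp := by
  unfold Hp Hm
  simp only [mem_setOf_eq, sg_zero]
  constructor <;> intro h <;> linarith

/-- odd extension of the restriction to the upper half space -/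
noncomputable def od (a : E3 → ℝ) (y : E3) : ℝ := Hp.indicator a y - Hp.indicator a (sg y)

lemma nice_ind {a : E3 → ℝ} (ha : Nice a) {A : Set E3} (hA : MeasurableSet A) : Nice (A.indicator a) := by
  refine nice_of_le ha (ha.1.indicator hA) (fun x => ?_)
  by_cases h : x ∈ A
  · rw [indicator_of_mem h]
  · rw [indicator_of_notMem h]; simp

lemma nice_od {a : E3 → ℝ} (ha : Nice a) : Nice (od a) :=
  nice_sub' (nice_ind ha Hp_meas) (nice_sg (nice_ind ha Hp_meas))

lemma cl_od {a : E3 → ℝ} (ha : Cl a) : Cl (od a) := (ha.ind Hp_meas).sub (ha.ind Hp_meas).sg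

lemma od_sg (a : E3 → ℝ) (y : E3) : od a (sg y) = - od a y := by
  unfold od; rw [sg_sg]; ring

lemma od_up (a : E3 → ℝ) {y : E3} (h : y ∈ Hp) : od a y = a y := by
  unfold od
  rw [indicator_of_mem h, indicator_of_notMem, sub_zero]
  intro h'
  have := sg_mem_Hp.1 h'
  unfold Hp at h; unfold Hm at this
  simp only [mem_setOf_eq] at h this
  linarith

lemma od_lin (a b : E3 → ℝ) (c : ℝ) : od (fun y => a y + c * b y) = fun y => od a y + c * od b y := by
  funext y
  unfold od
  by_cases h1 : y ∈ Hp <;> by_cases h2 : sg y ∈ Hp <;> simp [h1, h2] <;> ring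

lemma pot_od_sg (a : E3 → ℝ) (x : E3) : pot (od a) (sg x) = - pot (od a) x := by
  rw [← pot_sg, ← pot_neg]
  congr 1
  funext y
  exact od_sg a y

lemma pot_od_bd (a : E3 → ℝ) {x : E3} (h : x 0 = 0) : pot (od a) x = 0 := by
  have := pot_od_sg a x
  rw [sg_fix h] at this
  linarith

noncomputable def Kh (a : E3 → ℝ) : E3 → ℝ := Hp.indicator (pot (od a))

lemma Kh_pair {a b : E3 → ℝ} (ha : Nice a) (hb : Nice b) :
    ∫ x, a x * Kh b x = 1/2 * ∫ x, od a x * pot (od b) x := by
  have h1 : (fun x => a x * Kh b x) = fun x => Hp.indicator a x * pot (od b) x := by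
    funext x
    unfold Kh
    by_cases h : x ∈ Hp
    · rw [indicator_of_mem h, indicator_of_mem h]
    · rw [indicator_of_notMem h, indicator_of_notMem h]; ring
  have n1 := nice_ind ha Hp_meas
  have n2 := nice_od hb
  have i1 := TF_E1_int _ _ n1.2.1 n2
  have i2 := TF_E1_int _ _ (nice_sg n1).2.1 n2
  have h2 : ∫ x, Hp.indicator a (sg x) * pot (od b) x = - ∫ x, Hp.indicator a x * pot (od b) x := by
    rw [← sg_int (fun x => Hp.indicator a x * pot (od b) x), ← integral_neg]
    congr 1
    funext x
    rw [pot_od_sg]; ring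
  have h3 : ∫ x, od a x * pot (od b) x = (∫ x, Hp.indicator a x * pot (od b) x)
      - ∫ x, Hp.indicator a (sg x) * pot (od b) x := by
    rw [← integral_sub i1 i2]
    congr 1
    funext x
    unfold od; ring
  rw [h1, h3, h2]
  ring

theorem kop_half {ρh : E3 → ℝ} (hρ : Nice ρh) (hρ0 : ∀ x, 0 ≤ ρh x) : KOp ρh Kh where
  lin := fun a b ha hb c x => by
    unfold Kh
    rw [od_lin]
    by_cases h : x ∈ Hp
    · rw [indicator_of_mem h, indicator_of_mem h, indicator_of_mem h]
      exact pot_lin (nice_od ha) (nice_od hb) c x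
    · rw [indicator_of_notMem h, indicator_of_notMem h, indicator_of_notMem h]; ring
  meas := fun a ha => (TF_E1_meas _ (nice_od ha).1).indicator Hp_meas
  bdd1 := fun a ha => by
    obtain ⟨B, hB0, hB⟩ := pot_bdd (nice_od ha)
    refine ⟨B, fun x => ?_⟩
    unfold Kh
    by_cases h : x ∈ Hp
    · rw [indicator_of_mem h]; exact hB x
    · rw [indicator_of_notMem h, abs_zero]; exact hB0
  bdd := by
    have nb : Nice (fun x => ρh x + ρh (sg x)) := nice_add hρ (nice_sg hρ)
    obtain ⟨B, hB0, hB⟩ := pot_bdd nb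
    refine ⟨B, fun a ha hle x => ?_⟩
    have na : Nice a := nice_of_le hρ ha (fun x => (hle x).trans (le_abs_self _))
    unfold Kh
    by_cases h : x ∈ Hp
    · rw [indicator_of_mem h]
      refine pot_abs_le nb hB (nice_od na).1 (fun y => ?_) x
      unfold od
      refine (abs_sub _ _).trans (add_le_add ?_ ?_)
      · by_cases h : y ∈ Hp
        · rw [indicator_of_mem h]; exact hle y
        · rw [indicator_of_notMem h, abs_zero]; exact hρ0 y
      · by_cases h : sg y ∈ Hp
        · rw [indicator_of_mem h]; exact hle _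
        · rw [indicator_of_notMem h, abs_zero]; exact hρ0 _
    · rw [indicator_of_notMem h, abs_zero]; exact hB0
  symm := fun a b ha hb => by
    rw [Kh_pair ha hb, Kh_pair hb ha, TF_E1_symm _ _ (nice_od ha) (nice_od hb)]
  pos := fun a ha => by
    rw [Kh_pair ha ha]
    have := pot_pos (nice_od ha)
    linarith
  cont := fun a b ha hb hle hl x => by
    have nb : Nice (fun x => ρh x + ρh (sg x)) := nice_add hρ (nice_sg hρ)
    have hl2 : ∀ᵐ x, Tendsto (fun n => a n (sg x)) atTop (𝓝 (b (sg x))) :=
      sg_mp.quasiMeasurePreserving.ae hl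
    have key : Tendsto (fun n => pot (od (a n)) x) atTop (𝓝 (pot (od b) x)) := by
      refine pot_tendsto nb (fun n => od (a n)) (od b) (fun n => ?_) (fun n y => ?_) ?_ x
      · have m1 := (ha n).indicator Hp_meas
        exact m1.sub (m1.comp sg_meas)
      · unfold od
        refine (abs_sub _ _).trans (add_le_add ?_ ?_)
        · by_cases h : y ∈ Hp
          · rw [indicator_of_mem h]; exact hle n y
          · rw [indicator_of_notMem h, abs_zero]; exact hρ0 y
        · by_cases h : sg y ∈ Hp
          · rw [indicator_of_mem h]; exact hle n _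
          · rw [indicator_of_notMem h, abs_zero]; exact hρ0 _
      · filter_upwards [hl, hl2] with y h1 h2
        unfold od
        refine Tendsto.sub ?_ ?_
        · by_cases h : y ∈ Hp
          · simp only [indicator_of_mem h]; exact h1
          · simp only [indicator_of_notMem h]; exact tendsto_const_nhds
        · by_cases h : sg y ∈ Hp
          · simp only [indicator_of_mem h]; exact h2
          · simp only [indicator_of_notMem h]; exact tendsto_const_nhds
    unfold Kh
    by_cases h : x ∈ Hp
    · simp only [indicator_of_mem h]; exact key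
    · simp only [indicator_of_notMem h]; exact tendsto_const_nhds
  congr := fun a b h x => by
    unfold Kh
    have h2 : (fun x => a (sg x)) =ᵐ[volume] fun x => b (sg x) := sg_mp.quasiMeasurePreserving.ae h
    have key : pot (od a) x = pot (od b) x := by
      refine pot_congr ?_ x
      filter_upwards [h, h2] with y h1 h3
      unfold od
      congr 1
      · by_cases h : y ∈ Hp
        · rw [indicator_of_mem h, indicator_of_mem h, h1]
        · rw [indicator_of_notMem h, indicator_of_notMem h]
      · by_cases h : sg y ∈ Hp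
        · rw [indicator_of_mem h, indicator_of_mem h]; exact h3
        · rw [indicator_of_notMem h, indicator_of_notMem h]
    by_cases h : x ∈ Hp
    · rw [indicator_of_mem h, indicator_of_mem h]; exact key
    · rw [indicator_of_notMem h, indicator_of_notMem h]

end Pool.Agent.H9R2.TF
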