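import Pool.Agent.H9R2.TF.Iso

set_option autoImplicit false
open MeasureTheory Set Filter Topology Metric
open scoped RealInnerProductSpace BigOperators ENNReal
open Pool.Agent.Helper557 Pool.Agent.Helper557.TFP

namespace Pool.Agent.H9R2.TF

variable {k : ℕ} {z : Fin k → ℝ} {R : Fin k → E3}

/-- layer cake -/
lemma layer (x c : Fin k → ℝ) (h : ∀ t, (∀ j, x j ≠ t) → 0 ≤ ∑ j, (if t < x j then c j else 0))
    (h0 : ∑ j, c j = 0) : 0 ≤ ∑ j, c j * x j := by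
  obtain ⟨M, hM0, hM⟩ : ∃ M : ℝ, 0 ≤ M ∧ ∀ j, |x j| ≤ M := by
    refine ⟨∑ j, |x j|, Finset.sum_nonneg (fun j _ => abs_nonneg _), fun j => ?_⟩
    exact Finset.single_le_sum (f := fun j => |x j|) (fun i _ => abs_nonneg _) (Finset.mem_univ j)
  have e1 : ∀ j, ∫ t in Ico (-M) M, (if t < x j then c j else 0) = c j * (x j + M) := by
    intro j
    have e : (fun t : ℝ => (if t < x j then c j else 0)) = (Iio (x j)).indicator (fun _ => c j) := by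
      funext t
      simp only [indicator, mem_Iio]
    rw [e, setIntegral_indicator measurableSet_Iio, setIntegral_const]
    have e2 : Ico (-M) M ∩ Iio (x j) = Ico (-M) (x j) := by
      ext t
      simp only [mem_inter_iff, mem_Ico, mem_Iio]
      constructor
      · rintro ⟨⟨a, b⟩, d⟩; exact ⟨a, d⟩
      · rintro ⟨a, d⟩; exact ⟨⟨a, d.trans_le ((le_abs_self _).trans (hM j))⟩, d⟩
    rw [e2, Measure.real, Real.volume_Ico, ENNReal.toReal_ofReal, smul_eq_mul]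
    · ring
    · have := (abs_le.1 (hM j)).1
      linarith
  have hi : ∀ j, IntegrableOn (fun t : ℝ => (if t < x j then c j else 0)) (Ico (-M) M) := by
    intro j
    have e : (fun t : ℝ => (if t < x j then c j else 0)) = (Iio (x j)).indicator (fun _ => c j) := by
      funext t
      simp only [indicator, mem_Iio]
    rw [e]
    exact (integrableOn_const (by rw [Real.volume_Ico]; exact ENNReal.ofReal_ne_top)).indicator measurableSet_Iio
  have h1 : 0 ≤ ∫ t in Ico (-M) M, ∑ j, (if t < x j then c j else 0) := by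
    refine integral_nonneg_of_ae (ae_restrict_of_ae ?_)
    have : ∀ᵐ t : ℝ, ∀ j, x j ≠ t := by
      rw [ae_all_iff]
      intro j
      have := (Measure.ae_ne (μ := (volume : Measure ℝ)) (x j))
      filter_upwards [this] with t ht
      exact fun h' => ht h'.symm
    filter_upwards [this] with t ht
    exact h t ht
  rw [integral_finsetSum _ (fun j _ => hi j)] at h1
  simp only [e1] at h1
  have e3 : ∑ j, c j * (x j + M) = ∑ j, c j * x j + M * ∑ j, c j := by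
    rw [Finset.mul_sum, ← Finset.sum_add_distrib]
    refine Finset.sum_congr rfl (fun j _ => ?_)
    ring
  rw [e3, h0, mul_zero, add_zero] at h1
  exact h1

section main
variable {Φ₁ Φ₂ : ℝ} {ρ₁ ρ₂ : E3 → ℝ}

lemma Gn_low (hz : ∀ j, 0 ≤ z j) (hΦ₂ : 0 ≤ Φ₂) (hΦ : Φ₂ ≤ Φ₁) (h₁ : ELs z R Φ₁ ρ₁) (h₂ : ELs z R Φ₂ ρ₂)
    (n : E3) (hn : ‖n‖ = 1) : 0 ≤ ∑ j, z j * Dn n (fun x => ρ₂ x - ρ₁ x) (R j) := by
  obtain ⟨M, hM⟩ : ∃ M : ℝ, ∀ j, |⟪n, R j⟫| ≤ M := by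
    refine ⟨∑ j, |⟪n, R j⟫|, fun j => ?_⟩
    exact Finset.single_le_sum (f := fun j => |⟪n, R j⟫|) (fun i _ => abs_nonneg _) (Finset.mem_univ j)
  have hlt : ∀ j, -M - 1 < ⟪n, R j⟫ := fun j => by
    have := (abs_le.1 (hM j)).1
    linarith
  have := Gn hz hΦ₂ hΦ h₁ h₂ n hn (-M - 1) (fun j => (hlt j).ne')
  refine this.trans_eq (Finset.sum_congr rfl (fun j _ => ?_))
  rw [if_pos (hlt j)]

lemma Gn_zero (hz : ∀ j, 0 ≤ z j) (hΦ₂ : 0 ≤ Φ₂) (hΦ : Φ₂ ≤ Φ₁) (h₁ : ELs z R Φ₁ ρ₁) (h₂ : ELs z R Φ₂ ρ₂)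
    (n : E3) (hn : ‖n‖ = 1) : ∑ j, z j * Dn n (fun x => ρ₂ x - ρ₁ x) (R j) = 0 := by
  refine le_antisymm ?_ (Gn_low hz hΦ₂ hΦ h₁ h₂ n hn)
  have := Gn_low hz hΦ₂ hΦ h₁ h₂ (-n) (by rw [norm_neg]; exact hn)
  simp only [Dn_neg, mul_neg, Finset.sum_neg_distrib] at this
  linarith

theorem Mn (hz : ∀ j, 0 ≤ z j) (hΦ₂ : 0 ≤ Φ₂) (hΦ : Φ₂ ≤ Φ₁) (h₁ : ELs z R Φ₁ ρ₁) (h₂ : ELs z R Φ₂ ρ₂)
    (n : E3) (hn : ‖n‖ = 1) :
    0 ≤ ∑ j, (z j * Dn n (fun x => ρ₂ x - ρ₁ x) (R j)) * ⟪n, R j⟫ := by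
  refine layer (fun j => ⟪n, R j⟫) (fun j => z j * Dn n (fun x => ρ₂ x - ρ₁ x) (R j)) (fun t ht => ?_) ?_
  · exact Gn hz hΦ₂ hΦ h₁ h₂ n hn t ht
  · exact Gn_zero hz hΦ₂ hΦ h₁ h₂ n hn

lemma gn_sq_abs (n : E3) (hn : ‖n‖ = 1) (v : E3) : |⟪n, v⟫ * gn n v| ≤ 1 / ‖v‖ := by
  obtain ⟨L, hL⟩ := exists_rot n hn
  have := coord_g3 (L v)
  rwa [L_zero L hL, g3_L L hL, L.norm_map] at this

lemma inner_cont (n : E3) : Continuous (fun x : E3 => ⟪n, x⟫) := continuous_const.inner continuous_id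

lemma gn_meas (n : E3) : Measurable (gn n) := by
  unfold gn
  exact (inner_cont n).measurable.div ((continuous_norm.pow 3).measurable)

lemma nice_sub'' (h₁ : Nice ρ₁) (h₂ : Nice ρ₂) : Nice (fun x => ρ₂ x - ρ₁ x) := nice_sub' h₂ h₁

lemma quad_int {δ : E3 → ℝ} (nd : Nice δ) (n : E3) (hn : ‖n‖ = 1) (s : E3) :
    Integrable (fun x => δ x * (⟪n, x - s⟫ * gn n (x - s))) := by
  obtain ⟨B, hB⟩ := nice_bound _ nd
  have hm : Measurable (fun x : E3 => δ x * (⟪n, x - s⟫ * gn n (x - s))) :=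
    nd.1.mul (((inner_cont n).measurable.comp (measurable_id.sub_const _)).mul ((gn_meas n).comp (measurable_id.sub_const _)))
  refine ((hB s).1.norm).mono' hm.aestronglyMeasurable (Eventually.of_forall (fun x => ?_))
  rw [norm_mul, norm_div, norm_norm]
  have := gn_sq_abs n hn (x - s)
  rw [Real.norm_eq_abs (⟪n, x - s⟫ * gn n (x - s)), norm_sub_rev s x]
  calc ‖δ x‖ * |⟪n, x - s⟫ * gn n (x - s)| ≤ ‖δ x‖ * (1 / ‖x - s‖) :=
        mul_le_mul_of_nonneg_left this (norm_nonneg _)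
    _ = _ := by ring

/-- directional form of the main inequality -/
theorem Mn' (hz : ∀ j, 0 ≤ z j) (hΦ₂ : 0 ≤ Φ₂) (hΦ : Φ₂ ≤ Φ₁) (h₁ : ELs z R Φ₁ ρ₁) (h₂ : ELs z R Φ₂ ρ₂)
    (n : E3) (hn : ‖n‖ = 1) :
    2/5 * (∫ x, ρ₂ x ^ (5/3 : ℝ)) - 2/5 * (∫ x, ρ₁ x ^ (5/3 : ℝ)) + 1/2 * Qn n ρ₂ - 1/2 * Qn n ρ₁
      ≤ ∑ j, z j * ∫ x, (ρ₂ x - ρ₁ x) * (⟪n, x - R j⟫ * gn n (x - R j)) := by
  have nd := nice_sub'' h₁.nice h₂.nice
  obtain ⟨a, b⟩ := Vn hz hΦ₂ hΦ h₁ h₂ n hn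
  have m := Mn hz hΦ₂ hΦ h₁ h₂ n hn
  have e : (fun x => ⟪n, x⟫ * ((ρ₂ x - ρ₁ x) * (- ∑ j, z j * gn n (x - R j))))
      = fun x => ∑ j, ((- z j) * ((ρ₂ x - ρ₁ x) * (⟪n, x - R j⟫ * gn n (x - R j)))
        + (- (z j * ⟪n, R j⟫)) * ((ρ₂ x - ρ₁ x) * gn n (x - R j))) := by
    funext x
    rw [mul_neg, mul_neg, Finset.mul_sum, Finset.mul_sum, ← Finset.sum_neg_distrib]
    refine Finset.sum_congr rfl (fun j _ => ?_)
    have : ⟪n, x - R j⟫ = ⟪n, x⟫ - ⟪n, R j⟫ := inner_sub_right _ _ _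
    rw [this]; ring
  have hii : ∀ j ∈ (Finset.univ : Finset (Fin k)), Integrable (fun x => (- z j) * ((ρ₂ x - ρ₁ x) * (⟪n, x - R j⟫ * gn n (x - R j)))
        + (- (z j * ⟪n, R j⟫)) * ((ρ₂ x - ρ₁ x) * gn n (x - R j))) := fun j _ =>
    ((quad_int nd n hn (R j)).const_mul _).add ((gn_int hz hΦ₂ hΦ h₁ h₂ n hn (R j)).const_mul _)
  rw [e, integral_finsetSum _ hii] at b
  have e2 : ∀ j, ∫ x, ((- z j) * ((ρ₂ x - ρ₁ x) * (⟪n, x - R j⟫ * gn n (x - R j)))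
        + (- (z j * ⟪n, R j⟫)) * ((ρ₂ x - ρ₁ x) * gn n (x - R j)))
      = - (z j * ∫ x, (ρ₂ x - ρ₁ x) * (⟪n, x - R j⟫ * gn n (x - R j)))
        + (z j * Dn n (fun x => ρ₂ x - ρ₁ x) (R j)) * ⟪n, R j⟫ := by
    intro j
    rw [integral_add ((quad_int nd n hn (R j)).const_mul _) ((gn_int hz hΦ₂ hΦ h₁ h₂ n hn (R j)).const_mul _),
      integral_const_mul, integral_const_mul]
    unfold Dn
    ring
  rw [Finset.sum_congr rfl (fun j _ => e2 j), Finset.sum_add_distrib, Finset.sum_neg_distrib] at b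
  linarith

lemma sum_gn (v : E3) : ∑ a : Fin 3, ⟪(EuclideanSpace.single a 1 : E3), v⟫ * gn (EuclideanSpace.single a 1) v = 1 / ‖v‖ := by
  unfold gn
  have e : ∀ a : Fin 3, ⟪(EuclideanSpace.single a 1 : E3), v⟫ * (⟪(EuclideanSpace.single a 1 : E3), v⟫ / ‖v‖ ^ 3)
      = (v a) ^ 2 / ‖v‖ ^ 3 := by
    intro a
    rw [EuclideanSpace.inner_single_left]
    simp
    ring
  rw [Finset.sum_congr rfl (fun a _ => e a), ← Finset.sum_div]
  have e2 : ∑ a : Fin 3, (v a) ^ 2 = ‖v‖ ^ 2 := by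
    rw [EuclideanSpace.norm_sq_eq]
    refine Finset.sum_congr rfl (fun a _ => ?_)
    rw [Real.norm_eq_abs, sq_abs]
  rw [e2]
  rcases eq_or_ne ‖v‖ 0 with h | h
  · rw [h]; simp
  · field_simp

/-- **Theorem M** -/
theorem ThmM (hz : ∀ j, 0 ≤ z j) (hΦ₂ : 0 ≤ Φ₂) (hΦ : Φ₂ ≤ Φ₁) (h₁ : ELs z R Φ₁ ρ₁) (h₂ : ELs z R Φ₂ ρ₂) :
    6/5 * (∫ x, ρ₂ x ^ (5/3 : ℝ)) - (∫ x, VV z R x * ρ₂ x) + 1/2 * (∫ p : E3 × E3, ρ₂ p.1 * ρ₂ p.2 / ‖p.1 - p.2‖)
      ≤ 6/5 * (∫ x, ρ₁ x ^ (5/3 : ℝ)) - (∫ x, VV z R x * ρ₁ x) + 1/2 * (∫ p : E3 × E3, ρ₁ p.1 * ρ₁ p.2 / ‖p.1 - p.2‖) := by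
  have nd := nice_sub'' h₁.nice h₂.nice
  have hn : ∀ a : Fin 3, ‖(EuclideanSpace.single a 1 : E3)‖ = 1 := fun a => by simp
  have H := Finset.sum_le_sum (s := (Finset.univ : Finset (Fin 3))) (fun a _ => Mn' hz hΦ₂ hΦ h₁ h₂ (EuclideanSpace.single a 1) (hn a))
  -- the right-hand side
  have r1 : ∑ a : Fin 3, ∑ j, z j * ∫ x, (ρ₂ x - ρ₁ x) * (⟪(EuclideanSpace.single a 1 : E3), x - R j⟫ * gn (EuclideanSpace.single a 1) (x - R j))
      = (∫ x, VV z R x * ρ₂ x) - ∫ x, VV z R x * ρ₁ x := by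
    rw [Finset.sum_comm]
    have e : ∀ j, ∑ a : Fin 3, z j * ∫ x, (ρ₂ x - ρ₁ x) * (⟪(EuclideanSpace.single a 1 : E3), x - R j⟫ * gn (EuclideanSpace.single a 1) (x - R j))
        = ∫ x, z j * ((ρ₂ x - ρ₁ x) / ‖x - R j‖) := by
      intro j
      rw [← Finset.mul_sum, ← integral_finsetSum _ (fun a _ => quad_int nd _ (hn a) (R j)), ← integral_const_mul]
      congr 1
      funext x
      rw [← Finset.mul_sum, sum_gn]
      ring
    have hq : ∀ (g : E3 → ℝ), Nice g → ∀ j, Integrable (fun x => z j * (g x / ‖x - R j‖)) := by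
      intro g hg j
      obtain ⟨B, hB⟩ := nice_bound _ hg
      refine ((hB (R j)).1.const_mul (z j)).congr (Eventually.of_forall (fun x => ?_))
      simp only
      rw [norm_sub_rev]
    rw [Finset.sum_congr rfl (fun j _ => e j), ← integral_finsetSum _ (fun j _ => hq _ nd j)]
    have hv : ∀ (g : E3 → ℝ), Nice g → Integrable (fun x => VV z R x * g x) := by
      intro g hg
      refine (integrable_finsetSum Finset.univ (fun j _ => hq g hg j)).congr (Eventually.of_forall (fun x => ?_))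
      unfold VV
      simp only
      rw [Finset.sum_mul]
      refine Finset.sum_congr rfl (fun j _ => ?_)
      ring
    rw [← integral_sub (hv _ h₂.nice) (hv _ h₁.nice)]
    congr 1
    funext x
    unfold VV
    rw [← mul_sub, Finset.sum_mul]
    refine Finset.sum_congr rfl (fun j _ => ?_)
    ring
  -- the Coulomb forms
  have r2 : ∀ (g : E3 → ℝ), Nice g → ∑ a : Fin 3, Qn (EuclideanSpace.single a 1) g = ∫ p : E3 × E3, g p.1 * g p.2 / ‖p.1 - p.2‖ := by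
    intro g hg
    unfold Qn
    rw [← integral_finsetSum]
    · congr 1
      funext p
      rw [← Finset.mul_sum, sum_gn]
      ring
    · intro a _
      have hm : Measurable (fun p : E3 × E3 => g p.1 * g p.2 * (⟪(EuclideanSpace.single a 1 : E3), p.1 - p.2⟫ * gn (EuclideanSpace.single a 1) (p.1 - p.2))) :=
        ((hg.1.comp measurable_fst).mul (hg.1.comp measurable_snd)).mul
          (((inner_cont _).measurable.comp (measurable_fst.sub measurable_snd)).mul ((gn_meas _).comp (measurable_fst.sub measurable_snd)))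
      refine (prod_coul hg hg).norm.mono' hm.aestronglyMeasurable (Eventually.of_forall (fun p => ?_))
      rw [norm_mul, norm_div, norm_norm, div_eq_mul_one_div]
      exact mul_le_mul_of_nonneg_left (gn_sq_abs _ (hn a) _) (norm_nonneg _)
  rw [r1] at H
  simp only [Finset.sum_sub_distrib, Finset.sum_add_distrib, ← Finset.mul_sum, r2 _ h₁.nice, r2 _ h₂.nice,
    Finset.sum_const, Finset.card_univ, Fintype.card_fin, nsmul_eq_mul] at H
  push_cast at H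
  linarith

end main

end Pool.Agent.H9R2.TF
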