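import Pool.Agent.H9R2.TF.KL

set_option autoImplicit false
open MeasureTheory Set Filter Topology Metric
open scoped RealInnerProductSpace BigOperators ENNReal
open Pool.Agent.Helper557 Pool.Agent.Helper557.TFP

namespace Pool.Agent.H9R2.TF

noncomputable def ln (t : ℝ) (p : E2v) : E3 := eqv.symm (t, p)

lemma ln_zero' (t : ℝ) (p : E2v) : (ln t p) 0 = t := by
  rw [← eqv_fst]; unfold ln; rw [MeasurableEquiv.apply_symm_apply]

lemma emb_eq_ln (p : E2v) : emb p = ln 0 p := rfl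

lemma eqv_add_e0 (x : E3) (s : ℝ) : eqv (x + s • e0) = ((eqv x).1 + s, (eqv x).2) := by
  refine Prod.ext ?_ ?_
  · rw [eqv_fst, eqv_fst, PiLp.add_apply, PiLp.smul_apply]
    simp [e0]
  · have h : (eqv (x + s • e0)).2 - (eqv x).2 = 0 := by
      rw [← eqv_sub2, add_sub_cancel_left]
      have h1 := eqv_norm (s • e0)
      rw [eqv_fst, norm_smul, e0_norm, PiLp.smul_apply] at h1
      have h2 : (e0 : E3) 0 = 1 := by simp [e0]
      rw [h2] at h1
      simp only [mul_one, Real.norm_eq_abs, sq_abs, smul_eq_mul] at h1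
      have h3 : ‖(eqv (s • e0)).2‖ ^ 2 = 0 := by linarith
      exact norm_eq_zero.1 (pow_eq_zero_iff (two_ne_zero) |>.1 h3)
    exact sub_eq_zero.1 h

lemma ln_add (t s : ℝ) (p : E2v) : ln (t + s) p = ln t p + s • e0 := by
  apply eqv.injective
  rw [eqv_add_e0]
  unfold ln
  rw [MeasurableEquiv.apply_symm_apply, MeasurableEquiv.apply_symm_apply]

lemma ln_norm (t : ℝ) (p : E2v) : |t| ≤ ‖ln t p‖ := by
  have := abs_coord (ln t p) 0
  rwa [ln_zero'] at this

lemma ln_cont (p : E2v) : Continuous (fun t => ln t p) := by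
  have : (fun t => ln t p) = fun t : ℝ => ln 0 p + t • e0 := by
    funext t
    have := ln_add 0 t p
    rwa [zero_add] at this
  rw [this]
  fun_prop

/-- derivative along lines -/
lemma ln_deriv {F : E3 → ℝ} {d : ℝ} {t : ℝ} {p : E2v}
    (h : HasDerivAt (fun s : ℝ => F (ln t p + s • e0)) d 0) : HasDerivAt (fun t => F (ln t p)) d t := by
  have h2 := HasDerivAt.comp_sub_const (x := t) (a := t) (f := fun s : ℝ => F (ln t p + s • e0)) (f' := d)
    (by rw [sub_self]; exact h)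
  refine h2.congr_of_eventuallyEq (Eventually.of_forall (fun s => ?_))
  show F (ln s p) = F (ln t p + (s - t) • e0)
  rw [← ln_add]
  congr 2
  ring

lemma ln_mp : MeasurePreserving (fun q : ℝ × E2v => ln q.1 q.2) volume volume := eqv_mp.symm

lemma ln_int (F : E3 → ℝ) : ∫ x, F x = ∫ q : ℝ × E2v, F (ln q.1 q.2) :=
  (ln_mp.integral_comp eqv.symm.measurableEmbedding F).symm

lemma ln_intble {F : E3 → ℝ} (h : Integrable F) : Integrable (fun q : ℝ × E2v => F (ln q.1 q.2)) :=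
  (ln_mp.integrable_comp_emb eqv.symm.measurableEmbedding).2 h

theorem Lfull (F F' : E3 → ℝ) (hint : Integrable F')
    (h : ∀ᵐ p : E2v, (∀ t, HasDerivAt (fun t => F (ln t p)) (F' (ln t p)) t) ∧
      Tendsto (fun t => F (ln t p)) atTop (𝓝 0) ∧ Tendsto (fun t => F (ln t p)) atBot (𝓝 0)) :
    ∫ x, F' x = 0 := by
  have h1 := ln_intble hint
  have hsw : Integrable (fun q : E2v × ℝ => F' (ln q.2 q.1)) := h1.swap
  rw [ln_int]
  have e : ∫ q : ℝ × E2v, F' (ln q.1 q.2) = ∫ p : E2v, ∫ t : ℝ, F' (ln t p) :=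
    integral_prod_symm (fun q : ℝ × E2v => F' (ln q.1 q.2)) h1
  rw [e]
  have hae := hsw.prod_right_ae
  have : ∀ᵐ p : E2v, ∫ t : ℝ, F' (ln t p) = 0 := by
    filter_upwards [h, hae] with p hp hi
    have := integral_of_hasDerivAt_of_tendsto hp.1 hi hp.2.2 hp.2.1
    rw [this, sub_zero]
  rw [integral_congr_ae this, integral_zero]

theorem Lhalf (F F' : E3 → ℝ) (hint : IntegrableOn F' Hp)
    (h : ∀ᵐ p : E2v, (∀ t, 0 < t → HasDerivAt (fun t => F (ln t p)) (F' (ln t p)) t) ∧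
      Tendsto (fun t => F (ln t p)) atTop (𝓝 0) ∧ Tendsto (fun t => F (ln t p)) (𝓝[>] 0) (𝓝 0)) :
    ∫ x in Hp, F' x = 0 := by
  rw [← integrable_indicator_iff Hp_meas] at hint
  have h1 := ln_intble hint
  have hsw : Integrable (fun q : E2v × ℝ => Hp.indicator F' (ln q.2 q.1)) := h1.swap
  rw [← integral_indicator Hp_meas, ln_int]
  have e : ∫ q : ℝ × E2v, Hp.indicator F' (ln q.1 q.2) = ∫ p : E2v, ∫ t : ℝ, Hp.indicator F' (ln t p) :=
    integral_prod_symm (fun q : ℝ × E2v => Hp.indicator F' (ln q.1 q.2)) h1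
  rw [e]
  have hae := hsw.prod_right_ae
  have hind : ∀ p : E2v, (fun t : ℝ => Hp.indicator F' (ln t p)) = (Ioi (0:ℝ)).indicator (fun t => F' (ln t p)) := by
    intro p
    funext t
    by_cases ht : 0 < t
    · rw [indicator_of_mem (show ln t p ∈ Hp by unfold Hp; rw [mem_setOf_eq, ln_zero']; exact ht),
        indicator_of_mem (show t ∈ Ioi (0:ℝ) from ht)]
    · rw [indicator_of_notMem (show ln t p ∉ Hp by unfold Hp; rw [mem_setOf_eq, ln_zero']; exact ht),
        indicator_of_notMem (show t ∉ Ioi (0:ℝ) from ht)]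
  have : ∀ᵐ p : E2v, ∫ t : ℝ, Hp.indicator F' (ln t p) = 0 := by
    filter_upwards [h, hae] with p hp hi
    have hi' : Integrable (fun t : ℝ => Hp.indicator F' (ln t p)) := hi
    rw [hind p] at hi' ⊢
    rw [integrable_indicator_iff measurableSet_Ioi] at hi'
    rw [integral_indicator measurableSet_Ioi]
    set G : ℝ → ℝ := Function.update (fun t => F (ln t p)) 0 0 with hG
    have hG0 : G 0 = 0 := by rw [hG]; simp
    have hGd : ∀ t ∈ Ioi (0:ℝ), HasDerivAt G (F' (ln t p)) t := by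
      intro t ht
      refine (hp.1 t ht).congr_of_eventuallyEq ?_
      filter_upwards [Ioi_mem_nhds (show (0:ℝ) < t from ht)] with s hs
      rw [hG, Function.update_of_ne (ne_of_gt hs)]
    have hGc : ContinuousWithinAt G (Ici 0) 0 := by
      rw [← Ioi_insert]
      refine continuousWithinAt_insert_self.2 ?_
      show Tendsto G (𝓝[>] 0) (𝓝 (G 0))
      rw [hG0]
      refine hp.2.2.congr' ?_
      filter_upwards [self_mem_nhdsWithin] with s hs
      rw [hG, Function.update_of_ne (ne_of_gt hs)]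
    have hGt : Tendsto G atTop (𝓝 0) := by
      refine hp.2.1.congr' ?_
      filter_upwards [Ioi_mem_atTop (0:ℝ)] with s hs
      rw [hG, Function.update_of_ne (ne_of_gt hs)]
    rw [integral_Ioi_of_hasDerivAt_of_tendsto hGc hGd hi' hGt, hG0, sub_zero]
  rw [integral_congr_ae this, integral_zero]

lemma ae_line {k : ℕ} (R : Fin k → E3) : ∀ᵐ p : E2v, ∀ j, ∀ t, ln t p ≠ R j := by
  have hfin : (Set.range (fun j => (eqv (R j)).2)).Finite := Set.finite_range _
  have h1 : ∀ᵐ p : E2v, p ∉ Set.range (fun j => (eqv (R j)).2) := hfin.countable.ae_notMem _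
  filter_upwards [h1] with p hp j t e
  apply hp
  refine ⟨j, ?_⟩
  show (eqv (R j)).2 = p
  rw [← e]
  unfold ln
  rw [MeasurableEquiv.apply_symm_apply]

/-! ### local bounds -/

def LB (g : E3 → ℝ) (x : E3) : Prop := ∃ r > 0, ∃ C, ∀ y, ‖x - y‖ < r → |g y| ≤ C

lemma LB.sub {f g : E3 → ℝ} {x : E3} (hf : LB f x) (hg : LB g x) : LB (fun y => f y - g y) x := by
  obtain ⟨r, hr, C, hC⟩ := hf
  obtain ⟨s, hs, D, hD⟩ := hg
  refine ⟨min r s, lt_min hr hs, C + D, fun y hy => ?_⟩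
  have := hC y (hy.trans_le (min_le_left _ _))
  have := hD y (hy.trans_le (min_le_right _ _))
  have := abs_sub (f y) (g y)
  linarith

lemma LB.add {f g : E3 → ℝ} {x : E3} (hf : LB f x) (hg : LB g x) : LB (fun y => f y + g y) x := by
  obtain ⟨r, hr, C, hC⟩ := hf
  obtain ⟨s, hs, D, hD⟩ := hg
  refine ⟨min r s, lt_min hr hs, C + D, fun y hy => ?_⟩
  have := hC y (hy.trans_le (min_le_left _ _))
  have := hD y (hy.trans_le (min_le_right _ _))
  have := abs_add_le (f y) (g y)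
  linarith

lemma LB.sg {f : E3 → ℝ} {x : E3} (hf : LB f (TF.sg x)) : LB (fun y => f (TF.sg y)) x := by
  obtain ⟨r, hr, C, hC⟩ := hf
  refine ⟨r, hr, C, fun y hy => hC _ ?_⟩
  rw [sg_dist]; exact hy

lemma LB.ind {f : E3 → ℝ} {x : E3} (hf : LB f x) (A : Set E3) : LB (A.indicator f) x := by
  obtain ⟨r, hr, C, hC⟩ := hf
  refine ⟨r, hr, C, fun y hy => ?_⟩
  have h0 : 0 ≤ C := (abs_nonneg _).trans (hC y hy)
  by_cases h : y ∈ A
  · rw [indicator_of_mem h]; exact hC y hy
  · rw [indicator_of_notMem h, abs_zero]; exact h0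

lemma LB_of_bdd {f : E3 → ℝ} {C : ℝ} (h : ∀ y, |f y| ≤ C) (x : E3) : LB f x := ⟨1, one_pos, C, fun y _ => h y⟩

lemma LB_cont {f : E3 → ℝ} {x : E3} (h : ContinuousAt f x) : LB f x := by
  rw [Metric.continuousAt_iff] at h
  obtain ⟨r, hr, hb⟩ := h 1 one_pos
  refine ⟨r, hr, |f x| + 1, fun y hy => ?_⟩
  have h1 : dist y x < r := by rw [dist_eq_norm, norm_sub_rev]; exact hy
  have h2 := hb h1
  rw [Real.dist_eq] at h2
  have := abs_sub_abs_le_abs_sub (f y) (f x)
  linarith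

lemma LB_le {f g : E3 → ℝ} {x : E3} (hg : LB g x) (h : ∀ y, |f y| ≤ |g y|) : LB f x := by
  obtain ⟨r, hr, C, hC⟩ := hg
  exact ⟨r, hr, C, fun y hy => (h y).trans (hC y hy)⟩

lemma LB_zero_near {f : E3 → ℝ} {x : E3} {A : Set E3} (hA : IsOpen A) (hx : x ∈ A) (h : ∀ y ∈ A, f y = 0) : LB f x := by
  obtain ⟨r, hr, hb⟩ := Metric.isOpen_iff.1 hA x hx
  refine ⟨r, hr, 0, fun y hy => ?_⟩
  rw [h y (hb (by rw [mem_ball, dist_eq_norm, norm_sub_rev]; exact hy)), abs_zero]

lemma ELs.LB {k : ℕ} {z : Fin k → ℝ} {R : Fin k → E3} {Φ : ℝ} {ρ : E3 → ℝ} (h : ELs z R Φ ρ)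
    {x : E3} (hx : ∀ j, x ≠ R j) : LB ρ x := by
  have hc : ContinuousAt (fun y => be (VV z R y - pot ρ y - Φ)) x := by
    refine be_cont.continuousAt.comp ?_
    exact ((VV_cont z R x (fun j _ => hx j)).sub (pot_cont h.nice).continuousAt).sub continuousAt_const
  refine LB_le (LB_cont hc) (fun y => ?_)
  rw [← h.eq y]

lemma pot_deriv {g : E3 → ℝ} (hg : Nice g) {x : E3} (h : LB g x) :
    HasDerivAt (fun s : ℝ => pot g (x + s • e0)) (dpot g x) 0 := by
  obtain ⟨r, hr, C, hC⟩ := h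
  exact (pot_deriv0 hg x r C hr hC).2

lemma dpot_integrand {g : E3 → ℝ} (hg : Nice g) {x : E3} (h : LB g x) :
    Integrable (fun y => g y * g3 (x - y)) := by
  obtain ⟨r, hr, C, hC⟩ := h
  exact (pot_deriv0 hg x r C hr hC).1

lemma dpot_sub {f g : E3 → ℝ} (hf : Nice f) (hg : Nice g) {x : E3} (h1 : LB f x) (h2 : LB g x) :
    dpot (fun y => f y - g y) x = dpot f x - dpot g x := by
  unfold dpot
  have : (fun y => (f y - g y) * g3 (x - y)) = fun y => f y * g3 (x - y) - g y * g3 (x - y) := by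
    funext y; ring
  rw [this, integral_sub (dpot_integrand hf h1) (dpot_integrand hg h2)]
  ring

/-! ### the class `Cs` -/

def Cs (g : E3 → ℝ) : Prop :=
  Measurable g ∧ Integrable g ∧ ∃ (S : Finset E3) (C : ℝ), 0 ≤ C ∧ ∀ x, |g x| ≤ C * ws S x

lemma Cs.g3int {g : E3 → ℝ} (hg : Cs g) (s : E3) : Integrable (fun x => g x * g3 (x - s)) := by
  obtain ⟨hm, hi, S, C, hC, hS⟩ := hg
  have hk := (kap_ws_int S s).1.const_mul C
  refine (hi.abs.add hk).mono' (hm.mul (g3_meas.comp (measurable_id.sub_const s))).aestronglyMeasurable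
    (Eventually.of_forall (fun x => ?_))
  simp only [Pi.add_apply]
  rw [norm_mul, Real.norm_eq_abs, Real.norm_eq_abs]
  have h1 := K_split g3_abs (x - s)
  have h2 : kap (s - x) = kap (x - s) := by rw [← kap_neg, neg_sub]
  rw [h2]
  calc |g x| * |g3 (x - s)| ≤ |g x| * (1 + kap (x - s)) := mul_le_mul_of_nonneg_left h1 (abs_nonneg _)
    _ = |g x| + |g x| * kap (x - s) := by ring
    _ ≤ |g x| + (C * ws S x) * kap (x - s) := by
        have := mul_le_mul_of_nonneg_right (hS x) (kap_nonneg (x - s))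
        linarith
    _ = _ := by ring

lemma Cs.dVVint {k : ℕ} {g : E3 → ℝ} (hg : Cs g) (c : Fin k → ℝ) (S : Fin k → E3) :
    Integrable (fun x => g x * dVV c S x) := by
  have e : (fun x => g x * dVV c S x) = fun x => ∑ j, (- c j) * (g x * g3 (x - S j)) := by
    funext x
    unfold dVV
    rw [mul_neg, Finset.mul_sum, ← Finset.sum_neg_distrib]
    exact Finset.sum_congr rfl (fun j _ => by ring)
  rw [e]
  exact integrable_finsetSum _ (fun j _ => (hg.g3int (S j)).const_mul _)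

lemma Cs.dVVeq {k : ℕ} {g : E3 → ℝ} (hg : Cs g) (c : Fin k → ℝ) (S : Fin k → E3) :
    ∫ x, g x * dVV c S x = - ∑ j, c j * ∫ x, g x * g3 (x - S j) := by
  have e : (fun x => g x * dVV c S x) = fun x => ∑ j, (- c j) * (g x * g3 (x - S j)) := by
    funext x
    unfold dVV
    rw [mul_neg, Finset.mul_sum, ← Finset.sum_neg_distrib]
    exact Finset.sum_congr rfl (fun j _ => by ring)
  rw [e, integral_finsetSum _ (fun j _ => (hg.g3int (S j)).const_mul _), ← Finset.sum_neg_distrib]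
  refine Finset.sum_congr rfl (fun j _ => ?_)
  rw [integral_const_mul]; ring

lemma Cs.of_le {a b : E3 → ℝ} (hb : Cs b) (ha : Measurable a) (h : ∀ x, |a x| ≤ |b x|) : Cs a := by
  obtain ⟨bm, bi, T, D, hD, hT⟩ := hb
  refine ⟨ha, bi.mono ha.aestronglyMeasurable (Eventually.of_forall (fun x => ?_)), T, D, hD, fun x => (h x).trans (hT x)⟩
  rw [Real.norm_eq_abs, Real.norm_eq_abs]; exact h x

lemma Cs.ind {a : E3 → ℝ} (ha : Cs a) {A : Set E3} (hA : MeasurableSet A) : Cs (A.indicator a) := by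
  refine ha.of_le (ha.1.indicator hA) (fun x => ?_)
  by_cases h : x ∈ A
  · rw [indicator_of_mem h]
  · rw [indicator_of_notMem h]; simp

lemma Cs.sub {a b : E3 → ℝ} (ha : Cs a) (hb : Cs b) : Cs (fun x => a x - b x) := by
  classical
  obtain ⟨am, ai, S, C, hC, hS⟩ := ha
  obtain ⟨bm, bi, T, D, hD, hT⟩ := hb
  refine ⟨am.sub bm, ai.sub bi, S ∪ T, C + D, by positivity, fun x => ?_⟩
  have h1 := ws_mono (Finset.subset_union_left (s₁ := S) (s₂ := T)) x
  have h2 := ws_mono (Finset.subset_union_right (s₁ := S) (s₂ := T)) x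
  have h3 := mul_le_mul_of_nonneg_left h1 hC
  have h4 := mul_le_mul_of_nonneg_left h2 hD
  have := abs_sub (a x) (b x)
  have := hS x
  have := hT x
  linarith

lemma Cs.neg {a : E3 → ℝ} (ha : Cs a) : Cs (fun x => - a x) := by
  refine ha.of_le ha.1.neg (fun x => by rw [abs_neg])

lemma Cs.add {a b : E3 → ℝ} (ha : Cs a) (hb : Cs b) : Cs (fun x => a x + b x) := by
  have := ha.sub hb.neg
  simpa using this

lemma Cs.sg {a : E3 → ℝ} (ha : Cs a) : Cs (fun x => a (sg x)) := by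
  classical
  obtain ⟨am, ai, S, C, hC, hS⟩ := ha
  refine ⟨am.comp sg_meas, sg_intble ai, S.image TF.sg, C, hC, fun x => ?_⟩
  rw [← ws_sg]
  exact hS _

lemma Cs_of_bdd {a : E3 → ℝ} (hm : Measurable a) (hi : Integrable a) {C : ℝ} (hC : ∀ x, |a x| ≤ C) : Cs a := by
  have h0 : 0 ≤ C := (abs_nonneg _).trans (hC 0)
  refine ⟨hm, hi, ∅, C, h0, fun x => ?_⟩
  have : ws ∅ x = 1 := by unfold ws; simp
  rw [this, mul_one]; exact hC x

lemma dVV_sg {k : ℕ} (c : Fin k → ℝ) (S : Fin k → E3) (x : E3) :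
    dVV c (fun j => sg (S j)) x = - dVV c S (sg x) := by
  unfold dVV
  rw [neg_neg, ← Finset.sum_neg_distrib]
  refine Finset.sum_congr rfl (fun j _ => ?_)
  have : g3 (sg x - S j) = - g3 (x - sg (S j)) := by
    have h := g3_sg x (sg (S j))
    rw [sg_sg] at h
    exact h
  rw [this]; ring

end Pool.Agent.H9R2.TF
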