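import Pool.Agent.H9R2.TF.PD

set_option autoImplicit false
open MeasureTheory Set Filter Topology Metric
open scoped RealInnerProductSpace BigOperators ENNReal
open Pool.Agent.Helper557 Pool.Agent.Helper557.TFP

namespace Pool.Agent.H9R2.TF

theorem min_pr (Ω F : Set E3) (hΩ : IsOpen Ω) (hF : IsClosed F) (hΩF : Ω ⊆ F) (N : Set E3) (hN : IsClosed N) (f : E3 → ℝ)
    (hcont : ∀ x ∈ F, x ∉ N → ContinuousAt f x) (r0 : ℝ) (hr0 : 0 < r0)
    (hpole : ∀ p ∈ N, ∀ x ∈ F, ‖x - p‖ < r0 → x ∉ N → 0 ≤ f x)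
    (hbd : ∀ x ∈ F, x ∉ Ω → x ∉ N → 0 ≤ f x)
    (hfar : ∀ ε > 0, ∃ M, ∀ x ∈ F, M ≤ ‖x‖ → x ∉ N → -ε ≤ f x)
    (hsub : ∀ x ∈ Ω, x ∉ N → f x < 0 → ∃ s0 > 0, ∀ s, 0 < s → s < s0 →
      IntegrableOn f (ball x s) ∧ ∫ y in ball x s, f y ≤ (volume (ball x s)).toReal * f x) :
    ∀ x ∈ Ω, x ∉ N → 0 ≤ f x := by
  intro x0 hx0 hx0N
  by_contra hcon
  push Not at hcon
  obtain ⟨ε, hεdef⟩ : ∃ ε : ℝ, ε = - f x0 := ⟨_, rfl⟩
  have hε : 0 < ε := by linarith
  obtain ⟨M, hM⟩ := hfar (ε / 2) (by linarith)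
  have hx0M : ‖x0‖ < M := by
    by_contra h
    push Not at h
    have := hM x0 (hΩF hx0) h hx0N
    linarith
  have hMpos : 0 < M := lt_of_le_of_lt (norm_nonneg _) hx0M
  have hx0r : ∀ p ∈ N, r0 ≤ ‖x0 - p‖ := by
    intro p hp
    by_contra h
    push Not at h
    have := hpole p hp x0 (hΩF hx0) h hx0N
    linarith
  set q := ε / (4 * M ^ 2) with hq
  have hqpos : 0 < q := by positivity
  have hqM : q * M ^ 2 = ε / 4 := by rw [hq]; field_simp
  set K : Set E3 := {x | x ∈ F ∧ ‖x‖ ≤ M ∧ ∀ p ∈ N, r0 / 2 ≤ ‖x - p‖} with hK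
  have hKc : IsCompact K := by
    have h1 : IsClosed K := by
      have e2 : IsClosed {x : E3 | ‖x‖ ≤ M} := isClosed_le (by fun_prop) continuous_const
      have e3 : IsClosed {x : E3 | ∀ p ∈ N, r0 / 2 ≤ ‖x - p‖} := by
        have : {x : E3 | ∀ p ∈ N, r0 / 2 ≤ ‖x - p‖} = ⋂ p ∈ N, {x : E3 | r0 / 2 ≤ ‖x - p‖} := by
          ext x; simp
        rw [this]
        exact isClosed_biInter (fun p _ => isClosed_le continuous_const (by fun_prop))
      exact hF.inter (e2.inter e3)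
    refine (isCompact_closedBall (0:E3) M).of_isClosed_subset h1 ?_
    intro x hx
    rw [mem_closedBall, dist_zero_right]
    exact hx.2.1
  have hKp : ∀ x ∈ K, x ∉ N := by
    intro x hx hxN
    have := hx.2.2 x hxN
    rw [sub_self, norm_zero] at this
    linarith
  have hFc : ContinuousOn (fun x => f x - q * ‖x‖ ^ 2) K := by
    intro x hx
    have h1 : ContinuousAt f x := hcont x hx.1 (hKp x hx)
    have h2 : ContinuousAt (fun x : E3 => q * ‖x‖ ^ 2) x := by fun_prop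
    exact (h1.sub h2).continuousWithinAt
  have hx0K : x0 ∈ K := ⟨hΩF hx0, hx0M.le, fun p hp => by have := hx0r p hp; linarith⟩
  obtain ⟨x1, hx1K, hmin⟩ := hKc.exists_isMinOn ⟨x0, hx0K⟩ hFc
  have hmin' : ∀ y ∈ K, f x1 - q * ‖x1‖ ^ 2 ≤ f y - q * ‖y‖ ^ 2 := fun y hy => hmin hy
  have hC1 : f x1 < -(ε/2) := by
    have h1 := hmin' x0 hx0K
    have h2 : q * ‖x1‖ ^ 2 ≤ q * M ^ 2 := by
      have : ‖x1‖ ^ 2 ≤ M ^ 2 := by
        have := hx1K.2.1
        have := norm_nonneg x1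
        nlinarith
      exact mul_le_mul_of_nonneg_left this hqpos.le
    have h3 : 0 ≤ q * ‖x0‖ ^ 2 := by positivity
    linarith
  have hx1N := hKp x1 hx1K
  have hx1Ω : x1 ∈ Ω := by
    by_contra h
    have := hbd x1 hx1K.1 h hx1N
    linarith
  have hx1M : ‖x1‖ < M := by
    by_contra h
    push Not at h
    have := hM x1 hx1K.1 h hx1N
    linarith
  have hx1r : ∀ p ∈ N, r0 ≤ ‖x1 - p‖ := by
    intro p hp
    by_contra h
    push Not at h
    have := hpole p hp x1 hx1K.1 h hx1N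
    linarith
  obtain ⟨s0, hs0, hs⟩ := hsub x1 hx1Ω hx1N (by linarith)
  obtain ⟨s2', hs2', hball⟩ := Metric.isOpen_iff.1 hΩ x1 hx1Ω
  obtain ⟨s, hspos, hs1, hs2, hs3, hs4⟩ : ∃ s, 0 < s ∧ s < s0 ∧ s ≤ s2' ∧ s ≤ M - ‖x1‖ ∧ s ≤ r0 / 2 := by
    refine ⟨min (s0/2) (min s2' (min (M - ‖x1‖) (r0/2))), ?_, ?_, ?_, ?_, ?_⟩
    · refine lt_min (by linarith) (lt_min (by linarith) (lt_min (by linarith) (by linarith)))
    · exact lt_of_le_of_lt (min_le_left _ _) (by linarith)
    · exact (min_le_right _ _).trans (min_le_left _ _)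
    · exact (min_le_right _ _).trans ((min_le_right _ _).trans (min_le_left _ _))
    · exact (min_le_right _ _).trans ((min_le_right _ _).trans (min_le_right _ _))
  obtain ⟨hint, hle⟩ := hs s hspos hs1
  have hsubK : ∀ y ∈ ball x1 s, y ∈ K := by
    intro y hy
    have hyd : ‖y - x1‖ < s := by rw [← dist_eq_norm]; exact hy
    refine ⟨hΩF (hball (ball_subset_ball hs2 hy)), ?_, ?_⟩
    · have h1 : ‖y‖ ≤ ‖x1‖ + ‖y - x1‖ := by
        have := norm_add_le x1 (y - x1)
        simpa using this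
      linarith
    · intro p hp
      have h1 : ‖x1 - p‖ ≤ ‖y - p‖ + ‖y - x1‖ := by
        have h2 : x1 - p = (y - p) - (y - x1) := by abel
        rw [h2]; exact norm_sub_le _ _
      have := hx1r p hp
      linarith
  -- integrate
  have hcB : ∀ f : E3 → ℝ, Continuous f → IntegrableOn f (ball x1 s) := fun f hf =>
    (hf.continuousOn.integrableOn_compact (isCompact_closedBall x1 s)).mono_set ball_subset_closedBall
  have hkey : ∀ y ∈ ball x1 s, f x1 + q * (2 * ⟪x1, y - x1⟫ + ‖y - x1‖ ^ 2) ≤ f y := by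
    intro y hy
    have h1 := hmin' y (hsubK y hy)
    have h2 : ‖y‖ ^ 2 = ‖x1‖ ^ 2 + (2 * ⟪x1, y - x1⟫ + ‖y - x1‖ ^ 2) := by
      have h3 : y = x1 + (y - x1) := by abel
      conv_lhs => rw [h3]
      rw [norm_add_sq_real]; ring
    rw [h2] at h1
    linarith
  have hI : ∫ y in ball x1 s, (f x1 + q * (2 * ⟪x1, y - x1⟫ + ‖y - x1‖ ^ 2)) ≤ ∫ y in ball x1 s, f y := by
    refine setIntegral_mono_on (hcB _ (by fun_prop)) hint measurableSet_ball hkey
  have hI2 : ∫ y in ball x1 s, (f x1 + q * (2 * ⟪x1, y - x1⟫ + ‖y - x1‖ ^ 2))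
      = (volume (ball x1 s)).toReal * f x1 + q * ∫ y in ball x1 s, ‖y - x1‖ ^ 2 := by
    rw [integral_add (hcB _ continuous_const) (hcB _ (by fun_prop)), integral_const_mul,
      integral_add (hcB _ (by fun_prop)) (hcB _ (by fun_prop)), integral_const_mul, TF_min_principle_odd,
      setIntegral_const]
    simp [Measure.real]
  have hpos := TF_min_principle_pos x1 s hspos
  have := mul_pos hqpos hpos
  linarith

/-! ### potentials: continuity, decay, mean value -/

theorem pot_cont {g : E3 → ℝ} (hg : Nice g) : Continuous (pot g) := by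
  obtain ⟨B, hB⟩ := nice_bound g hg
  rw [Metric.continuous_iff]
  intro x ε hε
  obtain ⟨η, hη, h⟩ := nice_modulus g hg (ε / 2) (by linarith)
  refine ⟨η, hη, fun x' hx' => ?_⟩
  rw [dist_eq_norm] at hx'
  obtain ⟨h1, h2⟩ := h x' x hx'
  rw [Real.dist_eq]
  unfold pot
  rw [← integral_sub (hB x').1 (hB x).1]
  have h3 : ‖∫ y, (g y / ‖x' - y‖ - g y / ‖x - y‖)‖ ≤ ∫ y, |g y| * |1 / ‖x' - y‖ - 1 / ‖x - y‖| := by
    refine norm_integral_le_of_norm_le h1 (Eventually.of_forall (fun y => ?_))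
    rw [Real.norm_eq_abs, ← abs_mul]
    apply le_of_eq
    congr 1
    ring
  rw [Real.norm_eq_abs] at h3
  linarith

theorem pot_bdd {g : E3 → ℝ} (hg : Nice g) : ∃ B, 0 ≤ B ∧ ∀ x, |pot g x| ≤ B := by
  obtain ⟨B, hB⟩ := nice_bound g hg
  refine ⟨max B 0, le_max_right _ _, fun x => ?_⟩
  refine le_trans ?_ ((hB x).2.trans (le_max_left _ _))
  unfold pot
  refine (abs_integral_le_integral_abs).trans (le_of_eq ?_)
  congr 1
  funext y
  rw [abs_div, abs_of_nonneg (norm_nonneg (x - y))]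

theorem pot_decay {g : E3 → ℝ} (hg : Nice g) (ε : ℝ) (hε : 0 < ε) : ∃ M, ∀ x : E3, M ≤ ‖x‖ → |pot g x| ≤ ε := by
  obtain ⟨M, hM⟩ := nice_decay g hg ε hε
  refine ⟨M, fun x hx => ?_⟩
  refine le_trans ?_ (hM x hx)
  unfold pot
  refine (abs_integral_le_integral_abs).trans (le_of_eq ?_)
  congr 1
  funext y
  rw [abs_div, abs_of_nonneg (norm_nonneg (x - y))]

lemma pot_sub {f g : E3 → ℝ} (hf : Nice f) (hg : Nice g) (x : E3) :
    pot (fun y => f y - g y) x = pot f x - pot g x := by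
  obtain ⟨B, hB⟩ := nice_bound f hf
  obtain ⟨D, hD⟩ := nice_bound g hg
  unfold pot
  rw [← integral_sub (hB x).1 (hD x).1]
  congr 1
  funext y
  ring

lemma pot_neg (g : E3 → ℝ) (x : E3) : pot (fun y => - g y) x = - pot g x := by
  unfold pot
  rw [← integral_neg]
  congr 1
  funext y; ring

lemma nice_neg {g : E3 → ℝ} (hg : Nice g) : Nice (fun y => - g y) :=
  nice_of_le hg hg.1.neg (fun x => by rw [abs_neg])

lemma pot_add {f g : E3 → ℝ} (hf : Nice f) (hg : Nice g) (x : E3) :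
    pot (fun y => f y + g y) x = pot f x + pot g x := by
  have h := pot_sub hf (nice_neg hg) x
  rw [pot_neg] at h
  simp only [sub_neg_eq_add] at h
  exact h

lemma nice_add {f g : E3 → ℝ} (hf : Nice f) (hg : Nice g) : Nice (fun y => f y + g y) := by
  have := nice_sub' hf (nice_neg hg)
  simpa using this

lemma pot_mono {f g : E3 → ℝ} (hf : Nice f) (hg : Nice g) (h : ∀ y, f y ≤ g y) (x : E3) : pot f x ≤ pot g x := by
  obtain ⟨B, hB⟩ := nice_bound f hf
  obtain ⟨D, hD⟩ := nice_bound g hg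
  unfold pot
  exact integral_mono (hB x).1 (hD x).1 (fun y => div_le_div_of_nonneg_right (h y) (norm_nonneg _))

lemma pot_nonneg {g : E3 → ℝ} (h : ∀ y, 0 ≤ g y) (x : E3) : 0 ≤ pot g x :=
  integral_nonneg (fun y => div_nonneg (h y) (norm_nonneg _))

lemma pot_congr {f g : E3 → ℝ} (h : f =ᵐ[volume] g) (x : E3) : pot f x = pot g x := by
  unfold pot
  refine integral_congr_ae ?_
  filter_upwards [h] with y hy
  rw [hy]

lemma VV_cont {k : ℕ} (c : Fin k → ℝ) (S : Fin k → E3) (x : E3) (h : ∀ j, c j ≠ 0 → x ≠ S j) :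
    ContinuousAt (VV c S) x := by
  unfold VV
  refine tendsto_finsetSum _ (fun j _ => ?_)
  by_cases hc : c j = 0
  · simp [hc]
  · have h1 : ‖x - S j‖ ≠ 0 := by rw [norm_ne_zero_iff]; exact sub_ne_zero.2 (h j hc)
    have : ContinuousAt (fun x : E3 => c j / ‖x - S j‖) x :=
      continuousAt_const.div (by fun_prop) h1
    exact this

lemma VV_meas {k : ℕ} (c : Fin k → ℝ) (S : Fin k → E3) : Measurable (VV c S) := by
  unfold VV
  exact Finset.measurable_sum _ (fun j _ => measurable_const.div (measurable_id.sub_const _).norm)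

lemma VV_decay {k : ℕ} (c : Fin k → ℝ) (S : Fin k → E3) (ε : ℝ) (hε : 0 < ε) :
    ∃ M, ∀ x : E3, M ≤ ‖x‖ → |VV c S x| ≤ ε := by
  obtain ⟨A, hA⟩ : ∃ A : ℝ, A = ∑ j, ‖S j‖ := ⟨_, rfl⟩
  obtain ⟨D, hD⟩ : ∃ D : ℝ, D = ∑ j, |c j| := ⟨_, rfl⟩
  have hD0 : 0 ≤ D := by rw [hD]; exact Finset.sum_nonneg (fun j _ => abs_nonneg _)
  refine ⟨A + (D + 1) / ε, fun x hx => ?_⟩
  have hpos : 0 < (D + 1) / ε := by positivity
  have h1 : ∀ j, (D + 1) / ε ≤ ‖x - S j‖ := by
    intro j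
    have h2 : ‖S j‖ ≤ A := by
      rw [hA]; exact Finset.single_le_sum (f := fun j => ‖S j‖) (fun j _ => norm_nonneg _) (Finset.mem_univ j)
    have h3 := norm_sub_norm_le x (S j)
    linarith
  unfold VV
  calc |∑ j, c j / ‖x - S j‖| ≤ ∑ j, |c j / ‖x - S j‖| := Finset.abs_sum_le_sum_abs _ _
    _ ≤ ∑ j, |c j| / ((D + 1) / ε) := by
        refine Finset.sum_le_sum (fun j _ => ?_)
        rw [abs_div, abs_of_nonneg (norm_nonneg (x - S j))]
        exact div_le_div_of_nonneg_left (abs_nonneg _) hpos (h1 j)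
    _ = D / ((D + 1) / ε) := by rw [← Finset.sum_div, ← hD]
    _ ≤ ε := by
        rw [div_div_eq_mul_div, div_le_iff₀ (by linarith)]
        nlinarith

lemma mean_VV {k : ℕ} (c : Fin k → ℝ) (S : Fin k → E3) (x : E3) (s : ℝ) (hs : 0 < s)
    (h1 : ∀ j, 0 ≤ c j ∨ s ≤ ‖x - S j‖) (h2 : ∀ j, c j ≠ 0 → x ≠ S j) :
    IntegrableOn (VV c S) (ball x s) ∧
    ∫ y in ball x s, VV c S y ≤ (volume (ball x s)).toReal * VV c S x := by
  have hI : ∀ j, IntegrableOn (fun y : E3 => c j / ‖y - S j‖) (ball x s) := by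
    intro j
    have := ((newton_ball x (S j) s hs).1).const_mul (c j)
    refine this.congr (Eventually.of_forall (fun y => ?_))
    simp only
    ring
  unfold VV
  constructor
  · exact integrable_finsetSum _ (fun j _ => hI j)
  · rw [integral_finsetSum _ (fun j _ => hI j), Finset.mul_sum]
    refine Finset.sum_le_sum (fun j _ => ?_)
    have e : ∫ y in ball x s, c j / ‖y - S j‖ = c j * ∫ y in ball x s, 1 / ‖y - S j‖ := by
      rw [← integral_const_mul]
      congr 1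
      funext y; ring
    rw [e]
    obtain ⟨n1, n2, n3⟩ := newton_ball x (S j) s hs
    rcases h1 j with h | h
    · by_cases hc : c j = 0
      · simp [hc]
      · have := mul_le_mul_of_nonneg_left (n3 (Ne.symm (h2 j hc))) h
        calc _ ≤ _ := this
          _ = _ := by ring
    · rw [n2 h]
      apply le_of_eq; ring

/-- comparison in the full space -/
theorem cmp_full {ν : E3 → ℝ} (hν : Nice ν) {C0 : ℝ} (hC0 : 0 ≤ C0)
    (h : ∀ᵐ y, pot ν y + C0 < 0 → 0 ≤ ν y) : ∀ x, 0 ≤ pot ν x + C0 := by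
  have hc : Continuous (fun x => pot ν x + C0) := (pot_cont hν).add continuous_const
  intro x
  refine min_pr univ univ isOpen_univ isClosed_univ (subset_refl _) ∅ isClosed_empty (fun x => pot ν x + C0)
    (fun x _ _ => hc.continuousAt) 1 one_pos (fun p hp => absurd hp (notMem_empty p))
    (fun x _ h => absurd (mem_univ x) h) ?_ ?_ x (mem_univ x) (notMem_empty x)
  · intro ε hε
    obtain ⟨M, hM⟩ := pot_decay hν ε hε
    refine ⟨M, fun x _ hx _ => ?_⟩
    have := (abs_le.1 (hM x hx)).1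
    linarith
  · intro x _ _ hx
    have ho : IsOpen {y | pot ν y + C0 < 0} := isOpen_lt hc continuous_const
    obtain ⟨s0, hs0, hb⟩ := Metric.isOpen_iff.1 ho x hx
    refine ⟨s0, hs0, fun s hs hss => ?_⟩
    obtain ⟨a1, a2⟩ := avg_pot ν hν x s hs (h.mono (fun y h1 hy => h1 (hb (ball_subset_ball hss.le hy))))
    have hcI : IntegrableOn (fun _ : E3 => C0) (ball x s) := by
      refine integrableOn_const ?_ ?_
      · exact measure_ball_lt_top.ne
      · simp
    refine ⟨a1.add hcI, ?_⟩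
    rw [integral_add a1 hcI, setIntegral_const]
    simp only [smul_eq_mul, Measure.real]
    linarith

/-- comparison in the half space `0 < x 0` -/
theorem cmp_half {k : ℕ} (c c' : Fin k → ℝ) (S S' : Fin k → E3) {ν : E3 → ℝ} (hν : Nice ν)
    (hc : ∀ j, 0 ≤ c j) (hS' : ∀ j, (S' j) 0 < 0)
    (hbd : ∀ x : E3, x 0 = 0 → 0 ≤ VV c S x + VV c' S' x + pot ν x)
    (h : ∀ᵐ y : E3, 0 < y 0 → VV c S y + VV c' S' y + pot ν y < 0 → 0 ≤ ν y) :
    ∀ x : E3, 0 < x 0 → (∀ j, c j ≠ 0 → x ≠ S j) → 0 ≤ VV c S x + VV c' S' x + pot ν x := by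
  set f : E3 → ℝ := fun x => VV c S x + VV c' S' x + pot ν x with hf
  set N : Set E3 := {p | ∃ j, c j ≠ 0 ∧ S j = p} with hN
  have hNfin : N.Finite := by
    refine (Set.finite_range S).subset ?_
    rintro p ⟨j, _, hj⟩
    exact ⟨j, hj⟩
  have hnot : ∀ x, x ∉ N ↔ ∀ j, c j ≠ 0 → x ≠ S j := by
    intro x
    rw [hN]
    simp only [mem_setOf_eq, not_exists, not_and]
    constructor
    · intro h j hj e; exact h j hj e.symm
    · intro h j hj e; exact h j hj e.symm
  have hcoord : Continuous (fun x : E3 => x 0) := by fun_prop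
  have hΩ : IsOpen {x : E3 | 0 < x 0} := isOpen_lt continuous_const hcoord
  have hF : IsClosed {x : E3 | 0 ≤ x 0} := isClosed_le continuous_const hcoord
  have hcont : ∀ x : E3, 0 ≤ x 0 → x ∉ N → ContinuousAt f x := by
    intro x hx hxN
    refine ((VV_cont c S x ((hnot x).1 hxN)).add (VV_cont c' S' x (fun j _ e => ?_))).add (pot_cont hν).continuousAt
    have := hS' j
    rw [← e] at this
    linarith
  -- lower distance to S'
  obtain ⟨d, hd, hdS⟩ : ∃ d > 0, ∀ j, d ≤ - (S' j) 0 := by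
    rcases isEmpty_or_nonempty (Fin k) with hk | hk
    · exact ⟨1, one_pos, fun j => (hk.false j).elim⟩
    · obtain ⟨i, _, hi⟩ := Finset.exists_min_image Finset.univ (fun j => - (S' j) 0) Finset.univ_nonempty
      refine ⟨- (S' i) 0, by have := hS' i; linarith, fun j => hi j (Finset.mem_univ j)⟩
  have hVb : ∀ x : E3, 0 ≤ x 0 → |VV c' S' x| ≤ ∑ j, |c' j| / d := by
    intro x hx
    unfold VV
    refine (Finset.abs_sum_le_sum_abs _ _).trans (Finset.sum_le_sum (fun j _ => ?_))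
    rw [abs_div, abs_of_nonneg (norm_nonneg (x - S' j))]
    refine div_le_div_of_nonneg_left (abs_nonneg _) hd ?_
    have h1 := abs_coord (x - S' j) 0
    have h2 := le_abs_self ((x - S' j) 0)
    have h3 : (x - S' j) 0 = x 0 - (S' j) 0 := rfl
    have := hdS j
    linarith
  obtain ⟨B, hB0, hB⟩ := pot_bdd hν
  obtain ⟨Q, hQ⟩ : ∃ Q : ℝ, Q = (∑ j, |c' j| / d) + B + 1 := ⟨_, rfl⟩
  have hQ0 : 0 < Q := by
    rw [hQ]
    have : 0 ≤ ∑ j, |c' j| / d := Finset.sum_nonneg (fun j _ => by positivity)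
    linarith
  obtain ⟨r0, hr0, hrj⟩ : ∃ r0 > 0, ∀ j, c j ≠ 0 → r0 ≤ c j / Q := by
    classical
    rcases isEmpty_or_nonempty (Fin k) with hk | hk
    · exact ⟨1, one_pos, fun j => (hk.false j).elim⟩
    · obtain ⟨i, _, hi⟩ := Finset.exists_min_image Finset.univ (fun j => if c j = 0 then 1 else c j / Q) Finset.univ_nonempty
      refine ⟨if c i = 0 then 1 else c i / Q, ?_, fun j hj => ?_⟩
      · split_ifs with h0
        · exact one_pos
        · exact div_pos (lt_of_le_of_ne (hc i) (Ne.symm h0)) hQ0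
      · have := hi j (Finset.mem_univ j)
        simp only [if_neg hj] at this
        exact this
  have hVpos : ∀ x, 0 ≤ VV c S x := fun x => Finset.sum_nonneg (fun j _ => div_nonneg (hc j) (norm_nonneg _))
  intro x hx hxN
  refine min_pr {x : E3 | 0 < x 0} {x : E3 | 0 ≤ x 0} hΩ hF (fun x (hx : 0 < x 0) => (le_of_lt hx : 0 ≤ x 0)) N hNfin.isClosed f
    (fun x hx hxN => hcont x hx hxN) r0 hr0 ?_ ?_ ?_ ?_ x hx ((hnot x).2 hxN)
  · rintro p ⟨j, hj, rfl⟩ x hx hxr hxN
    have hx0 : 0 < ‖x - S j‖ := norm_pos_iff.2 (sub_ne_zero.2 ((hnot x).1 hxN j hj))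
    have h1 : Q ≤ c j / ‖x - S j‖ := by
      rw [le_div_iff₀ hx0]
      have h2 := hrj j hj
      rw [le_div_iff₀ hQ0] at h2
      nlinarith
    have h3 : c j / ‖x - S j‖ ≤ VV c S x :=
      Finset.single_le_sum (f := fun j => c j / ‖x - S j‖) (fun j _ => div_nonneg (hc j) (norm_nonneg _)) (Finset.mem_univ j)
    have h4 := (abs_le.1 (hVb x hx)).1
    have h5 := (abs_le.1 (hB x)).1
    show 0 ≤ VV c S x + VV c' S' x + pot ν x
    linarith
  · intro x hx hx' _
    have : x 0 = 0 := le_antisymm (not_lt.1 hx') hx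
    exact hbd x this
  · intro ε hε
    obtain ⟨M1, h1⟩ := VV_decay c' S' (ε/2) (by linarith)
    obtain ⟨M2, h2⟩ := pot_decay hν (ε/2) (by linarith)
    refine ⟨max M1 M2, fun x _ hxM _ => ?_⟩
    have a1 := (abs_le.1 (h1 x ((le_max_left _ _).trans hxM))).1
    have a2 := (abs_le.1 (h2 x ((le_max_right _ _).trans hxM))).1
    have a3 := hVpos x
    show -ε ≤ VV c S x + VV c' S' x + pot ν x
    linarith
  · intro x hx hxN hfx
    have hx' : (0:ℝ) < x 0 := hx
    have hca := hcont x hx'.le hxN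
    have ev1 : ∀ᶠ y in 𝓝 x, f y < 0 := hca.eventually (gt_mem_nhds hfx)
    have ev2 : ∀ᶠ y : E3 in 𝓝 x, 0 < y 0 := hΩ.mem_nhds hx
    have ev3 : ∀ᶠ y in 𝓝 x, y ∉ N := hNfin.isClosed.isOpen_compl.mem_nhds hxN
    have hev : ∀ᶠ y in 𝓝 x, f y < 0 ∧ 0 < y 0 ∧ y ∉ N := ev1.and (ev2.and ev3)
    obtain ⟨s0, hs0, hb⟩ := Metric.eventually_nhds_iff_ball.1 hev
    refine ⟨s0, hs0, fun s hs hss => ?_⟩
    obtain ⟨a1, a2⟩ := avg_pot ν hν x s hs (h.mono (fun y h1 hy => by
      obtain ⟨b1, b2, b3⟩ := hb y (ball_subset_ball hss.le hy)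
      exact h1 b2 b1))
    obtain ⟨b1, b2⟩ := mean_VV c S x s hs (fun j => Or.inl (hc j)) ((hnot x).1 hxN)
    have hsx : s ≤ x 0 := by
      by_contra hcon
      push Not at hcon
      have h7 := hb (x - (x 0) • e0) (by
        rw [mem_ball, dist_eq_norm, sub_sub_cancel_left, norm_neg, norm_smul, e0_norm, mul_one, Real.norm_eq_abs,
          abs_of_pos hx']
        linarith)
      have h8 := h7.2.1
      have e : (x - (x 0) • e0) 0 = 0 := by simp [e0]
      rw [e] at h8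
      exact lt_irrefl _ h8
    obtain ⟨c1, c2⟩ := mean_VV c' S' x s hs (fun j => Or.inr (by
      have h1 := abs_coord (x - S' j) 0
      have h2 := le_abs_self ((x - S' j) 0)
      have h3 : (x - S' j) 0 = x 0 - (S' j) 0 := rfl
      have := hS' j
      linarith)) (fun j _ e => by
        have := hS' j
        rw [← e] at this
        linarith)
    refine ⟨(b1.add c1).add a1, ?_⟩
    have e : ∫ y in ball x s, f y = (∫ y in ball x s, VV c S y) + (∫ y in ball x s, VV c' S' y) + ∫ y in ball x s, pot ν y := by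
      have e1 := integral_add (μ := volume.restrict (ball x s)) (f := fun y => VV c S y + VV c' S' y) (g := pot ν) (b1.add c1) a1
      have e2 := integral_add (μ := volume.restrict (ball x s)) (f := VV c S) (g := VV c' S') b1 c1
      rw [← e2, ← e1]
    rw [e]
    show _ ≤ (volume (ball x s)).toReal * (VV c S x + VV c' S' x + pot ν x)
    linarith

end Pool.Agent.H9R2.TF
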