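import Pool.Agent.H9R2.TF.Cmp

set_option autoImplicit false
open MeasureTheory Set Filter Topology Metric
open scoped RealInnerProductSpace BigOperators ENNReal
open Pool.Agent.Helper557 Pool.Agent.Helper557.TFP

namespace Pool.Agent.H9R2.TF

/-! ### one dimensional integrals -/

lemma J1 {α β : ℝ} (hα : 0 < α) (hβ : 0 < β) :
    IntegrableOn (fun y : ℝ => y ^ 2 / (y ^ 2 * α ^ 2 + β ^ 2) ^ 3) (Ioi 0) ∧
    ∫ y in Ioi (0:ℝ), y ^ 2 / (y ^ 2 * α ^ 2 + β ^ 2) ^ 3 = Real.pi / (16 * α ^ 3 * β ^ 3) := by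
  set F : ℝ → ℝ := fun y => (1 / (8 * α ^ 3 * β ^ 3)) *
    (Real.arctan (α * y / β) + (α * y / β) * ((α * y / β) ^ 2 - 1) / (1 + (α * y / β) ^ 2) ^ 2) with hF
  have hd : ∀ y : ℝ, HasDerivAt F (y ^ 2 / (y ^ 2 * α ^ 2 + β ^ 2) ^ 3) y := by
    intro y
    have h1 : HasDerivAt (fun y : ℝ => α * y / β) (α / β) y := by
      have := ((hasDerivAt_id y).const_mul α).div_const β
      simpa using this
    have h2 := h1.arctan
    have hpos : (1 + (α * y / β) ^ 2) ^ 2 ≠ 0 := by positivity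
    have h3 : HasDerivAt (fun y : ℝ => (α * y / β) * ((α * y / β) ^ 2 - 1))
        ((α / β) * ((α * y / β) ^ 2 - 1) + (α * y / β) * ((2:ℕ) * (α * y / β) ^ (2-1) * (α / β))) y :=
      h1.mul ((h1.pow 2).sub_const 1)
    have h4 : HasDerivAt (fun y : ℝ => (1 + (α * y / β) ^ 2) ^ 2)
        ((2:ℕ) * (1 + (α * y / β) ^ 2) ^ (2-1) * ((2:ℕ) * (α * y / β) ^ (2-1) * (α / β))) y :=
      ((h1.pow 2).const_add 1).pow 2
    have h5 := (h2.add (h3.div h4 hpos)).const_mul (1 / (8 * α ^ 3 * β ^ 3))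
    refine h5.congr_deriv ?_
    have hp2 : y ^ 2 * α ^ 2 + β ^ 2 ≠ 0 := by positivity
    have hp3 : β ^ 2 + α ^ 2 * y ^ 2 ≠ 0 := by positivity
    push_cast
    field_simp
    ring
  have hlim : Tendsto F atTop (𝓝 (Real.pi / (16 * α ^ 3 * β ^ 3))) := by
    have h1 : Tendsto (fun y : ℝ => α * y / β) atTop atTop := by
      have : (fun y : ℝ => α * y / β) = fun y => (α / β) * y := by funext y; ring
      rw [this]
      exact tendsto_id.const_mul_atTop (by positivity)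
    have h2 : Tendsto (fun w : ℝ => w * (w ^ 2 - 1) / (1 + w ^ 2) ^ 2) atTop (𝓝 0) := by
      have h3 : Tendsto (fun w : ℝ => 1 / w) atTop (𝓝 0) := by
        simpa using tendsto_inv_atTop_zero (𝕜 := ℝ)
      refine squeeze_zero' ?_ ?_ h3
      · filter_upwards [eventually_ge_atTop (1:ℝ)] with w hw
        have : 0 ≤ w ^ 2 - 1 := by nlinarith
        positivity
      · filter_upwards [eventually_ge_atTop (1:ℝ)] with w hw
        rw [div_le_div_iff₀ (by positivity) (by linarith)]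
        nlinarith [sq_nonneg w, sq_nonneg (w ^ 2)]
    have h3 : Tendsto Real.arctan atTop (𝓝 (Real.pi / 2)) :=
      (Real.tendsto_arctan_atTop).mono_right nhdsWithin_le_nhds
    have h4 := ((h3.comp h1).add (h2.comp h1)).const_mul (1 / (8 * α ^ 3 * β ^ 3))
    have e : 1 / (8 * α ^ 3 * β ^ 3) * (Real.pi / 2 + 0) = Real.pi / (16 * α ^ 3 * β ^ 3) := by
      field_simp; ring
    rw [e] at h4
    exact h4
  have hF0 : F 0 = 0 := by rw [hF]; simp
  have hint : IntegrableOn (fun y : ℝ => y ^ 2 / (y ^ 2 * α ^ 2 + β ^ 2) ^ 3) (Ioi 0) :=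
    integrableOn_Ioi_deriv_of_nonneg' (fun y _ => hd y) (fun y _ => by positivity) hlim
  refine ⟨hint, ?_⟩
  rw [integral_Ioi_of_hasDerivAt_of_tendsto' (fun y _ => hd y) hint hlim, hF0, sub_zero]

/-- the antiderivative of `1/(v^2+N^2)^2` -/
noncomputable def An (N v : ℝ) : ℝ := (1 / (2 * N ^ 3)) * (Real.arctan (v / N) + N * v / (v ^ 2 + N ^ 2))

lemma An_deriv {N : ℝ} (hN : 0 < N) (v : ℝ) : HasDerivAt (An N) (1 / (v ^ 2 + N ^ 2) ^ 2) v := by
  have h1 : HasDerivAt (fun y : ℝ => y / N) (1 / N) v := (hasDerivAt_id v).div_const N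
  have h2 := h1.arctan
  have hpos : v ^ 2 + N ^ 2 ≠ 0 := by positivity
  have h3 : HasDerivAt (fun y : ℝ => N * y) N v := by
    have := (hasDerivAt_id v).const_mul N
    simpa using this
  have h4 : HasDerivAt (fun y : ℝ => y ^ 2 + N ^ 2) ((2:ℕ) * v ^ (2-1)) v := (hasDerivAt_pow 2 v).add_const _
  have h5 := (h2.add (h3.div h4 hpos)).const_mul (1 / (2 * N ^ 3))
  refine h5.congr_deriv ?_
  have hp2 : N ^ 2 + v ^ 2 ≠ 0 := by positivity
  push_cast
  field_simp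
  ring

lemma An_top {N : ℝ} (hN : 0 < N) : Tendsto (An N) atTop (𝓝 (Real.pi / (4 * N ^ 3))) := by
  have h1 : Tendsto (fun y : ℝ => y / N) atTop atTop := tendsto_id.atTop_div_const hN
  have h2 : Tendsto (fun v : ℝ => N * v / (v ^ 2 + N ^ 2)) atTop (𝓝 0) := by
    have h3 : Tendsto (fun w : ℝ => N * (1 / w)) atTop (𝓝 0) := by
      have := (tendsto_inv_atTop_zero (𝕜 := ℝ)).const_mul N
      simpa using this
    refine squeeze_zero' ?_ ?_ h3
    · filter_upwards [eventually_ge_atTop (1:ℝ)] with w hw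
      positivity
    · filter_upwards [eventually_ge_atTop (1:ℝ)] with w hw
      rw [mul_one_div, div_le_div_iff₀ (by positivity) (by linarith)]
      nlinarith [mul_pos hN (pow_pos hN 2)]
  have h3 : Tendsto Real.arctan atTop (𝓝 (Real.pi / 2)) :=
    (Real.tendsto_arctan_atTop).mono_right nhdsWithin_le_nhds
  have h4 := ((h3.comp h1).add h2).const_mul (1 / (2 * N ^ 3))
  have e : 1 / (2 * N ^ 3) * (Real.pi / 2 + 0) = Real.pi / (4 * N ^ 3) := by
    field_simp; ring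
  rw [e] at h4
  exact h4

lemma An_odd (N v : ℝ) : An N (-v) = - An N v := by
  unfold An
  rw [neg_div, Real.arctan_neg, neg_sq]
  ring

lemma An_bot {N : ℝ} (hN : 0 < N) : Tendsto (An N) atBot (𝓝 (-(Real.pi / (4 * N ^ 3)))) := by
  have h := ((An_top hN).comp tendsto_neg_atBot_atTop).neg
  refine h.congr (fun v => ?_)
  simp only [Function.comp]
  rw [An_odd, neg_neg]

noncomputable def Wf (s t Q y : ℝ) : ℝ := s ^ 2 * y ^ 4 + (Q + s ^ 2 + t ^ 2) * y ^ 2 + t ^ 2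

lemma Wf_pos {s t Q : ℝ} (ht : 0 < t) (hQ : 0 ≤ Q) (y : ℝ) : 0 < Wf s t Q y := by
  unfold Wf; positivity

lemma J3 {s t Q : ℝ} (hs : 0 < s) (ht : 0 < t) (hQ : 0 ≤ Q) :
    IntegrableOn (fun y : ℝ => s * (y ^ 4 / Wf s t Q y ^ 2) + t * (y ^ 2 / Wf s t Q y ^ 2)) (Ioi 0) ∧
    ∫ y in Ioi (0:ℝ), (s * (y ^ 4 / Wf s t Q y ^ 2) + t * (y ^ 2 / Wf s t Q y ^ 2))
      = Real.pi / (2 * √((s + t) ^ 2 + Q) ^ 3) := by
  set N := √((s + t) ^ 2 + Q) with hNd
  have hN : 0 < N := Real.sqrt_pos.2 (by positivity)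
  have hN2 : N ^ 2 = (s + t) ^ 2 + Q := Real.sq_sqrt (by positivity)
  set F : ℝ → ℝ := fun y => if 0 < y then An N (s * y - t / y) else -(Real.pi / (4 * N ^ 3)) with hF
  have hd : ∀ y ∈ Ioi (0:ℝ), HasDerivAt F (s * (y ^ 4 / Wf s t Q y ^ 2) + t * (y ^ 2 / Wf s t Q y ^ 2)) y := by
    intro y hy
    have hy0 : (0:ℝ) < y := hy
    have h1 : HasDerivAt (fun y : ℝ => s * y - t / y) (s + t / y ^ 2) y := by
      have a1 : HasDerivAt (fun y : ℝ => s * y) s y := by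
        have := (hasDerivAt_id y).const_mul s
        simpa using this
      have a2 : HasDerivAt (fun y : ℝ => t / y) (-(t / y ^ 2)) y := by
        have := (hasDerivAt_inv hy0.ne').const_mul t
        refine (this.congr_deriv (by ring)).congr_of_eventuallyEq (Eventually.of_forall (fun x => ?_))
        simp only; ring
      have := a1.sub a2
      rw [sub_neg_eq_add] at this
      exact this
    have h2 := (An_deriv hN (s * y - t / y)).comp y h1
    have h3 : F =ᶠ[𝓝 y] (An N) ∘ (fun y : ℝ => s * y - t / y) := by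
      filter_upwards [Ioi_mem_nhds hy0] with x hx
      rw [hF]
      simp only [Function.comp]
      rw [if_pos (show 0 < x from hx)]
    refine (h2.congr_of_eventuallyEq h3).congr_deriv ?_
    have hW : y ^ 2 * ((s * y - t / y) ^ 2 + N ^ 2) = Wf s t Q y := by
      rw [hN2]; unfold Wf; field_simp; ring
    have hW' : (s * y - t / y) ^ 2 + N ^ 2 = Wf s t Q y / y ^ 2 := by
      rw [← hW]; field_simp
    rw [hW']
    have hWp := Wf_pos (s := s) ht hQ y
    field_simp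
  have hlim : Tendsto F atTop (𝓝 (Real.pi / (4 * N ^ 3))) := by
    have h1 : Tendsto (fun y : ℝ => s * y - t / y) atTop atTop := by
      have a1 : Tendsto (fun y : ℝ => s * y) atTop atTop := tendsto_id.const_mul_atTop hs
      have a2 : Tendsto (fun y : ℝ => -(t / y)) atTop (𝓝 0) := by
        have := ((tendsto_inv_atTop_zero (𝕜 := ℝ)).const_mul t).neg
        simpa [div_eq_mul_inv] using this
      have a3 := a1.atTop_add a2
      simpa [sub_eq_add_neg] using a3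
    refine ((An_top hN).comp h1).congr' ?_
    filter_upwards [Ioi_mem_atTop (0:ℝ)] with x hx
    rw [hF]
    simp only [Function.comp]
    rw [if_pos (show 0 < x from hx)]
  have hcont : ContinuousWithinAt F (Ici 0) 0 := by
    have h0 : F 0 = -(Real.pi / (4 * N ^ 3)) := by rw [hF]; simp
    have h1 : Tendsto (fun y : ℝ => s * y - t / y) (𝓝[>] 0) atBot := by
      have a1 : Tendsto (fun y : ℝ => s * y) (𝓝[>] 0) (𝓝 0) := by
        have : Continuous (fun y : ℝ => s * y) := by fun_prop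
        have := this.tendsto 0
        rw [mul_zero] at this
        exact this.mono_left nhdsWithin_le_nhds
      have a2 : Tendsto (fun y : ℝ => -(t / y)) (𝓝[>] 0) atBot := by
        have := (tendsto_inv_nhdsGT_zero (𝕜 := ℝ)).const_mul_atTop ht
        have := tendsto_neg_atTop_atBot.comp this
        simpa [div_eq_mul_inv, Function.comp_def] using this
      have := a1.add_atBot a2
      simpa [sub_eq_add_neg] using this
    have h2 : Tendsto F (𝓝[>] 0) (𝓝 (F 0)) := by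
      rw [h0]
      refine ((An_bot hN).comp h1).congr' ?_
      filter_upwards [self_mem_nhdsWithin] with x hx
      rw [hF]
      simp only [Function.comp]
      rw [if_pos (show 0 < x from hx)]
    rw [← Ioi_insert]
    exact continuousWithinAt_insert_self.2 h2
  have hint := integrableOn_Ioi_deriv_of_nonneg hcont hd (fun y _ => by
    have := Wf_pos (s := s) ht hQ y
    positivity) hlim
  refine ⟨hint, ?_⟩
  rw [integral_Ioi_of_hasDerivAt_of_tendsto hcont hd hint hlim]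
  have h0 : F 0 = -(Real.pi / (4 * N ^ 3)) := by rw [hF]; simp
  rw [h0]
  field_simp
  ring

/-- the symmetric substitution `y ↦ t/(s y)` -/
lemma J3s {s t Q : ℝ} (hs : 0 < s) (ht : 0 < t) (hQ : 0 ≤ Q) :
    ∫ y in Ioi (0:ℝ), y ^ 4 / Wf s t Q y ^ 2 = (t / s) * ∫ y in Ioi (0:ℝ), y ^ 2 / Wf s t Q y ^ 2 := by
  have hc : 0 < t / s := by positivity
  have h1 := integral_comp_mul_left_Ioi' (fun y : ℝ => y ^ 4 / Wf s t Q y ^ 2) 0 hc
  rw [mul_zero] at h1
  have h2 := integral_comp_rpow_Ioi (fun y : ℝ => ((t / s) * y) ^ 4 / Wf s t Q ((t / s) * y) ^ 2) (p := -1) (by norm_num)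
  rw [← h1, ← h2, smul_eq_mul]
  congr 1
  refine setIntegral_congr_fun measurableSet_Ioi (fun x hx => ?_)
  have hx0 : (0:ℝ) < x := hx
  simp only [smul_eq_mul]
  have e1 : x ^ ((-1:ℝ) - 1) = (x ^ 2)⁻¹ := by
    have : ((-1:ℝ) - 1) = -((2:ℕ):ℝ) := by norm_num
    rw [this, Real.rpow_neg hx0.le, Real.rpow_natCast]
  have e2 : x ^ (-1:ℝ) = x⁻¹ := by rw [Real.rpow_neg hx0.le, Real.rpow_one]
  rw [e1, e2]
  have e3 : Wf s t Q (t / s * x⁻¹) = t ^ 2 / (s ^ 2 * x ^ 4) * Wf s t Q x := by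
    unfold Wf; field_simp; ring
  rw [e3]
  have hW := Wf_pos (s := s) ht hQ x
  simp only [abs_neg, abs_one, one_mul]
  field_simp

/-- the value of the combined integral -/
lemma J4 {s t Q : ℝ} (hs : 0 < s) (ht : 0 < t) (hQ : 0 ≤ Q) :
    IntegrableOn (fun y : ℝ => y ^ 4 / Wf s t Q y ^ 2 + y ^ 2 / Wf s t Q y ^ 2) (Ioi 0) ∧
    ∫ y in Ioi (0:ℝ), (y ^ 4 / Wf s t Q y ^ 2 + y ^ 2 / Wf s t Q y ^ 2)
      = Real.pi * (s + t) / (4 * s * t * √((s + t) ^ 2 + Q) ^ 3) := by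
  obtain ⟨h1, h2⟩ := J3 hs ht hQ
  have hWm : Measurable (fun y : ℝ => Wf s t Q y) := by unfold Wf; fun_prop
  have hN : 0 < √((s + t) ^ 2 + Q) := Real.sqrt_pos.2 (by positivity)
  have i1 : IntegrableOn (fun y : ℝ => y ^ 4 / Wf s t Q y ^ 2) (Ioi 0) := by
    refine (h1.const_mul (1 / s)).mono' ?_ (Eventually.of_forall (fun y => ?_))
    · exact ((measurable_id.pow_const 4).div (hWm.pow_const 2)).aestronglyMeasurable
    · have hW := Wf_pos (s := s) ht hQ y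
      rw [Real.norm_of_nonneg (by positivity)]
      have e : 1 / s * (s * (y ^ 4 / Wf s t Q y ^ 2) + t * (y ^ 2 / Wf s t Q y ^ 2))
        = y ^ 4 / Wf s t Q y ^ 2 + (t / s) * (y ^ 2 / Wf s t Q y ^ 2) := by field_simp
      rw [e]
      have : 0 ≤ (t / s) * (y ^ 2 / Wf s t Q y ^ 2) := by positivity
      linarith
  have i2 : IntegrableOn (fun y : ℝ => y ^ 2 / Wf s t Q y ^ 2) (Ioi 0) := by
    refine (h1.const_mul (1 / t)).mono' ?_ (Eventually.of_forall (fun y => ?_))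
    · exact ((measurable_id.pow_const 2).div (hWm.pow_const 2)).aestronglyMeasurable
    · have hW := Wf_pos (s := s) ht hQ y
      rw [Real.norm_of_nonneg (by positivity)]
      have e : 1 / t * (s * (y ^ 4 / Wf s t Q y ^ 2) + t * (y ^ 2 / Wf s t Q y ^ 2))
        = (s / t) * (y ^ 4 / Wf s t Q y ^ 2) + y ^ 2 / Wf s t Q y ^ 2 := by field_simp
      rw [e]
      have : 0 ≤ (s / t) * (y ^ 4 / Wf s t Q y ^ 2) := by positivity
      linarith
  refine ⟨i1.add i2, ?_⟩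
  have h3 := J3s hs ht hQ
  rw [integral_add (i1.const_mul s) (i2.const_mul t), integral_const_mul, integral_const_mul] at h2
  rw [integral_add i1 i2, h3]
  rw [h3] at h2
  set I := ∫ y in Ioi (0:ℝ), y ^ 2 / Wf s t Q y ^ 2
  have h4 : I = Real.pi / (4 * t * √((s + t) ^ 2 + Q) ^ 3) := by
    have e : s * (t / s * I) + t * I = 2 * t * I := by field_simp; ring
    rw [e] at h2
    have : I = (2 * t * I) / (2 * t) := by field_simp
    rw [this, h2]
    field_simp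
    ring
  rw [h4]
  field_simp
  ring

/-! ### the planar integral -/

lemma P2 {M : ℝ} (hM : 0 < M) : Integrable (fun p : E2v => 1 / (‖p‖ ^ 2 + M) ^ 3) ∧
    ∫ p : E2v, 1 / (‖p‖ ^ 2 + M) ^ 3 = Real.pi / (2 * M ^ 2) := by
  set F : ℝ → ℝ := fun y => -(1 / (4 * (y ^ 2 + M) ^ 2)) with hF
  have hd : ∀ y : ℝ, HasDerivAt F (y * (1 / (y ^ 2 + M) ^ 3)) y := by
    intro y
    have hpos : 4 * (y ^ 2 + M) ^ 2 ≠ 0 := by positivity
    have h1 : HasDerivAt (fun y : ℝ => 4 * (y ^ 2 + M) ^ 2) (4 * ((2:ℕ) * (y ^ 2 + M) ^ (2-1) * ((2:ℕ) * y ^ (2-1)))) y :=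
      (((hasDerivAt_pow 2 y).add_const M).pow 2).const_mul 4
    have h2 := (h1.inv hpos).neg
    have h3 : F = fun y => -((4 * (y ^ 2 + M) ^ 2)⁻¹) := by rw [hF]; funext y; rw [one_div]
    rw [h3]
    refine h2.congr_deriv ?_
    have : y ^ 2 + M ≠ 0 := by positivity
    push_cast
    field_simp
    ring
  have hlim : Tendsto F atTop (𝓝 0) := by
    have h1 : Tendsto (fun y : ℝ => 4 * (y ^ 2 + M) ^ 2) atTop atTop := by
      have a1 : Tendsto (fun y : ℝ => y ^ 2 + M) atTop atTop :=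
        (tendsto_pow_atTop (by norm_num)).atTop_add tendsto_const_nhds
      exact ((tendsto_pow_atTop (by norm_num)).comp a1).const_mul_atTop (by norm_num)
    have h2 := (tendsto_inv_atTop_zero.comp h1).neg
    rw [neg_zero] at h2
    refine h2.congr (fun y => ?_)
    rw [hF]; simp only [Function.comp]; rw [one_div]
  have hint : IntegrableOn (fun y : ℝ => y * (1 / (y ^ 2 + M) ^ 3)) (Ioi 0) :=
    integrableOn_Ioi_deriv_of_nonneg' (fun y _ => hd y) (fun y hy => by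
      have : (0:ℝ) < y := hy
      positivity) hlim
  have hval : ∫ y in Ioi (0:ℝ), y * (1 / (y ^ 2 + M) ^ 3) = 1 / (4 * M ^ 2) := by
    rw [integral_Ioi_of_hasDerivAt_of_tendsto' (fun y _ => hd y) hint hlim, hF]
    simp
  have hdim : Module.finrank ℝ E2v = 2 := by simp
  constructor
  · have := (integrable_fun_norm_addHaar (volume : Measure E2v) (f := fun r : ℝ => 1 / (r ^ 2 + M) ^ 3)).2 (by
      rw [hdim]
      refine hint.congr_fun (fun y _ => ?_) measurableSet_Ioi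
      simp only [smul_eq_mul]; norm_num)
    exact this
  · have := integral_fun_norm_addHaar (volume : Measure E2v) (fun r : ℝ => 1 / (r ^ 2 + M) ^ 3)
    rw [this, hdim]
    have h1 : (volume : Measure E2v).real (ball 0 1) = Real.pi := by
      rw [Measure.real, EuclideanSpace.volume_ball_fin_two]
      simp [Real.pi_nonneg]
    have e : ∫ y in Ioi (0:ℝ), y ^ (2 - 1) • (1 / (y ^ 2 + M) ^ 3) = 1 / (4 * M ^ 2) := by
      rw [← hval]
      refine setIntegral_congr_fun measurableSet_Ioi (fun y _ => ?_)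
      simp only [smul_eq_mul]; norm_num
    rw [h1, e]
    simp only [nsmul_eq_mul, smul_eq_mul]
    push_cast
    field_simp
    ring

lemma P2' {M : ℝ} (hM : 0 < M) (c : E2v) : Integrable (fun p : E2v => 1 / (‖p - c‖ ^ 2 + M) ^ 3) ∧
    ∫ p : E2v, 1 / (‖p - c‖ ^ 2 + M) ^ 3 = Real.pi / (2 * M ^ 2) := by
  obtain ⟨h1, h2⟩ := P2 hM
  constructor
  · exact h1.comp_sub_right c
  · rw [← h2]
    exact integral_sub_right_eq_self (fun p : E2v => 1 / (‖p‖ ^ 2 + M) ^ 3) c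

lemma complete_sq (a b p : E2v) {s t y : ℝ} :
    y ^ 2 * (s ^ 2 + ‖a - p‖ ^ 2) + (t ^ 2 + ‖p - b‖ ^ 2)
      = (1 + y ^ 2) * (‖p - (1 / (1 + y ^ 2)) • (y ^ 2 • a + b)‖ ^ 2 + Wf s t (‖a - b‖ ^ 2) y / (1 + y ^ 2) ^ 2) := by
  have hp : (1 + y ^ 2) ≠ 0 := by positivity
  have e1 : ‖a - p‖ ^ 2 = ‖a‖ ^ 2 - 2 * ⟪a, p⟫ + ‖p‖ ^ 2 := norm_sub_sq_real a p
  have e2 : ‖p - b‖ ^ 2 = ‖p‖ ^ 2 - 2 * ⟪p, b⟫ + ‖b‖ ^ 2 := norm_sub_sq_real p b
  have e3 : ‖a - b‖ ^ 2 = ‖a‖ ^ 2 - 2 * ⟪a, b⟫ + ‖b‖ ^ 2 := norm_sub_sq_real a b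
  have e4 : ‖p - (1 / (1 + y ^ 2)) • (y ^ 2 • a + b)‖ ^ 2 = ‖p‖ ^ 2 - 2 * ((1 / (1 + y ^ 2)) * (y ^ 2 * ⟪a, p⟫ + ⟪p, b⟫))
      + (1 / (1 + y ^ 2)) ^ 2 * (y ^ 4 * ‖a‖ ^ 2 + 2 * y ^ 2 * ⟪a, b⟫ + ‖b‖ ^ 2) := by
    rw [norm_sub_sq_real, real_inner_smul_right, inner_add_right, real_inner_smul_right, norm_smul, mul_pow,
      norm_add_sq_real, real_inner_smul_left, norm_smul, mul_pow, real_inner_comm a p]
    simp only [Real.norm_eq_abs, sq_abs]
    have : (y ^ 2) ^ 2 = y ^ 4 := by ring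
    rw [this]
    ring
  rw [e1, e2, e4]
  unfold Wf
  rw [e3]
  field_simp
  ring

/-- Poisson composition -/
theorem poisson_comp (a b : E2v) {s t : ℝ} (hs : 0 < s) (ht : 0 < t) :
    Integrable (fun p : E2v => (1 / √(s ^ 2 + ‖a - p‖ ^ 2) ^ 3) * (1 / √(t ^ 2 + ‖p - b‖ ^ 2) ^ 3)) ∧
    ∫ p : E2v, (1 / √(s ^ 2 + ‖a - p‖ ^ 2) ^ 3) * (1 / √(t ^ 2 + ‖p - b‖ ^ 2) ^ 3)
      = 2 * Real.pi * (s + t) / (s * t * √((s + t) ^ 2 + ‖a - b‖ ^ 2) ^ 3) := by
  set f : E2v × ℝ → ℝ := fun q => q.2 ^ 2 / (q.2 ^ 2 * (s ^ 2 + ‖a - q.1‖ ^ 2) + (t ^ 2 + ‖q.1 - b‖ ^ 2)) ^ 3 with hf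
  have hfm : Measurable f := by
    rw [hf]
    have m1 : Measurable (fun q : E2v × ℝ => ‖a - q.1‖) := (measurable_const.sub measurable_fst).norm
    have m2 : Measurable (fun q : E2v × ℝ => ‖q.1 - b‖) := (measurable_fst.sub_const b).norm
    fun_prop
  have hf0 : ∀ q, 0 ≤ f q := fun q => by rw [hf]; positivity
  have hinner : ∀ y : ℝ, Integrable (fun p : E2v => f (p, y)) ∧
      ∫ p : E2v, f (p, y) = (Real.pi / 2) * (y ^ 4 / Wf s t (‖a - b‖ ^ 2) y ^ 2 + y ^ 2 / Wf s t (‖a - b‖ ^ 2) y ^ 2) := by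
    intro y
    have hW := Wf_pos (s := s) ht (sq_nonneg ‖a - b‖) y
    have hM : 0 < Wf s t (‖a - b‖ ^ 2) y / (1 + y ^ 2) ^ 2 := by positivity
    obtain ⟨h1, h2⟩ := P2' hM ((1 / (1 + y ^ 2)) • (y ^ 2 • a + b))
    have e : (fun p : E2v => f (p, y)) = fun p => (y ^ 2 / (1 + y ^ 2) ^ 3) *
        (1 / (‖p - (1 / (1 + y ^ 2)) • (y ^ 2 • a + b)‖ ^ 2 + Wf s t (‖a - b‖ ^ 2) y / (1 + y ^ 2) ^ 2) ^ 3) := by
      funext p
      rw [hf]
      simp only
      rw [complete_sq, mul_pow]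
      have : 0 < ‖p - (1 / (1 + y ^ 2)) • (y ^ 2 • a + b)‖ ^ 2 + Wf s t (‖a - b‖ ^ 2) y / (1 + y ^ 2) ^ 2 := by positivity
      field_simp
    rw [e]
    refine ⟨h1.const_mul _, ?_⟩
    rw [integral_const_mul, h2]
    field_simp
    ring
  obtain ⟨j1, j2⟩ := J4 hs ht (sq_nonneg ‖a - b‖)
  have hfint : Integrable f ((volume : Measure E2v).prod (volume.restrict (Ioi (0:ℝ)))) := by
    rw [integrable_prod_iff' hfm.aestronglyMeasurable]
    refine ⟨Eventually.of_forall (fun y => (hinner y).1), ?_⟩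
    have e : (fun y : ℝ => ∫ p : E2v, ‖f (p, y)‖) = fun y => (Real.pi / 2) *
        (y ^ 4 / Wf s t (‖a - b‖ ^ 2) y ^ 2 + y ^ 2 / Wf s t (‖a - b‖ ^ 2) y ^ 2) := by
      funext y
      rw [← (hinner y).2]
      congr 1
      funext p
      exact Real.norm_of_nonneg (hf0 _)
    rw [e]
    exact j1.const_mul _
  have hrep : ∀ p : E2v, (1 / √(s ^ 2 + ‖a - p‖ ^ 2) ^ 3) * (1 / √(t ^ 2 + ‖p - b‖ ^ 2) ^ 3)
      = (16 / Real.pi) * ∫ y in Ioi (0:ℝ), f (p, y) := by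
    intro p
    have h1 : 0 < √(s ^ 2 + ‖a - p‖ ^ 2) := Real.sqrt_pos.2 (by positivity)
    have h2 : 0 < √(t ^ 2 + ‖p - b‖ ^ 2) := Real.sqrt_pos.2 (by positivity)
    have h3 := (J1 h1 h2).2
    rw [Real.sq_sqrt (by positivity), Real.sq_sqrt (by positivity)] at h3
    have e : ∫ y in Ioi (0:ℝ), f (p, y) = Real.pi / (16 * √(s ^ 2 + ‖a - p‖ ^ 2) ^ 3 * √(t ^ 2 + ‖p - b‖ ^ 2) ^ 3) := by
      rw [← h3]
    rw [e]
    have := Real.pi_pos
    field_simp
  constructor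
  · have := hfint.integral_prod_left.const_mul (16 / Real.pi)
    refine this.congr (Eventually.of_forall (fun p => ?_))
    exact (hrep p).symm
  · have e1 : ∫ p : E2v, (1 / √(s ^ 2 + ‖a - p‖ ^ 2) ^ 3) * (1 / √(t ^ 2 + ‖p - b‖ ^ 2) ^ 3)
        = (16 / Real.pi) * ∫ p : E2v, ∫ y in Ioi (0:ℝ), f (p, y) := by
      rw [← integral_const_mul]
      exact integral_congr_ae (Eventually.of_forall hrep)
    have e2 : ∫ p : E2v, ∫ y in Ioi (0:ℝ), f (p, y) = ∫ y in Ioi (0:ℝ), ∫ p : E2v, f (p, y) :=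
      integral_integral_swap (f := fun p y => f (p, y)) hfint
    rw [e1, e2]
    have e3 : ∫ y in Ioi (0:ℝ), ∫ p : E2v, f (p, y) = ∫ y in Ioi (0:ℝ), (Real.pi / 2) *
        (y ^ 4 / Wf s t (‖a - b‖ ^ 2) y ^ 2 + y ^ 2 / Wf s t (‖a - b‖ ^ 2) y ^ 2) := by
      congr 1
      funext y
      exact (hinner y).2
    rw [e3, integral_const_mul, j2]
    have := Real.pi_pos
    have hN : 0 < √((s + t) ^ 2 + ‖a - b‖ ^ 2) := Real.sqrt_pos.2 (by positivity)
    field_simp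
    ring

end Pool.Agent.H9R2.TF
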