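import Pool.Agent.H9R2.TF.Cls

set_option autoImplicit false
open MeasureTheory Set Filter Topology Metric
open scoped RealInnerProductSpace BigOperators ENNReal
open Pool.Agent.Helper557 Pool.Agent.Helper557.TFP

namespace Pool.Agent.H9R2.TF

/-! ### derivative of the Coulomb kernel along `e0` -/

lemma norm_add_smul_sq (v : E3) (s : ℝ) : ‖v + s • e0‖ ^ 2 = ‖v‖ ^ 2 + 2 * s * v 0 + s ^ 2 := by
  rw [norm_add_sq_real, real_inner_smul_right, real_inner_comm, inner_e0, norm_smul, e0_norm]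
  rw [mul_one, Real.norm_eq_abs, sq_abs]
  ring

lemma inv_norm_deriv {v : E3} (hv : v ≠ 0) : HasDerivAt (fun s : ℝ => 1 / ‖v + s • e0‖) (- g3 v) 0 := by
  have hn : 0 < ‖v‖ := norm_pos_iff.2 hv
  have h1 : HasDerivAt (fun s : ℝ => ‖v‖ ^ 2 + 2 * s * v 0 + s ^ 2) (2 * v 0) 0 := by
    have a1 : HasDerivAt (fun s : ℝ => 2 * s * v 0) (2 * v 0) 0 := by
      have := ((hasDerivAt_id (0:ℝ)).const_mul 2).mul_const (v 0)
      simpa using this
    have a2 : HasDerivAt (fun s : ℝ => s ^ 2) 0 0 := by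
      have := hasDerivAt_pow 2 (0:ℝ)
      simpa using this
    have h := ((hasDerivAt_const (0:ℝ) (‖v‖ ^ 2)).add a1).add a2
    have e : 0 + 2 * v 0 + 0 = 2 * v 0 := by ring
    rw [e] at h
    exact h
  have h0 : (‖v‖ ^ 2 + 2 * (0:ℝ) * v 0 + (0:ℝ) ^ 2) = ‖v‖ ^ 2 := by ring
  have h2 := h1.sqrt (by rw [h0]; positivity)
  rw [h0, Real.sqrt_sq hn.le] at h2
  have e1 : (fun s : ℝ => √(‖v‖ ^ 2 + 2 * s * v 0 + s ^ 2)) = fun s : ℝ => ‖v + s • e0‖ := by
    funext s
    rw [← norm_add_smul_sq, Real.sqrt_sq (norm_nonneg _)]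
  rw [e1] at h2
  have h3 := h2.inv (by simp; exact hv)
  have e2 : (fun s : ℝ => 1 / ‖v + s • e0‖) = (fun s : ℝ => ‖v + s • e0‖)⁻¹ := by
    funext s; simp
  rw [e2]
  have e3 : -(2 * v 0 / (2 * ‖v‖)) / ‖v + (0:ℝ) • e0‖ ^ 2 = - g3 v := by
    rw [zero_smul, add_zero]
    unfold g3
    field_simp
  rw [e3] at h3
  exact h3

lemma inv_sub_le {a b : ℝ} (ha : 0 < a) (hb : 0 < b) {s : ℝ} (h : |a - b| ≤ s) :
    |1 / a - 1 / b| ≤ s * (1 / (2 * a ^ 2) + 1 / (2 * b ^ 2)) := by
  have h1 : 1 / a - 1 / b = (b - a) / (a * b) := by field_simp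
  rw [h1, abs_div, abs_of_pos (mul_pos ha hb), abs_sub_comm]
  have hs : 0 ≤ s := (abs_nonneg _).trans h
  have h2 : 1 / (a * b) ≤ 1 / (2 * a ^ 2) + 1 / (2 * b ^ 2) := by
    have : 0 ≤ (1 / a - 1 / b) ^ 2 := sq_nonneg _
    have e : (1 / a - 1 / b) ^ 2 = 2 * ((1 / (2 * a ^ 2) + 1 / (2 * b ^ 2)) - 1 / (a * b)) := by
      field_simp
      ring
    linarith
  calc |a - b| / (a * b) = |a - b| * (1 / (a * b)) := by ring
    _ ≤ s * (1 / (2 * a ^ 2) + 1 / (2 * b ^ 2)) := mul_le_mul h h2 (by positivity) hs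

lemma norm_add_e0_sub (v : E3) (s : ℝ) : |‖v + s • e0‖ - ‖v‖| ≤ |s| := by
  have h := abs_norm_sub_norm_le (v + s • e0) v
  rw [add_sub_cancel_left, norm_smul, e0_norm, mul_one, Real.norm_eq_abs] at h
  exact h

lemma inv_sq_kap5 {u : E3} (hu : u ≠ 0) {η : ℝ} (h : ‖u‖ ≤ η) (h1 : η < 1) :
    1 / ‖u‖ ^ 2 ≤ √η * kap5 u := by
  have hn : 0 < ‖u‖ := norm_pos_iff.2 hu
  unfold kap5
  rw [if_pos (h.trans_lt h1), rpow52 hn]
  have h2 : √‖u‖ ≤ √η := Real.sqrt_le_sqrt h
  have h3 : 0 < √‖u‖ := Real.sqrt_pos.2 hn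
  have h4 : 1 ≤ √η * (√‖u‖)⁻¹ := by
    rw [← div_eq_mul_inv, one_le_div h3]; exact h2
  calc 1 / ‖u‖ ^ 2 = (‖u‖ ^ 2)⁻¹ * 1 := by rw [one_div, mul_one]
    _ ≤ (‖u‖ ^ 2)⁻¹ * (√η * (√‖u‖)⁻¹) := by gcongr
    _ = _ := by ring

theorem pot_deriv0 {g : E3 → ℝ} (hg : Nice g) (x : E3) (r C : ℝ) (hr : 0 < r)
    (hC : ∀ y, ‖x - y‖ < r → |g y| ≤ C) :
    Integrable (fun y => g y * g3 (x - y)) ∧ HasDerivAt (fun s : ℝ => pot g (x + s • e0)) (dpot g x) 0 := by
  have hgm := hg.1
  have hgi := hg.2.1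
  have hC0 : 0 ≤ C := (abs_nonneg _).trans (hC x (by simpa using hr))
  obtain ⟨B, hB⟩ := nice_bound g hg
  have hFm : Measurable (fun y => g y * g3 (x - y)) :=
    hgm.mul (g3_meas.comp (measurable_const.sub measurable_id))
  -- bound for the kernel
  have bd0 : ∀ η : ℝ, 0 < η → η ≤ r → η < 1 → ∀ y, |g y * g3 (x - y)| ≤ C * √η * kap5 (x - y) + |g y| / η ^ 2 := by
    intro η hη hηr hη1 y
    rw [abs_mul]
    have hg3 := g3_abs (x - y)
    rcases eq_or_ne (x - y) 0 with h0 | h0
    · rw [h0]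
      have : g3 0 = 0 := by simp [g3]
      rw [this, abs_zero, mul_zero]
      have := kap5_nonneg 0
      positivity
    rcases lt_or_ge ‖x - y‖ η with h | h
    · have h1 := inv_sq_kap5 h0 h.le hη1
      have h2 := hC y (h.trans_le hηr)
      calc |g y| * |g3 (x - y)| ≤ C * (√η * kap5 (x - y)) :=
            mul_le_mul h2 (hg3.trans h1) (abs_nonneg _) hC0
        _ ≤ _ := by
            have : 0 ≤ |g y| / η ^ 2 := by positivity
            linarith
    · have h1 : 1 / ‖x - y‖ ^ 2 ≤ 1 / η ^ 2 := by gcongr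
      calc |g y| * |g3 (x - y)| ≤ |g y| * (1 / η ^ 2) := by gcongr; exact hg3.trans h1
        _ = |g y| / η ^ 2 := by ring
        _ ≤ _ := by
            have := mul_nonneg (mul_nonneg hC0 (Real.sqrt_nonneg η)) (kap5_nonneg (x - y))
            linarith
  have hr' : 0 < min r (1/2) := lt_min hr (by norm_num)
  have hInt : Integrable (fun y => g y * g3 (x - y)) := by
    refine (((kap5_shift1 x).1.const_mul (C * √(min r (1/2)))).add (hgi.abs.div_const ((min r (1/2)) ^ 2))).mono'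
      hFm.aestronglyMeasurable (Eventually.of_forall (fun y => ?_))
    rw [Real.norm_eq_abs]
    exact bd0 _ hr' (min_le_left _ _) ((min_le_right _ _).trans_lt (by norm_num)) y
  refine ⟨hInt, ?_⟩
  rw [hasDerivAt_iff_tendsto_slope_zero]
  simp only [zero_add, zero_smul, add_zero, smul_eq_mul]
  set F : ℝ → E3 → ℝ := fun s y => s⁻¹ * (g y / ‖x + s • e0 - y‖ - g y / ‖x - y‖) with hF
  have hslope : ∀ s : ℝ, s⁻¹ * (pot g (x + s • e0) - pot g x) = ∫ y, F s y := by
    intro s
    rw [hF]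
    simp only
    rw [integral_const_mul, integral_sub (hB _).1 (hB _).1]
    rfl
  have hFint : ∀ s, Integrable (F s) := fun s => ((hB _).1.sub (hB _).1).const_mul _
  have hFmeas : ∀ s, Measurable (F s) := by
    intro s
    refine measurable_const.mul ((hgm.div ?_).sub (hgm.div ?_))
    · exact (measurable_const.sub measurable_id).norm
    · exact (measurable_const.sub measurable_id).norm
  have key : ∀ s : ℝ, s ≠ 0 → ∀ y, x - y ≠ 0 → x + s • e0 - y ≠ 0 →
      |F s y| ≤ |g y| * (1 / (2 * ‖x + s • e0 - y‖ ^ 2) + 1 / (2 * ‖x - y‖ ^ 2)) := by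
    intro s hs y h1 h2
    rw [hF]
    simp only
    have e : s⁻¹ * (g y / ‖x + s • e0 - y‖ - g y / ‖x - y‖)
        = g y * (s⁻¹ * (1 / ‖x + s • e0 - y‖ - 1 / ‖x - y‖)) := by ring
    rw [e, abs_mul, abs_mul, abs_inv]
    refine mul_le_mul_of_nonneg_left ?_ (abs_nonneg _)
    have h3 : |‖x + s • e0 - y‖ - ‖x - y‖| ≤ |s| := by
      have := norm_add_e0_sub (x - y) s
      have e : x - y + s • e0 = x + s • e0 - y := by abel
      rwa [e] at this
    have h4 := inv_sub_le (norm_pos_iff.2 h2) (norm_pos_iff.2 h1) h3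
    have hs' : 0 < |s| := abs_pos.2 hs
    calc |s|⁻¹ * |1 / ‖x + s • e0 - y‖ - 1 / ‖x - y‖|
        ≤ |s|⁻¹ * (|s| * (1 / (2 * ‖x + s • e0 - y‖ ^ 2) + 1 / (2 * ‖x - y‖ ^ 2))) := by gcongr
      _ = _ := by field_simp
  have hne : ∀ s : ℝ, ∀ᵐ y : E3, x - y ≠ 0 ∧ x + s • e0 - y ≠ 0 := by
    intro s
    have h1 := (Set.countable_singleton x).ae_notMem (volume : Measure E3)
    have h2 := (Set.countable_singleton (x + s • e0)).ae_notMem (volume : Measure E3)
    filter_upwards [h1, h2] with y a b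
    refine ⟨fun h => a ?_, fun h => b ?_⟩
    · rw [mem_singleton_iff]; exact (sub_eq_zero.1 h).symm
    · rw [mem_singleton_iff]; exact (sub_eq_zero.1 h).symm
  have hpt : ∀ y, x - y ≠ 0 → Tendsto (fun s => F s y) (𝓝[≠] 0) (𝓝 (- (g y * g3 (x - y)))) := by
    intro y hy
    have h1 := (inv_norm_deriv hy).const_mul (g y)
    rw [hasDerivAt_iff_tendsto_slope_zero] at h1
    simp only [zero_add, zero_smul, add_zero, smul_eq_mul] at h1
    have e : - (g y * g3 (x - y)) = g y * - g3 (x - y) := by ring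
    rw [e]
    refine h1.congr (fun s => ?_)
    rw [hF]
    simp only
    have e : x - y + s • e0 = x + s • e0 - y := by abel
    rw [e]
    ring
  unfold dpot
  rw [Metric.tendsto_nhdsWithin_nhds]
  intro ε hε
  -- choice of η
  obtain ⟨η, hη, hηr, hη1, hηε⟩ : ∃ η : ℝ, 0 < η ∧ η ≤ r ∧ η < 1/4 ∧ C * √(2 * η) * I5 < ε / 4 := by
    have ht : Tendsto (fun η : ℝ => C * √(2 * η) * I5) (𝓝[>] 0) (𝓝 0) := by
      have : Continuous (fun η : ℝ => C * √(2 * η) * I5) := by fun_prop
      have h := this.tendsto 0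
      have e : C * √(2 * 0) * I5 = 0 := by simp
      rw [e] at h
      exact h.mono_left nhdsWithin_le_nhds
    have e1 := ht.eventually (gt_mem_nhds (show (0:ℝ) < ε / 4 by linarith))
    have e2 : ∀ᶠ η : ℝ in 𝓝[>] 0, η < min r (1/4) :=
      (gt_mem_nhds (lt_min hr (by norm_num : (0:ℝ) < 1/4))).filter_mono nhdsWithin_le_nhds
    have e3 : ∀ᶠ η : ℝ in 𝓝[>] 0, 0 < η := eventually_mem_nhdsWithin
    obtain ⟨η, h1, h2, h3⟩ := (e1.and (e2.and e3)).exists
    exact ⟨η, h3, (h2.trans_le (min_le_left _ _)).le, h2.trans_le (min_le_right _ _), h1⟩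
  set A : Set E3 := ball x η with hA
  have hAm : MeasurableSet A := measurableSet_ball
  -- far part
  have far : Tendsto (fun s => ∫ y, Aᶜ.indicator (F s) y) (𝓝[≠] 0)
      (𝓝 (∫ y, Aᶜ.indicator (fun y => - (g y * g3 (x - y))) y)) := by
    refine tendsto_integral_filter_of_dominated_convergence (fun y => |g y| * (4 / η ^ 2)) ?_ ?_ ?_ ?_
    · exact Eventually.of_forall (fun s => ((hFmeas s).indicator hAm.compl).aestronglyMeasurable)
    · have hs : ∀ᶠ s : ℝ in 𝓝[≠] 0, |s| < η / 2 := by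
        have : Tendsto (fun s : ℝ => |s|) (𝓝[≠] 0) (𝓝 0) := by
          have h := (continuous_abs (G := ℝ)).tendsto 0
          rw [abs_zero] at h
          exact h.mono_left nhdsWithin_le_nhds
        exact this.eventually (gt_mem_nhds (by linarith))
      have hs0 : ∀ᶠ s : ℝ in 𝓝[≠] 0, s ≠ 0 := eventually_mem_nhdsWithin
      filter_upwards [hs, hs0] with s h1 h2
      filter_upwards [hne s] with y hy
      by_cases hyA : y ∈ Aᶜ
      · rw [indicator_of_mem hyA, Real.norm_eq_abs]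
        refine (key s h2 y hy.1 hy.2).trans ?_
        refine mul_le_mul_of_nonneg_left ?_ (abs_nonneg _)
        have h3 : η ≤ ‖x - y‖ := by
          rw [hA, mem_compl_iff, mem_ball, dist_eq_norm, norm_sub_rev] at hyA
          exact not_lt.1 hyA
        have h4 : η / 2 ≤ ‖x + s • e0 - y‖ := by
          have := norm_add_e0_sub (x - y) s
          have e : x - y + s • e0 = x + s • e0 - y := by abel
          rw [e] at this
          have := (abs_le.1 this).1
          linarith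
        have h5 : 1 / (2 * ‖x + s • e0 - y‖ ^ 2) ≤ 1 / (2 * (η/2) ^ 2) := by gcongr
        have h6 : 1 / (2 * ‖x - y‖ ^ 2) ≤ 1 / (2 * η ^ 2) := by gcongr
        have h7 : 1 / (2 * (η/2) ^ 2) + 1 / (2 * η ^ 2) ≤ 4 / η ^ 2 := by
          have : 1 / (2 * (η/2) ^ 2) + 1 / (2 * η ^ 2) = (5/2) / η ^ 2 := by field_simp; ring
          rw [this]; gcongr; norm_num
        linarith
      · rw [indicator_of_notMem hyA, norm_zero]; positivity
    · exact hgi.abs.mul_const _
    · filter_upwards [hne 0] with y hy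
      by_cases hyA : y ∈ Aᶜ
      · simp only [indicator_of_mem hyA]
        exact hpt y hy.1
      · simp only [indicator_of_notMem hyA]
        exact tendsto_const_nhds
  rw [Metric.tendsto_nhdsWithin_nhds] at far
  obtain ⟨δ, hδ, hfar⟩ := far (ε / 4) (by linarith)
  refine ⟨min δ η, lt_min hδ hη, fun s hs0 hs => ?_⟩
  have hs0' : s ≠ 0 := hs0
  have hsη : |s| < η := by
    rw [dist_zero_right, Real.norm_eq_abs] at hs; exact hs.trans_le (min_le_right _ _)
  have h1 := hfar hs0 (hs.trans_le (min_le_left _ _))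
  rw [hslope s]
  -- split
  have sp1 : ∫ y, F s y = (∫ y, A.indicator (F s) y) + ∫ y, Aᶜ.indicator (F s) y := by
    rw [← integral_add ((hFint s).indicator hAm) ((hFint s).indicator hAm.compl)]
    congr 1
    funext y
    exact (indicator_self_add_compl_apply A (F s) y).symm
  have sp2 : - ∫ y, g y * g3 (x - y) = (∫ y, A.indicator (fun y => - (g y * g3 (x - y))) y)
      + ∫ y, Aᶜ.indicator (fun y => - (g y * g3 (x - y))) y := by
    have hI' : Integrable (fun y => - (g y * g3 (x - y))) := hInt.neg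
    rw [← integral_neg, ← integral_add (hI'.indicator hAm) (hI'.indicator hAm.compl)]
    congr 1
    funext y
    exact (indicator_self_add_compl_apply A (fun y => - (g y * g3 (x - y))) y).symm
  have near1 : |∫ y, A.indicator (F s) y| ≤ C * √(2 * η) * I5 := by
    have hb : ∀ᵐ y : E3, ‖A.indicator (F s) y‖ ≤ C * √(2 * η) / 2 * kap5 (x + s • e0 - y) + C * √(2 * η) / 2 * kap5 (x - y) := by
      filter_upwards [hne s] with y hy
      by_cases hyA : y ∈ A
      · rw [indicator_of_mem hyA, Real.norm_eq_abs]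
        refine (key s hs0' y hy.1 hy.2).trans ?_
        have h3 : ‖x - y‖ < η := by
          rw [hA, mem_ball, dist_eq_norm, norm_sub_rev] at hyA
          exact hyA
        have h4 : ‖x + s • e0 - y‖ ≤ 2 * η := by
          have := norm_add_e0_sub (x - y) s
          have e : x - y + s • e0 = x + s • e0 - y := by abel
          rw [e] at this
          have := (abs_le.1 this).2
          linarith
        have h5 := inv_sq_kap5 hy.2 h4 (by linarith)
        have h6 := inv_sq_kap5 hy.1 (by linarith : ‖x - y‖ ≤ 2 * η) (by linarith)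
        have h7 := hC y (h3.trans_le hηr)
        have h8 : 1 / (2 * ‖x + s • e0 - y‖ ^ 2) + 1 / (2 * ‖x - y‖ ^ 2)
            ≤ √(2 * η) / 2 * kap5 (x + s • e0 - y) + √(2 * η) / 2 * kap5 (x - y) := by
          have e1 : 1 / (2 * ‖x + s • e0 - y‖ ^ 2) = 1/2 * (1 / ‖x + s • e0 - y‖ ^ 2) := by
            rw [one_div_mul_one_div]
          have e2 : 1 / (2 * ‖x - y‖ ^ 2) = 1/2 * (1 / ‖x - y‖ ^ 2) := by
            rw [one_div_mul_one_div]
          rw [e1, e2]
          linarith
        calc |g y| * (1 / (2 * ‖x + s • e0 - y‖ ^ 2) + 1 / (2 * ‖x - y‖ ^ 2))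
            ≤ C * (√(2 * η) / 2 * kap5 (x + s • e0 - y) + √(2 * η) / 2 * kap5 (x - y)) :=
              mul_le_mul h7 h8 (by positivity) hC0
          _ = _ := by ring
      · rw [indicator_of_notMem hyA, norm_zero]
        have := kap5_nonneg (x + s • e0 - y)
        have := kap5_nonneg (x - y)
        positivity
    have hI : Integrable (fun y => C * √(2 * η) / 2 * kap5 (x + s • e0 - y) + C * √(2 * η) / 2 * kap5 (x - y)) :=
      ((kap5_shift1 _).1.const_mul _).add ((kap5_shift1 _).1.const_mul _)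
    have h2 := norm_integral_le_of_norm_le hI hb
    rw [Real.norm_eq_abs, integral_add ((kap5_shift1 _).1.const_mul _) ((kap5_shift1 _).1.const_mul _),
      integral_const_mul, integral_const_mul, (kap5_shift1 _).2, (kap5_shift1 _).2] at h2
    linarith
  have near2 : |∫ y, A.indicator (fun y => - (g y * g3 (x - y))) y| ≤ C * √(2 * η) * I5 := by
    have hb : ∀ᵐ y : E3, ‖A.indicator (fun y => - (g y * g3 (x - y))) y‖ ≤ C * √(2 * η) * kap5 (x - y) := by
      filter_upwards [hne 0] with y hy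
      by_cases hyA : y ∈ A
      · rw [indicator_of_mem hyA, Real.norm_eq_abs, abs_neg, abs_mul]
        have h3 : ‖x - y‖ < η := by
          rw [hA, mem_ball, dist_eq_norm, norm_sub_rev] at hyA
          exact hyA
        have h6 := inv_sq_kap5 hy.1 (by linarith : ‖x - y‖ ≤ 2 * η) (by linarith)
        have h7 := hC y (h3.trans_le hηr)
        calc |g y| * |g3 (x - y)| ≤ C * (√(2 * η) * kap5 (x - y)) :=
              mul_le_mul h7 ((g3_abs _).trans h6) (abs_nonneg _) hC0
          _ = _ := by ring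
      · rw [indicator_of_notMem hyA, norm_zero]
        have := kap5_nonneg (x - y)
        positivity
    have h2 := norm_integral_le_of_norm_le ((kap5_shift1 x).1.const_mul (C * √(2 * η))) hb
    rw [Real.norm_eq_abs, integral_const_mul, (kap5_shift1 _).2] at h2
    exact h2
  rw [Real.dist_eq] at h1 ⊢
  rw [sp1, sp2]
  have t1 := abs_le.1 near1
  have t2 := abs_le.1 near2
  have t3 := abs_lt.1 h1
  rw [abs_lt]
  constructor
  · linarith [t1.1, t2.2, t3.1]
  · linarith [t1.2, t2.1, t3.2]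

/-- derivative of the nuclear potential -/
noncomputable def dVV {k : ℕ} (z : Fin k → ℝ) (R : Fin k → E3) (x : E3) : ℝ := - ∑ j, z j * g3 (x - R j)

lemma VV_deriv0 {k : ℕ} (z : Fin k → ℝ) (R : Fin k → E3) (x : E3) (h : ∀ j, z j ≠ 0 → x ≠ R j) :
    HasDerivAt (fun s : ℝ => VV z R (x + s • e0)) (dVV z R x) 0 := by
  have e : (fun s : ℝ => VV z R (x + s • e0)) = fun s : ℝ => ∑ j, z j * (1 / ‖(x - R j) + s • e0‖) := by
    funext s
    unfold VV
    refine Finset.sum_congr rfl (fun j _ => ?_)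
    have : x + s • e0 - R j = x - R j + s • e0 := by abel
    rw [this]; ring
  have e2 : dVV z R x = ∑ j, z j * (- g3 (x - R j)) := by
    unfold dVV
    rw [← Finset.sum_neg_distrib]
    refine Finset.sum_congr rfl (fun j _ => by ring)
  rw [e, e2]
  refine HasDerivAt.fun_sum (fun j _ => ?_)
  by_cases hz : z j = 0
  · simp [hz]
    exact hasDerivAt_const _ _
  · exact (inv_norm_deriv (sub_ne_zero.2 (h j hz))).const_mul (z j)

lemma shift_deriv {F : E3 → ℝ} {x : E3} {s d : ℝ}
    (h : HasDerivAt (fun t : ℝ => F ((x + s • e0) + t • e0)) d 0) :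
    HasDerivAt (fun t : ℝ => F (x + t • e0)) d s := by
  have h2 := HasDerivAt.comp_sub_const (x := s) (a := s) (f := fun t : ℝ => F ((x + s • e0) + t • e0)) (f' := d)
    (by rw [sub_self]; exact h)
  refine h2.congr_of_eventuallyEq (Eventually.of_forall (fun t => ?_))
  show F (x + t • e0) = F ((x + s • e0) + (t - s) • e0)
  congr 1
  module

end Pool.Agent.H9R2.TF
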