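import Pool.Agent.H9R2.TF.G1

set_option autoImplicit false
open MeasureTheory Set Filter Topology Metric
open scoped RealInnerProductSpace BigOperators ENNReal
open Pool.Agent.Helper557 Pool.Agent.Helper557.TFP

namespace Pool.Agent.H9R2.TF

variable {k : ℕ} {z : Fin k → ℝ} {R : Fin k → E3}

/-- smooth clipping -/
noncomputable def cL (L t : ℝ) : ℝ := L * Real.arctan (t / L)

lemma cL_deriv {L : ℝ} (hL : 0 < L) (t : ℝ) : HasDerivAt (cL L) (1 / (1 + (t / L) ^ 2)) t := by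
  have h1 : HasDerivAt (fun y : ℝ => y / L) (1 / L) t := (hasDerivAt_id t).div_const L
  have h2 := (h1.arctan).const_mul L
  refine h2.congr_deriv ?_
  field_simp

lemma cL_bdd {L : ℝ} (hL : 0 < L) (t : ℝ) : |cL L t| ≤ L * (Real.pi / 2) := by
  unfold cL
  rw [abs_mul, abs_of_pos hL]
  refine mul_le_mul_of_nonneg_left ?_ hL.le
  rw [abs_le]
  exact ⟨(Real.neg_pi_div_two_lt_arctan _).le, (Real.arctan_lt_pi_div_two _).le⟩

lemma cL_lip {L : ℝ} (hL : 0 < L) (s t : ℝ) : |cL L s - cL L t| ≤ |s - t| := by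
  have h := Convex.norm_image_sub_le_of_norm_hasDerivWithin_le (f := cL L) (f' := fun t => 1 / (1 + (t / L) ^ 2))
    (s := univ) (C := 1) (x := t) (y := s) (fun x _ => (cL_deriv hL x).hasDerivWithinAt) (fun x _ => by
      rw [Real.norm_eq_abs, abs_of_nonneg (by positivity), div_le_one (by positivity)]
      nlinarith [sq_nonneg (x / L)]) convex_univ (mem_univ _) (mem_univ _)
  rw [one_mul] at h
  exact h

lemma cL_zero (L : ℝ) : cL L 0 = 0 := by unfold cL; simp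

lemma cL_abs {L : ℝ} (hL : 0 < L) (t : ℝ) : |cL L t| ≤ |t| := by
  have := cL_lip hL t 0
  rwa [cL_zero, sub_zero, sub_zero] at this

lemma cL_cont {L : ℝ} (hL : 0 < L) : Continuous (cL L) :=
  continuous_iff_continuousAt.2 (fun t => (cL_deriv hL t).continuousAt)

lemma cL_lim (t : ℝ) : Tendsto (fun n : ℕ => cL ((n:ℝ) + 1) t) atTop (𝓝 t) := by
  -- arctan has derivative one at zero
  have h1 : HasDerivAt Real.arctan 1 0 := by
    have := Real.hasDerivAt_arctan 0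
    simpa using this
  have h2 : Tendsto (fun n : ℕ => 1 / ((n:ℝ) + 1)) atTop (𝓝 0) := tendsto_one_div_add_atTop_nhds_zero_nat
  have h3 : HasDerivAt (fun s : ℝ => Real.arctan (t * s)) t 0 := by
    have a1 : HasDerivAt (fun s : ℝ => t * s) t 0 := by
      have := (hasDerivAt_id (0:ℝ)).const_mul t
      simpa using this
    have a2 : HasDerivAt Real.arctan 1 (t * 0) := by rw [mul_zero]; exact h1
    exact (a2.comp (0:ℝ) a1).congr_deriv (one_mul t)
  rw [hasDerivAt_iff_tendsto_slope_zero] at h3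
  have h4 : Tendsto (fun n : ℕ => 1 / ((n:ℝ) + 1)) atTop (𝓝[≠] 0) := by
    refine tendsto_nhdsWithin_iff.2 ⟨h2, Eventually.of_forall (fun n => ?_)⟩
    have : (0:ℝ) < 1 / ((n:ℝ) + 1) := by positivity
    exact this.ne'
  have h5 := h3.comp h4
  refine h5.congr (fun n => ?_)
  simp only [Function.comp, zero_add, mul_zero, Real.arctan_zero, sub_zero, smul_eq_mul]
  unfold cL
  have : (0:ℝ) < (n:ℝ) + 1 := by positivity
  rw [one_div, inv_inv, div_eq_mul_inv t]

lemma cL'_lim (t : ℝ) : Tendsto (fun n : ℕ => 1 / (1 + (t / ((n:ℝ) + 1)) ^ 2)) atTop (𝓝 1) := by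
  have h2 : Tendsto (fun n : ℕ => 1 / ((n:ℝ) + 1)) atTop (𝓝 0) := tendsto_one_div_add_atTop_nhds_zero_nat
  have hc : Continuous (fun s : ℝ => 1 / (1 + (t * s) ^ 2)) := by
    refine continuous_const.div (by fun_prop) (fun s => by positivity)
  have h3 := (hc.tendsto 0).comp h2
  simp only [mul_zero] at h3
  have e : (1:ℝ) / (1 + 0 ^ 2) = 1 := by norm_num
  rw [e] at h3
  refine h3.congr (fun n => ?_)
  simp only [Function.comp]
  rw [mul_one_div]

lemma ELs.Bf_eq {Φ : ℝ} {ρ : E3 → ℝ} (h : ELs z R Φ ρ) (x : E3) : Bf (VV z R x - pot ρ x - Φ) = 2/5 * ρ x ^ (5/3 : ℝ) := by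
  have := be_pow53 (VV z R x - pot ρ x - Φ)
  rw [← h.eq x] at this
  linarith

lemma ELs.int53 {Φ : ℝ} {ρ : E3 → ℝ} (h : ELs z R Φ ρ) : Integrable (fun x => ρ x ^ (5/3 : ℝ)) := by
  refine h.nice.2.2.congr (Eventually.of_forall (fun x => ?_))
  simp only
  rw [abs_of_nonneg (h.nonneg x)]

lemma prod_coul {g h : E3 → ℝ} (hg : Nice g) (hh : Nice h) :
    Integrable (fun p : E3 × E3 => g p.1 * h p.2 / ‖p.1 - p.2‖) := by
  have hm : Measurable (fun p : E3 × E3 => g p.1 * h p.2 / ‖p.1 - p.2‖) :=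
    ((hg.1.comp measurable_fst).mul (hh.1.comp measurable_snd)).div ((measurable_fst.sub measurable_snd).norm)
  rw [Measure.volume_eq_prod, integrable_prod_iff hm.aestronglyMeasurable]
  obtain ⟨B, hB⟩ := nice_bound h hh
  have habs : Nice (fun x => |h x|) := by
    refine ⟨hh.1.abs, hh.2.1.abs, ?_⟩
    simpa [abs_abs] using hh.2.2
  constructor
  · refine Filter.Eventually.of_forall (fun x => ?_)
    have := (hB x).1.const_mul (g x)
    refine this.congr (Eventually.of_forall (fun y => ?_))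
    simp only; ring
  · have h3 := TF_E1_int (fun x => |g x|) (fun x => |h x|) hg.2.1.abs habs
    refine h3.congr (Filter.Eventually.of_forall (fun x => ?_))
    show |g x| * pot (fun x => |h x|) x = ∫ y, ‖g x * h y / ‖x - y‖‖
    unfold pot
    rw [← integral_const_mul]
    congr 1
    funext y
    rw [Real.norm_eq_abs, abs_div, abs_mul, abs_of_nonneg (norm_nonneg (x - y)), mul_div_assoc]

/-- the directional Coulomb form -/
noncomputable def Q0 (ρ : E3 → ℝ) : ℝ := ∫ p : E3 × E3, ρ p.1 * ρ p.2 * ((p.1 - p.2) 0 * g3 (p.1 - p.2))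

lemma coord_g3 (v : E3) : |v 0 * g3 v| ≤ 1 / ‖v‖ := by
  unfold g3
  rcases eq_or_ne ‖v‖ 0 with h | h
  · rw [h]; simp
  · have h0 : 0 < ‖v‖ := lt_of_le_of_ne (norm_nonneg _) (Ne.symm h)
    have e : v 0 * (v 0 / ‖v‖ ^ 3) = (v 0) ^ 2 / ‖v‖ ^ 3 := by ring
    rw [e, abs_of_nonneg (by positivity), div_le_div_iff₀ (by positivity) h0]
    have h1 := abs_coord v 0
    have h2 : (v 0) ^ 2 ≤ ‖v‖ ^ 2 := by
      rw [← sq_abs]
      exact pow_le_pow_left₀ (abs_nonneg _) h1 2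
    nlinarith

lemma dpot_clip {ρ : E3 → ℝ} (hρ : Cl ρ) {L : ℝ} (hL : 0 < L) :
    Integrable (fun x => cL L (x 0) * (ρ x * dpot ρ x)) ∧
    ∫ x, cL L (x 0) * (ρ x * dpot ρ x)
      = - (1/2) * ∫ p : E3 × E3, ρ p.1 * ρ p.2 * ((cL L (p.1 0) - cL L (p.2 0)) * g3 (p.1 - p.2)) := by
  have hcm : Measurable (fun x : E3 => cL L (x 0)) := ((cL_cont hL).comp coord_cont).measurable
  have hi := Fo_int hρ hρ
  have hG : Integrable (fun p : E3 × E3 => cL L (p.1 0) * (ρ p.1 * ρ p.2 * g3 (p.1 - p.2))) := by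
    refine (hi.abs.const_mul (L * (Real.pi / 2))).mono' ?_ (Eventually.of_forall (fun p => ?_))
    · exact ((hcm.comp measurable_fst).aestronglyMeasurable).mul hi.aestronglyMeasurable
    · rw [norm_mul, Real.norm_eq_abs, Real.norm_eq_abs]
      exact mul_le_mul_of_nonneg_right (cL_bdd hL _) (abs_nonneg _)
  have e : (fun x => cL L (x 0) * (ρ x * dpot ρ x)) = fun x => - ∫ y, cL L (x 0) * (ρ x * ρ y * g3 (x - y)) := by
    funext x
    unfold dpot
    rw [mul_neg, mul_neg, ← integral_const_mul, ← integral_const_mul]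
    congr 1
    congr 1
    funext y; ring
  rw [e]
  refine ⟨hG.integral_prod_left.neg, ?_⟩
  rw [integral_neg]
  have e2 : ∫ x, ∫ y, cL L (x 0) * (ρ x * ρ y * g3 (x - y)) = ∫ p : E3 × E3, cL L (p.1 0) * (ρ p.1 * ρ p.2 * g3 (p.1 - p.2)) :=
    (integral_prod _ hG).symm
  rw [e2]
  have e3 : ∫ p : E3 × E3, cL L (p.1 0) * (ρ p.1 * ρ p.2 * g3 (p.1 - p.2))
      = ∫ p : E3 × E3, - (cL L (p.2 0) * (ρ p.1 * ρ p.2 * g3 (p.1 - p.2))) := by
    rw [Measure.volume_eq_prod, ← integral_prod_swap]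
    congr 1
    funext p
    simp only [Prod.fst_swap, Prod.snd_swap]
    have : p.2 - p.1 = - (p.1 - p.2) := by abel
    rw [this, g3_neg]; ring
  have hG2 : Integrable (fun p : E3 × E3 => - (cL L (p.2 0) * (ρ p.1 * ρ p.2 * g3 (p.1 - p.2)))) := by
    have h1 : Integrable (fun p : E3 × E3 => cL L (p.2 0) * (ρ p.1 * ρ p.2 * g3 (p.1 - p.2))) := by
      refine (hi.abs.const_mul (L * (Real.pi / 2))).mono' ?_ (Eventually.of_forall (fun p => ?_))
      · exact ((hcm.comp measurable_snd).aestronglyMeasurable).mul hi.aestronglyMeasurable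
      · rw [norm_mul, Real.norm_eq_abs, Real.norm_eq_abs]
        exact mul_le_mul_of_nonneg_right (cL_bdd hL _) (abs_nonneg _)
    exact h1.neg
  have e4 : ∫ p : E3 × E3, ρ p.1 * ρ p.2 * ((cL L (p.1 0) - cL L (p.2 0)) * g3 (p.1 - p.2))
      = (∫ p : E3 × E3, cL L (p.1 0) * (ρ p.1 * ρ p.2 * g3 (p.1 - p.2)))
        + ∫ p : E3 × E3, - (cL L (p.2 0) * (ρ p.1 * ρ p.2 * g3 (p.1 - p.2))) := by
    rw [← integral_add hG hG2]
    congr 1
    funext p; ring
  rw [e4, ← e3]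
  ring

/-- (V₀) -/
theorem V0 (hz : ∀ j, 0 ≤ z j) {Φ₁ Φ₂ : ℝ} {ρ₁ ρ₂ : E3 → ℝ}
    (hΦ₂ : 0 ≤ Φ₂) (hΦ : Φ₂ ≤ Φ₁) (h₁ : ELs z R Φ₁ ρ₁) (h₂ : ELs z R Φ₂ ρ₂) :
    Integrable (fun x => x 0 * ((ρ₂ x - ρ₁ x) * dVV z R x)) ∧
    (2/5 * (∫ x, ρ₂ x ^ (5/3 : ℝ)) - 2/5 * ∫ x, ρ₁ x ^ (5/3 : ℝ))
      + (∫ x, x 0 * ((ρ₂ x - ρ₁ x) * dVV z R x)) + 1/2 * Q0 ρ₂ - 1/2 * Q0 ρ₁ = 0 := by
  have c1 := h₁.cl hz (hΦ₂.trans hΦ)
  have c2 := h₂.cl hz hΦ₂
  have hΦ₁ := hΦ₂.trans hΦ
  have dC := delta_Cs hz hΦ₂ hΦ h₁ h₂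
  have hco : Measurable (fun x : E3 => x 0) := coord_cont.measurable
  have hdm : Measurable (dVV z R) := by
    unfold dVV
    exact (Finset.measurable_sum _ (fun j _ => (g3_meas.comp (measurable_id.sub_const _)).const_mul _)).neg
  have nd : Nice (fun x => ρ₂ x - ρ₁ x) := nice_sub' h₂.nice h₁.nice
  -- integrability with the weight x 0
  have hx0int : Integrable (fun x => x 0 * ((ρ₂ x - ρ₁ x) * dVV z R x)) := by
    have e : (fun x : E3 => x 0 * ((ρ₂ x - ρ₁ x) * dVV z R x))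
        = fun x => ∑ j, (- z j) * ((ρ₂ x - ρ₁ x) * ((x - R j) 0 * g3 (x - R j)) + (R j) 0 * ((ρ₂ x - ρ₁ x) * g3 (x - R j))) := by
      funext x
      unfold dVV
      rw [mul_neg, mul_neg, Finset.mul_sum, Finset.mul_sum, ← Finset.sum_neg_distrib]
      refine Finset.sum_congr rfl (fun j _ => ?_)
      have : (x - R j) 0 = x 0 - (R j) 0 := rfl
      rw [this]; ring
    rw [e]
    refine integrable_finsetSum _ (fun j _ => Integrable.const_mul ?_ _)
    refine Integrable.add ?_ ((dC.g3int (R j)).const_mul _)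
    obtain ⟨B, hB⟩ := nice_bound _ nd
    have hm : Measurable (fun x : E3 => (ρ₂ x - ρ₁ x) * ((x - R j) 0 * g3 (x - R j))) :=
      nd.1.mul ((hco.comp (measurable_id.sub_const _)).mul (g3_meas.comp (measurable_id.sub_const _)))
    refine ((hB (R j)).1.norm).mono' hm.aestronglyMeasurable (Eventually.of_forall (fun x => ?_))
    rw [norm_mul, norm_div, norm_norm]
    have := coord_g3 (x - R j)
    rw [Real.norm_eq_abs (( x - R j) 0 * g3 (x - R j)), norm_sub_rev (R j) x]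
    calc ‖ρ₂ x - ρ₁ x‖ * |(x - R j) 0 * g3 (x - R j)| ≤ ‖ρ₂ x - ρ₁ x‖ * (1 / ‖x - R j‖) :=
          mul_le_mul_of_nonneg_left this (norm_nonneg _)
      _ = _ := by ring
  refine ⟨hx0int, ?_⟩
  have b2 := h₂.int53.const_mul (2/5)
  have b1 := h₁.int53.const_mul (2/5)
  have bd : Integrable (fun x => 2/5 * ρ₂ x ^ (5/3 : ℝ) - 2/5 * ρ₁ x ^ (5/3 : ℝ)) := b2.sub b1
  have i1 := dC.dVVint z R
  -- identity at level L
  have hL : ∀ L : ℝ, 0 < L →
      (∫ x : E3, (1 / (1 + (x 0 / L) ^ 2)) * (2/5 * ρ₂ x ^ (5/3 : ℝ) - 2/5 * ρ₁ x ^ (5/3 : ℝ)))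
      + (∫ x : E3, cL L (x 0) * ((ρ₂ x - ρ₁ x) * dVV z R x))
      + 1/2 * (∫ p : E3 × E3, ρ₂ p.1 * ρ₂ p.2 * ((cL L (p.1 0) - cL L (p.2 0)) * g3 (p.1 - p.2)))
      - 1/2 * (∫ p : E3 × E3, ρ₁ p.1 * ρ₁ p.2 * ((cL L (p.1 0) - cL L (p.2 0)) * g3 (p.1 - p.2))) = 0 := by
    intro L hLp
    have hcm : Measurable (fun x : E3 => cL L (x 0)) := ((cL_cont hLp).comp coord_cont).measurable
    obtain ⟨d2, D2⟩ := dpot_clip c2 hLp
    obtain ⟨d1, D1⟩ := dpot_clip c1 hLp
    have j1 : Integrable (fun x : E3 => (1 / (1 + (x 0 / L) ^ 2)) * (2/5 * ρ₂ x ^ (5/3 : ℝ) - 2/5 * ρ₁ x ^ (5/3 : ℝ))) := by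
      refine bd.norm.mono' ?_ (Eventually.of_forall (fun x => ?_))
      · exact ((measurable_const.div ((measurable_const.add ((hco.div_const L).pow_const 2)))).aestronglyMeasurable).mul bd.aestronglyMeasurable
      · rw [norm_mul]
        have : ‖1 / (1 + (x 0 / L) ^ 2)‖ ≤ 1 := by
          rw [Real.norm_eq_abs, abs_of_nonneg (by positivity), div_le_one (by positivity)]
          nlinarith [sq_nonneg (x 0 / L)]
        exact mul_le_of_le_one_left (norm_nonneg _) this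
    have j2 : Integrable (fun x : E3 => cL L (x 0) * ((ρ₂ x - ρ₁ x) * dVV z R x)) := by
      refine (i1.norm.const_mul (L * (Real.pi / 2))).mono' (hcm.aestronglyMeasurable.mul i1.aestronglyMeasurable)
        (Eventually.of_forall (fun x => ?_))
      rw [norm_mul]
      exact mul_le_mul_of_nonneg_right (cL_bdd hLp _) (norm_nonneg _)
    have hz0 := Lfull (fun x => cL L (x 0) * (Bf (VV z R x - pot ρ₂ x - Φ₂) - Bf (VV z R x - pot ρ₁ x - Φ₁)))
      (fun x => ((1 / (1 + (x 0 / L) ^ 2)) * (2/5 * ρ₂ x ^ (5/3 : ℝ) - 2/5 * ρ₁ x ^ (5/3 : ℝ))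
        + cL L (x 0) * ((ρ₂ x - ρ₁ x) * dVV z R x)) - cL L (x 0) * (ρ₂ x * dpot ρ₂ x) + cL L (x 0) * (ρ₁ x * dpot ρ₁ x))
      (((j1.add j2).sub d2).add d1) (by
      filter_upwards [ae_line R] with p hp
      refine ⟨fun t => ?_, ?_, ?_⟩
      · have hn : ∀ j, ln t p ≠ R j := fun j => hp j t
        have a2 := ln_deriv (F := fun x => VV z R x - pot ρ₂ x - Φ₂) (t := t) (p := p) (uD h₂ hn)
        have a1 := ln_deriv (F := fun x => VV z R x - pot ρ₁ x - Φ₁) (t := t) (p := p) (uD h₁ hn)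
        have A2 := (Bf_deriv _).comp t a2
        have A1 := (Bf_deriv _).comp t a1
        have hc : HasDerivAt (fun t => cL L ((ln t p) 0)) (1 / (1 + (t / L) ^ 2)) t := by
          have := cL_deriv hLp t
          refine this.congr_of_eventuallyEq (Eventually.of_forall (fun s => ?_))
          show cL L ((ln s p) 0) = cL L s
          rw [ln_zero']
        have := hc.mul (A2.sub A1)
        refine this.congr_deriv ?_
        simp only [Function.comp, Pi.sub_apply]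
        rw [h₂.Bf_eq, h₁.Bf_eq, ← h₂.eq, ← h₁.eq, ln_zero']
        ring
      · have l2 := (Bf_cont.tendsto _).comp (lim_u (z := z) (R := R) (Φ := Φ₂) h₂.nice p).1
        have l1 := (Bf_cont.tendsto _).comp (lim_u (z := z) (R := R) (Φ := Φ₁) h₁.nice p).1
        rw [Bf_zero_of (by linarith : -Φ₂ ≤ 0)] at l2
        rw [Bf_zero_of (by linarith : -Φ₁ ≤ 0)] at l1
        have := l2.sub l1
        rw [sub_zero] at this
        refine squeeze_zero_norm (a := fun t => (L * (Real.pi / 2)) * ‖Bf (VV z R (ln t p) - pot ρ₂ (ln t p) - Φ₂) - Bf (VV z R (ln t p) - pot ρ₁ (ln t p) - Φ₁)‖) (fun t => ?_) ?_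
        · rw [norm_mul]
          exact mul_le_mul_of_nonneg_right (cL_bdd hLp _) (norm_nonneg _)
        · have h := this.norm.const_mul (L * (Real.pi / 2))
          rw [norm_zero, mul_zero] at h
          exact h
      · have l2 := (Bf_cont.tendsto _).comp (lim_u (z := z) (R := R) (Φ := Φ₂) h₂.nice p).2
        have l1 := (Bf_cont.tendsto _).comp (lim_u (z := z) (R := R) (Φ := Φ₁) h₁.nice p).2
        rw [Bf_zero_of (by linarith : -Φ₂ ≤ 0)] at l2
        rw [Bf_zero_of (by linarith : -Φ₁ ≤ 0)] at l1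
        have := l2.sub l1
        rw [sub_zero] at this
        refine squeeze_zero_norm (a := fun t => (L * (Real.pi / 2)) * ‖Bf (VV z R (ln t p) - pot ρ₂ (ln t p) - Φ₂) - Bf (VV z R (ln t p) - pot ρ₁ (ln t p) - Φ₁)‖) (fun t => ?_) ?_
        · rw [norm_mul]
          exact mul_le_mul_of_nonneg_right (cL_bdd hLp _) (norm_nonneg _)
        · have h := this.norm.const_mul (L * (Real.pi / 2))
          rw [norm_zero, mul_zero] at h
          exact h)
    have j12 : Integrable (fun x : E3 => (1 / (1 + (x 0 / L) ^ 2)) * (2/5 * ρ₂ x ^ (5/3 : ℝ) - 2/5 * ρ₁ x ^ (5/3 : ℝ))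
        + cL L (x 0) * ((ρ₂ x - ρ₁ x) * dVV z R x)) := j1.add j2
    have j123 : Integrable (fun x : E3 => ((1 / (1 + (x 0 / L) ^ 2)) * (2/5 * ρ₂ x ^ (5/3 : ℝ) - 2/5 * ρ₁ x ^ (5/3 : ℝ))
        + cL L (x 0) * ((ρ₂ x - ρ₁ x) * dVV z R x)) - cL L (x 0) * (ρ₂ x * dpot ρ₂ x)) := j12.sub d2
    rw [integral_add j123 d1, integral_sub j12 d2, integral_add j1 j2, D2, D1] at hz0
    linarith
  -- limit
  have T1 : Tendsto (fun n : ℕ => ∫ x : E3, (1 / (1 + (x 0 / ((n:ℝ) + 1)) ^ 2)) * (2/5 * ρ₂ x ^ (5/3 : ℝ) - 2/5 * ρ₁ x ^ (5/3 : ℝ)))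
      atTop (𝓝 (∫ x, (2/5 * ρ₂ x ^ (5/3 : ℝ) - 2/5 * ρ₁ x ^ (5/3 : ℝ)))) := by
    refine tendsto_integral_of_dominated_convergence _ ?_ bd.norm ?_ ?_
    · intro n
      exact ((measurable_const.div ((measurable_const.add ((hco.div_const _).pow_const 2)))).aestronglyMeasurable).mul bd.aestronglyMeasurable
    · intro n
      refine Eventually.of_forall (fun x => ?_)
      rw [norm_mul]
      have : ‖1 / (1 + (x 0 / ((n:ℝ) + 1)) ^ 2)‖ ≤ 1 := by
        rw [Real.norm_eq_abs, abs_of_nonneg (by positivity), div_le_one (by positivity)]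
        nlinarith [sq_nonneg (x 0 / ((n:ℝ) + 1))]
      exact mul_le_of_le_one_left (norm_nonneg _) this
    · refine Eventually.of_forall (fun x => ?_)
      have := (cL'_lim (x 0)).mul_const (2/5 * ρ₂ x ^ (5/3 : ℝ) - 2/5 * ρ₁ x ^ (5/3 : ℝ))
      rwa [one_mul] at this
  have T2 : Tendsto (fun n : ℕ => ∫ x : E3, cL ((n:ℝ) + 1) (x 0) * ((ρ₂ x - ρ₁ x) * dVV z R x)) atTop
      (𝓝 (∫ x : E3, x 0 * ((ρ₂ x - ρ₁ x) * dVV z R x))) := by
    refine tendsto_integral_of_dominated_convergence _ ?_ hx0int.norm ?_ ?_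
    · intro n
      exact (((cL_cont (by positivity : (0:ℝ) < (n:ℝ) + 1)).comp coord_cont).measurable.aestronglyMeasurable).mul i1.aestronglyMeasurable
    · intro n
      refine Eventually.of_forall (fun x => ?_)
      rw [norm_mul, norm_mul (x 0)]
      exact mul_le_mul_of_nonneg_right (cL_abs (by positivity) _) (norm_nonneg _)
    · refine Eventually.of_forall (fun x => ?_)
      exact (cL_lim (x 0)).mul_const _
  have T3 : ∀ ρ : E3 → ℝ, Cl ρ → Tendsto (fun n : ℕ => ∫ p : E3 × E3, ρ p.1 * ρ p.2 * ((cL ((n:ℝ) + 1) (p.1 0) - cL ((n:ℝ) + 1) (p.2 0)) * g3 (p.1 - p.2)))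
      atTop (𝓝 (Q0 ρ)) := by
    intro ρ hρ
    unfold Q0
    refine tendsto_integral_of_dominated_convergence _ ?_ (prod_coul hρ.1 hρ.1).norm ?_ ?_
    · intro n
      have hc : Measurable (fun x : E3 => cL ((n:ℝ) + 1) (x 0)) :=
        ((cL_cont (by positivity : (0:ℝ) < (n:ℝ) + 1)).comp coord_cont).measurable
      exact (((hρ.meas.comp measurable_fst).mul (hρ.meas.comp measurable_snd)).mul
        (((hc.comp measurable_fst).sub (hc.comp measurable_snd)).mul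
          (g3_meas.comp (measurable_fst.sub measurable_snd)))).aestronglyMeasurable
    · intro n
      refine Eventually.of_forall (fun p => ?_)
      rw [norm_mul, norm_div, norm_norm, Real.norm_eq_abs ((cL ((n:ℝ) + 1) (p.1 0) - cL ((n:ℝ) + 1) (p.2 0)) * g3 (p.1 - p.2))]
      rw [div_eq_mul_one_div]
      refine mul_le_mul_of_nonneg_left ?_ (norm_nonneg _)
      refine le_trans ?_ (coord_g3 (p.1 - p.2))
      rw [abs_mul, abs_mul]
      refine mul_le_mul_of_nonneg_right ?_ (abs_nonneg _)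
      exact cL_lip (by positivity) _ _
    · refine Eventually.of_forall (fun p => ?_)
      have := (((cL_lim (p.1 0)).sub (cL_lim (p.2 0))).mul_const (g3 (p.1 - p.2))).const_mul (ρ p.1 * ρ p.2)
      exact this
  have TT := ((T1.add T2).add ((T3 ρ₂ c2).const_mul (1/2))).sub ((T3 ρ₁ c1).const_mul (1/2))
  have hzero : Tendsto (fun n : ℕ => (0:ℝ)) atTop (𝓝 ((∫ x, (2/5 * ρ₂ x ^ (5/3 : ℝ) - 2/5 * ρ₁ x ^ (5/3 : ℝ)))
      + (∫ x : E3, x 0 * ((ρ₂ x - ρ₁ x) * dVV z R x)) + 1/2 * Q0 ρ₂ - 1/2 * Q0 ρ₁)) := by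
    refine TT.congr (fun n => ?_)
    exact hL ((n:ℝ) + 1) (by positivity)
  have := tendsto_nhds_unique hzero tendsto_const_nhds
  rw [integral_sub b2 b1, integral_const_mul, integral_const_mul] at this
  exact this

end Pool.Agent.H9R2.TF
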